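import Pool.Agent.Lib.MP_98022b_or.Defs

/-!
# Basic closure properties of the class `FEC`
-/

set_option autoImplicit false

namespace Pool.Agent.OR

open Function

/-- Isomorphic groups (constant colimit). -/
theorem FEC.of_equiv {G H : Type} [Group G] [Group H] (e : G ≃* H) (h : FEC G) : FEC H :=
  FEC.colimit (ι := Unit) (fun _ => G) (fun _ _ _ => MonoidHom.id G) (fun _ => e.toMonoidHom)
    (fun _ _ => rfl) (fun _ _ _ _ _ _ => rfl) (fun _ _ _ _ => rfl)
    (fun y => ⟨(), e.symm y, e.apply_symm_apply y⟩)
    (fun i _ hx => ⟨i, le_rfl, (map_eq_one_iff e e.injective).1 hx⟩) (fun _ => h)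

/-- Subgroups. Induction on `FEC H`: subgroups of free groups are free
(`subgroupIsFreeOfIsFree`), restrict the extension to the image in `Q`, restrict the colimit. -/
theorem FEC.of_injective {G H : Type} [Group G] [Group H] (f : G →* H) (hf : Injective f)
    (h : FEC H) : FEC G := by
  induction h generalizing G with
  | free X =>
    have h1 : FEC f.range :=
      FEC.of_equiv (IsFreeGroup.toFreeGroup f.range).symm (FEC.free _)
    exact FEC.of_equiv (MonoidHom.ofInjective hf).symm h1
  | extension p hp _ _ ihQ ihK =>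
    refine FEC.extension (p.comp f).rangeRestrict (p.comp f).rangeRestrict_surjective
      (ihQ (p.comp f).range.subtype Subtype.val_injective) ?_
    refine ihK (((f.comp (p.comp f).rangeRestrict.ker.subtype)).codRestrict p.ker ?_) ?_
    · rintro ⟨x, hx⟩
      rw [MonoidHom.ker_rangeRestrict] at hx
      exact hx
    · rintro ⟨x, hx⟩ ⟨y, hy⟩ hxy
      exact Subtype.ext (hf (congrArg Subtype.val hxy))
  | colimit G' t g h1 h2 h3 h4 h5 _ ih =>
    have key : FEC f.range := by
      refine FEC.colimit (fun i => f.range.comap (g i))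
        (fun i j hij => ((t i j hij).comp (f.range.comap (g i)).subtype).codRestrict
          (f.range.comap (g j)) ?_)
        (fun i => (g i).subgroupComap f.range) ?_ ?_ ?_ ?_ ?_ ?_
      · rintro ⟨x, hx⟩
        change g j (t i j hij x) ∈ f.range
        rw [h3]
        exact hx
      · rintro i ⟨x, hx⟩
        exact Subtype.ext (h1 i x)
      · rintro i j k hij hjk ⟨x, hx⟩
        exact Subtype.ext (h2 i j k hij hjk x)
      · rintro i j hij ⟨x, hx⟩
        exact Subtype.ext (h3 i j hij x)
      · rintro ⟨y, hy⟩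
        obtain ⟨i, x, hx⟩ := h4 y
        exact ⟨i, ⟨x, by rw [Subgroup.mem_comap, hx]; exact hy⟩, Subtype.ext hx⟩
      · rintro i ⟨x, hx⟩ hxe
        obtain ⟨j, hij, hj⟩ := h5 i x (congrArg Subtype.val hxe)
        exact ⟨j, hij, Subtype.ext hj⟩
      · intro i
        exact ih i (f.range.comap (g i)).subtype Subtype.val_injective
    exact FEC.of_equiv (MonoidHom.ofInjective hf).symm key

/-- Extensions with a homomorphism which need not be surjective. -/
theorem FEC.of_hom {G Q : Type} [Group G] [Group Q] (f : G →* Q) (hQ : FEC Q)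
    (hK : FEC f.ker) : FEC G := by
  refine FEC.extension f.rangeRestrict f.rangeRestrict_surjective
    (FEC.of_injective f.range.subtype Subtype.val_injective hQ) ?_
  rw [MonoidHom.ker_rangeRestrict]
  exact hK

/-- Extensions, the kernel is embedded into a group of the class. -/
theorem FEC.of_ker_hom {G Q K : Type} [Group G] [Group Q] [Group K] (f : G →* Q) (hQ : FEC Q)
    (j : f.ker →* K) (hj : Injective j) (hK : FEC K) : FEC G :=
  FEC.of_hom f hQ (FEC.of_injective j hj hK)

theorem FEC.int : FEC (Multiplicative ℤ) :=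
  FEC.of_equiv (FreeGroup.mulEquivIntOfUnique (α := Unit)) (FEC.free Unit)

theorem FEC.of_subsingleton (G : Type) [Group G] [Subsingleton G] : FEC G :=
  FEC.of_injective (1 : G →* FreeGroup Empty) (fun _ _ _ => Subsingleton.elim _ _) (FEC.free Empty)

theorem FEC.prod {G H : Type} [Group G] [Group H] (hG : FEC G) (hH : FEC H) :
    FEC (G × H) := by
  refine FEC.of_ker_hom (MonoidHom.snd G H) hH
    ((MonoidHom.fst G H).comp (MonoidHom.snd G H).ker.subtype) ?_ hG
  rintro ⟨⟨a, b⟩, hb⟩ ⟨⟨a', b'⟩, hb'⟩ h
  have hb1 : b = 1 := hb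
  have hb2 : b' = 1 := hb'
  have ha : a = a' := h
  subst hb1 hb2 ha
  rfl

/-- A group with the universal property of a directed colimit has its element description
(compare with the group `DirectLimit`). -/
theorem colim_elements {ι : Type} [Preorder ι] [IsDirectedOrder ι] [Nonempty ι]
    (G : ι → Type) [∀ i, Group (G i)] (f : ∀ i j, i ≤ j → G i →* G j)
    {L : Type} [Group L] (g : ∀ i, G i →* L)
    (h1 : ∀ i x, f i i le_rfl x = x)
    (h2 : ∀ i j k (hij : i ≤ j) (hjk : j ≤ k) x,
      f j k hjk (f i j hij x) = f i k (hij.trans hjk) x)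
    (h3 : ∀ i j (hij : i ≤ j) x, g j (f i j hij x) = g i x)
    (hext : ∀ (H : Type) [Group H] (a b : L →* H), (∀ i, a.comp (g i) = b.comp (g i)) → a = b)
    (hlift : ∀ (H : Type) [Group H] (k : ∀ i, G i →* H),
      (∀ i j (hij : i ≤ j) x, k j (f i j hij x) = k i x) → ∃ a : L →* H, ∀ i, a.comp (g i) = k i) :
    (∀ y, ∃ i x, g i x = y) ∧ (∀ i x, g i x = 1 → ∃ j, ∃ hij : i ≤ j, f i j hij x = 1) := by
  constructor
  · let R : Subgroup L :=
      { carrier := {y | ∃ i x, g i x = y}
        one_mem' := ⟨Classical.arbitrary ι, 1, map_one _⟩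
        mul_mem' := by
          rintro a b ⟨i, x, rfl⟩ ⟨j, y, rfl⟩
          obtain ⟨k, hik, hjk⟩ := exists_ge_ge i j
          exact ⟨k, f i k hik x * f j k hjk y, by rw [map_mul, h3, h3]⟩
        inv_mem' := by
          rintro a ⟨i, x, rfl⟩
          exact ⟨i, x⁻¹, map_inv _ _⟩ }
    obtain ⟨a, ha⟩ := hlift R (fun i => (g i).codRestrict R (fun x => ⟨i, x, rfl⟩)) (by
      intro i j hij x
      apply Subtype.ext
      exact h3 i j hij x)
    have hid : R.subtype.comp a = MonoidHom.id L := by
      apply hext
      intro i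
      rw [MonoidHom.comp_assoc, ha i]
      ext x
      rfl
    intro y
    have := DFunLike.congr_fun hid y
    have h := (a y).2
    rw [show ((a y : R) : L) = y from this] at h
    exact h
  · haveI : DirectedSystem G (fun i j h => ⇑(f i j h)) :=
      ⟨fun i x => h1 i x, fun k j i hij hjk x => h2 i j k hij hjk x⟩ 
    let c : ∀ i, G i →* DirectLimit G f := fun i =>
      { toFun := fun x => ⟦⟨i, x⟩⟧
        map_one' := (DirectLimit.one_def i).symm
        map_mul' := fun x y => (DirectLimit.mul_def i x y).symm }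
    obtain ⟨a, ha⟩ := hlift (DirectLimit G f) c (fun i j hij x =>
      DirectLimit.mk_apply (f := f) i j x hij)
    intro i x hx
    have h : c i x = 1 := by
      rw [← ha i, MonoidHom.comp_apply, hx, map_one]
    exact (DirectLimit.exists_eq_one (⟨i, x⟩ : Σ i, G i)).1 h

/-- A group with the universal property of a directed colimit of groups of the class. -/
theorem FEC.of_colim {ι : Type} [Preorder ι] [IsDirectedOrder ι] [Nonempty ι]
    (G : ι → Type) [∀ i, Group (G i)] (f : ∀ i j, i ≤ j → G i →* G j)
    {L : Type} [Group L] (g : ∀ i, G i →* L)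
    (h1 : ∀ i x, f i i le_rfl x = x)
    (h2 : ∀ i j k (hij : i ≤ j) (hjk : j ≤ k) x,
      f j k hjk (f i j hij x) = f i k (hij.trans hjk) x)
    (h3 : ∀ i j (hij : i ≤ j) x, g j (f i j hij x) = g i x)
    (hext : ∀ (H : Type) [Group H] (a b : L →* H), (∀ i, a.comp (g i) = b.comp (g i)) → a = b)
    (hlift : ∀ (H : Type) [Group H] (k : ∀ i, G i →* H),
      (∀ i j (hij : i ≤ j) x, k j (f i j hij x) = k i x) → ∃ a : L →* H, ∀ i, a.comp (g i) = k i)
    (h : ∀ i, FEC (G i)) : FEC L :=
  let ⟨h4, h5⟩ := colim_elements G f g h1 h2 h3 hext hlift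
  FEC.colimit G f g h1 h2 h3 h4 h5 h

/-- Homomorphisms out of a directed colimit. -/
theorem colim_desc {ι : Type} [Preorder ι] [IsDirectedOrder ι] [Nonempty ι]
    (G : ι → Type) [∀ i, Group (G i)] (f : ∀ i j, i ≤ j → G i →* G j)
    {L : Type} [Group L] (g : ∀ i, G i →* L)
    (h3 : ∀ i j (hij : i ≤ j) x, g j (f i j hij x) = g i x)
    (h4 : ∀ y, ∃ i x, g i x = y)
    (h5 : ∀ i x, g i x = 1 → ∃ j, ∃ hij : i ≤ j, f i j hij x = 1)
    {H : Type} [Group H] (k : ∀ i, G i →* H)
    (hk : ∀ i j (hij : i ≤ j) x, k j (f i j hij x) = k i x) :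
    ∃ a : L →* H, ∀ i x, a (g i x) = k i x := by
  have wd : ∀ i j (x : G i) (y : G j), g i x = g j y → k i x = k j y := by
    intro i j x y hxy
    obtain ⟨l, hil, hjl⟩ := exists_ge_ge i j
    have h : g l (f i l hil x * (f j l hjl y)⁻¹) = 1 := by
      rw [map_mul, map_inv, h3, h3, hxy, mul_inv_cancel]
    obtain ⟨m, hlm, hm⟩ := h5 l _ h
    have h' := hk l m hlm (f i l hil x * (f j l hjl y)⁻¹)
    rw [hm, map_one, map_mul, map_inv, hk, hk] at h'
    exact (mul_inv_eq_one.1 h'.symm)
  choose p q hpq using h4
  refine ⟨{ toFun := fun y => k (p y) (q y), map_one' := ?_, map_mul' := ?_ }, ?_⟩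
  · have := wd (p 1) (p 1) (q 1) 1 (by rw [hpq, map_one])
    rw [this, map_one]
  · intro x y
    obtain ⟨l, hil, hjl⟩ := exists_ge_ge (p x) (p y)
    have := wd (p (x * y)) l (q (x * y)) (f _ l hil (q x) * f _ l hjl (q y)) (by
      rw [hpq, map_mul, h3, h3, hpq, hpq])
    rw [this, map_mul, hk, hk]
  · intro i x
    exact wd _ _ _ _ (hpq _)

/-- A group is in the class if all its finitely generated subgroups are. -/
theorem FEC.of_locally {G : Type} [Group G]
    (h : ∀ S : Finset G, FEC (Subgroup.closure (S : Set G))) : FEC G := by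
  classical
  exact FEC.colimit (ι := Finset G) (fun S => Subgroup.closure (S : Set G))
    (fun S T hST => Subgroup.inclusion (Subgroup.closure_mono (Finset.coe_subset.2 hST)))
    (fun S => (Subgroup.closure (S : Set G)).subtype)
    (fun S x => rfl) (fun S T U hST hTU x => rfl) (fun S T hST x => rfl)
    (fun y => ⟨{y}, ⟨y, Subgroup.subset_closure (by simp)⟩, rfl⟩)
    (fun S x hx => ⟨S, le_rfl, by
      apply Subtype.ext
      exact hx⟩) h

/-- Finite powers of the infinite cyclic group. -/
theorem FEC.int_pow (n : ℕ) : FEC (Fin n → Multiplicative ℤ) := by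
  induction n with
  | zero => exact FEC.of_subsingleton _
  | succ n ih =>
    let e : (Fin (n + 1) → Multiplicative ℤ) →* Multiplicative ℤ × (Fin n → Multiplicative ℤ) :=
      { toFun := fun x => (x 0, fun i => x i.succ)
        map_one' := rfl
        map_mul' := fun x y => rfl }
    refine FEC.of_injective e ?_ (FEC.prod FEC.int ih)
    intro x y hxy
    have h1 := congrArg Prod.fst hxy
    have h2 := congrArg Prod.snd hxy
    funext i
    refine Fin.cases h1 (fun j => ?_) i
    exact congrFun h2 j

/-- Torsion-free abelian groups (finitely generated ones are free abelian: products of copies of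
the infinite cyclic group). -/
theorem FEC.of_torsionFree_comm (A : Type) [Group A] (hc : ∀ a b : A, a * b = b * a)
    (ht : ∀ (a : A) (n : ℕ), 0 < n → a ^ n = 1 → a = 1) : FEC A := by
  refine FEC.of_locally fun S => ?_
  letI : CommGroup (Subgroup.closure (S : Set A)) :=
    { (inferInstance : Group (Subgroup.closure (S : Set A))) with
      mul_comm := fun a b => Subtype.ext (hc _ _) }
  haveI : Group.FG (Subgroup.closure (S : Set A)) := Group.closure_finset_fg S
  haveI : AddGroup.FG (Additive (Subgroup.closure (S : Set A))) := inferInstance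
  haveI : Module.Finite ℤ (Additive (Subgroup.closure (S : Set A))) :=
    Module.Finite.iff_addGroup_fg.2 inferInstance
  haveI : IsAddTorsionFree (Additive (Subgroup.closure (S : Set A))) := by
    constructor
    intro n hn a b hab
    have h' : ((a.toMul * (b.toMul)⁻¹ : Subgroup.closure (S : Set A)) : A) ^ n = 1 := by
      have h1 : a.toMul ^ n = b.toMul ^ n := hab
      have h2 : (a.toMul * (b.toMul)⁻¹) ^ n = 1 := by
        rw [mul_pow, h1, inv_pow, mul_inv_cancel]
      exact congrArg Subtype.val h2
    have h3 := ht _ n (Nat.pos_of_ne_zero hn) h'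
    have h4 : (a.toMul * (b.toMul)⁻¹ : Subgroup.closure (S : Set A)) = 1 := Subtype.ext h3
    have h5 : a.toMul = b.toMul := mul_inv_eq_one.1 h4
    exact h5
  haveI : Module.Free ℤ (Additive (Subgroup.closure (S : Set A))) := inferInstance
  let b := Module.finBasis ℤ (Additive (Subgroup.closure (S : Set A)))
  let e := b.equivFun
  let φ : Subgroup.closure (S : Set A) →*
      (Fin (Module.finrank ℤ (Additive (Subgroup.closure (S : Set A)))) → Multiplicative ℤ) :=
    { toFun := fun x i => Multiplicative.ofAdd (e (Additive.ofMul x) i)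
      map_one' := by
        funext i
        change Multiplicative.ofAdd (e (Additive.ofMul 1) i) = 1
        rw [ofMul_one, map_zero]
        rfl
      map_mul' := fun x y => by
        funext i
        change Multiplicative.ofAdd (e (Additive.ofMul (x * y)) i) = _
        rw [ofMul_mul, map_add]
        rfl }
  refine FEC.of_injective φ ?_ (FEC.int_pow _)
  intro x y hxy
  have : e (Additive.ofMul x) = e (Additive.ofMul y) := by
    funext i
    exact congrFun hxy i
  exact e.injective this

theorem FEC.rat : FEC (Multiplicative ℚ) := by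
  refine FEC.of_torsionFree_comm _ (fun a b => mul_comm a b) ?_
  intro a n hn h
  have h' : n • a.toAdd = 0 := h
  rcases smul_eq_zero.1 h' with h0 | h0
  · omega
  · exact h0

end Pool.Agent.OR
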