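import Pool.Agent.Lib.MP_98022b_or.Basic

/-!
# The wreath product trick
-/

set_option autoImplicit false

namespace Pool.Agent.OR

open Function

/-- The group of pairs (function `Q → U`, element of `Q`) with the product
`(c, g)(c', g') = (q ↦ c (g' q) c' q, g g')`. -/
@[ext]
structure Wr (U Q : Type) where
  /-- the coordinates -/
  c : Q → U
  /-- the element of `Q` -/
  g : Q

namespace Wr

variable {U V Q : Type} [Group U] [Group V] [Group Q]

instance : Mul (Wr U Q) := ⟨fun a b => ⟨fun q => a.c (b.g * q) * b.c q, a.g * b.g⟩⟩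
instance : One (Wr U Q) := ⟨⟨fun _ => 1, 1⟩⟩
instance : Inv (Wr U Q) := ⟨fun a => ⟨fun q => (a.c (a.g⁻¹ * q))⁻¹, a.g⁻¹⟩⟩

@[simp] theorem mul_c (a b : Wr U Q) (q : Q) : (a * b).c q = a.c (b.g * q) * b.c q := rfl
@[simp] theorem mul_g (a b : Wr U Q) : (a * b).g = a.g * b.g := rfl
@[simp] theorem one_c (q : Q) : (1 : Wr U Q).c q = 1 := rfl
@[simp] theorem one_g : (1 : Wr U Q).g = 1 := rfl
@[simp] theorem inv_c (a : Wr U Q) (q : Q) : (a⁻¹).c q = (a.c (a.g⁻¹ * q))⁻¹ := rfl
@[simp] theorem inv_g (a : Wr U Q) : (a⁻¹).g = (a.g)⁻¹ := rfl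

instance : Group (Wr U Q) where
  mul_assoc a b c := by
    ext q
    · simp [mul_assoc]
    · simp [mul_assoc]
  one_mul a := by ext q <;> simp
  mul_one a := by ext q <;> simp
  inv_mul_cancel a := by ext q <;> simp

/-- The projection to `Q`. -/
def proj : Wr U Q →* Q where
  toFun := Wr.g
  map_one' := rfl
  map_mul' _ _ := rfl

@[simp] theorem proj_apply (a : Wr U Q) : proj a = a.g := rfl

/-- Functoriality. -/
def map (f : U →* V) : Wr U Q →* Wr V Q where
  toFun a := ⟨fun q => f (a.c q), a.g⟩
  map_one' := by ext q <;> simp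
  map_mul' a b := by ext q <;> simp

@[simp] theorem map_c (f : U →* V) (a : Wr U Q) (q : Q) : (map f a).c q = f (a.c q) := rfl
@[simp] theorem map_g (f : U →* V) (a : Wr U Q) : (map f a).g = a.g := rfl

/-- The diagonal homomorphism for a homomorphism `f : G → Q`: `g ↦ (q ↦ s(f(g) q)⁻¹ g s(q), f g)`
for any function `s : Q → G`. -/
def diag {G : Type} [Group G] (f : G →* Q) (s : Q → G) : G →* Wr G Q where
  toFun g := ⟨fun q => (s (f g * q))⁻¹ * g * s q, f g⟩
  map_one' := by ext q <;> simp
  map_mul' a b := by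
    ext q
    · simp [mul_assoc]
    · simp

@[simp] theorem diag_c {G : Type} [Group G] (f : G →* Q) (s : Q → G) (g : G) (q : Q) :
    (diag f s g).c q = (s (f g * q))⁻¹ * g * s q := rfl
@[simp] theorem diag_g {G : Type} [Group G] (f : G →* Q) (s : Q → G) (g : G) :
    (diag f s g).g = f g := rfl

end Wr

/-- The wreath product trick: if `F : G → Wr U Q` and `π : U → G` satisfy
`π (c(g, q)) = s(f(g) q)⁻¹ g s(q)`, then `k ↦ c(k, 1)` embeds the kernel of `G → Q` into `U`. -/
theorem FEC.of_wr {G Q U : Type} [Group G] [Group Q] [Group U] (F : G →* Wr U Q) (π : U →* G)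
    (s : Q → G) (h : ∀ g q, π ((F g).c q) = (s ((F g).g * q))⁻¹ * g * s q) (hQ : FEC Q)
    (hU : FEC U) : FEC G := by
  have hker : ∀ k : (Wr.proj.comp F).ker, (F k.1).g = 1 := fun k => k.2
  let j : (Wr.proj.comp F).ker →* U :=
    { toFun := fun k => (F k.1).c 1
      map_one' := by
        change (F 1).c 1 = 1
        rw [F.map_one, Wr.one_c]
      map_mul' := by
        intro a b
        change (F (a.1 * b.1)).c 1 = (F a.1).c 1 * (F b.1).c 1
        rw [F.map_mul, Wr.mul_c, hker b, mul_one] }
  refine FEC.of_ker_hom (Wr.proj.comp F) hQ j ?_ hU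
  rw [injective_iff_map_eq_one]
  intro k hk
  have h1 := h k.1 1
  have h2 : (F k.1).c 1 = 1 := hk
  rw [h2, map_one, hker k, mul_one] at h1
  have h3 : (k : G) = 1 := by
    have h4 : s 1 * 1 * (s 1)⁻¹ = s 1 * ((s 1)⁻¹ * k.1 * s 1) * (s 1)⁻¹ := by rw [← h1]
    have h5 : s 1 * ((s 1)⁻¹ * k.1 * s 1) * (s 1)⁻¹ = k.1 := by group
    rw [h5, mul_one, mul_inv_cancel] at h4
    exact h4.symm
  exact Subtype.ext h3

/-- Free products of two groups of the class. (`Q = A × B`, `U` the free group on `Bool × Q`,
`a ↦ (q ↦ x_{aq} x_q⁻¹, (a, 1))`, `b ↦ (q ↦ z_{bq} z_q⁻¹, (1, b))`, `π x_q = q.1`, `π z_q = q.2`,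
`s = 1`.) -/
theorem FEC.coprod {A B : Type} [Group A] [Group B] (hA : FEC A) (hB : FEC B) :
    FEC (Monoid.Coprod A B) := by
  let fA : A →* Wr (FreeGroup (Bool × (A × B))) (A × B) :=
    { toFun := fun a => ⟨fun q => FreeGroup.of (true, (a, 1) * q) * (FreeGroup.of (true, q))⁻¹,
        (a, 1)⟩
      map_one' := by
        ext q
        · change FreeGroup.of (true, (1 : A × B) * q) * (FreeGroup.of (true, q))⁻¹ = 1
          rw [one_mul, mul_inv_cancel]
        · rfl
        · rfl
      map_mul' := by
        intro a b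
        ext q
        · have e : ((a * b, 1) : A × B) * q = (a, 1) * ((b, 1) * q) := by
            rw [← mul_assoc]
            congr 1
            ext
            · rfl
            · exact (one_mul _).symm
          change FreeGroup.of (true, ((a * b, 1) : A × B) * q) * (FreeGroup.of (true, q))⁻¹
            = (FreeGroup.of (true, (a, 1) * ((b, 1) * q)) * (FreeGroup.of (true, (b, 1) * q))⁻¹)
              * (FreeGroup.of (true, (b, 1) * q) * (FreeGroup.of (true, q))⁻¹)
          rw [e]
          group
        · rfl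
        · exact (one_mul _).symm }
  let fB : B →* Wr (FreeGroup (Bool × (A × B))) (A × B) :=
    { toFun := fun a => ⟨fun q => FreeGroup.of (false, (1, a) * q) * (FreeGroup.of (false, q))⁻¹,
        (1, a)⟩
      map_one' := by
        ext q
        · change FreeGroup.of (false, (1 : A × B) * q) * (FreeGroup.of (false, q))⁻¹ = 1
          rw [one_mul, mul_inv_cancel]
        · rfl
        · rfl
      map_mul' := by
        intro a b
        ext q
        · have e : ((1, a * b) : A × B) * q = (1, a) * ((1, b) * q) := by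
            rw [← mul_assoc]
            congr 1
            ext
            · exact (one_mul _).symm
            · rfl
          change FreeGroup.of (false, ((1, a * b) : A × B) * q) * (FreeGroup.of (false, q))⁻¹
            = (FreeGroup.of (false, (1, a) * ((1, b) * q)) * (FreeGroup.of (false, (1, b) * q))⁻¹)
              * (FreeGroup.of (false, (1, b) * q) * (FreeGroup.of (false, q))⁻¹)
          rw [e]
          group
        · exact (one_mul _).symm
        · rfl }
  let F : Monoid.Coprod A B →* Wr (FreeGroup (Bool × (A × B))) (A × B) :=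
    Monoid.Coprod.lift fA fB
  let π : FreeGroup (Bool × (A × B)) →* Monoid.Coprod A B :=
    FreeGroup.lift fun p => if p.1 then Monoid.Coprod.inl p.2.1 else Monoid.Coprod.inr p.2.2
  have key : (Wr.map π).comp F = Wr.diag (Wr.proj.comp F) fun _ => 1 := by
    apply Monoid.Coprod.hom_ext
    · ext a q
      · change π ((F (Monoid.Coprod.inl a)).c q) = _
        have e : F (Monoid.Coprod.inl a) = fA a := Monoid.Coprod.lift_apply_inl _ _ _
        rw [e]
        change π (FreeGroup.of (true, (a, 1) * q) * (FreeGroup.of (true, q))⁻¹)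
          = 1⁻¹ * Monoid.Coprod.inl a * 1
        simp [π]
      · rfl
      · rfl
    · ext a q
      · change π ((F (Monoid.Coprod.inr a)).c q) = _
        have e : F (Monoid.Coprod.inr a) = fB a := Monoid.Coprod.lift_apply_inr _ _ _
        rw [e]
        change π (FreeGroup.of (false, (1, a) * q) * (FreeGroup.of (false, q))⁻¹)
          = 1⁻¹ * Monoid.Coprod.inr a * 1
        simp [π]
      · rfl
      · rfl
  refine FEC.of_wr F π (fun _ => 1) ?_ (FEC.prod hA hB) (FEC.free _)
  intro g q
  have h := DFunLike.congr_fun key g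
  have h1 := congrArg (fun w => Wr.c w q) h
  exact h1

/-- Free products of copies of one group of the class. (`Q = M`, `U` the free group on `Ω × M`,
`m_o ↦ (q ↦ z_{o,mq} z_{o,q}⁻¹, m)`, `π z_{o,q} = q_o`, `s = 1`.) -/
theorem FEC.coprodI {M : Type} [Group M] (Ω : Type) (hM : FEC M) :
    FEC (Monoid.CoprodI (fun _ : Ω => M)) := by
  classical
  let fM : ∀ o : Ω, M →* Wr (FreeGroup (Ω × M)) M := fun o =>
    { toFun := fun m => ⟨fun q => FreeGroup.of (o, m * q) * (FreeGroup.of (o, q))⁻¹, m⟩
      map_one' := by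
        ext q
        · change FreeGroup.of (o, 1 * q) * (FreeGroup.of (o, q))⁻¹ = 1
          rw [one_mul, mul_inv_cancel]
        · rfl
      map_mul' := by
        intro a b
        ext q
        · change FreeGroup.of (o, a * b * q) * (FreeGroup.of (o, q))⁻¹
            = (FreeGroup.of (o, a * (b * q)) * (FreeGroup.of (o, b * q))⁻¹)
              * (FreeGroup.of (o, b * q) * (FreeGroup.of (o, q))⁻¹)
          rw [mul_assoc a b q]
          group
        · rfl }
  let F : Monoid.CoprodI (fun _ : Ω => M) →* Wr (FreeGroup (Ω × M)) M := Monoid.CoprodI.lift fM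
  let π : FreeGroup (Ω × M) →* Monoid.CoprodI (fun _ : Ω => M) :=
    FreeGroup.lift fun p => Monoid.CoprodI.of (M := fun _ : Ω => M) (i := p.1) p.2
  have key : (Wr.map π).comp F = Wr.diag (Wr.proj.comp F) fun _ => 1 := by
    apply Monoid.CoprodI.ext_hom
    intro o
    ext a q
    · change π ((F (Monoid.CoprodI.of (M := fun _ : Ω => M) (i := o) a)).c q) = _
      have e : F (Monoid.CoprodI.of (M := fun _ : Ω => M) (i := o) a) = fM o a :=
        Monoid.CoprodI.lift_of _ _
      rw [e]
      change π (FreeGroup.of (o, a * q) * (FreeGroup.of (o, q))⁻¹)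
        = 1⁻¹ * Monoid.CoprodI.of (M := fun _ : Ω => M) (i := o) a * 1
      simp [π]
    · rfl
  refine FEC.of_wr F π (fun _ => 1) ?_ hM (FEC.free _)
  intro g q
  have h := DFunLike.congr_fun key g
  have h1 := congrArg (fun w => Wr.c w q) h
  exact h1

end Pool.Agent.OR
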