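import Pool.Agent.Lib.MP_98022b_or.Merge
import Pool.Agent.Lib.MP_98022b_or.Wr

/-!
# The collapse theorem
-/

set_option autoImplicit false

namespace Pool.Agent.OR

open Function

section

variable {B Λ T : Type} [Group B]

/-- The normal subgroup generated by the words `r t`, `t ∈ s`. -/
def relN (r : T → List (B × Λ × Bool)) (s : Set T) : Subgroup (Phi B Λ) :=
  Subgroup.normalClosure ((fun t => Phi.val (r t)) '' s)

instance (r : T → List (B × Λ × Bool)) (s : Set T) : (relN r s).Normal :=
  Subgroup.normalClosure_normal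

theorem mk_relN_val (r : T → List (B × Λ × Bool)) (s : Set T) {t : T} (ht : t ∈ s) :
    QuotientGroup.mk' (relN r s) (Phi.val (r t)) = 1 := by
  rw [QuotientGroup.mk'_apply, QuotientGroup.eq_one_iff]
  exact Subgroup.subset_normalClosure ⟨t, ht, rfl⟩

/-- Homomorphisms out of the quotient by the relators. -/
theorem exists_relN_lift (r : T → List (B × Λ × Bool)) (s : Set T) {H : Type} [Group H]
    (φ : Phi B Λ →* H) (h : ∀ t ∈ s, φ (Phi.val (r t)) = 1) :
    ∃ f : Phi B Λ ⧸ relN r s →* H, ∀ u, f (QuotientGroup.mk' (relN r s) u) = φ u := by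
  refine ⟨QuotientGroup.lift (relN r s) φ ?_, fun u => rfl⟩
  intro u hu
  have h1 : relN r s ≤ φ.ker := by
    apply Subgroup.normalClosure_le_normal
    rintro _ ⟨t, ht, rfl⟩
    exact h t ht
  exact h1 hu

omit [Group B] in
theorem mev_rotate_iff {G : Type} [Group G] (φ : B → G) (z : Λ → G) (V W : List (B × Λ × Bool)) :
    mev φ z (V ++ W) = 1 ↔ mev φ z (W ++ V) = 1 := by
  rw [mev_append, mev_append, mul_eq_one_iff_inv_eq, mul_eq_one_iff_eq_inv, eq_comm]

/-- One step: add the relator `r s` with the private letter `y`. -/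
theorem collapse_step (n : ℕ) (hM : ∀ m < n, MM m)
    (r : T → List (B × Λ × Bool)) (hgood : ∀ t, Good (flat (r t)))
    (hlen : ∀ t, (r t).length < n ∨
      ((r t).length = n ∧ ∃ l ∈ letters (r t), ∃ l' ∈ letters (r t), l ≠ l'))
    (A : Set T) (s : T) (y : Λ) (hy : y ∈ letters (r s))
    (hyA : ∀ t ∈ A, y ∉ letters (r t))
    (hA : FEC (Phi B Λ ⧸ relN r A))
    (hs : supp B (letters (r s)) ⊓ relN r A = ⊥) :
    FEC (Phi B Λ ⧸ relN r (insert s A)) ∧
      ∀ E : Set Λ, y ∉ E → supp B E ⊓ relN r A = ⊥ → supp B E ⊓ relN r (insert s A) = ⊥ := by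
  classical
  -- killing the letter `y`
  let K : Subgroup (Phi B Λ) :=
    Subgroup.normalClosure ((fun t => Phi.val (r t)) '' A ∪ {Phi.let B y})
  have hKn : K.Normal := Subgroup.normalClosure_normal
  let κ : Phi B Λ →* Phi B Λ :=
    Phi.lift (Phi.inl B Λ) (fun l => if l = y then 1 else Phi.let B l)
  have hκinl : ∀ b, κ (Phi.inl B Λ b) = Phi.inl B Λ b := fun b => by simp [κ]
  have hκy : κ (Phi.let B y) = 1 := by simp [κ]
  have hκl : ∀ l, l ≠ y → κ (Phi.let B l) = Phi.let B l := fun l hl => by simp [κ, hl]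
  have hκE : ∀ E : Set Λ, y ∉ E → ∀ u ∈ supp B E, κ u = u := by
    intro E hE u hu
    refine eq_on_supp κ (MonoidHom.id _) E hκinl (fun l hl => ?_) hu
    exact hκl l fun h => hE (h ▸ hl)
  have hκval : ∀ W : List (B × Λ × Bool), y ∉ letters W → κ (Phi.val W) = Phi.val W :=
    fun W hW => hκE _ hW _ (val_mem_supp W le_rfl)
  let mkK := QuotientGroup.mk' K
  let mkN := QuotientGroup.mk' (relN r A)
  have hyK : mkK (Phi.let B y) = 1 := by
    show ((Phi.let B y : Phi B Λ) : Phi B Λ ⧸ K) = 1
    rw [QuotientGroup.eq_one_iff]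
    exact Subgroup.subset_normalClosure (Or.inr rfl)
  have hrK : ∀ t ∈ A, mkK (Phi.val (r t)) = 1 := by
    intro t ht
    show ((Phi.val (r t) : Phi B Λ) : Phi B Λ ⧸ K) = 1
    rw [QuotientGroup.eq_one_iff]
    exact Subgroup.subset_normalClosure (Or.inl ⟨t, ht, rfl⟩)
  -- homomorphisms out of `Γ`
  have hΓlift : ∀ (H : Type) [Group H] (φ : Phi B Λ →* H), (∀ t ∈ A, φ (Phi.val (r t)) = 1) →
      ∃ f : Phi B Λ ⧸ K →* H, ∀ u, f (mkK u) = φ (κ u) := by
    intro H _ φ h
    refine ⟨QuotientGroup.lift K (φ.comp κ) ?_, fun u => rfl⟩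
    intro u hu
    have h1 : K ≤ (φ.comp κ).ker := by
      apply Subgroup.normalClosure_le_normal
      rintro v (⟨t, ht, rfl⟩ | hv)
      · show φ (κ (Phi.val (r t))) = 1
        rw [hκval _ (hyA t ht)]
        exact h t ht
      · rw [Set.mem_singleton_iff] at hv
        show φ (κ v) = 1
        rw [hv, hκy, map_one]
    exact h1 hu
  obtain ⟨κb, hκb⟩ := hΓlift _ mkN (fun t ht => mk_relN_val r A ht)
  -- `Γ` embeds into `Φ/N`
  have hκbinj : Injective κb := by
    obtain ⟨pr, hpr⟩ := exists_relN_lift r A mkK hrK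
    have h1 : ∀ u, pr (κb (mkK u)) = mkK u := by
      intro u
      have h2 : (mkK.comp κ) = mkK := by
        apply Phi.hom_ext
        · intro b
          rw [MonoidHom.comp_apply, hκinl]
        · intro l
          rw [MonoidHom.comp_apply]
          by_cases hl : l = y
          · rw [hl, hκy, hyK, map_one]
          · rw [hκl l hl]
      rw [hκb, hpr]
      exact DFunLike.congr_fun h2 u
    intro a b hab
    obtain ⟨u, rfl⟩ := QuotientGroup.mk'_surjective K a
    obtain ⟨v, rfl⟩ := QuotientGroup.mk'_surjective K b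
    have := congrArg pr hab
    rwa [h1, h1] at this
  have hΓ : FEC (Phi B Λ ⧸ K) := FEC.of_injective κb hκbinj hA
  have hKN : ∀ E : Set Λ, y ∉ E → ∀ u ∈ supp B E, mkK u = 1 → u ∈ relN r A := by
    intro E hE u hu h
    have h1 := hκb u
    rw [h, map_one, hκE E hE u hu] at h1
    exact (QuotientGroup.eq_one_iff u).1 h1.symm
  -- the canonical homomorphism
  let γ : B →* Phi B Λ ⧸ K := mkK.comp (Phi.inl B Λ)
  let x : Λ → Phi B Λ ⧸ K := fun l => mkK (Phi.let B l)
  have hlift : Phi.lift γ x = mkK := by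
    apply Phi.hom_ext
    · intro b; simp [γ]
    · intro l; simp [x]
  -- rotate
  obtain ⟨p, hp, hpy⟩ := hy
  obtain ⟨b, l, e⟩ := p
  simp only at hpy
  subst hpy
  obtain ⟨l₁, l₂, hrs⟩ := List.append_of_mem hp
  have hrs' : r s = (l₁ ++ [(b, l, e)]) ++ l₂ := by rw [hrs]; simp
  let W : List (B × Λ × Bool) := l₂ ++ (l₁ ++ [(b, l, e)])
  have hWlen : W.length = (r s).length := by
    rw [hrs']
    simp only [W, List.length_append]
    omega
  have hWlet : letters W = letters (r s) := by
    ext l'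
    constructor
    · rintro ⟨q, hq, rfl⟩
      refine ⟨q, ?_, rfl⟩
      rw [hrs']
      rcases List.mem_append.1 hq with h | h
      · exact List.mem_append_right _ h
      · exact List.mem_append_left _ h
    · rintro ⟨q, hq, rfl⟩
      refine ⟨q, ?_, rfl⟩
      rw [hrs'] at hq
      rcases List.mem_append.1 hq with h | h
      · exact List.mem_append_right _ h
      · exact List.mem_append_left _ h
  have hWgood : Good (flat W) := by
    have h1 := hgood s
    rw [hrs', flat_append] at h1
    have h2 := h1.rotate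
    rwa [← flat_append] at h2
  have hWval : ∀ (H : Type) [Group H] (φ : B → H) (z : Λ → H),
      mev φ z W = 1 ↔ mev φ z (r s) = 1 := by
    intro H _ φ z
    rw [hrs']
    exact mev_rotate_iff φ z l₂ (l₁ ++ [(b, l, e)])
  obtain ⟨ρ, hρ, hρlen, hρlt, hρev⟩ := exists_merge γ x l W hWgood
    ⟨l₂ ++ l₁, b, e, by simp [W]⟩ (by
      intro u hu h
      rw [hlift] at h
      rw [hWlet] at hu
      have h1 := hKN _ (by simp) u hu h
      have h2 : u ∈ supp B (letters (r s)) ⊓ relN r A :=
        ⟨supp_mono Set.sdiff_subset hu, h1⟩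
      rw [hs] at h2
      exact Subgroup.mem_bot.1 h2)
  have hρn : ρ.length < n := by
    rcases hlen s with h | ⟨h, l1, h1, l2, h2, h12⟩
    · omega
    · rw [← hWlen] at h
      rw [← h]
      apply hρlt
      rw [hWlet]
      by_cases h3 : l1 = l
      · exact ⟨l2, h2, fun h4 => h12 (h3.trans h4.symm)⟩
      · exact ⟨l1, h1, h3⟩
  -- the presentation over `Γ`
  let mkT := QuotientGroup.mk' (relN r (insert s A))
  obtain ⟨ι, hι⟩ := hΓlift _ mkT (fun t ht => mk_relN_val r _ (Set.mem_insert_of_mem s ht))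
  have hιγ : ∀ b, ι (γ b) = mkT (Phi.inl B Λ b) := fun b => by
    show ι (mkK (Phi.inl B Λ b)) = _
    rw [hι, hκinl]
  have hιx : ∀ l', l' ≠ l → ι (x l') = mkT (Phi.let B l') := fun l' hl' => by
    show ι (mkK (Phi.let B l')) = _
    rw [hι, hκl l' hl']
  have hpres : IsPres (fun _ : Unit => ρ) ι (fun _ => mkT (Phi.let B l)) := by
    refine ⟨fun _ => ?_, fun H _ f g h1 h2 => ?_, fun H _ φ z hz => ?_⟩
    · have h1 := hρev _ ι (fun l' => mkT (Phi.let B l')) (fun l' hl' => (hιx l' hl').symm)
      have h2 : (ι.comp γ) = mkT.comp (Phi.inl B Λ) := by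
        ext b
        exact hιγ b
      rw [h1, h2, hWval]
      have h3 : mkT (Phi.val (r s)) = 1 := mk_relN_val r _ (Set.mem_insert s A)
      rw [Phi.val, map_mev] at h3
      exact h3
    · have h3 : f.comp mkT = g.comp mkT := by
        apply Phi.hom_ext
        · intro b
          rw [MonoidHom.comp_apply, MonoidHom.comp_apply, ← hιγ]
          exact DFunLike.congr_fun h1 (γ b)
        · intro l'
          rw [MonoidHom.comp_apply, MonoidHom.comp_apply]
          by_cases hl' : l' = l
          · rw [hl']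
            exact h2 ()
          · rw [← hιx l' hl']
            exact DFunLike.congr_fun h1 (x l')
      refine MonoidHom.ext fun a => ?_
      obtain ⟨u, rfl⟩ := QuotientGroup.mk'_surjective _ a
      exact DFunLike.congr_fun h3 u
    · let ψ : Phi B Λ →* H := Phi.lift (φ.comp γ) (fun l' => if l' = l then z () else φ (x l'))
      have hψA : ∀ t ∈ insert s A, ψ (Phi.val (r t)) = 1 := by
        intro t ht
        rw [Phi.lift_val]
        rcases Set.mem_insert_iff.1 ht with rfl | ht
        · rw [← hWval]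
          have h1 := hρev _ φ (fun l' => if l' = l then z () else φ (x l'))
            (fun l' hl' => if_neg hl')
          rw [← h1]
          simpa using hz ()
        · have h1 : mev (φ.comp γ) (fun l' => if l' = l then z () else φ (x l')) (r t) =
              mev (φ.comp γ) (φ ∘ x) (r t) := by
            apply mev_congr
            intro l' hl'
            rw [if_neg]
            · rfl
            · rintro rfl
              exact hyA t ht hl'
          rw [h1, MonoidHom.coe_comp, ← map_mev]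
          have h2 : mev γ x (r t) = mkK (Phi.val (r t)) := by
            rw [← hlift, Phi.lift_val]
          rw [h2, hrK t ht, map_one]
      obtain ⟨f, hf⟩ := exists_relN_lift r (insert s A) ψ hψA
      refine ⟨f, ?_, fun _ => ?_⟩
      · refine MonoidHom.ext fun a => ?_
        obtain ⟨u, rfl⟩ := QuotientGroup.mk'_surjective K a
        show f (ι (mkK u)) = φ (mkK u)
        rw [hι, hf]
        have h1 : ψ.comp κ = φ.comp mkK := by
          apply Phi.hom_ext
          · intro b
            rw [MonoidHom.comp_apply, hκinl]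
            simp [ψ, γ]
          · intro l'
            rw [MonoidHom.comp_apply, MonoidHom.comp_apply]
            by_cases hl' : l' = l
            · rw [hl', hκy, map_one, hyK, map_one]
            · rw [hκl l' hl']
              simp [ψ, hl', x]
        exact DFunLike.congr_fun h1 u
      · show f (mkT (Phi.let B l)) = z ()
        rw [hf]
        simp [ψ]
  obtain ⟨hιinj, hFEC⟩ := hM _ hρn (Phi B Λ ⧸ K) _ hΓ ρ rfl hρ ι _ hpres
  refine ⟨hFEC, fun E hE hEA => ?_⟩
  rw [eq_bot_iff]
  rintro u ⟨hu1, hu2⟩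
  have h1 : ι (mkK u) = 1 := by
    rw [hι, hκE E hE u hu1]
    exact (QuotientGroup.eq_one_iff u).2 hu2
  have h2 : mkK u = 1 := hιinj (h1.trans (map_one ι).symm)
  have h3 := hKN E hE u hu1 h2
  rw [← hEA]
  exact ⟨hu1, h3⟩

theorem relN_mono (r : T → List (B × Λ × Bool)) {s t : Set T} (h : s ⊆ t) :
    relN r s ≤ relN r t :=
  Subgroup.normalClosure_mono (Set.image_mono h)

theorem relN_univ (r : T → List (B × Λ × Bool)) (u : Phi B Λ) (hu : u ∈ relN r Set.univ) :
    ∃ A : Finset T, u ∈ relN r A := by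
  classical
  obtain ⟨N, hN⟩ : ∃ N : Subgroup (Phi B Λ), N = ⨆ A : Finset T, relN r A := ⟨_, rfl⟩
  have hdir : Directed (· ≤ ·) fun A : Finset T => relN r (A : Set T) := by
    intro A A'
    exact ⟨A ∪ A', relN_mono r (by simp), relN_mono r (by simp)⟩
  have hmem : ∀ x, x ∈ N ↔ ∃ A : Finset T, x ∈ relN r A := by
    intro x
    rw [hN]
    exact Subgroup.mem_iSup_of_directed hdir
  have hnorm : N.Normal := by
    constructor
    intro x hx g
    rw [hmem] at hx ⊢
    obtain ⟨A, hA⟩ := hx
    exact ⟨A, (inferInstance : (relN r (A : Set T)).Normal).conj_mem x hA g⟩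
  have hle : relN r Set.univ ≤ N := by
    apply Subgroup.normalClosure_le_normal
    rintro _ ⟨t, -, rfl⟩
    rw [SetLike.mem_coe, hmem]
    exact ⟨{t}, Subgroup.subset_normalClosure ⟨t, by simp, rfl⟩⟩
  exact (hmem u).1 (hle hu)

theorem exists_private (r : T → List (B × Λ × Bool)) (hgood : ∀ t, Good (flat (r t)))
    (hpriv : ∀ (A : Finset T) (s₀ : T), A.Nonempty → s₀ ∉ A →
      ∃ s ∈ A, ∃ y ∈ letters (r s), y ∉ letters (r s₀) ∧ ∀ t ∈ A, t ≠ s → y ∉ letters (r t))
    (A : Finset T) (hA : A.Nonempty) :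
    ∃ s ∈ A, ∃ y ∈ letters (r s), ∀ t ∈ A, t ≠ s → y ∉ letters (r t) := by
  classical
  obtain ⟨a, ha⟩ := hA
  by_cases h : (A.erase a).Nonempty
  · obtain ⟨s, hs, y, hy, hy0, hy1⟩ := hpriv (A.erase a) a h (Finset.notMem_erase a A)
    refine ⟨s, Finset.mem_of_mem_erase hs, y, hy, fun t ht hts => ?_⟩
    by_cases hta : t = a
    · rw [hta]
      exact hy0
    · exact hy1 t (Finset.mem_erase.2 ⟨hta, ht⟩) hts
  · rw [Finset.not_nonempty_iff_eq_empty, Finset.erase_eq_empty_iff] at h
    have hA : A = {a} := by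
      rcases h with h | h
      · rw [h] at ha
        exact absurd ha (Finset.notMem_empty a)
      · exact h
    have hne : r a ≠ [] := by
      intro h0
      apply (hgood a).1
      rw [h0]
      rfl
    obtain ⟨p, w, hpw⟩ := List.exists_cons_of_ne_nil hne
    refine ⟨a, ha, p.2.1, ⟨p, ?_, rfl⟩, fun t ht hta => ?_⟩
    · rw [hpw]
      exact List.mem_cons_self
    · rw [hA, Finset.mem_singleton] at ht
      exact absurd ht hta

/-- Finite sets of relators. -/
theorem collapse_finite (n : ℕ) (hM : ∀ m < n, MM m) (hB : FEC B)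
    (r : T → List (B × Λ × Bool)) (hgood : ∀ t, Good (flat (r t)))
    (hlen : ∀ t, (r t).length < n ∨
      ((r t).length = n ∧ ∃ l ∈ letters (r t), ∃ l' ∈ letters (r t), l ≠ l'))
    (hpriv : ∀ (A : Finset T) (s₀ : T), A.Nonempty → s₀ ∉ A →
      ∃ s ∈ A, ∃ y ∈ letters (r s), y ∉ letters (r s₀) ∧ ∀ t ∈ A, t ≠ s → y ∉ letters (r t))
    (A : Finset T) :
    FEC (Phi B Λ ⧸ relN r A) ∧ supp B (∅ : Set Λ) ⊓ relN r A = ⊥ ∧
      ∀ s₀, s₀ ∉ A → supp B (letters (r s₀)) ⊓ relN r A = ⊥ := by
  classical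
  obtain ⟨k, hk⟩ : ∃ k, A.card = k := ⟨_, rfl⟩
  induction k generalizing A with
  | zero =>
    rw [Finset.card_eq_zero] at hk
    subst hk
    have h0 : relN r ((∅ : Finset T) : Set T) = ⊥ := by
      unfold relN
      rw [Finset.coe_empty, Set.image_empty, Subgroup.normalClosure_empty]
    refine ⟨?_, by rw [h0, inf_bot_eq], fun s₀ _ => by rw [h0, inf_bot_eq]⟩
    have h1 : FEC (Phi B Λ) := FEC.coprod hB (FEC.free Λ)
    refine FEC.of_equiv ?_ h1
    exact QuotientGroup.quotientBot.symm.trans (QuotientGroup.quotientMulEquivOfEq h0.symm)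
  | succ k ih =>
    have hne : A.Nonempty := by
      rw [← Finset.card_pos, hk]
      exact Nat.succ_pos k
    -- one step
    have key : ∀ s ∈ A, ∀ y ∈ letters (r s), (∀ t ∈ A, t ≠ s → y ∉ letters (r t)) →
        FEC (Phi B Λ ⧸ relN r A) ∧
        ∀ E : Set Λ, y ∉ E → supp B E ⊓ relN r (A.erase s) = ⊥ → supp B E ⊓ relN r A = ⊥ := by
      intro s hs y hy hyA
      have hcard : (A.erase s).card = k := by
        rw [Finset.card_erase_of_mem hs, hk]
        rfl
      obtain ⟨i1, -, i3⟩ := ih (A.erase s) hcard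
      have h1 := collapse_step n hM r hgood hlen ((A.erase s : Finset T) : Set T) s y hy
        (fun t ht => hyA t (Finset.mem_of_mem_erase ht) (Finset.ne_of_mem_erase ht)) i1
        (i3 s (Finset.notMem_erase s A))
      rw [← Finset.coe_insert, Finset.insert_erase hs] at h1
      exact h1
    obtain ⟨s, hs, y, hy, hyA⟩ := exists_private r hgood hpriv A hne
    obtain ⟨k1, k2⟩ := key s hs y hy hyA
    have hcard : (A.erase s).card = k := by
      rw [Finset.card_erase_of_mem hs, hk]
      rfl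
    refine ⟨k1, k2 ∅ (Set.notMem_empty y) (ih _ hcard).2.1, fun s₀ hs₀ => ?_⟩
    obtain ⟨s', hs', y', hy', hy0, hyA'⟩ := hpriv A s₀ hne hs₀
    have hcard' : (A.erase s').card = k := by
      rw [Finset.card_erase_of_mem hs', hk]
      rfl
    exact (key s' hs' y' hy' hyA').2 _ hy0
      ((ih _ hcard').2.2 s₀ fun h => hs₀ (Finset.mem_of_mem_erase h))

/-- **Collapse theorem.** -/
theorem collapse (n : ℕ) (hM : ∀ m < n, MM m) (hB : FEC B)
    (r : T → List (B × Λ × Bool)) (hgood : ∀ t, Good (flat (r t)))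
    (hlen : ∀ t, (r t).length < n ∨
      ((r t).length = n ∧ ∃ l ∈ letters (r t), ∃ l' ∈ letters (r t), l ≠ l'))
    (hpriv : ∀ (A : Finset T) (s₀ : T), A.Nonempty → s₀ ∉ A →
      ∃ s ∈ A, ∃ y ∈ letters (r s), y ∉ letters (r s₀) ∧ ∀ t ∈ A, t ≠ s → y ∉ letters (r t)) :
    FEC (Phi B Λ ⧸ relN r Set.univ) ∧
      Injective ((QuotientGroup.mk' (relN r Set.univ)).comp (Phi.inl B Λ)) := by
  classical
  have hfin := collapse_finite n hM hB r hgood hlen hpriv
  constructor
  · have hmap : ∀ s t : Set T, s ⊆ t →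
        relN r s ≤ (relN r t).comap (MonoidHom.id (Phi B Λ)) := by
      intro s t h
      rw [Subgroup.comap_id]
      exact relN_mono r h
    refine FEC.colimit (ι := Finset T) (fun A => Phi B Λ ⧸ relN r A)
      (fun A A' h => QuotientGroup.map (relN r A) (relN r A') (MonoidHom.id _)
        (hmap _ _ (Finset.coe_subset.2 h)))
      (fun A => QuotientGroup.map (relN r A) (relN r Set.univ) (MonoidHom.id _)
        (hmap _ _ (Set.subset_univ _)))
      ?_ ?_ ?_ ?_ ?_ (fun A => (hfin A).1)
    · intro A x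
      obtain ⟨x, rfl⟩ := QuotientGroup.mk_surjective x
      rw [QuotientGroup.map_mk, MonoidHom.id_apply]
    · intro A A' A'' _ _ x
      obtain ⟨x, rfl⟩ := QuotientGroup.mk_surjective x
      rw [QuotientGroup.map_mk, QuotientGroup.map_mk, QuotientGroup.map_mk, MonoidHom.id_apply,
        MonoidHom.id_apply]
    · intro A A' _ x
      obtain ⟨x, rfl⟩ := QuotientGroup.mk_surjective x
      rw [QuotientGroup.map_mk, QuotientGroup.map_mk, QuotientGroup.map_mk, MonoidHom.id_apply,
        MonoidHom.id_apply]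
    · intro x
      obtain ⟨x, rfl⟩ := QuotientGroup.mk_surjective x
      exact ⟨∅, (x : Phi B Λ ⧸ relN r ((∅ : Finset T) : Set T)), by
        rw [QuotientGroup.map_mk, MonoidHom.id_apply]⟩
    · intro A x hx
      obtain ⟨x, rfl⟩ := QuotientGroup.mk_surjective x
      rw [QuotientGroup.map_mk, MonoidHom.id_apply, QuotientGroup.eq_one_iff] at hx
      obtain ⟨A', hA'⟩ := relN_univ r x hx
      refine ⟨A ∪ A', Finset.subset_union_left, ?_⟩
      rw [QuotientGroup.map_mk, MonoidHom.id_apply, QuotientGroup.eq_one_iff]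
      exact relN_mono r (by simp) hA'
  · rw [injective_iff_map_eq_one]
    intro b hb
    rw [MonoidHom.comp_apply, QuotientGroup.mk'_apply, QuotientGroup.eq_one_iff] at hb
    obtain ⟨A, hA⟩ := relN_univ r _ hb
    have h1 : Phi.inl B Λ b ∈ supp B (∅ : Set Λ) ⊓ relN r A := ⟨inl_mem_supp _ b, hA⟩
    rw [(hfin A).2.1, Subgroup.mem_bot] at h1
    exact (injective_iff_map_eq_one _).1 (Phi.inl_injective B Λ) b h1

end

end Pool.Agent.OR
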