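import Pool.Agent.Lib.MP_98022b_or.Basic

/-!
# A unique product property of the groups of the class `FEC`
-/

set_option autoImplicit false

namespace Pool.Agent.OR

open Function

/-- For finite non-empty sets `P`, `T` and an element `t₀` outside `T` there is a product `p t`
with `p ∈ P`, `t ∈ T` which is not in `P t'` for all `t' ∈ T ∪ {t₀}`, `t' ≠ t`. -/
def UP (Q : Type) [Group Q] : Prop :=
  ∀ (P T : Finset Q) (t₀ : Q), P.Nonempty → T.Nonempty → t₀ ∉ T →
    ∃ t ∈ T, ∃ p ∈ P, (∀ p' ∈ P, p * t ≠ p' * t₀) ∧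
      ∀ t' ∈ T, t' ≠ t → ∀ p' ∈ P, p * t ≠ p' * t'

/-- The unique product property used for private letters. -/
def UPa (G : Type*) [Group G] : Prop :=
  ∀ (P T : Finset G) (t0 : G), P.Nonempty → T.Nonempty → t0 ∉ T →
    ∃ t ∈ T, ∃ p ∈ P, ∀ p' ∈ P, ∀ t', (t' = t0 ∨ t' ∈ T) → t' ≠ t → p' * t' ≠ p * t

/-- Every nontrivial finitely generated subgroup has a nontrivial homomorphism to the integers. -/
def LI (G : Type*) [Group G] : Prop :=
  ∀ H : Subgroup G, H.FG → H ≠ ⊥ → ∃ φ : H →* Multiplicative ℤ, φ ≠ 1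

theorem LI.upa {G : Type*} [Group G] (hG : LI G) : UPa G := by
  classical
  have key : ∀ n : ℕ, ∀ (P T : Finset G) (t0 : G), T.card = n → P.Nonempty → T.Nonempty →
      t0 ∉ T →
      ∃ t ∈ T, ∃ p ∈ P, ∀ p' ∈ P, ∀ t', (t' = t0 ∨ t' ∈ T) → t' ≠ t → p' * t' ≠ p * t := by
    intro n
    induction n using Nat.strong_induction_on with
    | _ n ih =>
      intro P T t0 hn hP hT ht0
      -- the subgroup generated by the quotients
      set S : Finset G := insert t0 T with hS
      set H : Subgroup G := Subgroup.closure ((fun t => t * t0⁻¹) '' (T : Set G)) with hH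
      have hmem : ∀ t ∈ S, t * t0⁻¹ ∈ H := by
        intro t ht
        rcases Finset.mem_insert.1 ht with rfl | ht
        · simp [H.one_mem]
        · exact Subgroup.subset_closure ⟨t, ht, rfl⟩
      have hfg : H.FG := ⟨(T.image fun t => t * t0⁻¹), by simp [hH]⟩
      obtain ⟨t1, ht1⟩ := hT
      have hne : H ≠ ⊥ := by
        intro h
        have h1 : t1 * t0⁻¹ ∈ H := hmem t1 (Finset.mem_insert_of_mem ht1)
        rw [h, Subgroup.mem_bot, mul_inv_eq_one] at h1
        exact ht0 (h1 ▸ ht1)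
      -- a homomorphism which is positive somewhere
      obtain ⟨φ, hφ⟩ : ∃ φ : H →* Multiplicative ℤ, ∃ t, ∃ ht : t ∈ S,
          0 < (φ ⟨t * t0⁻¹, hmem t ht⟩).toAdd := by
        obtain ⟨φ, hφ⟩ := hG H hfg hne
        have hex : ∃ t, ∃ ht : t ∈ S, (φ ⟨t * t0⁻¹, hmem t ht⟩).toAdd ≠ 0 := by
          by_contra hcon
          push Not at hcon
          apply hφ
          have hle : H ≤ φ.ker.map H.subtype := by
            refine (Subgroup.closure_le _).2 ?_
            rintro _ ⟨t, ht, rfl⟩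
            exact ⟨⟨t * t0⁻¹, hmem t (Finset.mem_insert_of_mem ht)⟩,
              toAdd_eq_zero.1 (hcon t (Finset.mem_insert_of_mem ht)), rfl⟩
          have hker : ∀ x : H, φ x = 1 := by
            intro x
            obtain ⟨y, hy, hyx⟩ := hle x.2
            have : y = x := Subtype.ext hyx
            exact this ▸ hy
          ext x
          rw [hker x]
          rfl
        obtain ⟨t, ht, h⟩ := hex
        rcases lt_or_gt_of_ne h with h | h
        · refine ⟨φ⁻¹, t, ht, ?_⟩
          rw [MonoidHom.inv_apply, toAdd_inv]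
          omega
        · exact ⟨φ, t, ht, h⟩
      obtain ⟨t2, ht2, hpos⟩ := hφ
      -- the two height functions
      let b : G → ℤ := fun t => if h : t * t0⁻¹ ∈ H then (φ ⟨t * t0⁻¹, h⟩).toAdd else 0
      obtain ⟨p1, hp1⟩ := hP
      let a : G → ℤ := fun p => if h : p1⁻¹ * p ∈ H then (φ ⟨p1⁻¹ * p, h⟩).toAdd else 0
      set P1 : Finset G := P.filter fun p => p1⁻¹ * p ∈ H with hP1
      have hP1ne : P1.Nonempty := ⟨p1, by simp [hP1, hp1, H.one_mem]⟩
      obtain ⟨pm, hpm, hpmax⟩ := P1.exists_max_image a hP1ne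
      obtain ⟨tm, htm, htmax⟩ := S.exists_max_image b ⟨t2, ht2⟩
      have hbt0 : b t0 = 0 := by
        simp only [b]
        split_ifs with h
        · have : (⟨t0 * t0⁻¹, h⟩ : H) = 1 := by ext; simp
          rw [this, φ.map_one]; rfl
        · rfl
      have hbpos : 0 < b tm := by
        have h1 := htmax t2 ht2
        have h2 : b t2 = (φ ⟨t2 * t0⁻¹, hmem t2 ht2⟩).toAdd := by
          simp only [b]; rw [dif_pos (hmem t2 ht2)]
        omega
      set Sm : Finset G := S.filter fun t => b t = b tm with hSm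
      set Pm : Finset G := P1.filter fun p => a p = a pm with hPm
      have hSmT : Sm ⊆ T := by
        intro t ht
        rw [hSm, Finset.mem_filter] at ht
        rcases Finset.mem_insert.1 ht.1 with rfl | h
        · omega
        · exact h
      have hpeak : ∀ p ∈ Pm, ∀ t ∈ Sm, ∀ p' ∈ P, ∀ t' ∈ S, p' * t' = p * t →
          p' ∈ Pm ∧ t' ∈ Sm := by
        intro p hp t ht p' hp' t' ht' heq
        rw [hPm, Finset.mem_filter] at hp
        rw [hSm, Finset.mem_filter] at ht
        have hpH : p1⁻¹ * p ∈ H := (Finset.mem_filter.1 hp.1).2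
        have htH := hmem t ht.1
        have ht'H := hmem t' ht'
        have e1 : (p1⁻¹ * p') * (t' * t0⁻¹) = (p1⁻¹ * p) * (t * t0⁻¹) := by
          calc (p1⁻¹ * p') * (t' * t0⁻¹) = p1⁻¹ * (p' * t') * t0⁻¹ := by group
            _ = p1⁻¹ * (p * t) * t0⁻¹ := by rw [heq]
            _ = _ := by group
        have hp'H : p1⁻¹ * p' ∈ H := by
          have : p1⁻¹ * p' = (p1⁻¹ * p) * (t * t0⁻¹) * (t' * t0⁻¹)⁻¹ := by
            rw [← e1]; group
          rw [this]
          exact H.mul_mem (H.mul_mem hpH htH) (H.inv_mem ht'H)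
        have e2 : (⟨p1⁻¹ * p', hp'H⟩ : H) * ⟨t' * t0⁻¹, ht'H⟩
            = ⟨p1⁻¹ * p, hpH⟩ * ⟨t * t0⁻¹, htH⟩ := Subtype.ext e1
        have e3 := congrArg (fun x => (φ x).toAdd) e2
        simp only [φ.map_mul, toAdd_mul] at e3
        have ea : a p = (φ ⟨p1⁻¹ * p, hpH⟩).toAdd := by simp only [a]; rw [dif_pos hpH]
        have ea' : a p' = (φ ⟨p1⁻¹ * p', hp'H⟩).toAdd := by simp only [a]; rw [dif_pos hp'H]
        have eb : b t = (φ ⟨t * t0⁻¹, htH⟩).toAdd := by simp only [b]; rw [dif_pos htH]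
        have eb' : b t' = (φ ⟨t' * t0⁻¹, ht'H⟩).toAdd := by simp only [b]; rw [dif_pos ht'H]
        have hp'1 : p' ∈ P1 := Finset.mem_filter.2 ⟨hp', hp'H⟩
        have h1 := hpmax p' hp'1
        have h2 := htmax t' ht'
        refine ⟨Finset.mem_filter.2 ⟨hp'1, ?_⟩, Finset.mem_filter.2 ⟨ht', ?_⟩⟩ <;> omega
      have hpmP : pm ∈ Pm := Finset.mem_filter.2 ⟨hpm, rfl⟩
      have htmS : tm ∈ Sm := Finset.mem_filter.2 ⟨htm, rfl⟩
      have hPmP : Pm ⊆ P := fun p hp => (Finset.mem_filter.1 (Finset.mem_filter.1 hp).1).1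
      have hTS : ∀ t', (t' = t0 ∨ t' ∈ T) → t' ∈ S := fun t' h => Finset.mem_insert.2 h
      by_cases hone : (Sm.erase tm).Nonempty
      · have hlt : (Sm.erase tm).card < n := by
          rw [← hn]
          calc (Sm.erase tm).card < Sm.card := Finset.card_erase_lt_of_mem htmS
            _ ≤ T.card := Finset.card_le_card hSmT
        obtain ⟨t, ht, p, hp, huniq⟩ := ih _ hlt Pm (Sm.erase tm) tm rfl ⟨pm, hpmP⟩ hone
          (Finset.notMem_erase _ _)
        have htS : t ∈ Sm := Finset.mem_of_mem_erase ht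
        refine ⟨t, hSmT htS, p, hPmP hp, ?_⟩
        intro p' hp' t' ht' hne' heq
        obtain ⟨h1, h2⟩ := hpeak p hp t htS p' hp' t' (hTS t' ht') heq
        refine huniq p' h1 t' ?_ hne' heq
        by_cases h : t' = tm
        · exact Or.inl h
        · exact Or.inr (Finset.mem_erase.2 ⟨h, h2⟩)
      · refine ⟨tm, hSmT htmS, pm, hPmP hpmP, ?_⟩
        intro p' hp' t' ht' hne' heq
        obtain ⟨h1, h2⟩ := hpeak pm hpmP tm htmS p' hp' t' (hTS t' ht') heq
        exact hone ⟨t', Finset.mem_erase.2 ⟨hne', h2⟩⟩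
  intro P T t0 hP hT ht0
  exact key _ P T t0 rfl hP hT ht0

/-- Free groups are locally indicable. -/
theorem LI.of_isFreeGroup (G : Type) [Group G] [IsFreeGroup G] : LI G := by
  intro H _ hne
  classical
  let e := IsFreeGroup.toFreeGroup H
  have hex : Nonempty (IsFreeGroup.Generators H) := by
    by_contra hcon
    rw [not_nonempty_iff] at hcon
    apply hne
    rw [Subgroup.eq_bot_iff_forall]
    intro x hx
    have h1 : e ⟨x, hx⟩ = 1 := Subsingleton.elim _ _
    have h2 : (⟨x, hx⟩ : H) = 1 := e.injective (h1.trans e.map_one.symm)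
    exact congrArg Subtype.val h2
  obtain ⟨i⟩ := hex
  refine ⟨(FreeGroup.lift fun _ => Multiplicative.ofAdd 1).comp e.toMonoidHom, ?_⟩
  intro h
  have h1 := DFunLike.congr_fun h (e.symm (FreeGroup.of i))
  simp at h1

theorem UPa.of_isFreeGroup (G : Type) [Group G] [IsFreeGroup G] : UPa G :=
  (LI.of_isFreeGroup G).upa

theorem UPa.of_injective {G H : Type*} [Group G] [Group H] (f : G →* H)
    (hf : Function.Injective f) (hH : UPa H) : UPa G := by
  classical
  intro P T t0 hP hT ht0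
  obtain ⟨t, ht, p, hp, hu⟩ := hH (P.image f) (T.image f) (f t0) (hP.image f) (hT.image f) (by
    intro h
    obtain ⟨x, hx, hxe⟩ := Finset.mem_image.1 h
    exact ht0 (hf hxe ▸ hx))
  obtain ⟨t, ht', rfl⟩ := Finset.mem_image.1 ht
  obtain ⟨p, hp', rfl⟩ := Finset.mem_image.1 hp
  refine ⟨t, ht', p, hp', ?_⟩
  intro p' hp' t' ht' hne heq
  refine hu (f p') (Finset.mem_image_of_mem f hp') (f t') ?_ (fun h => hne (hf h)) ?_
  · rcases ht' with rfl | h
    · exact Or.inl rfl
    · exact Or.inr (Finset.mem_image_of_mem f h)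
  · rw [← f.map_mul, ← f.map_mul, heq]

/-- The unique product property passes to extensions. -/
theorem UPa.ext {G Q : Type*} [Group G] [Group Q] (f : G →* Q) (hQ : UPa Q) (hK : UPa f.ker) :
    UPa G := by
  classical
  intro P T t0 hP hT ht0
  -- elements with the same image, divided by one of them, lie in the kernel
  have inner : ∀ (P1 T1 : Finset G) (t1 : G), P1.Nonempty → T1.Nonempty → t1 ∉ T1 →
      (∀ p ∈ P1, ∀ p' ∈ P1, f p = f p') → (∀ t ∈ T1, f t = f t1) →
      ∃ t ∈ T1, ∃ p ∈ P1, ∀ p' ∈ P1, ∀ t', (t' = t1 ∨ t' ∈ T1) → t' ≠ t →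
        p' * t' ≠ p * t := by
    intro P1 T1 t1 hP1 hT1 ht1 hPf hTf
    obtain ⟨p1, hp1⟩ := hP1
    have memP : ∀ p ∈ P1, p1⁻¹ * p ∈ f.ker := by
      intro p hp
      rw [MonoidHom.mem_ker, f.map_mul, f.map_inv, hPf p hp p1 hp1, inv_mul_cancel]
    have memT : ∀ t ∈ T1, t * t1⁻¹ ∈ f.ker := by
      intro t ht
      rw [MonoidHom.mem_ker, f.map_mul, f.map_inv, hTf t ht, mul_inv_cancel]
    have memT' : ∀ t, (t = t1 ∨ t ∈ T1) → t * t1⁻¹ ∈ f.ker := by
      rintro t (rfl | ht)
      · simp [f.ker.one_mem]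
      · exact memT t ht
    let fP : {x // x ∈ P1} → f.ker := fun p => ⟨p1⁻¹ * p.1, memP p.1 p.2⟩
    let fT : {x // x ∈ T1} → f.ker := fun t => ⟨t.1 * t1⁻¹, memT t.1 t.2⟩
    obtain ⟨t, ht, p, hp, hu⟩ := hK (P1.attach.image fP) (T1.attach.image fT) 1
      ⟨_, Finset.mem_image_of_mem _ (Finset.mem_attach _ ⟨p1, hp1⟩)⟩
      (by
        obtain ⟨t, ht⟩ := hT1
        exact ⟨_, Finset.mem_image_of_mem _ (Finset.mem_attach _ ⟨t, ht⟩)⟩)
      (by
        intro h
        obtain ⟨t, -, ht⟩ := Finset.mem_image.1 h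
        have h1 : t.1 * t1⁻¹ = 1 := congrArg Subtype.val ht
        rw [mul_inv_eq_one] at h1
        exact ht1 (h1 ▸ t.2))
    obtain ⟨⟨t, htT⟩, -, rfl⟩ := Finset.mem_image.1 ht
    obtain ⟨⟨p, hpP⟩, -, rfl⟩ := Finset.mem_image.1 hp
    refine ⟨t, htT, p, hpP, ?_⟩
    intro p' hp' t' ht' hne heq
    refine hu ⟨p1⁻¹ * p', memP p' hp'⟩
      (Finset.mem_image_of_mem fP (Finset.mem_attach _ ⟨p', hp'⟩))
      ⟨t' * t1⁻¹, memT' t' ht'⟩ ?_ ?_ ?_
    · rcases ht' with h | h
      · left
        apply Subtype.ext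
        change t' * t1⁻¹ = 1
        rw [h, mul_inv_cancel]
      · right
        exact Finset.mem_image_of_mem fT (Finset.mem_attach _ ⟨t', h⟩)
    · intro h
      apply hne
      have h1 : t' * t1⁻¹ = t * t1⁻¹ := congrArg Subtype.val h
      exact mul_right_cancel h1
    · apply Subtype.ext
      change (p1⁻¹ * p') * (t' * t1⁻¹) = (p1⁻¹ * p) * (t * t1⁻¹)
      calc (p1⁻¹ * p') * (t' * t1⁻¹) = p1⁻¹ * (p' * t') * t1⁻¹ := by group
        _ = p1⁻¹ * (p * t) * t1⁻¹ := by rw [heq]
        _ = _ := by group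
  by_cases hall : ∀ t ∈ T, f t = f t0
  · -- all images are equal: restrict to one coset in `P`
    obtain ⟨p1, hp1⟩ := hP
    obtain ⟨t, ht, p, hp, hu⟩ := inner (P.filter fun p => f p = f p1) T t0
      ⟨p1, by simp [hp1]⟩ hT ht0 (by
        intro p hp p' hp'
        rw [(Finset.mem_filter.1 hp).2, (Finset.mem_filter.1 hp').2]) hall
    refine ⟨t, ht, p, (Finset.mem_filter.1 hp).1, ?_⟩
    intro p' hp' t' ht' hne heq
    refine hu p' (Finset.mem_filter.2 ⟨hp', ?_⟩) t' ht' hne heq
    have h1 := congrArg f heq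
    rw [f.map_mul, f.map_mul] at h1
    have h2 : f t' = f t := by
      rw [hall t ht]
      rcases ht' with rfl | h
      · rfl
      · exact hall t' h
    rw [h2] at h1
    rw [mul_right_cancel h1, (Finset.mem_filter.1 hp).2]
  · push Not at hall
    obtain ⟨t2, ht2, hne2⟩ := hall
    obtain ⟨tq, htq, pq, hpq, hu⟩ := hQ (P.image f) ((T.image f).erase (f t0)) (f t0)
      (hP.image f) ⟨f t2, Finset.mem_erase.2 ⟨hne2, Finset.mem_image_of_mem f ht2⟩⟩
      (Finset.notMem_erase _ _)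
    obtain ⟨htq0, htqT⟩ := Finset.mem_erase.1 htq
    obtain ⟨t3, ht3, ht3q⟩ := Finset.mem_image.1 htqT
    obtain ⟨p3, hp3, hp3q⟩ := Finset.mem_image.1 hpq
    -- the fibres
    set T1 : Finset G := T.filter fun t => f t = tq with hT1
    set P1 : Finset G := P.filter fun p => f p = pq with hP1
    have hT1' : ∀ t', (t' = t0 ∨ t' ∈ T) → ∀ p' ∈ P, ∀ t ∈ T1, ∀ p ∈ P1, p' * t' = p * t →
        p' ∈ P1 ∧ t' ∈ T1 := by
      intro t' ht' p' hp' t ht p hp heq
      have h1 := congrArg f heq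
      rw [f.map_mul, f.map_mul, (Finset.mem_filter.1 ht).2, (Finset.mem_filter.1 hp).2] at h1
      have h2 : f t' = tq := by
        by_contra hcon
        refine hu (f p') (Finset.mem_image_of_mem f hp') (f t') ?_ hcon h1
        by_cases h : f t' = f t0
        · exact Or.inl h
        · right
          rcases ht' with rfl | h'
          · exact absurd rfl h
          · exact Finset.mem_erase.2 ⟨h, Finset.mem_image_of_mem f h'⟩
      have h3 : t' ∈ T := by
        rcases ht' with rfl | h'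
        · exact absurd h2.symm htq0
        · exact h'
      rw [h2] at h1
      exact ⟨Finset.mem_filter.2 ⟨hp', mul_right_cancel h1⟩, Finset.mem_filter.2 ⟨h3, h2⟩⟩
    have ht3' : t3 ∈ T1 := Finset.mem_filter.2 ⟨ht3, ht3q⟩
    have hp3' : p3 ∈ P1 := Finset.mem_filter.2 ⟨hp3, hp3q⟩
    by_cases hone : (T1.erase t3).Nonempty
    · obtain ⟨t, ht, p, hp, hu'⟩ := inner P1 (T1.erase t3) t3 ⟨p3, hp3'⟩ hone
        (Finset.notMem_erase _ _) (by
          intro p hp p' hp'
          rw [(Finset.mem_filter.1 hp).2, (Finset.mem_filter.1 hp').2]) (by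
          intro t ht
          rw [(Finset.mem_filter.1 (Finset.mem_of_mem_erase ht)).2, ht3q])
      have htT := Finset.mem_of_mem_erase ht
      refine ⟨t, (Finset.mem_filter.1 htT).1, p, (Finset.mem_filter.1 hp).1, ?_⟩
      intro p' hp' t' ht' hne heq
      obtain ⟨h1, h2⟩ := hT1' t' ht' p' hp' t htT p hp heq
      refine hu' p' h1 t' ?_ hne heq
      by_cases h : t' = t3
      · exact Or.inl h
      · exact Or.inr (Finset.mem_erase.2 ⟨h, h2⟩)
    · refine ⟨t3, ht3, p3, hp3, ?_⟩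
      intro p' hp' t' ht' hne heq
      obtain ⟨h1, h2⟩ := hT1' t' ht' p' hp' t3 ht3' p3 hp3' heq
      exact hone ⟨t', Finset.mem_erase.2 ⟨hne, h2⟩⟩

/-- The unique product property passes to directed colimits (arbitrary transition maps). -/
theorem UPa.colimit {ι : Type*} [Preorder ι] [IsDirectedOrder ι] [Nonempty ι]
    (G : ι → Type*) [∀ i, Group (G i)] (f : ∀ i j, i ≤ j → G i →* G j)
    {L : Type*} [Group L] (g : ∀ i, G i →* L)
    (h2 : ∀ i j k (hij : i ≤ j) (hjk : j ≤ k) x,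
      f j k hjk (f i j hij x) = f i k (hij.trans hjk) x)
    (h3 : ∀ i j (hij : i ≤ j) x, g j (f i j hij x) = g i x)
    (h4 : ∀ y, ∃ i x, g i x = y)
    (h5 : ∀ i x, g i x = 1 → ∃ j, ∃ hij : i ≤ j, f i j hij x = 1)
    (h : ∀ i, UPa (G i))   : UPa L := by
  classical
  intro P T t0 hP hT ht0
  -- lifts of finitely many elements to one stage
  have lift : ∀ S : Finset L, ∃ i, ∃ s : L → G i, ∀ y ∈ S, g i (s y) = y := by
    intro S
    induction S using Finset.induction_on with
    | empty =>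
      obtain ⟨i⟩ := (inferInstance : Nonempty ι)
      exact ⟨i, fun _ => 1, by simp⟩
    | insert a S _ ih =>
      obtain ⟨i, s, hs⟩ := ih
      obtain ⟨j, x, hx⟩ := h4 a
      obtain ⟨k, hik, hjk⟩ := exists_ge_ge i j
      refine ⟨k, fun y => if y = a then f j k hjk x else f i k hik (s y), ?_⟩
      intro y hy
      by_cases hya : y = a
      · simp only [hya, if_true]
        rw [h3, hx]
      · simp only [hya, if_false]
        rw [h3, hs y ((Finset.mem_insert.1 hy).resolve_left hya)]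
  obtain ⟨i, s, hs⟩ := lift (P ∪ insert t0 T)
  -- a stage at which finitely many relations hold
  have rel : ∀ R : Finset (G i), (∀ x ∈ R, g i x = 1) →
      ∃ j, ∃ hij : i ≤ j, ∀ x ∈ R, f i j hij x = 1 := by
    intro R
    induction R using Finset.induction_on with
    | empty => intro _; exact ⟨i, le_rfl, by simp⟩
    | insert a R _ ih =>
      intro hR
      obtain ⟨j, hij, hj⟩ := ih fun x hx => hR x (Finset.mem_insert_of_mem hx)
      obtain ⟨k, hik, hk⟩ := h5 i a (hR a (Finset.mem_insert_self _ _))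
      obtain ⟨l, hjl, hkl⟩ := exists_ge_ge j k
      refine ⟨l, hij.trans hjl, ?_⟩
      intro x hx
      rcases Finset.mem_insert.1 hx with rfl | hx
      · rw [← h2 i k l hik hkl, hk, map_one]
      · rw [← h2 i j l hij hjl, hj x hx, map_one]
  set S : Finset L := insert t0 T with hS
  obtain ⟨j, hij, hj⟩ := rel
    (((P ×ˢ S) ×ˢ (P ×ˢ S)).image
      (fun z => s z.1.1 * s z.1.2 * (s z.2.1 * s z.2.2)⁻¹) |>.filter fun x => g i x = 1)
    fun x hx => (Finset.mem_filter.1 hx).2
  let s' : L → G j := fun y => f i j hij (s y)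
  have hs' : ∀ y, (y ∈ P ∨ y ∈ S) → g j (s' y) = y := by
    intro y hy
    simp only [s']
    rw [h3]
    refine hs y (Finset.mem_union.2 ?_)
    rcases hy with hy | hy
    · exact Or.inl hy
    · exact Or.inr hy
  obtain ⟨t, ht, p, hp, hu⟩ := h j (P.image s') (T.image s') (s' t0) (hP.image _) (hT.image _)
    (by
      intro hmem
      obtain ⟨t, ht, hte⟩ := Finset.mem_image.1 hmem
      have e := congrArg (g j) hte
      rw [hs' t (Or.inr (Finset.mem_insert_of_mem ht)),
        hs' t0 (Or.inr (Finset.mem_insert_self _ _))] at e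
      exact ht0 (e ▸ ht))
  obtain ⟨t, htT, rfl⟩ := Finset.mem_image.1 ht
  obtain ⟨p, hpP, rfl⟩ := Finset.mem_image.1 hp
  refine ⟨t, htT, p, hpP, ?_⟩
  intro p' hp' t' ht' hne heq
  have htS : t' ∈ S := Finset.mem_insert.2 ht'
  refine hu (s' p') (Finset.mem_image_of_mem _ hp') (s' t') ?_ ?_ ?_
  · rcases ht' with rfl | h'
    · exact Or.inl rfl
    · exact Or.inr (Finset.mem_image_of_mem _ h')
  · intro e
    have e' := congrArg (g j) e
    rw [hs' t' (Or.inr htS), hs' t (Or.inr (Finset.mem_insert_of_mem htT))] at e'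
    exact hne e'
  · have e1 : f i j hij (s p' * s t' * (s p * s t)⁻¹) = 1 := by
      apply hj
      refine Finset.mem_filter.2 ⟨Finset.mem_image.2 ⟨((p', t'), (p, t)), ?_, rfl⟩, ?_⟩
      · exact Finset.mem_product.2 ⟨Finset.mem_product.2 ⟨hp', htS⟩,
          Finset.mem_product.2 ⟨hpP, Finset.mem_insert_of_mem htT⟩⟩
      · rw [map_mul, map_inv, map_mul, map_mul,
          hs p' (Finset.mem_union_left _ hp'), hs t' (Finset.mem_union_right _ htS),
          hs p (Finset.mem_union_left _ hpP),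
          hs t (Finset.mem_union_right _ (Finset.mem_insert_of_mem htT)), heq, mul_inv_cancel]
    rw [map_mul, map_inv, mul_inv_eq_one] at e1
    simpa [s'] using e1


theorem upa_iff {Q : Type} [Group Q] : UPa Q ↔ UP Q := by
  constructor
  · intro h P T t₀ hP hT ht
    obtain ⟨t, htT, p, hpP, hu⟩ := h P T t₀ hP hT ht
    refine ⟨t, htT, p, hpP, ?_, ?_⟩
    · intro p' hp' heq
      exact hu p' hp' t₀ (Or.inl rfl) (fun e => ht (e ▸ htT)) heq.symm
    · intro t' ht' hne p' hp' heq
      exact hu p' hp' t' (Or.inr ht') hne heq.symm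
  · intro h P T t₀ hP hT ht
    obtain ⟨t, htT, p, hpP, hu, hu'⟩ := h P T t₀ hP hT ht
    refine ⟨t, htT, p, hpP, ?_⟩
    rintro p' hp' t' (rfl | ht') hne heq
    · exact hu p' hp' heq.symm
    · exact hu' t' ht' hne p' hp' heq.symm

/-- The infinite cyclic group. -/
theorem UP.int : UP (Multiplicative ℤ) := by
  refine upa_iff.1 (LI.upa ?_)
  intro H _ hne
  refine ⟨H.subtype, ?_⟩
  intro h
  apply hne
  rw [Subgroup.eq_bot_iff_forall]
  intro x hx
  exact DFunLike.congr_fun h ⟨x, hx⟩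

/-- Free groups. -/
theorem UP.free (X : Type) : UP (FreeGroup X) :=
  upa_iff.1 (UPa.of_isFreeGroup (FreeGroup X))

/-- Extensions. -/
theorem UP.extension {G Q : Type} [Group G] [Group Q] (f : G →* Q) (hQ : UP Q)
    (hK : UP f.ker) : UP G :=
  upa_iff.1 (UPa.ext f (upa_iff.2 hQ) (upa_iff.2 hK))

/-- Directed colimits. -/
theorem UP.colimit {ι : Type} [Preorder ι] [IsDirectedOrder ι] [Nonempty ι]
    (G : ι → Type) [∀ i, Group (G i)] (f : ∀ i j, i ≤ j → G i →* G j)
    {L : Type} [Group L] (g : ∀ i, G i →* L)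
    (h1 : ∀ i x, f i i le_rfl x = x)
    (h2 : ∀ i j k (hij : i ≤ j) (hjk : j ≤ k) x,
      f j k hjk (f i j hij x) = f i k (hij.trans hjk) x)
    (h3 : ∀ i j (hij : i ≤ j) x, g j (f i j hij x) = g i x)
    (h4 : ∀ y, ∃ i x, g i x = y)
    (h5 : ∀ i x, g i x = 1 → ∃ j, ∃ hij : i ≤ j, f i j hij x = 1)
    (h : ∀ i, UP (G i)) : UP L :=
  have _ := h1
  upa_iff.1 (UPa.colimit G f g h2 h3 h4 h5 fun i => upa_iff.2 (h i))

theorem FEC.up {Q : Type} [Group Q] (h : FEC Q) : UP Q := by
  induction h with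
  | free X => exact UP.free X
  | extension f _ _ _ ihQ ihK => exact UP.extension f ihQ ihK
  | colimit G f g h1 h2 h3 h4 h5 _ ih => exact UP.colimit G f g h1 h2 h3 h4 h5 ih

/-- Groups with the property `UP` are torsion-free (take for `P` the finite subgroup generated by a
torsion element, `T = P - 1`, `t₀ = 1`). -/
theorem UP.torsionFree {Q : Type} [Group Q] (h : UP Q) (g : Q) (n : ℕ) (hn : 0 < n)
    (hg : g ^ n = 1) : g = 1 := by
  classical
  by_contra hne
  have hfin : (Subgroup.zpowers g : Set Q).Finite := by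
    have : IsOfFinOrder g := isOfFinOrder_iff_pow_eq_one.2 ⟨n, hn, hg⟩
    exact this.finite_zpowers
  obtain ⟨t, ht, p, hp, hu, -⟩ := h hfin.toFinset (hfin.toFinset.erase 1) 1
    ⟨1, by simp⟩
    ⟨g, Finset.mem_erase.2 ⟨hne, by simp [Subgroup.mem_zpowers]⟩⟩
    (Finset.notMem_erase _ _)
  have ht' : t ∈ Subgroup.zpowers g := by simpa using Finset.mem_of_mem_erase ht
  have hp' : p ∈ Subgroup.zpowers g := by simpa using hp
  exact hu (p * t) (by simpa using (Subgroup.zpowers g).mul_mem hp' ht') (mul_one _).symm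

theorem FEC.torsionFree {Q : Type} [Group Q] (h : FEC Q) (g : Q) (n : ℕ) (hn : 0 < n)
    (hg : g ^ n = 1) : g = 1 := h.up.torsionFree g n hn hg

end Pool.Agent.OR
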