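import Pool.Agent.Lib.MP_98022b_or.Collapse
import Pool.Agent.Lib.MP_98022b_or.UP

/-!
# The cover theorem
-/

set_option autoImplicit false

namespace Pool.Agent.OR

open Function

/-- The word `w` with its letters labelled by their positions, starting (at the right end)
at `q`. -/
def lft {S Q Λ : Type} [Group Q] (l : Λ) (φ : S → Q) (ξ : Q) (q : Q) :
    List (S × Bool) → List (S × (Λ × Q) × Bool)
  | [] => []
  | p :: w => (p.1, (l, (if p.2 then ev φ ξ w else ξ⁻¹ * ev φ ξ w) * q), p.2) :: lft l φ ξ q w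

theorem flat_lft {S Q Λ : Type} [Group Q] (l : Λ) (φ : S → Q) (ξ q : Q)
    (w : List (S × Bool)) : flat (lft l φ ξ q w) = w := by
  induction w with
  | nil => rfl
  | cons p w ih =>
    show (p.1, p.2) :: flat (lft l φ ξ q w) = p :: w
    rw [ih]

theorem letters_lft {S Q Λ : Type} [Group Q] (l : Λ) (φ : S → Q) (ξ q : Q)
    (w : List (S × Bool)) : letters (lft l φ ξ q w) = {z | ∃ p ∈ lab φ ξ w, z = (l, p * q)} := by
  induction w with
  | nil =>
    ext z
    simp [lft, letters, lab]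
  | cons p w ih =>
    ext z
    have h1 : z ∈ letters (lft l φ ξ q (p :: w)) ↔
        z = (l, (if p.2 then ev φ ξ w else ξ⁻¹ * ev φ ξ w) * q) ∨
          z ∈ letters (lft l φ ξ q w) := by
      constructor
      · rintro ⟨a, ha, rfl⟩
        rcases List.mem_cons.1 ha with rfl | ha
        · exact Or.inl rfl
        · exact Or.inr ⟨a, ha, rfl⟩
      · rintro (rfl | ⟨a, ha, rfl⟩)
        · exact ⟨_, List.mem_cons_self, rfl⟩
        · exact ⟨a, List.mem_cons_of_mem _ ha, rfl⟩
    rw [h1, ih]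
    constructor
    · rintro (rfl | ⟨a, ha, rfl⟩)
      · exact ⟨_, List.mem_cons_self, rfl⟩
      · exact ⟨a, List.mem_cons_of_mem _ ha, rfl⟩
    · rintro ⟨a, ha, rfl⟩
      rcases List.mem_cons.1 ha with rfl | ha
      · exact Or.inl rfl
      · exact Or.inr ⟨a, ha, rfl⟩

/-- The value in `Wr U Q` of a word. -/
theorem ev_wr {S Q Λ U : Type} [Group Q] [Group U] (l : Λ) (φ : S → Q) (ξ : Q)
    (β : S → U) (x : Λ × Q → U) (w : List (S × Bool)) :
    ev (fun s => (⟨fun _ => β s, φ s⟩ : Wr U Q)) ⟨fun q => x (l, q), ξ⟩ w =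
      ⟨fun q => mev β x (lft l φ ξ q w), ev φ ξ w⟩ := by
  induction w with
  | nil => rfl
  | cons p w ih =>
    obtain ⟨s, e⟩ := p
    rw [ev_cons, ih]
    cases e
    · ext q
      · show β s * (x (l, ξ⁻¹ * (ev φ ξ w * q)))⁻¹ * mev β x (lft l φ ξ q w) =
          mev β x (lft l φ ξ q ((s, false) :: w))
        simp [lft, mul_assoc]
      · simp
    · ext q
      · show β s * x (l, ev φ ξ w * q) * mev β x (lft l φ ξ q w) =
          mev β x (lft l φ ξ q ((s, true) :: w))
        simp [lft]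
      · simp

/-- The private letter property of the lifted words. -/
theorem private_letter {Λ Q S : Type} [Group Q] (hQ : UP Q) (φ : S → Q) (ξ : Λ → Q)
    (v : Λ → List (S × Bool)) (hv : ∀ l, v l ≠ []) (A : Finset (Λ × Q)) (s₀ : Λ × Q)
    (hA : A.Nonempty) (hs : s₀ ∉ A) :
    ∃ s ∈ A, ∃ y ∈ letters (lft s.1 φ (ξ s.1) s.2 (v s.1)),
      y ∉ letters (lft s₀.1 φ (ξ s₀.1) s₀.2 (v s₀.1)) ∧
      ∀ t ∈ A, t ≠ s → y ∉ letters (lft t.1 φ (ξ t.1) t.2 (v t.1)) := by
  classical
  obtain ⟨a, ha⟩ := hA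
  set P : Finset Q := (lab φ (ξ a.1) (v a.1)).toFinset with hP
  have hPne : P.Nonempty := by
    have h1 : lab φ (ξ a.1) (v a.1) ≠ [] := by
      intro h
      have h2 := length_lab φ (ξ a.1) (v a.1)
      rw [h, List.length_nil] at h2
      exact hv a.1 (List.length_eq_zero_iff.1 h2.symm)
    obtain ⟨p, hp⟩ := List.exists_mem_of_ne_nil _ h1
    exact ⟨p, List.mem_toFinset.2 hp⟩
  -- the elements of `A` over `a.1`
  set T : Finset Q := (A.filter fun t => t.1 = a.1).image Prod.snd with hT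
  have hmemT : ∀ q, q ∈ T ↔ (a.1, q) ∈ A := by
    intro q
    rw [hT, Finset.mem_image]
    constructor
    · rintro ⟨t, ht, rfl⟩
      rw [Finset.mem_filter] at ht
      rw [← ht.2]
      exact ht.1
    · intro h
      exact ⟨(a.1, q), Finset.mem_filter.2 ⟨h, rfl⟩, rfl⟩
  have haT : a.2 ∈ T := (hmemT _).2 ha
  -- membership in the letters
  have hlet : ∀ (t : Λ × Q) (p q : Q), ((a.1, p * q) : Λ × Q) ∈
      letters (lft t.1 φ (ξ t.1) t.2 (v t.1)) → t.1 = a.1 ∧ ∃ p' ∈ P, p * q = p' * t.2 := by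
    intro t p q h
    rw [letters_lft] at h
    obtain ⟨p', hp', h1⟩ := h
    obtain ⟨h2, h3⟩ := Prod.mk.inj h1
    refine ⟨h2.symm, p', ?_, h3⟩
    rw [hP, List.mem_toFinset, h2]
    exact hp'
  have hlet' : ∀ p ∈ P, ∀ q, ((a.1, p * q) : Λ × Q) ∈
      letters (lft a.1 φ (ξ a.1) q (v a.1)) := by
    intro p hp q
    rw [letters_lft]
    exact ⟨p, List.mem_toFinset.1 hp, rfl⟩
  by_cases h0 : s₀.1 = a.1
  · have hs0 : s₀.2 ∉ T := by
      rw [hmemT, ← h0]
      exact hs
    obtain ⟨t, ht, p, hp, h1, h2⟩ := hQ P T s₀.2 hPne ⟨a.2, haT⟩ hs0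
    refine ⟨(a.1, t), (hmemT t).1 ht, (a.1, p * t), hlet' p hp t, ?_, ?_⟩
    · intro h
      obtain ⟨_, p', hp', h3⟩ := hlet s₀ p t h
      exact h1 p' hp' h3
    · intro u hu hne h
      obtain ⟨h3, p', hp', h4⟩ := hlet u p t h
      have h5 : u.2 ∈ T := by
        rw [hmemT, ← h3]
        exact hu
      refine h2 u.2 h5 (fun h6 => hne (Prod.ext h3 h6)) p' hp' h4
  · by_cases hT1 : (T.erase a.2).Nonempty
    · obtain ⟨t, ht, p, hp, h1, h2⟩ := hQ P (T.erase a.2) a.2 hPne hT1 (Finset.notMem_erase _ _)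
      have ht' : t ∈ T := Finset.mem_of_mem_erase ht
      refine ⟨(a.1, t), (hmemT t).1 ht', (a.1, p * t), hlet' p hp t, ?_, ?_⟩
      · intro h
        exact h0 (hlet s₀ p t h).1
      · intro u hu hne h
        obtain ⟨h3, p', hp', h4⟩ := hlet u p t h
        have h5 : u.2 ∈ T := by
          rw [hmemT, ← h3]
          exact hu
        by_cases h6 : u.2 = a.2
        · rw [h6] at h4
          exact h1 p' hp' h4
        · exact h2 u.2 (Finset.mem_erase.2 ⟨h6, h5⟩) (fun h7 => hne (Prod.ext h3 h7)) p' hp' h4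
    · obtain ⟨p, hp⟩ := hPne
      refine ⟨(a.1, a.2), ha, (a.1, p * a.2), hlet' p hp a.2, ?_, ?_⟩
      · intro h
        exact h0 (hlet s₀ p a.2 h).1
      · intro u hu hne h
        obtain ⟨h3, p', hp', h4⟩ := hlet u p a.2 h
        have h5 : u.2 ∈ T := by
          rw [hmemT, ← h3]
          exact hu
        refine hT1 ⟨u.2, Finset.mem_erase.2 ⟨fun h6 => hne (Prod.ext h3 h6), h5⟩⟩

/-- **Cover theorem.** -/
theorem cover (n : ℕ) (hM : ∀ m < n, MM m) {B Λ G Q : Type} [Group B] [Group G]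
    [Group Q] (hB : FEC B) (hQ : FEC Q) (v : Λ → List (B × Bool)) (hv : ∀ l, Good (v l))
    (ι : B →* G) (x : Λ → G) (hG : IsPres v ι x) (f : G →* Q)
    (hsep : ∀ l, Sep n (f.comp ι) (f (x l)) (v l)) : Injective ι ∧ FEC G := by
  let r : Λ × Q → List (B × (Λ × Q) × Bool) := fun t =>
    lft t.1 (f.comp ι) (f (x t.1)) t.2 (v t.1)
  have hflat : ∀ t, flat (r t) = v t.1 := fun t => flat_lft _ _ _ _ _
  have hlenr : ∀ t, (r t).length = (v t.1).length := by
    intro t
    rw [← hflat t, flat, List.length_map]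
  have hlen : ∀ t, (r t).length < n ∨
      ((r t).length = n ∧ ∃ l ∈ letters (r t), ∃ l' ∈ letters (r t), l ≠ l') := by
    intro t
    rcases hsep t.1 with h | ⟨h, p, hp, p', hp', hne⟩
    · exact Or.inl (by rw [hlenr t]; exact h)
    · refine Or.inr ⟨by rw [hlenr t]; exact h, (t.1, p * t.2), ?_, (t.1, p' * t.2), ?_, ?_⟩
      · show (t.1, p * t.2) ∈ letters (lft t.1 (f.comp ι) (f (x t.1)) t.2 (v t.1))
        rw [letters_lft]
        exact ⟨p, hp, rfl⟩
      · show (t.1, p' * t.2) ∈ letters (lft t.1 (f.comp ι) (f (x t.1)) t.2 (v t.1))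
        rw [letters_lft]
        exact ⟨p', hp', rfl⟩
      · intro h'
        exact hne (mul_right_cancel (congrArg Prod.snd h'))
  have hpriv : ∀ (A : Finset (Λ × Q)) (s₀ : Λ × Q), A.Nonempty → s₀ ∉ A →
      ∃ s ∈ A, ∃ y ∈ letters (r s), y ∉ letters (r s₀) ∧
        ∀ t ∈ A, t ≠ s → y ∉ letters (r t) := fun A s₀ hA hs =>
    private_letter hQ.up (f.comp ι) (fun l => f (x l)) v (fun l => (hv l).1) A s₀ hA hs
  obtain ⟨hU, hinj⟩ := collapse n hM hB r (fun t => by rw [hflat]; exact hv _) hlen hpriv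
  let N := relN r Set.univ
  let U := Phi B (Λ × Q) ⧸ N
  let j : Phi B (Λ × Q) →* U := QuotientGroup.mk' N
  let β : B →* U := j.comp (Phi.inl B (Λ × Q))
  let X : Λ × Q → U := fun t => j (Phi.let B t)
  have hval : ∀ t, mev β X (r t) = 1 := by
    intro t
    have h1 : mev β X (r t) = j (Phi.val (r t)) := by
      rw [Phi.val, map_mev]
      rfl
    rw [h1]
    refine (QuotientGroup.eq_one_iff _).2 ?_
    exact Subgroup.subset_normalClosure ⟨t, Set.mem_univ _, rfl⟩
  -- the homomorphism to the wreath product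
  let φ : B →* Wr U Q :=
    { toFun := fun b => ⟨fun _ => β b, f (ι b)⟩
      map_one' := by ext q <;> simp
      map_mul' := fun a b => by ext q <;> simp }
  let Z : Λ → Wr U Q := fun l => ⟨fun q => X (l, q), f (x l)⟩
  have hrel : ∀ l, ev φ (Z l) (v l) = 1 := by
    intro l
    have h1 := ev_wr l (f.comp ι) (f (x l)) β X (v l)
    have h2 : ev φ (Z l) (v l) = ⟨fun q => mev β X (lft l (f.comp ι) (f (x l)) q (v l)),
        ev (f.comp ι) (f (x l)) (v l)⟩ := h1
    rw [h2]
    ext q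
    · exact hval (l, q)
    · show ev (f.comp ι) (f (x l)) (v l) = 1
      have h3 : ev (f.comp ι) (f (x l)) (v l) = f (ev ι (x l) (v l)) := by
        rw [map_ev]
        rfl
      rw [h3, hG.rel, map_one]
  obtain ⟨F, hF1, hF2⟩ := hG.lift (Wr U Q) φ Z hrel
  -- the homomorphism back
  let p0 : Phi B (Λ × Q) →* G := Phi.lift ι fun t => x t.1
  have hker : N ≤ p0.ker := by
    refine Subgroup.normalClosure_le_normal ?_
    rintro _ ⟨t, _, rfl⟩
    show p0 (Phi.val (r t)) = 1
    rw [Phi.lift_val]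
    have h1 : mev (ι : B → G) (fun s : Λ × Q => x s.1) (r t) =
        mev (ι : B → G) (fun _ => x t.1) (r t) := by
      refine mev_congr _ _ _ _ fun s hs => ?_
      have h2 : s ∈ letters (lft t.1 (f.comp ι) (f (x t.1)) t.2 (v t.1)) := hs
      rw [letters_lft] at h2
      obtain ⟨p, _, rfl⟩ := h2
      rfl
    rw [h1, mev_const, hflat, hG.rel]
  let π : U →* G := QuotientGroup.lift N p0 hker
  have hπβ : ∀ b, π (β b) = ι b := fun b => Phi.lift_inl ι (fun t : Λ × Q => x t.1) b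
  have hπX : ∀ t, π (X t) = x t.1 := fun t => Phi.lift_let ι (fun t : Λ × Q => x t.1) t
  have hcomp : (Wr.map (Q := Q) π).comp F = Wr.diag f (fun _ => (1 : G)) := by
    refine hG.ext (Wr G Q) _ _ ?_ ?_
    · ext b q
      · have h1 : F (ι b) = φ b := congrArg (fun g : B →* Wr U Q => g b) hF1
        show π ((F (ι b)).c q) = (1 : G)⁻¹ * ι b * 1
        rw [h1, inv_one, one_mul, mul_one]
        exact hπβ b
      · have h1 : F (ι b) = φ b := congrArg (fun g : B →* Wr U Q => g b) hF1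
        show (F (ι b)).g = f (ι b)
        rw [h1]
        rfl
    · intro l
      ext q
      · show π ((F (x l)).c q) = (1 : G)⁻¹ * x l * 1
        rw [hF2, inv_one, one_mul, mul_one]
        exact hπX (l, q)
      · show (F (x l)).g = f (x l)
        rw [hF2]
  refine ⟨?_, ?_⟩
  · rw [injective_iff_map_eq_one]
    intro b hb
    have h1 : F (ι b) = φ b := congrArg (fun g : B →* Wr U Q => g b) hF1
    rw [hb, map_one] at h1
    have h2 : β b = 1 := (congrFun (congrArg Wr.c h1) 1).symm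
    exact (injective_iff_map_eq_one _).1 hinj b h2
  · refine FEC.of_wr F π (fun _ => (1 : G)) (fun g q => ?_) hQ hU
    have h1 := congrArg (fun k : G →* Wr G Q => (k g).c q) hcomp
    exact h1

end Pool.Agent.OR
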