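import Mathlib

/-!
# The class of groups generated by the free groups under extensions and directed colimits

Definitions: the class `FEC`, words over a group in one letter, good words, positions of letters,
presentations (by their universal property), star groups, classes of words.
-/

set_option autoImplicit false

namespace Pool.Agent.OR

/-- The smallest class of groups which contains all free groups and is closed under extensions and
under directed colimits (with arbitrary transition homomorphisms). -/
inductive FEC : (G : Type) → [Group G] → Prop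
  /-- free groups -/
  | free (X : Type) : FEC (FreeGroup X)
  /-- extensions: `f : G → Q` is surjective and `Q` and the kernel of `f` are in the class -/
  | extension {G Q : Type} [Group G] [Group Q] (f : G →* Q) (hf : Function.Surjective f)
      (hQ : FEC Q) (hK : FEC f.ker) : FEC G
  /-- directed colimits: `L` is the colimit of the directed system `(G i, f i j)` with canonical
  maps `g i` -/
  | colimit {ι : Type} [Preorder ι] [IsDirectedOrder ι] [Nonempty ι]
      (G : ι → Type) [∀ i, Group (G i)] (f : ∀ i j, i ≤ j → G i →* G j)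
      {L : Type} [Group L] (g : ∀ i, G i →* L)
      (h1 : ∀ i x, f i i le_rfl x = x)
      (h2 : ∀ i j k (hij : i ≤ j) (hjk : j ≤ k) x,
        f j k hjk (f i j hij x) = f i k (hij.trans hjk) x)
      (h3 : ∀ i j (hij : i ≤ j) x, g j (f i j hij x) = g i x)
      (h4 : ∀ y, ∃ i x, g i x = y)
      (h5 : ∀ i x, g i x = 1 → ∃ j, ∃ hij : i ≤ j, f i j hij x = 1)
      (h : ∀ i, FEC (G i)) : FEC L

/-! ### Words -/

section words

variable {S B G : Type}

/-- `y` or its inverse. -/
def sg [Group G] (e : Bool) (y : G) : G := if e then y else y⁻¹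

/-- The value of the word `w` (a list of pairs: syllable, sign of the letter after it) for the
syllable values `φ` and the value `y` of the letter. -/
def ev [Group G] (φ : S → G) (y : G) (w : List (S × Bool)) : G :=
  (w.map fun p => φ p.1 * sg p.2 y).prod

/-- The positions of the letters of a word, from left to right: the position of a letter is the
value of the part of the word to the right of it, times the inverse letter for an inverse
letter. -/
def lab [Group G] (φ : S → G) (y : G) : List (S × Bool) → List G
  | [] => []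
  | p :: w => (if p.2 then ev φ y w else y⁻¹ * ev φ y w) :: lab φ y w

/-- The word has less than `n` letters, or it has `n` letters and they are not all at the same
position. -/
def Sep [Group G] (n : ℕ) (φ : S → G) (y : G) (w : List (S × Bool)) : Prop :=
  w.length < n ∨ (w.length = n ∧ ∃ p ∈ lab φ y w, ∃ q ∈ lab φ y w, p ≠ q)

/-- Consecutive letters: no cancellation. -/
def Adj [Group B] (p q : B × Bool) : Prop := p.2 ≠ q.2 → q.1 ≠ 1

/-- Cyclically reduced words. -/
def CR [Group B] (w : List (B × Bool)) : Prop := (w ++ w).IsChain Adj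

/-- Lists which are not proper powers. -/
def NP {α : Type} (w : List α) : Prop :=
  ∀ (u : List α) (k : ℕ), 2 ≤ k → w ≠ (List.replicate k u).flatten

/-- Good words: non-empty, cyclically reduced, not a proper power. -/
def Good [Group B] (w : List (B × Bool)) : Prop := w ≠ [] ∧ CR w ∧ NP w

end words

/-! ### Presentations over a base group -/

/-- `G` is the group generated by `B` (via `ι`) and letters `x l` with the relators
`v l = 1`, where `v l` is a word over `B` in the letter `x l`. -/
structure IsPres {B Λ G : Type} [Group B] [Group G] (v : Λ → List (B × Bool)) (ι : B →* G)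
    (x : Λ → G) : Prop where
  rel : ∀ l, ev ι (x l) (v l) = 1
  ext : ∀ (H : Type) [Group H] (f g : G →* H), f.comp ι = g.comp ι →
    (∀ l, f (x l) = g (x l)) → f = g
  lift : ∀ (H : Type) [Group H] (φ : B →* H) (z : Λ → H), (∀ l, ev φ (z l) (v l) = 1) →
    ∃ f : G →* H, f.comp ι = φ ∧ ∀ l, f (x l) = z l

/-- The induction statement: for every good word `w` of length `n` over a group `L` of the class
`FEC`, the group `L` embeds into `(L * ⟨x⟩)/⟨⟨w⟩⟩`, which is again in the class. -/
def MM (n : ℕ) : Prop :=
  ∀ (L G : Type) [Group L] [Group G], FEC L → ∀ w : List (L × Bool), w.length = n → Good w →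
    ∀ (ι : L →* G) (x : G), IsPres (fun _ : Unit => w) ι (fun _ => x) →
      Function.Injective ι ∧ FEC G

/-! ### Star groups -/

/-- `G` is the star group with centre `L` and leaves copies of `M` indexed by `Ω`: it is generated
by `L`, the copies of `M` and letters `y ω`, with the relators `w ω`, a word over `L` and the
`ω`-th copy of `M` in the letter `y ω`. -/
structure IsStar {L M Ω G : Type} [Group L] [Group M] [Group G]
    (w : Ω → List ((L ⊕ M) × Bool)) (ι : L →* G) (μ : Ω → M →* G) (y : Ω → G) : Prop where
  rel : ∀ o, ev (Sum.elim ι (μ o)) (y o) (w o) = 1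
  ext : ∀ (H : Type) [Group H] (f g : G →* H), f.comp ι = g.comp ι →
    (∀ o, f.comp (μ o) = g.comp (μ o)) → (∀ o, f (y o) = g (y o)) → f = g
  lift : ∀ (H : Type) [Group H] (φ : L →* H) (ψ : Ω → M →* H) (z : Ω → H),
    (∀ o, ev (Sum.elim φ (ψ o)) (z o) (w o) = 1) →
      ∃ f : G →* H, f.comp ι = φ ∧ (∀ o, f.comp (μ o) = ψ o) ∧ ∀ o, f (y o) = z o

/-- The conclusion for a star group: centre and leaves embed and the group is in the class. -/
def Concl {L M Ω G : Type} [Group L] [Group M] [Group G] (ι : L →* G) (μ : Ω → M →* G) : Prop :=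
  Function.Injective ι ∧ (∀ o, Function.Injective (μ o)) ∧ FEC G

section classes

variable {L L' M B Q : Type} [Group L] [Group L'] [Group M] [Group B] [Group Q]

/-- A word over `L` and `M` as a word over `B`. -/
def wmap (φ : L → B) (ψ : M → B) (w : List ((L ⊕ M) × Bool)) : List (B × Bool) :=
  w.map fun p => (Sum.elim φ ψ p.1, p.2)

/-- Change of the centre of a word. -/
def cmap (g : L → L') (w : List ((L ⊕ M) × Bool)) : List ((L' ⊕ M) × Bool) :=
  w.map fun p => (Sum.map g id p.1, p.2)

/-- The words `w` and `w'` are equivalent by the substitution `y ↦ y c` (and a conjugation). -/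
def Equi (w w' : List ((L ⊕ M) × Bool)) (c : L) : Prop :=
  ∀ (H : Type) [Group H] (φ : L →* H) (ψ : M →* H) (y : H),
    ev (Sum.elim φ ψ) y w = 1 ↔ ev (Sum.elim φ ψ) (y * φ c) w' = 1

/-- All centre syllables are in the kernel of `g`. -/
def TypeZ (g : L →* Q) (w : List ((L ⊕ M) × Bool)) : Prop :=
  ∀ (a : L) (e : Bool), (Sum.inl a, e) ∈ w → g a = 1

/-- Killing the leaf and the letter gives a separated solution of `w` over `Q`. -/
def TypeY (n : ℕ) (g : L →* Q) (w : List ((L ⊕ M) × Bool)) : Prop :=
  ev (Sum.elim g (1 : M →* Q)) 1 w = 1 ∧ Sep n (Sum.elim g (1 : M →* Q)) 1 w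

/-- Every solution of the word `w'` over an overgroup of `Q` and `M` is a separated solution
of `w`. -/
def TypeI (n : ℕ) (g : L →* Q) (w : List ((L ⊕ M) × Bool)) (w' : List ((Q ⊕ M) × Bool)) : Prop :=
  ∀ (H : Type) [Group H] (φ : Q →* H) (ψ : M →* H) (y : H),
    ev (Sum.elim φ ψ) y w' = 1 →
      ev (Sum.elim (φ.comp g) ψ) y w = 1 ∧
      (Function.Injective φ → Function.Injective ψ → Sep n (Sum.elim (φ.comp g) ψ) y w)

end classes

/-- A class of words over all groups `L` and the fixed group `M`, with the properties needed for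
the structural induction over the centre. -/
structure WClass (n : ℕ) (M : Type) [Group M] where
  /-- the words of the class -/
  adm : ∀ {L : Type} [Group L], List ((L ⊕ M) × Bool) → Prop
  len : ∀ {L : Type} [Group L] (w : List ((L ⊕ M) × Bool)), adm w → w.length ≤ n
  good : ∀ {L B : Type} [Group L] [Group B] (φ : L →* B) (ψ : M →* B), Function.Injective φ →
    Function.Injective ψ → ∀ w, adm w → Good (wmap φ ψ w)
  refl : ∀ {L L' : Type} [Group L] [Group L'] (g : L →* L') (w : List ((L ⊕ M) × Bool)),
    adm (cmap g w) → adm w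
  step : ∀ {L Q : Type} [Group L] [Group Q] (g : L →* Q) (w : List ((L ⊕ M) × Bool)), adm w →
    ∃ (w' : List ((L ⊕ M) × Bool)) (c : L), adm w' ∧ Equi w w' c ∧
      (TypeZ g w' ∨ TypeY n g w' ∨ ∃ w'' : List ((Q ⊕ M) × Bool), adm w'' ∧ TypeI n g w' w'')
  res : ∀ {L : Type} [Group L] (w : List ((L ⊕ M) × Bool)), adm w →
    ∃ (w' : List ((L ⊕ M) × Bool)) (c : L) (E : Set L), adm w' ∧ Equi w w' c ∧ E.Finite ∧
      (1 : L) ∉ E ∧ ∀ {Q : Type} [Group Q] (g : L →* Q), (∀ e ∈ E, g e ≠ 1) →
        ∃ w'' : List ((Q ⊕ M) × Bool), adm w'' ∧ TypeI n g w' w''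

/-- The conclusion holds for all star groups with centre `L` and words of the class `C`. -/
def WClass.P {n : ℕ} {M : Type} [Group M] (C : WClass n M) (L : Type) [Group L] : Prop :=
  ∀ (Ω G : Type) [Group G] (w : Ω → List ((L ⊕ M) × Bool)) (ι : L →* G) (μ : Ω → M →* G)
    (y : Ω → G), (∀ o, C.adm (w o)) → IsStar w ι μ y → Concl ι μ

/-- The conclusion holds for all star groups with centre `L`, finitely many leaves and words of
the class `C`. -/
def WClass.Pfin {n : ℕ} {M : Type} [Group M] (C : WClass n M) (L : Type) [Group L] : Prop :=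
  ∀ (Ω G : Type) [Finite Ω] [Group G] (w : Ω → List ((L ⊕ M) × Bool)) (ι : L →* G)
    (μ : Ω → M →* G) (y : Ω → G), (∀ o, C.adm (w o)) → IsStar w ι μ y → Concl ι μ

end Pool.Agent.OR
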