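import Pool.Agent.Lib.MP_98022b_or.Pres
import Pool.Agent.Lib.MP_98022b_or.Wr

/-!
# Star groups all of whose words are over the kernel of a homomorphism of the centre
-/

set_option autoImplicit false

namespace Pool.Agent.OR

open Function

namespace ZL

variable {L M Q V G : Type} [Group L] [Group M] [Group Q] [Group V] [Group G]

/-- The element `t(g(a) q)⁻¹ a t(q)` of the kernel. -/
def kap (g : L →* Q) (t : Q → L) (ht : ∀ q, g (t q) = q) (a : L) (q : Q) : g.ker :=
  ⟨(t (g a * q))⁻¹ * a * t q, by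
    rw [MonoidHom.mem_ker, map_mul, map_mul, map_inv, ht, ht]
    group⟩

open Classical in
/-- Conjugation by `t q` on the kernel (and `1` outside of it). -/
noncomputable def tau (g : L →* Q) (t : Q → L) (q : Q) (a : L) : g.ker :=
  if h : g a = 1 then ⟨(t q)⁻¹ * a * t q, by
    rw [MonoidHom.mem_ker, map_mul, map_mul, map_inv, h]
    group⟩ else 1

theorem tau_coe (g : L →* Q) (t : Q → L) (q : Q) {a : L} (h : g a = 1) :
    ((tau g t q a : g.ker) : L) = (t q)⁻¹ * a * t q := by
  unfold tau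
  rw [dif_pos h]

theorem kap_eq_tau (g : L →* Q) (t : Q → L) (ht : ∀ q, g (t q) = q) {a : L} (h : g a = 1) (q : Q) :
    kap g t ht a q = tau g t q a := by
  apply Subtype.ext
  rw [tau_coe g t q h]
  unfold kap
  simp only
  rw [h, one_mul]

/-- The homomorphism of the centre. -/
def phi (g : L →* Q) (t : Q → L) (ht : ∀ q, g (t q) = q) (i : g.ker →* V) : L →* Wr V Q :=
  MonoidHom.mk' (fun a => ⟨fun q => i (kap g t ht a q), g a⟩) (by
    intro a b
    ext q
    · rw [Wr.mul_c]
      simp only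
      rw [← map_mul]
      congr 1
      apply Subtype.ext
      rw [Subgroup.coe_mul]
      unfold kap
      simp only
      rw [map_mul, mul_assoc (g a) (g b) q]
      group
    · rw [Wr.mul_g, map_mul])

/-- The homomorphism of a leaf. -/
def psi (m : Q → M →* V) : M →* Wr V Q :=
  MonoidHom.mk' (fun a => ⟨fun q => m q a, 1⟩) (by
    intro a b
    ext q
    · rw [Wr.mul_c]
      simp only
      rw [one_mul, map_mul]
    · rw [Wr.mul_g, one_mul])

theorem sg_g {z : Wr V Q} (hz : z.g = 1) (e : Bool) : (sg e z).g = 1 := by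
  cases e
  · rw [sg_false, Wr.inv_g, hz, inv_one]
  · exact hz

theorem sg_c {z : Wr V Q} (hz : z.g = 1) (e : Bool) (q : Q) : (sg e z).c q = sg e (z.c q) := by
  cases e
  · rw [sg_false, sg_false, Wr.inv_c, hz, inv_one, one_mul]
  · rfl

/-- Evaluation of a word over the kernel in the wreath product. -/
theorem ev_wr (g : L →* Q) (t : Q → L) (ht : ∀ q, g (t q) = q) (i : g.ker →* V) (m : Q → M →* V)
    (z : Q → V) (w : List ((L ⊕ M) × Bool)) (hw : TypeZ g w) :
    (ev (Sum.elim (phi g t ht i) (psi m)) (⟨z, 1⟩ : Wr V Q) w).g = 1 ∧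
      ∀ q, (ev (Sum.elim (phi g t ht i) (psi m)) (⟨z, 1⟩ : Wr V Q) w).c q =
        ev (Sum.elim i (m q)) (z q) (cmap (tau g t q) w) := by
  induction w with
  | nil => exact ⟨rfl, fun q => rfl⟩
  | cons p w ih =>
    have hw' : TypeZ g w := fun a e h => hw a e (List.mem_cons_of_mem _ h)
    obtain ⟨h1, h2⟩ := ih hw'
    obtain ⟨p1, e⟩ := p
    have hz : (⟨z, 1⟩ : Wr V Q).g = 1 := rfl
    have key : (Sum.elim (phi g t ht i) (psi m) p1 : Wr V Q).g = 1 ∧
        ∀ q, (Sum.elim (phi g t ht i) (psi m) p1 : Wr V Q).c q =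
          Sum.elim i (m q) (Sum.map (tau g t q) id p1) := by
      cases p1 with
      | inl a =>
        have ha : g a = 1 := hw a e List.mem_cons_self
        refine ⟨ha, fun q => ?_⟩
        show i (kap g t ht a q) = i (tau g t q a)
        rw [kap_eq_tau g t ht ha]
      | inr a => exact ⟨rfl, fun q => rfl⟩
    constructor
    · rw [ev_cons, Wr.mul_g, Wr.mul_g, h1]
      simp only
      rw [key.1, sg_g hz]
      simp
    · intro q
      have e2 : cmap (tau g t q) ((p1, e) :: w) =
          (Sum.map (tau g t q) id p1, e) :: cmap (tau g t q) w := rfl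
      rw [e2, ev_cons, ev_cons, Wr.mul_c, Wr.mul_c, h1, one_mul, h2 q]
      simp only
      rw [sg_g hz, one_mul, key.2 q, sg_c hz]

omit [Group M] in
/-- The twisted words are admissible. -/
theorem cmap_tau (g : L →* Q) (t : Q → L) (q : Q) (w : List ((L ⊕ M) × Bool)) (hw : TypeZ g w) :
    cmap (fun k : g.ker => t q * (k : L) * (t q)⁻¹) (cmap (tau g t q) w) = w := by
  unfold cmap
  rw [List.map_map]
  conv_rhs => rw [← List.map_id w]
  refine List.map_congr_left fun p hp => ?_
  obtain ⟨p1, e⟩ := p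
  cases p1 with
  | inl a =>
    have ha : g a = 1 := hw a e hp
    simp only [Function.comp, Sum.map_inl, id]
    rw [tau_coe g t q ha]
    have : t q * ((t q)⁻¹ * a * t q) * (t q)⁻¹ = a := by group
    rw [this]
  | inr a => rfl

end ZL

/-- Let `g : L → Q` be surjective with kernel `K`, and let all words of the star group `G` have
their centre syllables in `K`. If the conclusion holds for all star groups with centre `K`, then
it holds for `G`.

Proof. Choose a section `t : Q → L` with `t 1 = 1`. Let `V` be the star group with centre `K`,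
index set `Ω × Q` and words `w_{o,q}`: the word `w o` with each centre syllable `a` replaced by
`(t q)⁻¹ a (t q) ∈ K` (they are admissible by `C.refl` for the homomorphism
`K → L, k ↦ (t q) k (t q)⁻¹`). The homomorphism `G → Wr V Q`, `a ↦ (q ↦ t(g(a) q)⁻¹ a t(q), g a)`
for `a ∈ L`, `m_o ↦ (q ↦ m_{o,q}, 1)`, `y_o ↦ (q ↦ y_{o,q}, 1)` and `π : V → G`,
`k ↦ k`, `m_{o,q} ↦ t(q)⁻¹ m_o t(q)`, `y_{o,q} ↦ t(q)⁻¹ y_o t(q)` satisfy the assumption of
`FEC.of_wr` with `s = ι ∘ t`. -/
theorem z_lemma {n : ℕ} {M : Type} [Group M] (C : WClass n M) {L Q Ω G : Type} [Group L]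
    [Group Q] [Group G] (g : L →* Q) (hg : Surjective g) (hQ : FEC Q) (hP : C.P g.ker)
    {w : Ω → List ((L ⊕ M) × Bool)} {ι : L →* G} {μ : Ω → M →* G} {y : Ω → G}
    (hw : ∀ o, C.adm (w o)) (hz : ∀ o, TypeZ g (w o)) (h : IsStar w ι μ y) :
    Concl ι μ := by
  classical
  obtain ⟨t, ht⟩ := hg.hasRightInverse
  have ht : ∀ q, g (t q) = q := ht
  obtain ⟨V, _, ιV, μV, yV, hV⟩ := exists_star
    (fun oq : Ω × Q => cmap (ZL.tau g t oq.2) (w oq.1))
  have hadm : ∀ oq : Ω × Q, C.adm (cmap (ZL.tau g t oq.2) (w oq.1)) := by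
    rintro ⟨o, q⟩
    refine C.refl ((MulAut.conj (t q)).toMonoidHom.comp g.ker.subtype) _ ?_
    have e := ZL.cmap_tau (M := M) g t q (w o) (hz o)
    have e2 : cmap (⇑((MulAut.conj (t q)).toMonoidHom.comp g.ker.subtype))
        (cmap (ZL.tau g t q) (w o)) = w o := by
      conv_rhs => rw [← e]
      rfl
    rw [e2]
    exact hw o
  obtain ⟨iV, jV, fV⟩ := hP (Ω × Q) V _ ιV μV yV hadm hV
  -- the homomorphism to the wreath product
  obtain ⟨F, F1, F2, F3⟩ := h.lift (Wr V Q) (ZL.phi g t ht ιV) (fun o => ZL.psi fun q => μV (o, q))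
    (fun o => ⟨fun q => yV (o, q), 1⟩) (by
      intro o
      obtain ⟨h1, h2⟩ := ZL.ev_wr g t ht ιV (fun q => μV (o, q)) (fun q => yV (o, q)) (w o) (hz o)
      ext q
      · rw [h2 q]
        exact hV.rel (o, q)
      · exact h1)
  -- the homomorphism back
  obtain ⟨π, P1, P2, P3⟩ := hV.lift G (ι.comp g.ker.subtype)
    (fun oq => (MulAut.conj (ι (t oq.2))⁻¹).toMonoidHom.comp (μ oq.1))
    (fun oq => (MulAut.conj (ι (t oq.2))⁻¹) (y oq.1)) (by
      rintro ⟨o, q⟩
      have e1 : ev (Sum.elim (ι.comp g.ker.subtype)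
          ((MulAut.conj (ι (t q))⁻¹).toMonoidHom.comp (μ o)))
          ((MulAut.conj (ι (t q))⁻¹) (y o)) (cmap (ZL.tau g t q) (w o)) =
          ev ((MulAut.conj (ι (t q))⁻¹).toMonoidHom ∘ Sum.elim ι (μ o))
            ((MulAut.conj (ι (t q))⁻¹).toMonoidHom (y o)) (w o) := by
        unfold cmap
        rw [ev_map]
        refine ev_congr _ _ _ _ fun p hp => ?_
        obtain ⟨p1, e⟩ := p
        cases p1 with
        | inl a =>
          have ha : g a = 1 := hz o a e hp
          simp only [Function.comp, Sum.map_inl, Sum.elim_inl, MonoidHom.coe_comp,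
            Subgroup.coe_subtype]
          rw [ZL.tau_coe g t q ha]
          simp
        | inr a => rfl
      have e2 := map_ev (MulAut.conj (ι (t q))⁻¹).toMonoidHom (Sum.elim ι (μ o)) (y o) (w o)
      rw [h.rel o, map_one] at e2
      exact e1.trans e2.symm)
  have hF : ∀ a, F (ι a) = ZL.phi g t ht ιV a := fun a => DFunLike.congr_fun F1 a
  have hF2 : ∀ o a, F (μ o a) = ZL.psi (fun q => μV (o, q)) a :=
    fun o a => DFunLike.congr_fun (F2 o) a
  have hcomp : (Wr.map π).comp F = Wr.diag (Wr.proj.comp F) (fun q => ι (t q)) := by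
    refine h.ext _ _ _ ?_ ?_ ?_
    · ext a q
      · show π ((F (ι a)).c q) = (ι (t ((F (ι a)).g * q)))⁻¹ * ι a * ι (t q)
        rw [hF]
        show π (ιV (ZL.kap g t ht a q)) = (ι (t (g a * q)))⁻¹ * ι a * ι (t q)
        have := DFunLike.congr_fun P1 (ZL.kap g t ht a q)
        rw [MonoidHom.comp_apply] at this
        rw [this]
        show ι ((t (g a * q))⁻¹ * a * t q) = _
        rw [map_mul, map_mul, map_inv]
      · rfl
    · intro o
      ext a q
      · show π ((F (μ o a)).c q) = (ι (t ((F (μ o a)).g * q)))⁻¹ * μ o a * ι (t q)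
        rw [hF2]
        show π (μV (o, q) a) = (ι (t (1 * q)))⁻¹ * μ o a * ι (t q)
        have := DFunLike.congr_fun (P2 (o, q)) a
        rw [MonoidHom.comp_apply] at this
        rw [this, one_mul]
        simp
      · rfl
    · intro o
      ext q
      · show π ((F (y o)).c q) = (ι (t ((F (y o)).g * q)))⁻¹ * y o * ι (t q)
        rw [F3]
        show π (yV (o, q)) = (ι (t (1 * q)))⁻¹ * y o * ι (t q)
        rw [P3 (o, q), one_mul]
        simp
      · rfl
  refine ⟨?_, ?_, ?_⟩
  · rw [injective_iff_map_eq_one]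
    intro a ha
    have h1 : ZL.phi g t ht ιV a = 1 := by rw [← hF, ha, map_one]
    have h2 : g a = 1 := congrArg Wr.g h1
    have h3 : ιV (ZL.kap g t ht a 1) = 1 := congrFun (congrArg Wr.c h1) 1
    have h4 : ZL.kap g t ht a 1 = 1 := iV (by rw [h3, map_one])
    rw [ZL.kap_eq_tau g t ht h2] at h4
    have h5 := ZL.tau_coe g t 1 h2
    rw [h4, Subgroup.coe_one] at h5
    have h6 : a = t 1 * ((t 1)⁻¹ * a * t 1) * (t 1)⁻¹ := by group
    rw [h6, ← h5]
    group
  · intro o
    rw [injective_iff_map_eq_one]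
    intro a ha
    have h1 : ZL.psi (fun q => μV (o, q)) a = 1 := by rw [← hF2, ha, map_one]
    have h3 : μV (o, (1 : Q)) a = 1 := congrFun (congrArg Wr.c h1) 1
    exact jV (o, 1) (by rw [h3, map_one])
  · refine FEC.of_wr F π (fun q => ι (t q)) (fun x q => ?_) hQ fV
    have := congrFun (congrArg Wr.c (DFunLike.congr_fun hcomp x)) q
    exact this

end Pool.Agent.OR
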