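import Pool.Agent.Lib.MP_98022b_or.StarCT
import Pool.Agent.Lib.MP_98022b_or.ZLemma

/-!
# Structural induction over the centre: extensions and injective homomorphisms
-/

set_option autoImplicit false

namespace Pool.Agent.OR

open Function

variable {n : ℕ} {M : Type} [Group M]

/-- Extensions. Given a family of admissible words over `L`, replace the words by equivalent ones
(`C.step` for `g`), let `Z`, `Y`, `I` be the sets of indices of the three types (disjoint by
choice), `G_Z` the star group of the subfamily `Z` (`z_lemma`), `G_I` the star group over `Q` of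
the words given by type `I` (`C.P Q`), `f : G → G_I` the homomorphism given by `g` on the centre,
the identity on leaves and letters of type `I`, trivial on the other leaves and letters. Apply
`star_ct`. -/
theorem WClass.P_extension (C : WClass n M) (hM : ∀ m < n, MM m)
    (hMM : FEC M) {L Q : Type} [Group L] [Group Q] (g : L →* Q) (hg : Surjective g)
    (hQ : FEC Q) (hPQ : C.P Q) (hPK : C.P g.ker) : C.P L := by
  classical
  intro Ω G _ w ι μ y hw h
  choose w' c hadm heq htype using fun o => C.step g (w o) (hw o)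
  have h' : IsStar w' ι μ (fun o => y o * ι (c o)) := h.equi c heq
  set y' : Ω → G := fun o => y o * ι (c o) with hy'
  have hI : ∀ o, ¬ TypeZ g (w' o) → ¬ TypeY n g (w' o) →
      ∃ w'' : List ((Q ⊕ M) × Bool), C.adm w'' ∧ TypeI n g (w' o) w'' := by
    intro o h1 h2
    rcases htype o with h3 | h3 | h3
    · exact absurd h3 h1
    · exact absurd h3 h2
    · exact h3
  -- the part of type `Z`
  obtain ⟨GZ, _, ιZ, μZ, yZ, hZ⟩ := exists_star (fun o : {o | TypeZ g (w' o)} => w' o)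
  have cZ : Concl ιZ μZ := z_lemma C g hg hQ hPK (fun o => hadm o) (fun o => o.2) hZ
  -- the part of type `I`
  obtain ⟨GI, _, ιI, μI, yI, hGI⟩ := exists_star
    (fun o : {o | ¬ TypeZ g (w' o) ∧ ¬ TypeY n g (w' o)} => (hI o o.2.1 o.2.2).choose)
  have cI : Concl ιI μI := hPQ _ GI _ ιI μI yI (fun o => (hI o o.2.1 o.2.2).choose_spec.1) hGI
  obtain ⟨iI, jI, fI⟩ := cI
  have tI : ∀ (o : Ω) (ho : ¬ TypeZ g (w' o) ∧ ¬ TypeY n g (w' o)),
      ev (Sum.elim (ιI.comp g) (μI ⟨o, ho⟩)) (yI ⟨o, ho⟩) (w' o) = 1 ∧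
        Sep n (Sum.elim (ιI.comp g) (μI ⟨o, ho⟩)) (yI ⟨o, ho⟩) (w' o) := by
    intro o ho
    have h1 := (hI o ho.1 ho.2).choose_spec.2 GI ιI (μI ⟨o, ho⟩) (yI ⟨o, ho⟩) (hGI.rel ⟨o, ho⟩)
    exact ⟨h1.1, h1.2 iI (jI _)⟩
  have e0 : (ιI ∘ Sum.elim g (1 : M →* Q) : L ⊕ M → GI) = Sum.elim (ιI.comp g) (1 : M →* GI) := by
    funext p
    cases p with
    | inl a => rfl
    | inr a => simp
  have tY : ∀ o, TypeY n g (w' o) → ev (Sum.elim (ιI.comp g) (1 : M →* GI)) 1 (w' o) = 1 ∧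
      Sep n (Sum.elim (ιI.comp g) (1 : M →* GI)) 1 (w' o) := by
    intro o ho
    constructor
    · have h1 := map_ev ιI (Sum.elim g (1 : M →* Q)) 1 (w' o)
      rw [ho.1, map_one, e0] at h1
      exact h1.symm
    · have h1 := Sep.comp_injective n ιI iI _ _ _ ho.2
      rw [e0, map_one] at h1
      exact h1
  have tZ : ∀ o, TypeZ g (w' o) → ev (Sum.elim (ιI.comp g) (1 : M →* GI)) 1 (w' o) = 1 := by
    intro o ho
    have h1 : ∀ w₀ : List ((L ⊕ M) × Bool), TypeZ g w₀ →
        ev (Sum.elim (ιI.comp g) (1 : M →* GI)) 1 w₀ = 1 := by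
      intro w₀ h2
      induction w₀ with
      | nil => rfl
      | cons p w₀ ih =>
        rw [ev_cons, ih fun a e h3 => h2 a e (List.mem_cons_of_mem _ h3), sg_one]
        obtain ⟨p1, e⟩ := p
        cases p1 with
        | inl a =>
          have h3 : g a = 1 := h2 a e List.mem_cons_self
          simp [h3]
        | inr a => simp
    exact h1 _ ho
  -- the homomorphism
  obtain ⟨f, f1, f2, f3⟩ := h'.lift GI (ιI.comp g)
    (fun o => if ho : ¬ TypeZ g (w' o) ∧ ¬ TypeY n g (w' o) then μI ⟨o, ho⟩ else 1)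
    (fun o => if ho : ¬ TypeZ g (w' o) ∧ ¬ TypeY n g (w' o) then yI ⟨o, ho⟩ else 1) (by
      intro o
      by_cases ho : ¬ TypeZ g (w' o) ∧ ¬ TypeY n g (w' o)
      · rw [dif_pos ho, dif_pos ho]
        exact (tI o ho).1
      · rw [dif_neg ho, dif_neg ho]
        by_cases h1 : TypeZ g (w' o)
        · exact tZ o h1
        · have h2 : TypeY n g (w' o) := by
            by_contra h3
            exact ho ⟨h1, h3⟩
          exact (tY o h2).1)
  refine star_ct n hM hMM fI {o | TypeZ g (w' o)} h'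
    (fun B _ φ ψ hφ hψ o _ => C.good φ ψ hφ hψ (w' o) (hadm o)) hZ cZ f ?_
  intro o ho
  have ho : ¬ TypeZ g (w' o) := ho
  rw [f1, f2 o, f3 o]
  by_cases h2 : TypeY n g (w' o)
  · have h3 : ¬ (¬ TypeZ g (w' o) ∧ ¬ TypeY n g (w' o)) := fun h4 => h4.2 h2
    rw [dif_neg h3, dif_neg h3]
    exact (tY o h2).2
  · rw [dif_pos ⟨ho, h2⟩, dif_pos ⟨ho, h2⟩]
    exact (tI o ⟨ho, h2⟩).2

/-- A homomorphism `g : L → N` to a group with `C.P N` for which all words of the family are (up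
to equivalence) of type `I`. -/
theorem WClass.concl_of_typeI (C : WClass n M) (hM : ∀ m < n, MM m)
    (hMM : FEC M) {L N : Type} [Group L] [Group N] (g : L →* N) (hL : FEC L)
    (hPN : C.P N) {Ω G : Type} [Group G] {w : Ω → List ((L ⊕ M) × Bool)}
    {ι : L →* G} {μ : Ω → M →* G} {y : Ω → G}
    (hI : ∀ o, ∃ (w' : List ((L ⊕ M) × Bool)) (c : L) (w'' : List ((N ⊕ M) × Bool)),
      C.adm w' ∧ Equi (w o) w' c ∧ C.adm w'' ∧ TypeI n g w' w'')
    (h : IsStar w ι μ y) : Concl ι μ := by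
  choose w' c w'' h1 h2 h3 h4 using hI
  have h' : IsStar w' ι μ (fun o => y o * ι (c o)) := h.equi c h2
  obtain ⟨GN, instGN, ιN, μN, yN, hN⟩ := exists_star w''
  obtain ⟨hιN, hμN, hFN⟩ := hPN Ω GN w'' ιN μN yN h3 hN
  obtain ⟨f, hf1, hf2, hf3⟩ := h'.lift GN (ιN.comp g) μN yN
    (fun o => (h4 o GN ιN (μN o) (yN o) (hN.rel o)).1)
  refine star_ct_empty n hM hL hMM hFN h'
    (fun B _ φ ψ hφ hψ o => C.good φ ψ hφ hψ (w' o) (h1 o)) f ?_
  intro o
  have h5 := (h4 o GN ιN (μN o) (yN o) (hN.rel o)).2 hιN (hμN o)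
  rw [hf1, hf2 o]
  have h6 := hf3 o
  rw [h6]
  exact h5

/-- Subgroups. -/
theorem WClass.P_of_injective (C : WClass n M) (hM : ∀ m < n, MM m)
    (hMM : FEC M) {L N : Type} [Group L] [Group N] (g : L →* N) (hg : Injective g)
    (hL : FEC L) (hPN : C.P N) : C.P L := by
  intro Ω G _ w ι μ y hadm h
  refine C.concl_of_typeI hM hMM g hL hPN (fun o => ?_) h
  obtain ⟨w', c, E, h1, h2, -, h3, h4⟩ := C.res (w o) (hadm o)
  obtain ⟨w'', h5, h6⟩ := h4 g (fun e he h0 => h3 (by
    have : e = 1 := hg (by rw [h0, map_one])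
    rwa [← this]))
  exact ⟨w', c, w'', h1, h2, h5, h6⟩

/-- Residual properties: if finite sets of non-trivial elements of `L` are not killed by
homomorphisms to groups `N` with `C.P N`, then `C.Pfin L`. -/
theorem WClass.Pfin_of_residual (C : WClass n M) (hM : ∀ m < n, MM m)
    (hMM : FEC M) {L : Type} [Group L] (hL : FEC L)
    (hr : ∀ E : Set L, E.Finite → (1 : L) ∉ E → ∃ (N : Type) (_ : Group N) (g : L →* N),
      C.P N ∧ ∀ e ∈ E, g e ≠ 1) : C.Pfin L := by
  intro Ω G _ _ w ι μ y hadm h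
  have hres := fun o => C.res (w o) (hadm o)
  choose w' c E h1 h2 h3 h4 h5 using hres
  obtain ⟨N, instN, g, hPN, hg⟩ := hr (⋃ o, E o) (Set.finite_iUnion h3) (by
    simp only [Set.mem_iUnion, not_exists]
    exact h4)
  refine C.concl_of_typeI hM hMM g hL hPN (fun o => ?_) h
  obtain ⟨w'', h6, h7⟩ := h5 o g (fun e he => hg e (Set.mem_iUnion.2 ⟨o, he⟩))
  exact ⟨w' o, c o, w'', h1 o, h2 o, h6, h7⟩

end Pool.Agent.OR
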