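import Pool.Agent.Lib.MP_98022b_or.Main

/-!
# One relator over a group of the class
-/

set_option autoImplicit false

namespace Pool.Agent.OR

open Function

theorem normalClosure_eq_of_isConj {G : Type} [Group G] {r r' : G} (h : IsConj r r') :
    Subgroup.normalClosure {r} = Subgroup.normalClosure {r'} := by
  have key : ∀ {a b : G}, IsConj a b → Subgroup.normalClosure {a} ≤ Subgroup.normalClosure {b} := by
    intro a b hab
    rw [isConj_comm, isConj_iff] at hab
    obtain ⟨c, hc⟩ := hab
    refine Subgroup.normalClosure_le_normal ?_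
    rw [Set.singleton_subset_iff, ← hc]
    exact Subgroup.normalClosure_normal.conj_mem _
      (Subgroup.subset_normalClosure (Set.mem_singleton b)) c
  exact le_antisymm (key h) (key h.symm)

theorem map_mem_normalClosure {G H : Type} [Group G] [Group H] (f : G →* H) {r u : G}
    (hu : u ∈ Subgroup.normalClosure {r}) : f u ∈ Subgroup.normalClosure {f r} := by
  have h1 : Subgroup.normalClosure {r} ≤ (Subgroup.normalClosure {f r}).comap f := by
    refine Subgroup.normalClosure_le_normal ?_
    rw [Set.singleton_subset_iff]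
    exact Subgroup.subset_normalClosure (Set.mem_singleton _)
  exact h1 hu

theorem FEC.of_quot_equiv {G H : Type} [Group G] [Group H] (e : G ≃* H) (r : G)
    (h : FEC (H ⧸ Subgroup.normalClosure {e r})) : FEC (G ⧸ Subgroup.normalClosure {r}) := by
  refine FEC.of_equiv (QuotientGroup.congr _ _ e ?_).symm h
  have h1 := Subgroup.map_normalClosure {r} (e : G →* H) e.surjective
  rw [Set.image_singleton] at h1
  exact h1

theorem FEC.of_quot_conj {G : Type} [Group G] {r r' : G} (h : IsConj r r')
    (hF : FEC (G ⧸ Subgroup.normalClosure {r'})) : FEC (G ⧸ Subgroup.normalClosure {r}) :=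
  FEC.of_equiv (QuotientGroup.quotientMulEquivOfEq (normalClosure_eq_of_isConj h).symm) hF

/-- `(A * B)/⟨⟨a⟩⟩ = A/⟨⟨a⟩⟩ * B`. -/
theorem FEC.quot_left {A B : Type} [Group A] [Group B] (a : A)
    (hA : FEC (A ⧸ Subgroup.normalClosure {a})) (hB : FEC B) :
    FEC (Monoid.Coprod A B ⧸
      Subgroup.normalClosure {(Monoid.Coprod.inl a : Monoid.Coprod A B)}) := by
  let N := Subgroup.normalClosure {(Monoid.Coprod.inl a : Monoid.Coprod A B)}
  let f : Monoid.Coprod A B →* Monoid.Coprod (A ⧸ Subgroup.normalClosure {a}) B :=
    Monoid.Coprod.map (QuotientGroup.mk' _) (MonoidHom.id B)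
  have hf : N ≤ f.ker := by
    refine Subgroup.normalClosure_le_normal ?_
    rw [Set.singleton_subset_iff, SetLike.mem_coe, MonoidHom.mem_ker]
    change f (Monoid.Coprod.inl a) = 1
    rw [Monoid.Coprod.map_apply_inl]
    have : (QuotientGroup.mk' (Subgroup.normalClosure {a})) a = 1 :=
      (QuotientGroup.eq_one_iff a).2 (Subgroup.subset_normalClosure (Set.mem_singleton a))
    rw [this, map_one]
  let F : Monoid.Coprod A B ⧸ N →* Monoid.Coprod (A ⧸ Subgroup.normalClosure {a}) B :=
    QuotientGroup.lift N f hf
  let g : A ⧸ Subgroup.normalClosure {a} →* Monoid.Coprod A B ⧸ N :=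
    QuotientGroup.lift _ ((QuotientGroup.mk' N).comp Monoid.Coprod.inl) (by
      refine Subgroup.normalClosure_le_normal ?_
      rw [Set.singleton_subset_iff, SetLike.mem_coe, MonoidHom.mem_ker]
      exact (QuotientGroup.eq_one_iff _).2 (Subgroup.subset_normalClosure (Set.mem_singleton _)))
  let G : Monoid.Coprod (A ⧸ Subgroup.normalClosure {a}) B →* Monoid.Coprod A B ⧸ N :=
    Monoid.Coprod.lift g ((QuotientGroup.mk' N).comp Monoid.Coprod.inr)
  have hGF : G.comp F = MonoidHom.id _ := by
    apply QuotientGroup.monoidHom_ext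
    apply Monoid.Coprod.hom_ext
    · ext x
      change G (f (Monoid.Coprod.inl x)) = _
      rw [Monoid.Coprod.map_apply_inl, Monoid.Coprod.lift_apply_inl]
      rfl
    · ext x
      change G (f (Monoid.Coprod.inr x)) = _
      rw [Monoid.Coprod.map_apply_inr, Monoid.Coprod.lift_apply_inr]
      rfl
  exact FEC.of_injective F (Function.LeftInverse.injective (g := G)
    (fun x => DFunLike.congr_fun hGF x)) (FEC.coprod hA hB)

theorem FEC.quot_right {A B : Type} [Group A] [Group B] (b : B)
    (hA : FEC A) (hB : FEC (B ⧸ Subgroup.normalClosure {b})) :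
    FEC (Monoid.Coprod A B ⧸
      Subgroup.normalClosure {(Monoid.Coprod.inr b : Monoid.Coprod A B)}) := by
  refine FEC.of_quot_equiv (MulEquiv.coprodComm A B) _ ?_
  have h : (MulEquiv.coprodComm A B) (Monoid.Coprod.inr b) = Monoid.Coprod.inl b := rfl
  rw [h]
  exact FEC.quot_left b hB hA

section split

variable (L : Type) {X : Type} [Group L] (x : X)

/-- Split off one letter. -/
noncomputable def splitHom : Phi L X →* Monoid.Coprod (Phi L {y : X // y ≠ x}) (FreeGroup Unit) := by
  classical
  exact Phi.lift (Monoid.Coprod.inl.comp (Phi.inl L _))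
    (fun y => if h : y ≠ x then Monoid.Coprod.inl (Phi.let L ⟨y, h⟩)
      else Monoid.Coprod.inr (FreeGroup.of ()))

/-- The inverse. -/
noncomputable def splitInv : Monoid.Coprod (Phi L {y : X // y ≠ x}) (FreeGroup Unit) →* Phi L X :=
  Monoid.Coprod.lift (Phi.lift (Phi.inl L X) (fun y => Phi.let L y.1))
    (FreeGroup.lift fun _ => Phi.let L x)

theorem splitHom_inl (l : L) :
    splitHom L x (Phi.inl L X l) = Monoid.Coprod.inl (Phi.inl L _ l) := by
  simp [splitHom]

theorem splitHom_let (y : X) (h : y ≠ x) :
    splitHom L x (Phi.let L y) = Monoid.Coprod.inl (Phi.let L ⟨y, h⟩) := by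
  simp [splitHom, h]

theorem splitHom_let_self :
    splitHom L x (Phi.let L x) = Monoid.Coprod.inr (FreeGroup.of ()) := by
  simp [splitHom]

theorem splitInv_inl (u : Phi L {y : X // y ≠ x}) :
    splitInv L x (Monoid.Coprod.inl u) = Phi.lift (Phi.inl L X) (fun y => Phi.let L y.1) u := by
  simp [splitInv]

theorem splitInv_inr : splitInv L x (Monoid.Coprod.inr (FreeGroup.of ())) = Phi.let L x := by
  simp [splitInv]

/-- The isomorphism. -/
noncomputable def splitEquiv :
    Phi L X ≃* Monoid.Coprod (Phi L {y : X // y ≠ x}) (FreeGroup Unit) :=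
  MonoidHom.toMulEquiv (splitHom L x) (splitInv L x)
    (by
      apply Phi.hom_ext
      · intro b
        rw [MonoidHom.comp_apply, splitHom_inl, splitInv_inl, Phi.lift_inl, MonoidHom.id_apply]
      · intro y
        rw [MonoidHom.comp_apply, MonoidHom.id_apply]
        by_cases h : y = x
        · rw [h, splitHom_let_self, splitInv_inr]
        · rw [splitHom_let L x y h, splitInv_inl, Phi.lift_let])
    (by
      apply Monoid.Coprod.hom_ext
      · apply Phi.hom_ext
        · intro b
          show splitHom L x (splitInv L x (Monoid.Coprod.inl (Phi.inl L _ b))) = _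
          rw [splitInv_inl, Phi.lift_inl, splitHom_inl]
          rfl
        · intro y
          show splitHom L x (splitInv L x (Monoid.Coprod.inl (Phi.let L y))) = _
          rw [splitInv_inl, Phi.lift_let, splitHom_let L x y.1 y.2]
          rfl
      · ext u
        show splitHom L x (splitInv L x (Monoid.Coprod.inr (FreeGroup.of ()))) = _
        rw [splitInv_inr, splitHom_let_self]
        rfl)

/-- The retraction killing the letter `x`. -/
noncomputable def killHom : Phi L X →* Phi L {y : X // y ≠ x} := by
  classical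
  exact Phi.lift (Phi.inl L _) (fun y => if h : y ≠ x then Phi.let L ⟨y, h⟩ else 1)

theorem killHom_inl (l : L) : killHom L x (Phi.inl L X l) = Phi.inl L _ l := by
  simp [killHom]

theorem killHom_let (y : X) (h : y ≠ x) : killHom L x (Phi.let L y) = Phi.let L ⟨y, h⟩ := by
  simp [killHom, h]

theorem killHom_let_self : killHom L x (Phi.let L x) = 1 := by
  simp [killHom]

theorem killHom_eq (u : Phi L X) :
    killHom L x u = Monoid.Coprod.fst (splitHom L x u) := by
  have h : killHom L x = Monoid.Coprod.fst.comp (splitHom L x) := by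
    apply Phi.hom_ext
    · intro b
      rw [killHom_inl, MonoidHom.comp_apply, splitHom_inl, Monoid.Coprod.fst_apply_inl]
    · intro y
      rw [MonoidHom.comp_apply]
      by_cases h : y = x
      · rw [h, killHom_let_self, splitHom_let_self, Monoid.Coprod.fst_apply_inr]
      · rw [killHom_let L x y h, splitHom_let L x y h, Monoid.Coprod.fst_apply_inl]
  exact DFunLike.congr_fun h u

theorem killHom_supp (s : Finset X) [DecidableEq X] [DecidablePred fun y : X => y ≠ x]
    {r : Phi L X} (hr : r ∈ supp L (s : Set X)) :
    killHom L x r ∈ supp L ((s.subtype fun y => y ≠ x : Finset {y : X // y ≠ x}) :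
      Set {y : X // y ≠ x}) := by
  unfold supp at hr
  induction hr using Subgroup.closure_induction with
  | mem u hu =>
    rcases hu with ⟨b, rfl⟩ | ⟨y, hy, rfl⟩
    · rw [killHom_inl]
      exact inl_mem_supp _ _
    · by_cases h : y = x
      · rw [h, killHom_let_self]
        exact Subgroup.one_mem _
      · rw [killHom_let L x y h]
        apply let_mem_supp
        simpa using hy
  | one => rw [map_one]; exact Subgroup.one_mem _
  | mul u v _ _ hu hv => rw [map_mul]; exact Subgroup.mul_mem _ hu hv
  | inv u _ hu => rw [map_inv]; exact Subgroup.inv_mem _ hu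

end split

/-- The infinite cyclic group `FreeGroup Unit`: an element which is not a proper power generates
it. -/
theorem of_mem_normalClosure_unit (b : FreeGroup Unit)
    (hb : ∀ (u : FreeGroup Unit) (k : ℕ), 2 ≤ k → b ≠ u ^ k) :
    Subgroup.normalClosure {b} = ⊤ := by
  have hcl : (⊤ : Subgroup (FreeGroup Unit)) ≤ Subgroup.zpowers (FreeGroup.of ()) := by
    rw [← FreeGroup.closure_range_of, Subgroup.closure_le]
    rintro _ ⟨y, rfl⟩
    exact Subgroup.mem_zpowers _
  obtain ⟨m, hm⟩ := Subgroup.mem_zpowers_iff.1 (hcl (Subgroup.mem_top b))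
  have hm1 : m.natAbs = 1 := by
    by_contra hne
    have h3 : m.natAbs = 0 ∨ 2 ≤ m.natAbs := by omega
    rcases h3 with h3 | h3
    · rw [Int.natAbs_eq_zero] at h3
      subst h3
      exact hb 1 2 le_rfl (by rw [← hm]; simp)
    · rcases Int.natAbs_eq m with h4 | h4
      · exact hb (FreeGroup.of ()) m.natAbs h3 (by
          rw [← hm]; conv_lhs => rw [h4]
          rw [zpow_natCast])
      · exact hb (FreeGroup.of ())⁻¹ m.natAbs h3 (by
          rw [← hm]; conv_lhs => rw [h4]
          rw [zpow_neg, zpow_natCast, inv_pow])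
  have hbm : b ∈ Subgroup.normalClosure {b} :=
    Subgroup.subset_normalClosure (Set.mem_singleton b)
  have hx₁ : FreeGroup.of () ∈ Subgroup.normalClosure {b} := by
    rcases Int.natAbs_eq m with h4 | h4 <;> rw [hm1] at h4
    · rw [h4] at hm
      rw [← hm] at hbm ⊢
      simpa using hbm
    · rw [h4] at hm
      rw [← hm] at hbm ⊢
      simpa using inv_mem hbm
  rw [eq_top_iff]
  refine hcl.trans ?_
  rw [Subgroup.zpowers_le]
  exact hx₁

theorem general_aux (n : ℕ) : ∀ (L X : Type) [Group L], FEC L → ∀ (s : Finset X), s.card = n →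
    ∀ r : Phi L X, r ∈ supp L (s : Set X) → (∀ l : L, ¬ IsConj r (Phi.inl L X l)) →
    (∀ (u : Phi L X) (k : ℕ), 2 ≤ k → r ≠ u ^ k) →
    (∀ l : L, Phi.inl L X l ∈ Subgroup.normalClosure {r} → l = 1) ∧
      FEC (Phi L X ⧸ Subgroup.normalClosure {r}) := by
  induction n with
  | zero =>
    intro L X _ hL s hs r hr hc _
    rw [Finset.card_eq_zero] at hs
    subst hs
    exfalso
    have h1 : r ∈ (Phi.inl L X).range := by
      have h2 : supp L (((∅ : Finset X)) : Set X) ≤ (Phi.inl L X).range := by
        unfold supp
        rw [Subgroup.closure_le]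
        rintro _ (⟨b, rfl⟩ | ⟨y, hy, -⟩)
        · exact ⟨b, rfl⟩
        · simp at hy
      exact h2 hr
    obtain ⟨l, rfl⟩ := h1
    exact hc l (IsConj.refl _)
  | succ n ih =>
    intro L X _ hL s hs r hr hc hp
    classical
    obtain ⟨x, hx⟩ : s.Nonempty := by
      rw [← Finset.card_pos, hs]; exact Nat.succ_pos n
    let e := splitEquiv L x
    have he : ∀ u, e u = splitHom L x u := fun u => rfl
    have hp' : ∀ (u : Monoid.Coprod (Phi L {y : X // y ≠ x}) (FreeGroup Unit)) (k : ℕ),
        2 ≤ k → e r ≠ u ^ k := by
      intro u k hk h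
      apply hp (e.symm u) k hk
      rw [← map_pow, ← h, MulEquiv.symm_apply_apply]
    have hkl : ∀ l, Phi.inl L X l ∈ Subgroup.normalClosure {r} →
        Phi.inl L {y : X // y ≠ x} l ∈ Subgroup.normalClosure {killHom L x r} := by
      intro l hl
      have := map_mem_normalClosure (killHom L x) hl
      rwa [killHom_inl] at this
    by_cases h1 : ∃ a, IsConj (e r) (Monoid.Coprod.inl a)
    · obtain ⟨a, ha⟩ := h1
      have hconj : IsConj (killHom L x r) a := by
        have h2 := (Monoid.Coprod.fst : Monoid.Coprod (Phi L {y : X // y ≠ x}) (FreeGroup Unit) →*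
          Phi L {y : X // y ≠ x}).map_isConj ha
        rw [Monoid.Coprod.fst_apply_inl, he, ← killHom_eq] at h2
        exact h2
      have hIH := ih L {y : X // y ≠ x} hL (s.subtype fun y => y ≠ x) (by
          rw [Finset.card_subtype]
          have h2 : s.filter (fun y => y ≠ x) = s.erase x := by
            ext y
            simp [and_comm]
          rw [h2, Finset.card_erase_of_mem hx, hs]
          rfl) (killHom L x r) (killHom_supp L x s hr)
        (by
          intro l hl
          apply hc l
          have h3 : IsConj (e r) (Monoid.Coprod.inl (Phi.inl L {y : X // y ≠ x} l)) := by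
            refine ha.trans ?_
            exact (Monoid.Coprod.inl : Phi L {y : X // y ≠ x} →*
              Monoid.Coprod (Phi L {y : X // y ≠ x}) (FreeGroup Unit)).map_isConj
              (hconj.symm.trans hl)
          have h4 := e.symm.toMonoidHom.map_isConj h3
          have h5 : e.symm.toMonoidHom (e r) = r := e.symm_apply_apply r
          have h6 : e.symm.toMonoidHom (Monoid.Coprod.inl (Phi.inl L {y : X // y ≠ x} l)) =
              Phi.inl L X l := by
            have h7 : e (Phi.inl L X l) = Monoid.Coprod.inl (Phi.inl L {y : X // y ≠ x} l) :=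
              splitHom_inl L x l
            rw [← h7]
            exact e.symm_apply_apply _
          rw [h5, h6] at h4
          exact h4)
        (by
          intro u k hk h
          rw [h] at hconj
          obtain ⟨c, hc'⟩ := isConj_iff.1 hconj
          obtain ⟨d, hd⟩ := isConj_iff.1 ha.symm
          have h5 : (c * u * c⁻¹) ^ k = a := by rw [conj_pow, hc']
          apply hp' (d * Monoid.Coprod.inl (c * u * c⁻¹) * d⁻¹) k hk
          rw [conj_pow, ← map_pow, h5, hd])
      refine ⟨fun l hl => hIH.1 l (hkl l hl), ?_⟩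
      refine FEC.of_quot_equiv e r ?_
      refine FEC.of_quot_conj ha (FEC.quot_left a ?_ (FEC.free _))
      exact FEC.of_quot_conj hconj.symm hIH.2
    · have hΦ : FEC (Phi L {y : X // y ≠ x}) := FEC.coprod hL (FEC.free _)
      by_cases h2 : ∃ b, IsConj (e r) (Monoid.Coprod.inr b)
      · obtain ⟨b, hb⟩ := h2
        constructor
        · intro l hl
          have h3 : IsConj (killHom L x r) 1 := by
            have h4 := (Monoid.Coprod.fst : Monoid.Coprod (Phi L {y : X // y ≠ x})
              (FreeGroup Unit) →* Phi L {y : X // y ≠ x}).map_isConj hb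
            rw [Monoid.Coprod.fst_apply_inr, he, ← killHom_eq] at h4
            exact h4
          have h5 := hkl l hl
          rw [normalClosure_eq_of_isConj h3] at h5
          have h6 : Subgroup.normalClosure {(1 : Phi L {y : X // y ≠ x})} = ⊥ := by
            rw [eq_bot_iff]
            refine Subgroup.normalClosure_le_normal ?_
            simp
          rw [h6, Subgroup.mem_bot] at h5
          exact Phi.inl_injective L _ (h5.trans (map_one _).symm)
        · refine FEC.of_quot_equiv e r ?_
          refine FEC.of_quot_conj hb (FEC.quot_right b hΦ ?_)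
          have h3 := of_mem_normalClosure_unit b (by
            intro u k hk h
            obtain ⟨d, hd⟩ := isConj_iff.1 hb.symm
            apply hp' (d * Monoid.Coprod.inr u * d⁻¹) k hk
            rw [conj_pow, ← map_pow, ← h, hd])
          have hsub : Subsingleton (FreeGroup Unit ⧸ Subgroup.normalClosure {b}) := by
            rw [QuotientGroup.subsingleton_iff]
            exact h3
          exact FEC.of_subsingleton _
      · push Not at h1 h2
        obtain ⟨h3, -, h4⟩ := one_relator_product hΦ (FEC.free Unit) (e r) h1 h2 hp'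
        refine ⟨?_, FEC.of_quot_equiv e r h4⟩
        intro l hl
        have h5 : Monoid.Coprod.inl (Phi.inl L {y : X // y ≠ x} l) ∈
            Subgroup.normalClosure {e r} := by
          have h6 := map_mem_normalClosure e.toMonoidHom hl
          have h7 : e.toMonoidHom (Phi.inl L X l) =
            Monoid.Coprod.inl (Phi.inl L {y : X // y ≠ x} l) := splitHom_inl L x l
          rw [h7] at h6
          exact h6
        have h7 : (QuotientGroup.mk' (Subgroup.normalClosure {e r})).comp
            (Monoid.Coprod.inl : Phi L {y : X // y ≠ x} →* _)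
            (Phi.inl L {y : X // y ≠ x} l) = 1 := (QuotientGroup.eq_one_iff _).2 h5
        have h8 := h3 (h7.trans (map_one _).symm)
        exact Phi.inl_injective L _ (h8.trans (map_one _).symm)

/-- Every element of `L * F(X)` involves finitely many letters. -/
theorem exists_supp {L X : Type} [Group L] (r : Phi L X) :
    ∃ s : Finset X, r ∈ supp L (s : Set X) := by
  classical
  have h : ∀ u ∈ Subgroup.closure (Set.range (Phi.inl L X) ∪ Set.range (Phi.let L (Λ := X))),
      ∃ s : Finset X, u ∈ supp L (s : Set X) := by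
    intro u hu
    induction hu using Subgroup.closure_induction with
    | mem u hu =>
      rcases hu with ⟨b, rfl⟩ | ⟨y, rfl⟩
      · exact ⟨∅, inl_mem_supp _ _⟩
      · exact ⟨{y}, let_mem_supp (by simp)⟩
    | one => exact ⟨∅, Subgroup.one_mem _⟩
    | mul u v _ _ hu hv =>
      obtain ⟨s, hs⟩ := hu
      obtain ⟨t, ht⟩ := hv
      exact ⟨s ∪ t, Subgroup.mul_mem _ (supp_mono (by simp) hs) (supp_mono (by simp) ht)⟩
    | inv u _ hu =>
      obtain ⟨s, hs⟩ := hu
      exact ⟨s, Subgroup.inv_mem _ hs⟩
  apply h
  have h2 : Subgroup.closure (Set.range (Phi.inl L X) ∪ Set.range (Phi.let L (Λ := X))) = ⊤ := by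
    set K := Subgroup.closure (Set.range (Phi.inl L X) ∪ Set.range (Phi.let L (Λ := X))) with hK
    have ha : ∀ b, Phi.inl L X b ∈ K := fun b => Subgroup.subset_closure (Or.inl ⟨b, rfl⟩)
    have hb : ∀ y, Phi.let L y ∈ K := fun y => Subgroup.subset_closure (Or.inr ⟨y, rfl⟩)
    let f : Phi L X →* K := Phi.lift ((Phi.inl L X).codRestrict K ha) (fun y => ⟨_, hb y⟩)
    have hf : K.subtype.comp f = MonoidHom.id _ := by
      apply Phi.hom_ext
      · intro b
        simp [f]
      · intro y
        simp [f]
    rw [eq_top_iff]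
    intro u _
    have h3 : K.subtype (f u) = u := DFunLike.congr_fun hf u
    rw [← h3]
    exact (f u).2
  rw [h2]
  exact Subgroup.mem_top r

/-- **Main theorem**: one relator over a group of the class `FEC`. -/
theorem one_relator_over {L : Type} [Group L] (hL : FEC L) (X : Type)
    (r : Monoid.Coprod L (FreeGroup X)) (h1 : ∀ l : L, ¬ IsConj r (Monoid.Coprod.inl l))
    (h2 : ∀ (u : Monoid.Coprod L (FreeGroup X)) (k : ℕ), 2 ≤ k → r ≠ u ^ k) :
    Injective ((QuotientGroup.mk' (Subgroup.normalClosure {r})).comp
      (Monoid.Coprod.inl : L →* Monoid.Coprod L (FreeGroup X))) ∧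
    FEC (Monoid.Coprod L (FreeGroup X) ⧸ Subgroup.normalClosure {r}) := by
  obtain ⟨s, hs⟩ := exists_supp (r : Phi L X)
  obtain ⟨h3, h4⟩ := general_aux s.card L X hL s rfl r hs h1 h2
  refine ⟨?_, h4⟩
  rw [injective_iff_map_eq_one]
  intro l hl
  exact h3 l ((QuotientGroup.eq_one_iff _).1 hl)

end Pool.Agent.OR
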