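import Pool.Agent.Lib.MP_98022b_or.Pres
import Pool.Agent.Lib.MP_98022b_or.Cover

/-!
# The cover theorem for star groups
-/

set_option autoImplicit false

namespace Pool.Agent.OR

open Function

/-- A star group as a group over the base `G_Z * (*_{o ∉ Z} M)`. Let `Z` be a set of indices for
which the conclusion is known, and `f` a homomorphism to a group of the class which separates
the words outside `Z`. Then the conclusion holds. (Apply `cover` to the base
`Monoid.Coprod GZ (Monoid.CoprodI fun _ : ↥Zᶜ => M)` and the words `wmap _ _ (w o)`.) -/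
theorem star_ct (n : ℕ) (hM : ∀ m < n, MM m) {L M Ω G Q GZ : Type} [Group L] [Group M]
    [Group G] [Group Q] [Group GZ] (hMM : FEC M) (hQ : FEC Q) (Z : Set Ω)
    {w : Ω → List ((L ⊕ M) × Bool)} {ι : L →* G} {μ : Ω → M →* G} {y : Ω → G}
    (h : IsStar w ι μ y)
    (hgood : ∀ (B : Type) [Group B] (φ : L →* B) (ψ : M →* B), Injective φ → Injective ψ →
      ∀ o, o ∉ Z → Good (wmap φ ψ (w o)))
    {ιZ : L →* GZ} {μZ : Z → M →* GZ} {yZ : Z → GZ} (hZ : IsStar (fun o : Z => w o) ιZ μZ yZ)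
    (hc : Concl ιZ μZ) (f : G →* Q)
    (hsep : ∀ o, o ∉ Z → Sep n (Sum.elim (f.comp ι) (f.comp (μ o))) (f (y o)) (w o)) :
    Concl ι μ := by
  classical
  let C := Monoid.CoprodI (fun _ : ↥(Zᶜ) => M)
  let B := Monoid.Coprod GZ C
  let il : GZ →* B := Monoid.Coprod.inl
  let ir : C →* B := Monoid.Coprod.inr
  have hil : Injective il := Monoid.Coprod.inl_injective
  have hir : Injective ir := Monoid.Coprod.inr_injective
  let φB : L →* B := il.comp ιZ
  let co : ∀ _ : ↥(Zᶜ), M →* C := fun o => Monoid.CoprodI.of (M := fun _ : ↥(Zᶜ) => M) (i := o)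
  let ψB : ↥(Zᶜ) → M →* B := fun o => ir.comp (co o)
  have hφB : Injective φB := hil.comp hc.1
  have hψB : ∀ o, Injective (ψB o) := fun o =>
    hir.comp (Monoid.CoprodI.of_injective (M := fun _ : ↥(Zᶜ) => M) o)
  obtain ⟨fZ, hf1, hf2, hf3⟩ := h.sub_hom Z hZ
  let ιB : B →* G := Monoid.Coprod.lift fZ (Monoid.CoprodI.lift fun o : ↥(Zᶜ) => μ o)
  have hBl : ∀ g, ιB (il g) = fZ g := fun g => Monoid.Coprod.lift_apply_inl _ _ g
  have hBr : ∀ (o : ↥(Zᶜ)) m, ιB (ψB o m) = μ o m := by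
    intro o m
    show Monoid.Coprod.lift fZ _ (Monoid.Coprod.inr (co o m)) = _
    rw [Monoid.Coprod.lift_apply_inr]
    exact Monoid.CoprodI.lift_of _ _
  have e1 : ιB.comp φB = ι := by
    ext a
    show ιB (il (ιZ a)) = ι a
    rw [hBl, ← hf1]
    rfl
  have e2 : ∀ o : ↥(Zᶜ), ιB.comp (ψB o) = μ o := fun o => MonoidHom.ext (hBr o)
  let v : ↥(Zᶜ) → List (B × Bool) := fun o => wmap φB (ψB o) (w o)
  have hpres : IsPres v ιB fun o => y o := by
    refine ⟨fun o => ?_, fun H _ f g h1 h2 => ?_, fun H _ φ z hz => ?_⟩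
    · show ev ιB (y o) (wmap φB (ψB o) (w o)) = 1
      rw [ev_wmap, e1, e2]
      exact h.rel o
    · have hB : ∀ b, f (ιB b) = g (ιB b) := fun b => congrArg (fun k : B →* H => k b) h1
      refine h.ext H f g ?_ (fun o => ?_) fun o => ?_
      · ext a
        have h3 := hB (φB a)
        have h4 : ιB (φB a) = ι a := congrArg (fun k : L →* G => k a) e1
        rw [h4] at h3
        exact h3
      · ext m
        by_cases ho : o ∈ Z
        · have h3 := hB (il (μZ ⟨o, ho⟩ m))
          have h4 : fZ (μZ ⟨o, ho⟩ m) = μ o m := congrArg (fun k : M →* G => k m) (hf2 ⟨o, ho⟩)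
          rw [hBl, h4] at h3
          exact h3
        · have h3 := hB (ψB ⟨o, ho⟩ m)
          rw [hBr] at h3
          exact h3
      · by_cases ho : o ∈ Z
        · have h3 := hB (il (yZ ⟨o, ho⟩))
          rw [hBl, hf3] at h3
          exact h3
        · exact h2 ⟨o, ho⟩
    · let ψ' : Ω → M →* H := fun o => if ho : o ∈ Z then φ.comp (il.comp (μZ ⟨o, ho⟩)) else
        φ.comp (ψB ⟨o, ho⟩)
      let z' : Ω → H := fun o => if ho : o ∈ Z then φ (il (yZ ⟨o, ho⟩)) else z ⟨o, ho⟩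
      have hψ1 : ∀ o : Z, ψ' o = φ.comp (il.comp (μZ o)) := fun o => dif_pos o.2
      have hψ2 : ∀ o : ↥(Zᶜ), ψ' o = φ.comp (ψB o) := fun o => dif_neg o.2
      have hz1 : ∀ o : Z, z' o = φ (il (yZ o)) := fun o => dif_pos o.2
      have hz2 : ∀ o : ↥(Zᶜ), z' o = z o := fun o => dif_neg o.2
      obtain ⟨k, hk1, hk2, hk3⟩ := h.lift H (φ.comp φB) ψ' z' (fun o => by
        by_cases ho : o ∈ Z
        · have g1 := hψ1 ⟨o, ho⟩
          have g2 := hz1 ⟨o, ho⟩
          have g3 := congrArg (fun t => φ (il t)) (hZ.rel ⟨o, ho⟩)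
          simp only [map_one] at g3
          have g4 : φ (il (ev (Sum.elim ιZ (μZ ⟨o, ho⟩)) (yZ ⟨o, ho⟩) (w o))) =
              ev (Sum.elim (φ.comp φB) (φ.comp (il.comp (μZ ⟨o, ho⟩)))) (φ (il (yZ ⟨o, ho⟩)))
                (w o) := by
            rw [map_ev, map_ev]
            refine ev_congr _ _ _ _ fun p _ => ?_
            rcases p.1 with a | m
            · rfl
            · rfl
          rw [g4] at g3
          have g1' : ψ' o = φ.comp (il.comp (μZ ⟨o, ho⟩)) := g1
          have g2' : z' o = φ (il (yZ ⟨o, ho⟩)) := g2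
          rw [g1', g2']
          exact g3
        · have g1 : ψ' o = φ.comp (ψB ⟨o, ho⟩) := hψ2 ⟨o, ho⟩
          have g2 : z' o = z ⟨o, ho⟩ := hz2 ⟨o, ho⟩
          have g3 := hz ⟨o, ho⟩
          have g4 : ev φ (z ⟨o, ho⟩) (wmap φB (ψB ⟨o, ho⟩) (w o)) = 1 := g3
          rw [ev_wmap] at g4
          rw [g1, g2]
          exact g4)
      refine ⟨k, ?_, fun o => ?_⟩
      · have hkι : ∀ a, k (ι a) = φ (φB a) := fun a => congrArg (fun t : L →* H => t a) hk1
        have hkμ : ∀ o m, k (μ o m) = ψ' o m := fun o m =>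
          congrArg (fun t : M →* H => t m) (hk2 o)
        apply Monoid.Coprod.hom_ext
        · refine hZ.ext H _ _ ?_ (fun o => ?_) fun o => ?_
          · ext a
            show k (ιB (il (ιZ a))) = φ (il (ιZ a))
            rw [hBl]
            have : fZ (ιZ a) = ι a := congrArg (fun t : L →* G => t a) hf1
            rw [this]
            exact hkι a
          · ext m
            show k (ιB (il (μZ o m))) = φ (il (μZ o m))
            rw [hBl]
            have : fZ (μZ o m) = μ o m := congrArg (fun t : M →* G => t m) (hf2 o)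
            rw [this, hkμ, hψ1]
            rfl
          · show k (ιB (il (yZ o))) = φ (il (yZ o))
            rw [hBl, hf3, hk3, hz1]
        · refine Monoid.CoprodI.ext_hom _ _ fun o => ?_
          ext m
          show k (ιB (ψB o m)) = φ (ψB o m)
          rw [hBr, hkμ, hψ2]
          rfl
      · rw [hk3, hz2]
  have hFB : FEC B := FEC.coprod hc.2.2 (FEC.coprodI _ hMM)
  obtain ⟨hi, hG⟩ := cover n hM hFB hQ v
    (fun o => hgood B φB (ψB o) hφB (hψB o) o o.2) ιB (fun o => y o) hpres f (fun o => by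
      show Sep n (f.comp ιB) (f (y o)) (wmap φB (ψB o) (w o))
      rw [sep_wmap, MonoidHom.comp_assoc, MonoidHom.comp_assoc, e1, e2]
      exact hsep o o.2)
  refine ⟨?_, fun o => ?_, hG⟩
  · rw [← e1]
    exact hi.comp hφB
  · by_cases ho : o ∈ Z
    · have h1 : fZ.comp (μZ ⟨o, ho⟩) = μ o := hf2 ⟨o, ho⟩
      rw [← h1]
      have h2 : Injective (fun m => ιB (il (μZ ⟨o, ho⟩ m))) :=
        hi.comp (hil.comp (hc.2.1 ⟨o, ho⟩))
      intro a b hab
      refine h2 ?_
      show ιB (il (μZ ⟨o, ho⟩ a)) = ιB (il (μZ ⟨o, ho⟩ b))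
      rw [hBl, hBl]
      exact hab
    · have h1 : ιB.comp (ψB ⟨o, ho⟩) = μ o := e2 ⟨o, ho⟩
      rw [← h1]
      exact hi.comp (hψB ⟨o, ho⟩)

/-- The case `Z = ∅`. -/
theorem star_ct_empty (n : ℕ) (hM : ∀ m < n, MM m) {L M Ω G Q : Type} [Group L] [Group M]
    [Group G] [Group Q] (hL : FEC L) (hMM : FEC M) (hQ : FEC Q)
    {w : Ω → List ((L ⊕ M) × Bool)} {ι : L →* G} {μ : Ω → M →* G} {y : Ω → G}
    (h : IsStar w ι μ y)
    (hgood : ∀ (B : Type) [Group B] (φ : L →* B) (ψ : M →* B), Injective φ → Injective ψ →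
      ∀ o, Good (wmap φ ψ (w o)))
    (f : G →* Q)
    (hsep : ∀ o, Sep n (Sum.elim (f.comp ι) (f.comp (μ o))) (f (y o)) (w o)) :
    Concl ι μ := by
  have he : IsEmpty (∅ : Set Ω) := by infer_instance
  exact star_ct n hM hMM hQ ∅ h (fun B _ φ ψ h1 h2 o _ => hgood B φ ψ h1 h2 o)
    (IsStar.empty fun o : (∅ : Set Ω) => w o)
    ⟨injective_id, fun o => (he.false o).elim, hL⟩ f fun o _ => hsep o

end Pool.Agent.OR
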