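import Pool.Agent.Lib.MP_98022b_or.Struct
import Pool.Agent.Lib.MP_98022b_or.StarCT

/-!
# Words with non-zero exponent sum
-/

set_option autoImplicit false
set_option linter.unusedSectionVars false

namespace Pool.Agent.OR

open Function

/-- The exponent sum of the letter. -/
def esum {S : Type} (w : List (S × Bool)) : ℤ := (w.map fun p => if p.2 then (1 : ℤ) else -1).sum

@[simp] theorem esum_nil {S : Type} : esum ([] : List (S × Bool)) = 0 := rfl

@[simp] theorem esum_cons {S : Type} (p : S × Bool) (w : List (S × Bool)) :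
    esum (p :: w) = (if p.2 then (1 : ℤ) else -1) + esum w := by
  simp [esum]

theorem esum_append {S : Type} (v w : List (S × Bool)) : esum (v ++ w) = esum v + esum w := by
  simp [esum]

section

variable {L : Type} [Group L]

/-- Substitution `y = y' c⁻¹`: the syllable before a negative letter is multiplied by `c` on the
right, the syllable after a positive letter by `c⁻¹` on the left; `e` is the sign of the letter
before the word. -/
def subst (c : L) : Bool → List (L × Bool) → List (L × Bool)
  | _, [] => []
  | e, p :: w => ((if e then c⁻¹ else 1) * p.1 * (if p.2 then 1 else c), p.2) :: subst c p.2 w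

/-- The sign of the last letter of the word, `e` if the word is empty. -/
def T1ls : Bool → List (L × Bool) → Bool
  | e, [] => e
  | _, p :: w => T1ls p.2 w

theorem T1ls_spec (e : Bool) (w : List (L × Bool)) :
    (w = [] ∧ T1ls e w = e) ∨ ∃ p ∈ w.getLast?, T1ls e w = p.2 := by
  induction w generalizing e with
  | nil => exact Or.inl ⟨rfl, rfl⟩
  | cons p w ih =>
    right
    rcases ih p.2 with ⟨h1, h2⟩ | ⟨q, hq, h2⟩
    · subst h1
      exact ⟨p, by simp, h2⟩
    · refine ⟨q, ?_, h2⟩
      rw [List.getLast?_cons]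
      rw [Option.mem_def] at hq
      rw [hq]
      rfl

theorem T1ls_eq {e : Bool} {w : List (L × Bool)} (hw : ∀ p ∈ w.getLast?, p.2 = e) :
    T1ls e w = e := by
  rcases T1ls_spec e w with ⟨-, h⟩ | ⟨p, hp, h⟩
  · exact h
  · rw [h, hw p hp]

theorem T1ls_of_ne {e e' : Bool} {w : List (L × Bool)} (hw : w ≠ []) : T1ls e w = T1ls e' w := by
  cases w with
  | nil => exact absurd rfl hw
  | cons p w => rfl

theorem T1ls_append (e : Bool) (v w : List (L × Bool)) :
    T1ls e (v ++ w) = T1ls (T1ls e v) w := by
  induction v generalizing e with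
  | nil => rfl
  | cons p v ih => exact ih p.2

theorem T1ls_subst (c : L) (e e' : Bool) (w : List (L × Bool)) :
    T1ls e' (subst c e w) = T1ls e' w := by
  induction w generalizing e e' with
  | nil => rfl
  | cons p w ih => exact ih p.2 p.2

theorem T1subst_append (c : L) (e : Bool) (v w : List (L × Bool)) :
    subst c e (v ++ w) = subst c e v ++ subst c (T1ls e v) w := by
  induction v generalizing e with
  | nil => rfl
  | cons p v ih =>
    change _ :: subst c p.2 (v ++ w) = _ :: (subst c p.2 v ++ subst c (T1ls p.2 v) w)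
    rw [ih]

theorem T1subst_inv (c : L) (e : Bool) (w : List (L × Bool)) :
    subst c⁻¹ e (subst c e w) = w := by
  induction w generalizing e with
  | nil => rfl
  | cons p w ih =>
    change ((if e then c⁻¹⁻¹ else 1) * ((if e then c⁻¹ else 1) * p.1 * (if p.2 then 1 else c)) *
      (if p.2 then 1 else c⁻¹), p.2) :: subst c⁻¹ p.2 (subst c p.2 w) = p :: w
    rw [ih]
    congr 1
    refine Prod.ext ?_ rfl
    rcases e <;> rcases p.2 <;> simp [mul_assoc]

theorem T1subst_power (c : L) (e : Bool) (u : List (L × Bool)) (hu : T1ls e u = e) (k : ℕ) :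
    subst c e (List.replicate k u).flatten = (List.replicate k (subst c e u)).flatten := by
  induction k with
  | zero => rfl
  | succ k ih =>
    rw [List.replicate_succ, List.flatten_cons, T1subst_append, hu, ih, List.replicate_succ,
      List.flatten_cons]

theorem T1subst_chain (c : L) (e : Bool) (w : List (L × Bool)) (hw : w.IsChain Adj) :
    (subst c e w).IsChain Adj := by
  induction w generalizing e with
  | nil => exact List.IsChain.nil
  | cons p w ih =>
    cases w with
    | nil => exact List.IsChain.singleton _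
    | cons q w =>
      have h1 := List.isChain_cons_cons.1 hw
      change List.IsChain Adj (_ :: (_ :: subst c q.2 w))
      refine List.isChain_cons_cons.2 ⟨?_, ih p.2 h1.2⟩
      intro hne
      change p.2 ≠ q.2 at hne
      have h2 : q.1 ≠ 1 := h1.1 hne
      change (if p.2 then c⁻¹ else 1) * q.1 * (if q.2 then 1 else c) ≠ 1
      rcases hp : p.2 <;> rcases hq : q.2
      · rw [hp, hq] at hne
        exact absurd rfl hne
      · simpa using h2
      · simp only [if_true, Bool.false_eq_true, if_false]
        intro h3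
        apply h2
        have h4 : q.1 = c * (c⁻¹ * q.1 * c) * c⁻¹ := by group
        rw [h4, h3]
        group
      · rw [hp, hq] at hne
        exact absurd rfl hne

theorem T1ev_subst {H : Type} [Group H] (c : L) (φ : L →* H) (y : H) (e : Bool)
    (w : List (L × Bool)) :
    ev φ (y * φ c) (subst c e w) =
      (if e then (φ c)⁻¹ else 1) * ev φ y w * (if T1ls e w then φ c else 1) := by
  induction w generalizing e with
  | nil =>
    change (1 : H) = (if e then (φ c)⁻¹ else 1) * 1 * (if e then φ c else 1)
    rcases e <;> simp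
  | cons p w ih =>
    rw [ev_cons]
    change ev φ (y * φ c) (((if e then c⁻¹ else 1) * p.1 * (if p.2 then 1 else c), p.2) ::
      subst c p.2 w) = (if e then (φ c)⁻¹ else 1) * (φ p.1 * sg p.2 y * ev φ y w) *
        (if T1ls p.2 w then φ c else 1)
    rw [ev_cons, ih]
    rcases e <;> rcases p.2 <;> simp [mul_assoc]

/-- The value of the substituted word. -/
theorem ev_subst {H : Type} [Group H] (c : L) (φ : L →* H) (y : H) (e : Bool)
    (w : List (L × Bool)) (hw : ∀ p ∈ w.getLast?, p.2 = e) :
    ev φ (y * φ c) (subst c e w) =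
      (if e then (φ c)⁻¹ else 1) * ev φ y w * (if e then φ c else 1) := by
  rw [T1ev_subst, T1ls_eq hw]

theorem esum_subst (c : L) (e : Bool) (w : List (L × Bool)) : esum (subst c e w) = esum w := by
  induction w generalizing e with
  | nil => rfl
  | cons p w ih =>
    rw [esum_cons]
    change esum (((if e then c⁻¹ else 1) * p.1 * (if p.2 then 1 else c), p.2) ::
      subst c p.2 w) = _
    rw [esum_cons, ih]

theorem length_subst (c : L) (e : Bool) (w : List (L × Bool)) :
    (subst c e w).length = w.length := by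
  induction w generalizing e with
  | nil => rfl
  | cons p w ih =>
    change (subst c p.2 w).length + 1 = w.length + 1
    rw [ih]

/-- The substitution preserves good words (`e` is the sign of the last letter). -/
theorem Good.subst {w : List (L × Bool)} (h : Good w) (c : L) (e : Bool)
    (he : ∀ p ∈ w.getLast?, p.2 = e) : Good (subst c e w) := by
  obtain ⟨h1, h2, h3⟩ := h
  have hls := T1ls_eq he
  refine ⟨fun h0 => h1 ?_, ?_, ?_⟩
  · rw [← List.length_eq_zero_iff, ← length_subst c e w, h0]
    rfl
  · unfold CR
    have h4 : Pool.Agent.OR.subst c e w ++ Pool.Agent.OR.subst c e w =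
        Pool.Agent.OR.subst c e (w ++ w) := by
      rw [T1subst_append, hls]
    rw [h4]
    exact T1subst_chain c e (w ++ w) h2
  · intro u k hk hu
    have hu0 : u ≠ [] := by
      rintro rfl
      have h5 : Pool.Agent.OR.subst c e w = [] := by
        rw [hu]
        simp
      apply h1
      rw [← List.length_eq_zero_iff, ← length_subst c e w, h5]
      rfl
    have h6 : T1ls e u = e := by
      have h7 : T1ls e (Pool.Agent.OR.subst c e w) = e := by rw [T1ls_subst, hls]
      obtain ⟨j, rfl⟩ : ∃ j, k = j + 1 := ⟨k - 1, by omega⟩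
      rw [hu, List.replicate_succ', List.flatten_append, List.flatten_singleton,
        T1ls_append] at h7
      rwa [T1ls_of_ne hu0] at h7
    refine h3 (Pool.Agent.OR.subst c⁻¹ e u) k hk ?_
    rw [← T1subst_power c⁻¹ e u h6, ← hu, T1subst_inv]

/-- Normalised words: length less than `n`, or the second letter has the same sign as the first
one and a trivial syllable. -/
def Norml (n : ℕ) (w : List (L × Bool)) : Prop :=
  w.length < n ∨ ∃ (a : L) (e : Bool) (w₀ : List (L × Bool)), w = (a, e) :: (1, e) :: w₀

/-- A list which is not cyclically a chain has a rotation which starts with a bad pair. -/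
theorem exists_rotate_bad {α : Type} {R : α → α → Prop} (w : List α)
    (hw : 2 ≤ w.length ∨ ∀ p, R p p)
    (h : ¬ (w.IsChain R ∧ ∀ p ∈ w.getLast?, ∀ q ∈ w.head?, R p q)) :
    ∃ (v₁ v₂ : List α) (p q : α) (u : List α), w = v₁ ++ v₂ ∧ v₂ ++ v₁ = p :: q :: u ∧
      ¬ R p q := by
  rw [not_and_or] at h
  rcases h with h | h
  · rw [List.isChain_iff_forall_rel_of_append_cons_cons] at h
    push Not at h
    obtain ⟨p, q, l₁, l₂, h1, h2⟩ := h
    exact ⟨l₁, p :: q :: l₂, p, q, l₂ ++ l₁, h1, by simp, h2⟩
  · push Not at h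
    obtain ⟨p, hp, q, hq, h2⟩ := h
    rcases w with _ | ⟨q', l⟩
    · simp at hq
    · rw [List.head?_cons, Option.mem_some_iff] at hq
      subst hq
      rcases List.eq_nil_or_concat l with rfl | ⟨l', p', rfl⟩
      · rw [List.getLast?_singleton, Option.mem_some_iff] at hp
        subst hp
        rcases hw with hw | hw
        · simp at hw
        · exact absurd (hw _) h2
      · have h3 : p' = p := by
          rw [List.concat_eq_append, ← List.cons_append, List.getLast?_append] at hp
          simpa using hp
        subst h3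
        exact ⟨q' :: l', [p'], p', q', l', by simp, by simp, h2⟩

/-- Alternating signs, first and last sign different: the exponent sum is zero. -/
theorem esum_alternating {S : Type} (p : S × Bool) (w : List (S × Bool))
    (h : (p :: w).IsChain fun p q => p.2 ≠ q.2) :
    ∀ q ∈ (p :: w).getLast?, esum (p :: w) =
      if q.2 = p.2 then (if p.2 then (1 : ℤ) else -1) else 0 := by
  induction w generalizing p with
  | nil =>
    intro q hq
    rw [List.getLast?_singleton, Option.mem_some_iff] at hq
    subst hq
    simp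
  | cons p' w ih =>
    intro q hq
    rw [List.isChain_cons_cons] at h
    rw [List.getLast?_cons_cons] at hq
    have h1 := ih p' h.2 q hq
    rw [esum_cons, h1]
    have h2 := h.1
    rcases hp : p.2 <;> rcases hp' : p'.2 <;> rcases hq' : q.2 <;> simp [hp, hp'] at h2 ⊢

theorem exists_same_sign {S : Type} (w : List (S × Bool)) (hs : esum w ≠ 0)
    (hl : 2 ≤ w.length) :
    ∃ (v₁ v₂ : List (S × Bool)) (a b : S) (e : Bool) (u : List (S × Bool)), w = v₁ ++ v₂ ∧
      v₂ ++ v₁ = (a, e) :: (b, e) :: u := by
  have h : ¬ (w.IsChain (fun p q => p.2 ≠ q.2) ∧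
      ∀ p ∈ w.getLast?, ∀ q ∈ w.head?, p.2 ≠ q.2) := by
    rintro ⟨h1, h2⟩
    rcases w with _ | ⟨p, w⟩
    · exact hs rfl
    · obtain ⟨q, hq⟩ : ∃ q, q ∈ (p :: w).getLast? := by
        rw [List.getLast?_cons]
        exact ⟨_, rfl⟩
      have h3 := esum_alternating p w h1 q hq
      rw [if_neg (h2 q hq p (by simp))] at h3
      exact hs h3
  obtain ⟨v₁, v₂, ⟨a, e⟩, ⟨b, f⟩, u, h1, h2, h3⟩ := exists_rotate_bad w (Or.inl hl) h
  have h4 : e = f := by simpa using h3
  subst h4
  exact ⟨v₁, v₂, a, b, e, u, h1, h2⟩

/-- Normalisation by a rotation and a substitution. -/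
theorem exists_norml (n : ℕ) (hn : 2 ≤ n) (w : List (L × Bool)) (hw : Good w)
    (hs : esum w ≠ 0) (hl : w.length ≤ n) :
    ∃ (w' : List (L × Bool)) (c : L), Good w' ∧ esum w' ≠ 0 ∧ w'.length = w.length ∧ Norml n w' ∧
      ∀ (H : Type) [Group H] (φ : L →* H) (y : H),
        ev φ y w = 1 ↔ ev φ (y * φ c) w' = 1 := by
  rcases hl.lt_or_eq with hlt | heq
  · refine ⟨w, 1, hw, hs, rfl, Or.inl hlt, fun H _ φ y => ?_⟩
    rw [map_one, mul_one]
  obtain ⟨v₁, v₂, a, b, e, u, rfl, h2⟩ := exists_same_sign w hs (by omega)
  have hg : Good (v₂ ++ v₁) := hw.rotate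
  obtain ⟨e₀, he₀⟩ : ∃ e₀, ∀ p ∈ (v₂ ++ v₁).getLast?, p.2 = e₀ := by
    rw [h2]
    rcases hh : ((a, e) :: (b, e) :: u).getLast? with _ | p
    · exact ⟨true, by simp⟩
    · exact ⟨p.2, by simp⟩
  refine ⟨subst (if e then b else b⁻¹) e₀ (v₂ ++ v₁), if e then b else b⁻¹,
    hg.subst _ _ he₀, ?_, ?_, Or.inr ?_, fun H _ φ y => ?_⟩
  · rw [esum_subst, esum_append, add_comm, ← esum_append]
    exact hs
  · rw [length_subst, List.length_append, List.length_append, add_comm]
  · rw [h2, subst, subst]
    exact ⟨_, e, subst (if e then b else b⁻¹) e u, by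
      congr 2
      rcases e <;> simp⟩
  · rw [ev_rotate_iff, ev_subst _ _ _ _ _ he₀]
    rcases e₀
    · simp
    · constructor
      · intro h
        rw [h]
        simp
      · intro h
        simp only [if_true] at h
        have h3 : ev φ y (v₂ ++ v₁) = φ (if e then b else b⁻¹) *
            ((φ (if e then b else b⁻¹))⁻¹ * ev φ y (v₂ ++ v₁) * φ (if e then b else b⁻¹)) *
              (φ (if e then b else b⁻¹))⁻¹ := by group
        rw [h3, h]
        group

theorem one_mem_lab {S H : Type} [Group H] (φ : S → H) (w : List (S × Bool)) (hw : w ≠ []) :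
    (1 : H) ∈ lab φ 1 w := by
  induction w with
  | nil => exact absurd rfl hw
  | cons p w ih =>
    rw [lab]
    by_cases h : w = []
    · subst h
      rcases p.2 <;> simp
    · exact List.mem_cons_of_mem _ (ih h)

theorem syllable_eq_one {S H : Type} [Group H] (φ : S → H) (w : List (S × Bool))
    (h1 : ∀ p ∈ lab φ 1 w, p = 1) (h : ev φ 1 w = 1) : ∀ p ∈ w, φ p.1 = 1 := by
  induction w with
  | nil => simp
  | cons p w ih =>
    rw [lab] at h1
    have h2 : ev φ 1 w = 1 := by
      have h3 := h1 _ List.mem_cons_self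
      rcases hp : p.2 <;> simpa [hp] using h3
    have h4 := ih (fun q hq => h1 q (List.mem_cons_of_mem _ hq)) h2
    intro q hq
    rcases List.mem_cons.1 hq with rfl | hq
    · rw [ev_cons, h2, sg_one, mul_one, mul_one] at h
      exact h
    · exact h4 q hq

/-- A solution of a normalised word whose syllables do not all have value `1` is separated. -/
theorem Norml.sep {n : ℕ} {w : List (L × Bool)} (hw : Norml n w) (hl : w.length ≤ n) {H : Type}
    [Group H] (φ : L →* H) (y : H) (h : ev φ y w = 1) (hs : ∃ p ∈ w, φ p.1 ≠ 1) :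
    Sep n φ y w := by
  rcases hl.lt_or_eq with hlt | heq
  · exact Or.inl hlt
  rcases hw with hw | ⟨a, e, w₀, rfl⟩
  · exact Or.inl hw
  refine Or.inr ⟨heq, ?_⟩
  by_contra hcon
  push Not at hcon
  have hy : y = 1 := by
    have h1 := hcon (if e then ev φ y ((1, e) :: w₀) else y⁻¹ * ev φ y ((1, e) :: w₀))
      (by simp [lab]) (if e then ev φ y w₀ else y⁻¹ * ev φ y w₀) (by simp [lab])
    rw [ev_cons, map_one, one_mul] at h1
    rcases e
    · simpa using h1
    · simpa using h1
  subst hy
  have h1 : ∀ p ∈ lab φ 1 ((a, e) :: (1, e) :: w₀), p = 1 := fun p hp =>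
    hcon p hp 1 (one_mem_lab φ _ (by simp))
  obtain ⟨p, hp, hp1⟩ := hs
  exact hp1 (syllable_eq_one φ _ h1 h p hp)

/-- Cyclic reduction and root: every word with non-zero exponent sum is a consequence of a good
one which is not longer. (Strong induction on the length.) -/
theorem exists_good_root (w : List (L × Bool)) (hs : esum w ≠ 0) :
    ∃ w' : List (L × Bool), Good w' ∧ esum w' ≠ 0 ∧ w'.length ≤ w.length ∧
      ∀ (H : Type) [Group H] (φ : L →* H) (y : H), ev φ y w' = 1 → ev φ y w = 1 := by
  have key : ∀ (n : ℕ) (w : List (L × Bool)), w.length = n → esum w ≠ 0 →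
      ∃ w' : List (L × Bool), Good w' ∧ esum w' ≠ 0 ∧ w'.length ≤ w.length ∧
        ∀ (H : Type) [Group H] (φ : L →* H) (y : H), ev φ y w' = 1 → ev φ y w = 1 := by
    intro n
    induction n using Nat.strong_induction_on with
    | _ n ih =>
      intro w hn hs
      have hne : w ≠ [] := by
        rintro rfl
        exact hs rfl
      by_cases hcr : CR w
      · obtain ⟨u, k, hk, rfl, hu0, hu⟩ := exists_root w hne
        have hes : ∀ j : ℕ, esum (List.replicate j u).flatten = j * esum u := by
          intro j
          induction j with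
          | zero => simp
          | succ j ihj =>
            rw [List.replicate_succ, List.flatten_cons, esum_append, ihj]
            push_cast
            ring
        refine ⟨u, ⟨hu0, ?_, hu⟩, ?_, ?_, fun H _ φ y h => ?_⟩
        · obtain ⟨j, rfl⟩ : ∃ j, k = j + 1 := ⟨k - 1, by omega⟩
          have h1 : (List.replicate (j + 1) u).flatten ++ (List.replicate (j + 1) u).flatten =
              (List.replicate j u).flatten ++ (u ++ u) ++ (List.replicate j u).flatten := by
            have h2 : (List.replicate (j + 1) u).flatten =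
                (List.replicate j u).flatten ++ u := by
              rw [List.replicate_succ', List.flatten_append]
              simp
            have h3 : (List.replicate (j + 1) u).flatten =
                u ++ (List.replicate j u).flatten := by
              rw [List.replicate_succ, List.flatten_cons]
            calc (List.replicate (j + 1) u).flatten ++ (List.replicate (j + 1) u).flatten =
                  ((List.replicate j u).flatten ++ u) ++ (u ++ (List.replicate j u).flatten) := by
                    rw [← h2, ← h3]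
              _ = _ := by simp only [List.append_assoc]
          unfold CR at hcr ⊢
          rw [h1] at hcr
          exact hcr.left_of_append.right_of_append
        · intro h0
          rw [hes, h0, mul_zero] at hs
          exact hs rfl
        · obtain ⟨j, rfl⟩ : ∃ j, k = j + 1 := ⟨k - 1, by omega⟩
          rw [List.replicate_succ, List.flatten_cons, List.length_append]
          omega
        · rw [ev_flatten_replicate, h, one_pow]
      · rw [cr_iff] at hcr
        obtain ⟨v₁, v₂, ⟨a, e⟩, ⟨b, f⟩, u, rfl, h2, h3⟩ := exists_rotate_bad w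
          (Or.inr fun p h => absurd rfl h) hcr
        unfold Adj at h3
        push Not at h3
        obtain ⟨hef, hb⟩ := h3
        simp only at hef hb
        subst hb
        have hes : esum ((a, e) :: (1, f) :: u) = esum u := by
          rw [esum_cons, esum_cons]
          rcases e <;> rcases f <;> simp at hef ⊢
        have hes' : esum (v₁ ++ v₂) = esum u := by
          rw [← hes, ← h2, esum_append, esum_append, add_comm]
        have hlen : u.length + 2 = (v₁ ++ v₂).length := by
          have := congrArg List.length h2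
          simp only [List.length_append, List.length_cons] at this ⊢
          omega
        rcases u with _ | ⟨⟨c, g⟩, u⟩
        · rw [hes'] at hs
          exact absurd rfl hs
        · obtain ⟨w', h4, h5, h6, h7⟩ := ih ((a * c, g) :: u).length (by
            rw [← hn, ← hlen]
            simp) ((a * c, g) :: u) rfl (by
            rw [hes'] at hs
            simpa using hs)
          refine ⟨w', h4, h5, h6.trans ?_, fun H _ φ y h => ?_⟩
          · rw [← hlen]
            simp
          · have h8 := h7 H φ y h
            rw [ev_rotate_iff, h2, ev_cons, ev_cons, ev_cons]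
            rw [ev_cons] at h8
            simp only [map_mul, map_one, one_mul] at h8 ⊢
            have h9 : sg e y * sg f y = 1 := by
              rcases e <;> rcases f <;> simp at hef ⊢
            calc φ a * sg e y * (sg f y * (φ c * sg g y * ev φ y u)) =
                φ a * (sg e y * sg f y) * (φ c * sg g y * ev φ y u) := by group
              _ = 1 := by
                rw [h9, mul_one, ← h8]
                group
  exact key w.length w rfl hs

/-- A good normalised word of length at least 2 has a non-trivial syllable. -/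
theorem Good.exists_syllable {w : List (L × Bool)} (h : Good w) (hl : 2 ≤ w.length) :
    ∃ p ∈ w, p.1 ≠ 1 := by
  by_contra hcon
  push Not at hcon
  obtain ⟨-, hcr, hnp⟩ := h
  have hch : w.IsChain Adj := hcr.left_of_append
  have key : ∀ (e : Bool) (w : List (L × Bool)), (∀ p ∈ w, p.1 = 1) →
      (((1 : L), e) :: w).IsChain Adj → w = List.replicate w.length ((1 : L), e) := by
    intro e w
    induction w with
    | nil => simp
    | cons p w ih =>
      intro h1 h2
      rw [List.isChain_cons_cons] at h2
      have h3 : p = (1, e) := by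
        have h4 := h1 p List.mem_cons_self
        refine Prod.ext h4 ?_
        by_contra h5
        exact h2.1 (fun h6 => h5 h6.symm) h4
      subst h3
      have h5 := ih (fun q hq => h1 q (List.mem_cons_of_mem _ hq)) h2.2
      rw [List.length_cons, List.replicate_succ, ← h5]
  rcases w with _ | ⟨⟨a, e⟩, w⟩
  · simp at hl
  · have ha : a = 1 := hcon (a, e) List.mem_cons_self
    subst ha
    have h1 := key e w (fun p hp => hcon p (List.mem_cons_of_mem _ hp)) hch
    refine hnp [((1 : L), e)] (w.length + 1) hl ?_
    have h2 : ∀ j : ℕ, (List.replicate j [((1 : L), e)]).flatten =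
        List.replicate j ((1 : L), e) := by
      intro j
      induction j with
      | zero => rfl
      | succ j ih => rw [List.replicate_succ, List.flatten_cons, ih, List.replicate_succ]; rfl
    rw [h2, List.replicate_succ, ← h1]

end

/-- Words over the centre only. -/
def inlw {L : Type} (M : Type) (u : List (L × Bool)) : List ((L ⊕ M) × Bool) :=
  u.map fun p => (Sum.inl p.1, p.2)

theorem T3ev_inlw {L H : Type} [Group L] [Group H] (φ : L → H) (ψ : Unit → H) (y : H)
    (u : List (L × Bool)) : ev (Sum.elim φ ψ) y (inlw Unit u) = ev φ y u := by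
  rw [inlw, ev_map]
  rfl

theorem T3sep_inlw {L H : Type} [Group L] [Group H] (n : ℕ) (φ : L → H) (ψ : Unit → H) (y : H)
    (u : List (L × Bool)) : Sep n (Sum.elim φ ψ) y (inlw Unit u) ↔ Sep n φ y u := by
  rw [inlw, sep_map]
  rfl

theorem T3esum_map {S S' : Type} (g : S → S') (u : List (S × Bool)) :
    esum (u.map fun p => (g p.1, p.2)) = esum u := by
  induction u with
  | nil => rfl
  | cons p u ih => rw [List.map_cons, esum_cons, ih, esum_cons]

theorem T3wmap_inlw {L B : Type} [Group L] [Group B] (φ : L → B) (ψ : Unit → B)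
    (u : List (L × Bool)) : wmap φ ψ (inlw Unit u) = u.map fun p => (φ p.1, p.2) := by
  rw [wmap, inlw, List.map_map]
  rfl

theorem T3exists_of_cmap {L L' : Type} [Group L] [Group L'] (g : L → L')
    (w : List ((L ⊕ Unit) × Bool)) (u' : List (L' × Bool)) (h : cmap g w = inlw Unit u') :
    ∃ u : List (L × Bool), w = inlw Unit u ∧ u' = u.map fun p => (g p.1, p.2) := by
  induction w generalizing u' with
  | nil =>
    cases u' with
    | nil => exact ⟨[], rfl, rfl⟩
    | cons q u' => exact absurd h (by simp [cmap, inlw])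
  | cons p w ih =>
    cases u' with
    | nil => exact absurd h (by simp [cmap, inlw])
    | cons q u' =>
      rcases p with ⟨a | m, e⟩
      · have h1 : ((Sum.inl (g a), e) : (L' ⊕ Unit) × Bool) :: cmap g w =
            (Sum.inl q.1, q.2) :: inlw Unit u' := h
        rw [List.cons.injEq] at h1
        obtain ⟨u, hu1, hu2⟩ := ih u' h1.2
        have h2 := h1.1
        rw [Prod.mk.injEq, Sum.inl.injEq] at h2
        refine ⟨(a, e) :: u, by rw [hu1]; rfl, ?_⟩
        rw [List.map_cons, hu2, h2.1, h2.2]
      · exfalso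
        have h1 : ((Sum.inr m, e) : (L' ⊕ Unit) × Bool) :: cmap g w =
            (Sum.inl q.1, q.2) :: inlw Unit u' := h
        rw [List.cons.injEq, Prod.mk.injEq] at h1
        exact absurd h1.1.1 (by simp)

theorem T3good_map {L B : Type} [Group L] [Group B] (φ : L →* B) (hφ : Injective φ)
    {u : List (L × Bool)} (h : Good u) : Good (u.map fun p => (φ p.1, p.2)) :=
  Good.map φ (fun p _ hp => hφ (by rw [hp, map_one])) (fun p _ q _ hpq => hφ hpq) h

/-- The key property of the normalised words. -/
theorem T3typeI {n : ℕ} {L Q : Type} [Group L] [Group Q] (g : L →* Q) (u' : List (L × Bool))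
    (hs : esum u' ≠ 0) (hl : u'.length ≤ n) (hn : Norml n u')
    (hsyl : n ≤ u'.length → ∃ p ∈ u', g p.1 ≠ 1) :
    ∃ v' : List (Q × Bool), Good v' ∧ esum v' ≠ 0 ∧ v'.length ≤ n ∧
      TypeI n g (inlw Unit u') (inlw Unit v') := by
  obtain ⟨v', h1, h2, h3, h4⟩ := exists_good_root (u'.map fun p => (g p.1, p.2))
    (by rw [T3esum_map]; exact hs)
  rw [List.length_map] at h3
  refine ⟨v', h1, h2, h3.trans hl, ?_⟩
  intro H _ φ ψ y hy
  rw [T3ev_inlw] at hy
  have h5 := h4 H φ y hy
  have h6 : ev (φ.comp g) y u' = 1 := by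
    rw [ev_map] at h5
    exact h5
  refine ⟨by rw [T3ev_inlw]; exact h6, fun hφ _ => ?_⟩
  rw [T3sep_inlw]
  rcases lt_or_ge u'.length n with h7 | h7
  · exact Sep.of_lt n _ y u' h7
  · obtain ⟨p, hp, hp1⟩ := hsyl h7
    refine Norml.sep hn hl (φ.comp g) y h6 ⟨p, hp, fun h8 => hp1 (hφ ?_)⟩
    rw [map_one]
    exact h8

/-- The class of the good words over the centre with non-zero exponent sum and at most `n`
letters. -/
def TC (n : ℕ) (hn : 2 ≤ n) : WClass n Unit where
  adm {L} _ w := ∃ u : List (L × Bool), w = inlw Unit u ∧ Good u ∧ esum u ≠ 0 ∧ u.length ≤ n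
  len := by
    rintro L _ w ⟨u, rfl, -, -, h⟩
    rw [inlw, List.length_map]
    exact h
  good := by
    rintro L B _ _ φ ψ hφ - w ⟨u, rfl, h, -, -⟩
    rw [T3wmap_inlw]
    exact T3good_map φ hφ h
  refl := by
    rintro L L' _ _ g w ⟨u', hu', h1, h2, h3⟩
    obtain ⟨u, rfl, rfl⟩ := T3exists_of_cmap g w u' hu'
    rw [T3esum_map] at h2
    rw [List.length_map] at h3
    exact ⟨u, rfl, Good.of_map g h1, h2, h3⟩
  step := by
    rintro L Q _ _ g w ⟨u, rfl, h1, h2, h3⟩
    obtain ⟨u', c, g1, g2, g3, g4, g5⟩ := exists_norml n hn u h1 h2 h3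
    refine ⟨inlw Unit u', c, ⟨u', rfl, g1, g2, by rw [g3]; exact h3⟩, ?_, ?_⟩
    · intro H _ φ ψ y
      rw [T3ev_inlw, T3ev_inlw]
      exact g5 H φ y
    · by_cases hK : ∀ p ∈ u', g p.1 = 1
      · left
        intro a e hae
        rw [inlw, List.mem_map] at hae
        obtain ⟨p, hp, hpe⟩ := hae
        rw [Prod.mk.injEq, Sum.inl.injEq] at hpe
        rw [← hpe.1]
        exact hK p hp
      · right
        right
        push Not at hK
        obtain ⟨v', k1, k2, k3, k4⟩ := T3typeI g u' g2 (by rw [g3]; exact h3) g4 fun _ => hK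
        exact ⟨inlw Unit v', ⟨v', rfl, k1, k2, k3⟩, k4⟩
  res := by
    rintro L _ w ⟨u, rfl, h1, h2, h3⟩
    obtain ⟨u', c, g1, g2, g3, g4, g5⟩ := exists_norml n hn u h1 h2 h3
    refine ⟨inlw Unit u', c, {a | a ≠ 1 ∧ ∃ p ∈ u', p.1 = a},
      ⟨u', rfl, g1, g2, by rw [g3]; exact h3⟩, ?_, ?_, fun h => h.1 rfl, ?_⟩
    · intro H _ φ ψ y
      rw [T3ev_inlw, T3ev_inlw]
      exact g5 H φ y
    · have hfin : {a : L | a ∈ u'.map Prod.fst}.Finite := List.finite_toSet _
      refine hfin.subset ?_
      rintro a ⟨-, p, hp, rfl⟩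
      exact List.mem_map_of_mem hp
    · intro Q _ g hg
      obtain ⟨v', k1, k2, k3, k4⟩ := T3typeI g u' g2 (by rw [g3]; exact h3) g4 (fun hnl => by
        obtain ⟨p, hp, hp1⟩ := g1.exists_syllable (hn.trans hnl)
        exact ⟨p, hp, hg p.1 ⟨hp1, p, hp, rfl⟩⟩)
      exact ⟨inlw Unit v', ⟨v', rfl, k1, k2, k3⟩, k4⟩

/-- The value of a word in a commutative group. -/
theorem T3ev_comm {L : Type} [Group L] (φ : L →* Multiplicative ℚ) (q : ℚ)
    (u : List (L × Bool)) :
    Multiplicative.toAdd (ev φ (Multiplicative.ofAdd q) u) =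
      (u.map fun p => Multiplicative.toAdd (φ p.1)).sum + (esum u : ℚ) * q := by
  induction u with
  | nil =>
    change (0 : ℚ) = 0 + ((0 : ℤ) : ℚ) * q
    simp
  | cons p u ih =>
    rw [ev_cons, esum_cons, List.map_cons, List.sum_cons, toAdd_mul, toAdd_mul, ih]
    rcases p.2
    · change Multiplicative.toAdd (φ p.1) + Multiplicative.toAdd (Multiplicative.ofAdd q)⁻¹ +
        ((u.map fun p => Multiplicative.toAdd (φ p.1)).sum + (esum u : ℚ) * q) = _
      rw [toAdd_inv, toAdd_ofAdd]
      simp
      ring
    · change Multiplicative.toAdd (φ p.1) + Multiplicative.toAdd (Multiplicative.ofAdd q) +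
        ((u.map fun p => Multiplicative.toAdd (φ p.1)).sum + (esum u : ℚ) * q) = _
      rw [toAdd_ofAdd]
      simp
      ring

/-- The centre `ℤ`: `f : G → ℚ`, `c ↦ 1`, `y ↦ - (sum of the syllables) / (exponent sum)`. -/
theorem TC_int (n : ℕ) (hn : 2 ≤ n) (hM : ∀ m < n, MM m) :
    (TC n hn).P (Multiplicative ℤ) := by
  intro Ω G _ w ι μ y hadm hst
  choose u hu h1 h2 h3 using hadm
  choose u' c g1 g2 g3 g4 g5 using fun o => exists_norml n hn (u o) (h1 o) (h2 o) (h3 o)
  have hst' : IsStar (fun o => inlw Unit (u' o)) ι μ (fun o => y o * ι (c o)) := by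
    refine IsStar.equi hst c fun o => ?_
    intro H _ φ ψ z
    rw [hu o, T3ev_inlw, T3ev_inlw]
    exact g5 o H φ z
  let φ : Multiplicative ℤ →* Multiplicative ℚ := AddMonoidHom.toMultiplicative (Int.castAddHom ℚ)
  have hφ : Injective φ := by
    intro a b hab
    have h4 : ((Multiplicative.toAdd a : ℤ) : ℚ) = ((Multiplicative.toAdd b : ℤ) : ℚ) := hab
    exact Multiplicative.toAdd.injective (Int.cast_injective h4)
  let z : Ω → Multiplicative ℚ := fun o => Multiplicative.ofAdd
    (-(((u' o).map fun p => Multiplicative.toAdd (φ p.1)).sum) / (esum (u' o) : ℚ))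
  have hz : ∀ o, ev φ (z o) (u' o) = 1 := by
    intro o
    apply Multiplicative.toAdd.injective
    rw [T3ev_comm, toAdd_one]
    have h5 : (esum (u' o) : ℚ) ≠ 0 := Int.cast_ne_zero.2 (g2 o)
    field_simp
    ring
  obtain ⟨f, hf1, hf2, hf3⟩ := hst'.lift (Multiplicative ℚ) φ (fun _ => 1) z (by
    intro o
    rw [T3ev_inlw]
    exact hz o)
  refine star_ct_empty n hM FEC.int (FEC.of_subsingleton Unit) FEC.rat hst' ?_ f ?_
  · intro B _ α β hα hβ o
    rw [T3wmap_inlw]
    exact T3good_map α hα (g1 o)
  · intro o
    rw [hf1, hf2, hf3, T3sep_inlw]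
    rcases lt_or_ge (u' o).length n with h7 | h7
    · exact Sep.of_lt n _ _ _ h7
    · obtain ⟨p, hp, hp1⟩ := (g1 o).exists_syllable (hn.trans h7)
      exact Norml.sep (g4 o) (by rw [g3]; exact h3 o) φ (z o) (hz o)
        ⟨p, hp, fun h8 => hp1 (hφ (by rw [h8, map_one]))⟩

/-- One word with non-zero exponent sum. -/
theorem T_theorem (n : ℕ) (hn : 2 ≤ n) (hM : ∀ m < n, MM m) {L G : Type} [Group L] [Group G]
    (hL : FEC L) (w : List (L × Bool)) (hl : w.length ≤ n) (hw : Good w) (hs : esum w ≠ 0)
    (ι : L →* G) (x : G) (hG : IsPres (fun _ : Unit => w) ι (fun _ => x)) :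
    Injective ι ∧ FEC G := by
  have hP := (TC n hn).P_all hM (FEC.of_subsingleton Unit) (TC_int n hn hM) hL
  have hst : IsStar (fun _ : Unit => inlw Unit w) ι (fun _ => (1 : Unit →* G))
      (fun _ : Unit => x) := by
    refine ⟨fun o => ?_, fun H _ f g h1 h2 h3 => ?_, fun H _ φ ψ z hz => ?_⟩
    · rw [T3ev_inlw]
      exact hG.rel o
    · exact hG.ext H f g h1 h3
    · obtain ⟨f, hf1, hf2⟩ := hG.lift H φ z (fun o => by
        have := hz o
        rwa [T3ev_inlw] at this)
      refine ⟨f, hf1, fun o => ?_, hf2⟩
      apply MonoidHom.ext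
      intro m
      have hm : m = 1 := rfl
      rw [hm, map_one, map_one]
  obtain ⟨h1, -, h3⟩ := hP Unit G _ ι _ _ (fun o => ⟨w, rfl, hw, hs, hl⟩) hst
  exact ⟨h1, h3⟩

end Pool.Agent.OR
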