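import Pool.Agent.Lib.MP_98022b_or.Tower
import Pool.Agent.Lib.MP_98022b_or.TClass

/-!
# The main theorems
-/

set_option autoImplicit false

namespace Pool.Agent.OR

open Function

/-- Rotation of the relator. -/
theorem IsPres.rotate {L G : Type} [Group L] [Group G] {v w : List (L × Bool)} {ι : L →* G} {x : G}
    (h : IsPres (fun _ : Unit => v ++ w) ι (fun _ => x)) :
    IsPres (fun _ : Unit => w ++ v) ι (fun _ => x) := by
  refine ⟨fun l => (ev_rotate_iff _ _ _ _).1 (h.rel l), h.ext, ?_⟩
  intro H _ φ z hz
  exact h.lift H φ z fun l => (ev_rotate_iff _ _ _ _).1 (hz l)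

private theorem ev_one_int {S : Type} (w : List (S × Bool)) :
    ev (fun _ : S => (1 : Multiplicative ℤ)) (Multiplicative.ofAdd (1 : ℤ)) w =
      Multiplicative.ofAdd (esum w) := by
  induction w with
  | nil => rfl
  | cons p w ih =>
    rw [ev_cons, ih, esum_cons, ofAdd_add, one_mul]
    congr 1

/-- Exponent sum zero, two cyclically consecutive letters of the same sign: the homomorphism
`G → ℤ`, `x ↦ 1`, separates. -/
theorem nonalternating (n : ℕ) (hM : ∀ m < n, MM m) {L G : Type} [Group L] [Group G]
    (hL : FEC L) (a b : L) (e : Bool) (w : List (L × Bool))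
    (hl : w.length + 2 ≤ n) (hw : Good ((a, e) :: (b, e) :: w))
    (hs : esum ((a, e) :: (b, e) :: w) = 0)
    (ι : L →* G) (x : G) (hG : IsPres (fun _ : Unit => (a, e) :: (b, e) :: w) ι (fun _ => x)) :
    Injective ι ∧ FEC G := by
  obtain ⟨f, hf1, hf2⟩ := hG.lift (Multiplicative ℤ) (1 : L →* Multiplicative ℤ)
    (fun _ => Multiplicative.ofAdd (1 : ℤ)) (fun _ => by
      have h := ev_one_int ((a, e) :: (b, e) :: w)
      rw [hs, ofAdd_zero] at h
      exact h)
  refine cover n hM hL FEC.int (fun _ : Unit => (a, e) :: (b, e) :: w) (fun _ => hw) ι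
    (fun _ => x) hG f fun _ => ?_
  rw [hf1, hf2 ()]
  by_cases h : w.length + 2 < n
  · exact Or.inl (by simpa using h)
  · refine Or.inr ⟨by simp only [List.length_cons]; omega, _, List.mem_cons_self,
      _, List.mem_cons_of_mem _ List.mem_cons_self, ?_⟩
    intro h'
    cases e <;> simp [ev_cons] at h'

private theorem exists_not_chain {α : Type} (R : α → α → Prop) :
    ∀ w : List α, ¬ w.IsChain R → ∃ v₁ a b v₂, w = v₁ ++ a :: b :: v₂ ∧ ¬ R a b
  | [], h => absurd (by simp) h
  | [a], h => absurd (by simp) h
  | a :: b :: w, h => by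
    by_cases hab : R a b
    · have h2 : ¬ (b :: w).IsChain R := fun h' => h (List.isChain_cons_cons.2 ⟨hab, h'⟩)
      obtain ⟨v₁, c, d, v₂, h3, h4⟩ := exists_not_chain R (b :: w) h2
      exact ⟨a :: v₁, c, d, v₂, by rw [h3]; rfl, h4⟩
    · exact ⟨[], a, b, w, rfl, hab⟩

private theorem alt_aux {L : Type} [Group L] : ∀ w : List (L × Bool),
    w.IsChain (fun p q => p.2 ≠ q.2) → (∀ p ∈ w.head?, p.2 = true) →
      (∀ p ∈ w.getLast?, p.2 = false) →
      ∃ s : List (L × L), w = wmap (MonoidHom.id L) (MonoidHom.id L) (sw s)
  | [], _, _, _ => ⟨[], rfl⟩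
  | [p], _, h1, h2 => by
    have h3 := h1 p (by simp)
    have h4 := h2 p (by simp)
    rw [h3] at h4
    exact absurd h4 (by simp)
  | p :: q :: w, hc, h1, h2 => by
    have hpq := (List.isChain_cons_cons.1 hc).1
    have hc2 := (List.isChain_cons_cons.1 hc).2
    have hp : p.2 = true := h1 p (by simp)
    have hq : q.2 = false := by
      rw [hp] at hpq
      cases hq : q.2
      · rfl
      · exact absurd hq.symm hpq
    obtain ⟨s, hs⟩ := alt_aux w (by
        cases w with
        | nil => simp
        | cons r w => exact (List.isChain_cons_cons.1 hc2).2) (by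
        intro r hr
        cases w with
        | nil => simp at hr
        | cons r' w =>
          simp only [List.head?_cons, Option.mem_def, Option.some.injEq] at hr
          subst hr
          have := (List.isChain_cons_cons.1 hc2).1
          rw [hq] at this
          cases hr : r'.2
          · exact absurd hr.symm this
          · rfl) (by
        intro r hr
        refine h2 r ?_
        rw [List.getLast?_cons, List.getLast?_cons]
        rw [Option.mem_def] at hr
        simp [hr])
    refine ⟨(p.1, q.1) :: s, ?_⟩
    rw [sw_cons]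
    change _ = (p.1, true) :: (q.1, false) :: wmap (MonoidHom.id L) (MonoidHom.id L) (sw s)
    rw [← hs, ← hp, ← hq]

/-- A word without cyclically consecutive letters of the same sign is, up to a rotation, of the
form `sw s`. -/
theorem exists_alternating {L : Type} [Group L] (w : List (L × Bool)) (hw : Good w)
    (hl : 2 ≤ w.length) :
    (∃ (v₁ v₂ : List (L × Bool)) (a b : L) (e : Bool) (u : List (L × Bool)), w = v₁ ++ v₂ ∧
      v₂ ++ v₁ = (a, e) :: (b, e) :: u) ∨
    (∃ (v₁ v₂ : List (L × Bool)) (s : List (L × L)), w = v₁ ++ v₂ ∧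
      v₂ ++ v₁ = wmap (MonoidHom.id L) (MonoidHom.id L) (sw s)) := by
  by_cases hc : w.IsChain (fun p q : L × Bool => p.2 ≠ q.2)
  · obtain ⟨p, w', rfl⟩ : ∃ p w', w = p :: w' := by
      cases w with
      | nil => simp at hl
      | cons p w' => exact ⟨p, w', rfl⟩
    have hw' : w' ≠ [] := by rintro rfl; simp at hl
    obtain ⟨u, q, hu⟩ : ∃ u q, w' = u ++ [q] :=
      ⟨w'.dropLast, w'.getLast hw', (List.dropLast_append_getLast hw').symm⟩
    by_cases hpq : q.2 = p.2
    · refine Or.inl ⟨p :: u, [q], q.1, p.1, q.2, u, by rw [hu]; rfl, ?_⟩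
      change q :: p :: u = _
      nth_rewrite 2 [hpq]
      rfl
    · right
      cases hp : p.2
      · -- first sign negative
        have hq : q.2 = true := by
          cases hq : q.2
          · exact absurd (hq.trans hp.symm) hpq
          · rfl
        have hcyc : (w' ++ [p]).IsChain (fun p q : L × Bool => p.2 ≠ q.2) := by
          rw [List.isChain_append]
          refine ⟨?_, by simp, ?_⟩
          · exact hc.tail
          · intro x hx y hy
            rw [hu] at hx
            simp only [List.getLast?_append, List.getLast?_singleton, Option.some_or,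
              Option.mem_def, Option.some.injEq] at hx
            simp only [List.head?_cons, Option.mem_def, Option.some.injEq] at hy
            subst hx; subst hy
            exact hpq
        obtain ⟨s, hs⟩ := alt_aux (w' ++ [p]) hcyc (by
          intro r hr
          cases w' with
          | nil => exact absurd rfl hw'
          | cons r' w'' =>
            simp only [List.cons_append, List.head?_cons, Option.mem_def,
              Option.some.injEq] at hr
            subst hr
            have := (List.isChain_cons_cons.1 hc).1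
            rw [hp] at this
            cases hr : r'.2
            · exact absurd hr.symm this
            · rfl) (by
          intro r hr
          simp only [List.getLast?_append, List.getLast?_singleton, Option.some_or,
              Option.mem_def, Option.some.injEq] at hr
          subst hr
          exact hp)
        exact ⟨[p], w', s, rfl, hs⟩
      · have hq : q.2 = false := by
          cases hq : q.2
          · rfl
          · exact absurd (hq.trans hp.symm) hpq
        obtain ⟨s, hs⟩ := alt_aux (p :: w') hc (by
          intro r hr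
          simp only [List.head?_cons, Option.mem_def, Option.some.injEq] at hr
          subst hr
          exact hp) (by
          intro r hr
          rw [hu] at hr
          have hr' : r = q := by
            have : (p :: (u ++ [q])).getLast? = some q := by
              rw [← List.cons_append, List.getLast?_concat]
            rw [this] at hr
            simpa using hr.symm
          rw [hr']
          exact hq)
        exact ⟨p :: w', [], s, by simp, by simpa using hs⟩
  · obtain ⟨v₁, a, b, v₂, h1, h2⟩ := exists_not_chain _ w hc
    have h3 : a.2 = b.2 := by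
      by_contra h; exact h2 h
    refine Or.inl ⟨v₁, a :: b :: v₂, a.1, b.1, a.2, v₂ ++ v₁, h1, ?_⟩
    change a :: b :: (v₂ ++ v₁) = _
    nth_rewrite 2 [h3]
    rfl

/-- **The induction.** -/
theorem MM_all (n : ℕ) : MM n := by
  induction n using Nat.strong_induction_on with
  | _ n hM =>
    rcases Nat.lt_or_ge n 2 with hn | hn
    · interval_cases n
      · intro L G _ _ _ w hw hg
        exact absurd (List.length_eq_zero_iff.1 hw) hg.1
      · exact MM_one
    · intro L G _ _ hL w hlen hgood ι x hG
      by_cases hs : esum w = 0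
      · rcases exists_alternating w hgood (by omega) with
          ⟨v₁, v₂, a, b, e, u, rfl, h2⟩ | ⟨v₁, v₂, s, rfl, h2⟩
        · have hG' := hG.rotate
          have hg' := hgood.rotate
          have hs' : esum (v₂ ++ v₁) = 0 := by
            rw [esum_append] at hs ⊢; omega
          have hl' : (v₂ ++ v₁).length = n := by
            rw [List.length_append] at hlen ⊢; omega
          rw [h2] at hg' hs' hl'
          simp only [h2] at hG'
          exact nonalternating n hM hL a b e u
            (by simp only [List.length_cons] at hl'; omega) hg' hs' ι x hG'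
        · have hG' := hG.rotate
          have hg' := hgood.rotate
          have hl' : (v₂ ++ v₁).length = n := by
            rw [List.length_append] at hlen ⊢; omega
          rw [h2] at hg' hl'
          simp only [h2] at hG'
          refine alternating n hM hL s (GoodS.of_good _ _ hg') ?_ ι x hG'
          rw [wmap, List.length_map, length_sw] at hl'
          omega
      · exact T_theorem n hn hM hL w hlen.le hgood hs ι x hG

/-- One-relator products of two groups of the class, for good lists. -/
theorem two_all {A M G : Type} [Group A] [Group M] [Group G] (hA : FEC A) (hMM : FEC M)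
    (s : List (A × M)) (hs : GoodS s) (α : A →* G) (β : M →* G) (h : IsTwo s α β) :
    Injective α ∧ Injective β ∧ FEC G :=
  two_theorem (2 * s.length) (fun m _ => MM_all m) hA hMM s hs le_rfl α β h

section cyclic

variable {A B : Type} [Group A] [Group B]

/-- The element of the free product given by a list of pairs. -/
def pval (s : List (A × B)) : Monoid.Coprod A B :=
  (s.map fun p => (Monoid.Coprod.inl p.1 : Monoid.Coprod A B) * Monoid.Coprod.inr p.2).prod

theorem pval_nil : pval ([] : List (A × B)) = 1 := rfl

theorem pval_cons (p : A × B) (s : List (A × B)) :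
    pval (p :: s) = Monoid.Coprod.inl p.1 * Monoid.Coprod.inr p.2 * pval s := by
  simp [pval]

theorem pval_append (s t : List (A × B)) : pval (s ++ t) = pval s * pval t := by
  simp [pval]

theorem pval_flatten_replicate (u : List (A × B)) (k : ℕ) :
    pval (List.replicate k u).flatten = (pval u) ^ k := by
  induction k with
  | zero => rfl
  | succ k ih => rw [List.replicate_succ, List.flatten_cons, pval_append, ih, pow_succ']

theorem exists_pval (r : Monoid.Coprod A B) : ∃ s : List (A × B), r = pval s := by
  induction r using Monoid.Coprod.induction_on with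
  | inl a => exact ⟨[(a, 1)], by rw [pval_cons, pval_nil, map_one, mul_one, mul_one]⟩
  | inr b => exact ⟨[(1, b)], by rw [pval_cons, pval_nil, map_one, one_mul, mul_one]⟩
  | mul x y hx hy =>
    obtain ⟨s, rfl⟩ := hx
    obtain ⟨t, rfl⟩ := hy
    exact ⟨s ++ t, (pval_append s t).symm⟩

theorem isConj_mul_comm {G : Type} [Group G] (x y : G) : IsConj (x * y) (y * x) := by
  rw [isConj_iff]
  exact ⟨x⁻¹, by group⟩

theorem cyclic_form_aux (n : ℕ) : ∀ s : List (A × B), s.length = n →
    (∃ a : A, IsConj (pval s) (Monoid.Coprod.inl a)) ∨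
    (∃ b : B, IsConj (pval s) (Monoid.Coprod.inr b)) ∨
    ∃ (t : List (A × B)) (k : ℕ), GoodS t ∧ 1 ≤ k ∧ IsConj (pval s) (pval t ^ k) := by
  induction n using Nat.strong_induction_on with
  | _ n ih =>
    intro s hn
    by_cases h0 : s = []
    · subst h0
      exact Or.inl ⟨1, by rw [pval_nil, map_one]⟩
    by_cases hall : ∀ p ∈ s, p.1 ≠ 1 ∧ p.2 ≠ 1
    · obtain ⟨u, k, hk, rfl, hu0, hu⟩ := exists_root s h0
      refine Or.inr (Or.inr ⟨u, k, ⟨hu0, fun p hp => hall p ?_, hu⟩, hk, ?_⟩)
      · obtain ⟨j, rfl⟩ : ∃ j, k = j + 1 := ⟨k - 1, by omega⟩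
        rw [List.replicate_succ, List.flatten_cons]
        exact List.mem_append_left _ hp
      · rw [pval_flatten_replicate]
    · push Not at hall
      obtain ⟨p, hp, hp1⟩ := hall
      obtain ⟨l₁, l₂, rfl⟩ := List.append_of_mem hp
      have hrot : IsConj (pval (l₁ ++ p :: l₂)) (pval (p :: (l₂ ++ l₁))) := by
        have h1 : p :: (l₂ ++ l₁) = (p :: l₂) ++ l₁ := rfl
        rw [h1, pval_append l₁, pval_append]
        exact isConj_mul_comm _ _
      have hlen : (l₂ ++ l₁).length < n := by
        rw [← hn]
        simp only [List.length_append, List.length_cons]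
        omega
      have hfin : ∀ t : List (A × B), t.length = (l₂ ++ l₁).length →
          IsConj (pval (p :: (l₂ ++ l₁))) (pval t) →
          (∃ a : A, IsConj (pval (l₁ ++ p :: l₂)) (Monoid.Coprod.inl a)) ∨
          (∃ b : B, IsConj (pval (l₁ ++ p :: l₂)) (Monoid.Coprod.inr b)) ∨
          ∃ (t : List (A × B)) (k : ℕ), GoodS t ∧ 1 ≤ k ∧
            IsConj (pval (l₁ ++ p :: l₂)) (pval t ^ k) := by
        intro t ht hc
        have h1 := hrot.trans hc
        rcases ih _ hlen t ht with ⟨a, ha⟩ | ⟨b, hb⟩ | ⟨t', k, h2, h3, h4⟩
        · exact Or.inl ⟨a, h1.trans ha⟩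
        · exact Or.inr (Or.inl ⟨b, h1.trans hb⟩)
        · exact Or.inr (Or.inr ⟨t', k, h2, h3, h1.trans h4⟩)
      obtain ⟨a, b⟩ := p
      by_cases ha : a = 1
      · subst ha
        rcases List.eq_nil_or_concat (l₂ ++ l₁) with h1 | ⟨l, ⟨a', b'⟩, h1⟩
        · refine Or.inr (Or.inl ⟨b, hrot.trans ?_⟩)
          rw [h1, pval_cons, pval_nil, map_one, one_mul, mul_one]
        · rw [List.concat_eq_append] at h1
          refine hfin (l ++ [(a', b' * b)]) (by rw [h1]; simp) ?_
          rw [h1, pval_cons, pval_append, pval_append, pval_cons, pval_nil, pval_cons, pval_nil,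
            map_one, one_mul, mul_one, mul_one, map_mul]
          have h2 : pval l * ((Monoid.Coprod.inl a' : Monoid.Coprod A B) *
              (Monoid.Coprod.inr b' * Monoid.Coprod.inr b)) =
              pval l * (Monoid.Coprod.inl a' * Monoid.Coprod.inr b') * Monoid.Coprod.inr b := by
            simp only [mul_assoc]
          rw [h2]
          exact isConj_mul_comm _ _
      · have hb : b = 1 := hp1 ha
        subst hb
        rcases h1 : l₂ ++ l₁ with _ | ⟨⟨a', b'⟩, l⟩
        · refine Or.inl ⟨a, hrot.trans ?_⟩
          rw [h1, pval_cons, pval_nil, map_one, mul_one, mul_one]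
        · refine hfin ((a * a', b') :: l) (by rw [h1]; simp) ?_
          rw [h1, pval_cons, pval_cons, pval_cons, map_one, mul_one, map_mul]
          simp only [mul_assoc]
          exact IsConj.refl _

end cyclic

/-- Cyclic reduction in a free product: every element is conjugate to an element of a factor, or
to the `k`-th power, `k ≥ 1`, of the product of a good list. -/
theorem exists_cyclic_form {A B : Type} [Group A] [Group B] (r : Monoid.Coprod A B) :
    (∃ a : A, IsConj r (Monoid.Coprod.inl a)) ∨ (∃ b : B, IsConj r (Monoid.Coprod.inr b)) ∨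
    ∃ (s : List (A × B)) (k : ℕ), GoodS s ∧ 1 ≤ k ∧
      IsConj r ((s.map fun p => (Monoid.Coprod.inl p.1 : Monoid.Coprod A B) *
        Monoid.Coprod.inr p.2).prod ^ k) := by
  obtain ⟨s, rfl⟩ := exists_pval r
  exact cyclic_form_aux s.length s rfl

/-- **Theorem A**: one-relator products of groups of the class `FEC`. -/
theorem one_relator_product {A B : Type} [Group A] [Group B] (hA : FEC A) (hB : FEC B)
    (r : Monoid.Coprod A B) (h1 : ∀ a : A, ¬ IsConj r (Monoid.Coprod.inl a))
    (h2 : ∀ b : B, ¬ IsConj r (Monoid.Coprod.inr b))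
    (h3 : ∀ (u : Monoid.Coprod A B) (k : ℕ), 2 ≤ k → r ≠ u ^ k) :
    Injective ((QuotientGroup.mk' (Subgroup.normalClosure {r})).comp
      (Monoid.Coprod.inl : A →* Monoid.Coprod A B)) ∧
    Injective ((QuotientGroup.mk' (Subgroup.normalClosure {r})).comp
      (Monoid.Coprod.inr : B →* Monoid.Coprod A B)) ∧
    FEC (Monoid.Coprod A B ⧸ Subgroup.normalClosure {r}) := by
  rcases exists_cyclic_form r with ⟨a, ha⟩ | ⟨b, hb⟩ | ⟨s, k, hs, hk, hc⟩
  · exact absurd ha (h1 a)
  · exact absurd hb (h2 b)
  obtain ⟨g, hg⟩ := isConj_iff.1 hc.symm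
  have hk1 : k = 1 := by
    by_contra hne
    refine h3 (g * (s.map fun p => (Monoid.Coprod.inl p.1 : Monoid.Coprod A B) *
        Monoid.Coprod.inr p.2).prod * g⁻¹) k (by omega) ?_
    rw [conj_pow, hg]
  subst hk1
  rw [pow_one] at hg
  have hr1 : ((QuotientGroup.mk' (Subgroup.normalClosure {r})) r :
      Monoid.Coprod A B ⧸ Subgroup.normalClosure {r}) = 1 :=
    (QuotientGroup.eq_one_iff r).2 (Subgroup.subset_normalClosure rfl)
  have htwo : IsTwo s ((QuotientGroup.mk' (Subgroup.normalClosure {r})).comp
      (Monoid.Coprod.inl : A →* Monoid.Coprod A B))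
      ((QuotientGroup.mk' (Subgroup.normalClosure {r})).comp
      (Monoid.Coprod.inr : B →* Monoid.Coprod A B)) := by
    refine ⟨?_, ?_, ?_⟩
    · have h4 : (s.map fun p => ((QuotientGroup.mk' (Subgroup.normalClosure {r})).comp
          (Monoid.Coprod.inl : A →* Monoid.Coprod A B)) p.1 *
          ((QuotientGroup.mk' (Subgroup.normalClosure {r})).comp
            (Monoid.Coprod.inr : B →* Monoid.Coprod A B)) p.2).prod =
          (QuotientGroup.mk' (Subgroup.normalClosure {r}))
            (s.map fun p => (Monoid.Coprod.inl p.1 : Monoid.Coprod A B) *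
              Monoid.Coprod.inr p.2).prod := by
        rw [map_list_prod, List.map_map]
        rfl
      rw [h4]
      have h5 := congrArg (QuotientGroup.mk' (Subgroup.normalClosure {r})) hg
      rw [map_mul, map_mul, map_inv, hr1, mul_inv_eq_one, mul_eq_left] at h5
      exact h5
    · intro H _ f g' hf hg'
      refine QuotientGroup.monoidHom_ext _ (Monoid.Coprod.hom_ext ?_ ?_)
      · exact hf
      · exact hg'
    · intro H _ φ ψ hφ
      have hker : ∀ x ∈ Subgroup.normalClosure ({r} : Set (Monoid.Coprod A B)),
          Monoid.Coprod.lift φ ψ x = 1 := by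
        have h4 : Subgroup.normalClosure ({r} : Set (Monoid.Coprod A B)) ≤
            (Monoid.Coprod.lift φ ψ).ker := by
          refine Subgroup.normalClosure_le_normal ?_
          rintro x rfl
          rw [SetLike.mem_coe, MonoidHom.mem_ker, ← hg, map_mul, map_mul, map_list_prod,
            List.map_map]
          have h5 : (⇑(Monoid.Coprod.lift φ ψ) ∘ fun p : A × B =>
              (Monoid.Coprod.inl p.1 : Monoid.Coprod A B) * Monoid.Coprod.inr p.2) =
              fun p => φ p.1 * ψ p.2 := by
            funext p
            simp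
          rw [h5, hφ, mul_one, map_inv, mul_inv_cancel]
        exact fun x hx => h4 hx
      refine ⟨QuotientGroup.lift _ (Monoid.Coprod.lift φ ψ) hker, ?_, ?_⟩
      · ext a
        exact (QuotientGroup.lift_mk' _ hker _).trans (Monoid.Coprod.lift_apply_inl _ _ _)
      · ext b
        exact (QuotientGroup.lift_mk' _ hker _).trans (Monoid.Coprod.lift_apply_inr _ _ _)
  exact two_all hA hB s hs _ _ htwo

end Pool.Agent.OR
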