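import Pool.Agent.Lib.MP_98022b_or.NF

/-!
# Words in several letters; merging all letters except one
-/

set_option autoImplicit false

namespace Pool.Agent.OR

open Function

section

variable {B Λ G H : Type} [Group G] [Group H]

/-- The value of a word over `B` in several letters. -/
def mev (φ : B → G) (x : Λ → G) (W : List (B × Λ × Bool)) : G :=
  (W.map fun p => φ p.1 * sg p.2.2 (x p.2.1)).prod

/-- Forget which letter. -/
def flat (W : List (B × Λ × Bool)) : List (B × Bool) := W.map fun p => (p.1, p.2.2)

/-- The letters of a word. -/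
def letters (W : List (B × Λ × Bool)) : Set Λ := {l | ∃ p ∈ W, p.2.1 = l}

@[simp] theorem mev_nil (φ : B → G) (x : Λ → G) : mev φ x [] = 1 := rfl

@[simp] theorem mev_cons (φ : B → G) (x : Λ → G) (p : B × Λ × Bool) (W : List (B × Λ × Bool)) :
    mev φ x (p :: W) = φ p.1 * sg p.2.2 (x p.2.1) * mev φ x W := by
  simp [mev]

theorem mev_append (φ : B → G) (x : Λ → G) (V W : List (B × Λ × Bool)) :
    mev φ x (V ++ W) = mev φ x V * mev φ x W := by
  simp [mev]

theorem map_mev (f : G →* H) (φ : B → G) (x : Λ → G) (W : List (B × Λ × Bool)) :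
    f (mev φ x W) = mev (f ∘ φ) (f ∘ x) W := by
  induction W with
  | nil => simp
  | cons p w ih => simp [ih, map_sg]

theorem mev_const (φ : B → G) (x : G) (W : List (B × Λ × Bool)) :
    mev φ (fun _ => x) W = ev φ x (flat W) := by
  induction W with
  | nil => simp [flat]
  | cons p w ih => simp [flat] at ih ⊢; rw [ih]

theorem mev_congr (φ : B → G) (x x' : Λ → G) (W : List (B × Λ × Bool))
    (h : ∀ l ∈ letters W, x l = x' l) : mev φ x W = mev φ x' W := by
  unfold mev
  congr 1
  apply List.map_congr_left
  intro p hp
  rw [h p.2.1 ⟨p, hp, rfl⟩]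

variable [Group B]

/-- The free product of `B` and the free group on the letters. -/
abbrev Phi (B Λ : Type) [Group B] : Type := Monoid.Coprod B (FreeGroup Λ)

/-- The homomorphism from `Phi B Λ` given by the values on `B` and on the letters. -/
def Phi.lift (φ : B →* G) (x : Λ → G) : Phi B Λ →* G :=
  Monoid.Coprod.lift φ (FreeGroup.lift x)

/-- The letter `l` in `Phi B Λ`. -/
def Phi.let (B : Type) [Group B] {Λ : Type} (l : Λ) : Phi B Λ := Monoid.Coprod.inr (FreeGroup.of l)

/-- The canonical homomorphism. -/
def Phi.inl (B Λ : Type) [Group B] : B →* Phi B Λ := Monoid.Coprod.inl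

@[simp] theorem Phi.lift_inl (φ : B →* G) (x : Λ → G) (b : B) :
    Phi.lift φ x (Phi.inl B Λ b) = φ b := by
  simp [Phi.lift, Phi.inl]

@[simp] theorem Phi.lift_let (φ : B →* G) (x : Λ → G) (l : Λ) :
    Phi.lift φ x (Phi.let B l) = x l := by
  simp [Phi.lift, Phi.let]

theorem Phi.hom_ext (f g : Phi B Λ →* G) (h : ∀ b, f (Phi.inl B Λ b) = g (Phi.inl B Λ b))
    (h' : ∀ l, f (Phi.let B l) = g (Phi.let B l)) : f = g := by
  apply Monoid.Coprod.hom_ext
  · ext b; exact h b
  · ext l; exact h' l

theorem Phi.inl_injective (B Λ : Type) [Group B] : Injective (Phi.inl B Λ) :=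
  Monoid.Coprod.inl_injective

/-- The value of a word in `Phi B Λ`. -/
def Phi.val (W : List (B × Λ × Bool)) : Phi B Λ := mev (Phi.inl B Λ) (Phi.let B) W

@[simp] theorem Phi.lift_val (φ : B →* G) (x : Λ → G) (W : List (B × Λ × Bool)) :
    Phi.lift φ x (Phi.val W) = mev φ x W := by
  have h1 : (⇑(Phi.lift φ x) ∘ ⇑(Phi.inl B Λ)) = φ := by ext b; simp
  have h2 : (⇑(Phi.lift φ x) ∘ Phi.let B) = x := by ext l; simp
  rw [Phi.val, map_mev, h1, h2]

/-- The subgroup of `Phi B Λ` generated by `B` and a set of letters. -/
def supp (B : Type) [Group B] {Λ : Type} (E : Set Λ) : Subgroup (Phi B Λ) :=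
  Subgroup.closure (Set.range (Phi.inl B Λ) ∪ Phi.let B '' E)

theorem supp_mono {E E' : Set Λ} (h : E ⊆ E') : supp B E ≤ supp B E' :=
  Subgroup.closure_mono (Set.union_subset_union_right _ (Set.image_mono h))

theorem inl_mem_supp (E : Set Λ) (b : B) : Phi.inl B Λ b ∈ supp B E :=
  Subgroup.subset_closure (Or.inl ⟨b, rfl⟩)

theorem let_mem_supp {E : Set Λ} {l : Λ} (hl : l ∈ E) : Phi.let B l ∈ supp B E :=
  Subgroup.subset_closure (Or.inr ⟨l, hl, rfl⟩)

theorem val_mem_supp {E : Set Λ} (W : List (B × Λ × Bool)) (h : letters W ⊆ E) :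
    Phi.val W ∈ supp B E := by
  induction W with
  | nil => exact (supp B E).one_mem
  | cons p W ih =>
    rw [Phi.val, mev_cons]
    refine (supp B E).mul_mem ((supp B E).mul_mem (inl_mem_supp E p.1) ?_)
      (ih fun l hl => ?_)
    · have hp : Phi.let B p.2.1 ∈ supp B E := let_mem_supp (h ⟨p, List.mem_cons_self, rfl⟩)
      cases p.2.2
      · exact (supp B E).inv_mem hp
      · exact hp
    · obtain ⟨q, hq, rfl⟩ := hl
      exact h ⟨q, List.mem_cons_of_mem _ hq, rfl⟩

/-- Two homomorphisms which agree on `B` and on the letters in `E` agree on `supp B E`. -/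
theorem eq_on_supp (f g : Phi B Λ →* G) (E : Set Λ)
    (h : ∀ b, f (Phi.inl B Λ b) = g (Phi.inl B Λ b))
    (h' : ∀ l ∈ E, f (Phi.let B l) = g (Phi.let B l)) {u : Phi B Λ} (hu : u ∈ supp B E) :
    f u = g u := by
  unfold supp at hu
  induction hu using Subgroup.closure_induction with
  | mem u hu =>
    rcases hu with ⟨b, rfl⟩ | ⟨l, hl, rfl⟩
    · exact h b
    · exact h' l hl
  | one => rw [map_one, map_one]
  | mul u v _ _ hu hv => rw [map_mul, map_mul, hu, hv]
  | inv u _ hu => rw [map_inv, map_inv, hu]

omit [Group B] in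
theorem flat_append (V W : List (B × Λ × Bool)) : flat (V ++ W) = flat V ++ flat W := by
  simp [flat]

/-- The word of a block: a word without the letter `y` followed by a letter `y`. -/
def blk (y : Λ) (k : List (B × Λ × Bool) × B × Bool) : List (B × Λ × Bool) :=
  k.1 ++ [(k.2.1, y, k.2.2)]

omit [Group B] in
/-- Splitting at the letter `y`. -/
theorem exists_blocks (y : Λ) (W : List (B × Λ × Bool))
    (hW : W = [] ∨ ∃ W₀ b e, W = W₀ ++ [(b, y, e)]) :
    ∃ bl : List (List (B × Λ × Bool) × B × Bool), (∀ k ∈ bl, ∀ p ∈ k.1, p.2.1 ≠ y) ∧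
      W = bl.flatMap (blk y) := by
  induction W with
  | nil => exact ⟨[], by simp, by simp⟩
  | cons p W ih =>
    have hW' : W = [] ∨ ∃ W₀ b e, W = W₀ ++ [(b, y, e)] := by
      rcases hW with h | ⟨W₀, b, e, h⟩
      · simp at h
      · cases W₀ with
        | nil =>
          simp at h
          exact Or.inl h.2
        | cons q W₀ =>
          rw [List.cons_append, List.cons.injEq] at h
          exact Or.inr ⟨W₀, b, e, h.2⟩
    obtain ⟨bl, h1, h2⟩ := ih hW'
    by_cases hp : p.2.1 = y
    · refine ⟨([], p.1, p.2.2) :: bl, ?_, ?_⟩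
      · intro k hk
        rcases List.mem_cons.1 hk with rfl | hk
        · simp
        · exact h1 k hk
      · rw [List.flatMap_cons, blk, ← h2]
        obtain ⟨b, l, e⟩ := p
        simp only at hp
        subst hp
        rfl
    · cases bl with
      | nil =>
        exfalso
        simp at h2
        subst h2
        rcases hW with h | ⟨W₀, b, e, h⟩
        · simp at h
        · cases W₀ with
          | nil =>
            simp at h
            exact hp (by rw [h])
          | cons q W₀ => simp at h
      | cons k bl =>
        refine ⟨(p :: k.1, k.2.1, k.2.2) :: bl, ?_, ?_⟩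
        · intro k' hk'
          rcases List.mem_cons.1 hk' with rfl | hk'
          · intro q hq
            rcases List.mem_cons.1 hq with rfl | hq
            · exact hp
            · exact h1 k List.mem_cons_self q hq
          · exact h1 k' (List.mem_cons_of_mem _ hk')
        · rw [h2, List.flatMap_cons, List.flatMap_cons, blk, blk]
          rfl

omit [Group B] in
theorem mev_flatMap_blk (φ : B → G) (z : Λ → G) (y : Λ)
    (bl : List (List (B × Λ × Bool) × B × Bool)) :
    mev φ z (bl.flatMap (blk y)) =
      (bl.map fun k => mev φ z k.1 * φ k.2.1 * sg k.2.2 (z y)).prod := by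
  induction bl with
  | nil => simp
  | cons k bl ih =>
    rw [List.flatMap_cons, mev_append, ih, List.map_cons, List.prod_cons, blk, mev_append]
    simp [mul_assoc]

omit [Group B] in
theorem length_flatMap_blk (y : Λ) (bl : List (List (B × Λ × Bool) × B × Bool)) :
    (bl.flatMap (blk y)).length = (bl.map fun k => k.1.length).sum + bl.length := by
  induction bl with
  | nil => simp
  | cons k bl ih =>
    rw [List.flatMap_cons, List.length_append, ih, blk]
    simp
    ring

/-- **Merging.** Let `W` be a word over `B` in several letters which ends with the letter `y`, such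
that forgetting the letters gives a good word. Let `Γ` be a group with a homomorphism `γ` from `B`
and elements `x l`, such that the subgroup of `Phi B Λ` generated by `B` and the letters of `W`
different from `y` is embedded in `Γ`. Merging all letters different from `y` into syllables
gives a good word over `Γ` in the letter `y`. -/
theorem exists_merge {Γ : Type} [Group Γ] (γ : B →* Γ) (x : Λ → Γ) (y : Λ)
    (W : List (B × Λ × Bool)) (hW : Good (flat W)) (hlast : ∃ W₀ b e, W = W₀ ++ [(b, y, e)])
    (hinj : ∀ u ∈ supp B (letters W \ {y}), Phi.lift γ x u = 1 → u = 1) :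
    ∃ ρ : List (Γ × Bool), Good ρ ∧ ρ.length ≤ W.length ∧
      ((∃ l ∈ letters W, l ≠ y) → ρ.length < W.length) ∧
      ∀ (H : Type) [Group H] (φ : Γ →* H) (z : Λ → H), (∀ l, l ≠ y → z l = φ (x l)) →
        ev φ (z y) ρ = mev (φ.comp γ) z W := by
  obtain ⟨bl, hbl, hWb⟩ := exists_blocks y W (Or.inr hlast)
  obtain ⟨N, _, φN, xN, hN⟩ := exists_normal_form B
  -- the two maps on blocks
  let F : List (B × Λ × Bool) × B × Bool → Γ × Bool := fun k => (mev γ x k.1 * γ k.2.1, k.2.2)
  let F' : List (B × Λ × Bool) × B × Bool → List (B × Bool) := fun k => flat (blk y k)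
  have hflat : flat W = bl.flatMap F' := by
    rw [hWb]
    simp only [F', flat, List.map_flatMap]
  have hlet : ∀ k ∈ bl, letters k.1 ⊆ letters W \ {y} := by
    intro k hk l hl
    obtain ⟨p, hp, rfl⟩ := hl
    refine ⟨⟨p, ?_, rfl⟩, hbl k hk p hp⟩
    rw [hWb, List.mem_flatMap]
    exact ⟨k, hk, List.mem_append_left _ hp⟩
  -- equality of block values
  let U : List (B × Λ × Bool) × B × Bool → Phi B Λ := fun k => Phi.val k.1 * Phi.inl B Λ k.2.1
  have hUmem : ∀ k ∈ bl, U k ∈ supp B (letters W \ {y}) := fun k hk =>
    (supp B _).mul_mem (val_mem_supp k.1 (hlet k hk)) (inl_mem_supp _ _)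
  have hUF : ∀ k, Phi.lift γ x (U k) = (F k).1 := by
    intro k
    simp [U, F]
  have hUN : ∀ k, Phi.lift φN (fun _ => xN) (U k) = ev φN xN (flat k.1) * φN k.2.1 := by
    intro k
    simp only [U, map_mul, Phi.lift_val, Phi.lift_inl, mev_const]
  have hchain : (bl ++ bl).flatMap F' |>.IsChain Adj := by
    rw [List.flatMap_append, ← hflat]
    exact hW.2.1
  -- chains inside blocks
  have hin : ∀ k ∈ bl ++ bl, (flat k.1).IsChain Adj := by
    intro k hk
    obtain ⟨s, t, hst⟩ := List.append_of_mem hk
    rw [hst, List.flatMap_append, List.flatMap_cons] at hchain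
    have h1 := hchain.right_of_append.left_of_append
    simp only [F', blk, flat_append] at h1
    exact h1.left_of_append
  have hin' : ∀ k ∈ bl, (flat k.1).IsChain Adj := fun k hk =>
    hin k (List.mem_append_left _ hk)
  have hne : bl ≠ [] := by
    rintro rfl
    exact hW.1 (by rw [hflat]; rfl)
  refine ⟨bl.map F, ⟨by simpa using hne, ?_, ?_⟩, ?_, ?_, ?_⟩
  · -- cyclically reduced
    have key : ∀ bl' : List (List (B × Λ × Bool) × B × Bool), (∀ k ∈ bl', k ∈ bl) →
        (bl'.flatMap F').IsChain Adj → (bl'.map F).IsChain Adj := by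
      intro bl'
      induction bl' with
      | nil => intro _ _; simp
      | cons k bl' ih =>
        intro hmem hc
        cases bl' with
        | nil => simp
        | cons k' bl' =>
          rw [List.map_cons, List.map_cons, List.isChain_cons_cons, ← List.map_cons]
          refine ⟨?_, ih (fun k hk => hmem k (List.mem_cons_of_mem _ hk)) ?_⟩
          · intro he h1
            have hk' := hmem k' (List.mem_cons_of_mem _ List.mem_cons_self)
            have h2 : U k' = 1 := hinj _ (hUmem k' hk') (by rw [hUF, h1])
            have h3 := hUN k'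
            rw [h2, map_one] at h3
            have h4 := hN (flat k'.1) [] k'.2.1 1 (hin' k' hk') (by simp)
              (by rw [← h3]; simp)
            have h5 : k'.1 = [] := by simpa [flat] using h4.1
            rw [List.flatMap_cons, List.flatMap_cons, ← List.append_assoc] at hc
            have h6 := hc.left_of_append
            simp only [F', blk, h5, flat_append] at h6
            rw [List.append_assoc] at h6
            have h7 := h6.right_of_append
            simp only [flat, List.map_cons, List.map_nil, List.cons_append, List.nil_append,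
              List.isChain_cons_cons] at h7
            exact h7.1 he h4.2
          · rw [List.flatMap_cons] at hc
            exact hc.right_of_append
    have := key (bl ++ bl) (by simp) hchain
    rwa [List.map_append] at this
  · -- not a proper power
    refine NP.of_flatMap bl F F' ?_ (by rw [← hflat]; exact hW.2.2)
    intro k hk k' hk' hF
    have h1 : (F k).1 = (F k').1 := by rw [hF]
    have h2 : k.2.2 = k'.2.2 := by
      have : (F k).2 = (F k').2 := by rw [hF]
      exact this
    have h3 : (U k)⁻¹ * U k' = 1 := by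
      refine hinj _ ((supp B _).mul_mem ((supp B _).inv_mem (hUmem k hk)) (hUmem k' hk')) ?_
      rw [map_mul, map_inv, hUF, hUF, h1]
      group
    have h4 : U k = U k' := by
      rw [inv_mul_eq_one] at h3
      exact h3
    have h5 := hN (flat k.1) (flat k'.1) k.2.1 k'.2.1 (hin' k hk) (hin' k' hk')
      (by rw [← hUN, ← hUN, h4])
    simp only [F', blk, flat_append, h5.1]
    simp [flat, h5.2, h2]
  · rw [List.length_map, hWb, length_flatMap_blk]
    exact Nat.le_add_left _ _
  · rintro ⟨l, ⟨p, hp, rfl⟩, hl⟩
    rw [List.length_map]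
    conv_rhs => rw [hWb, length_flatMap_blk]
    have h1 : 0 < (bl.map fun k => k.1.length).sum := by
      rw [hWb, List.mem_flatMap] at hp
      obtain ⟨k, hk, hp⟩ := hp
      rw [blk, List.mem_append] at hp
      rcases hp with hp | hp
      · have h2 : k.1.length ∈ bl.map fun k => k.1.length :=
          List.mem_map_of_mem (f := fun k : List (B × Λ × Bool) × B × Bool => k.1.length) hk
        have h3 := List.le_sum_of_mem h2
        have h4 : 0 < k.1.length := List.length_pos_of_mem hp
        omega
      · exfalso
        apply hl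
        rw [List.mem_singleton] at hp
        rw [hp]
    omega
  · intro H _ φ z hz
    rw [hWb, mev_flatMap_blk, ev, List.map_map]
    congr 1
    apply List.map_congr_left
    intro k hk
    simp only [comp_apply, F, map_mul, MonoidHom.coe_comp]
    rw [map_mev]
    congr 2
    refine mev_congr _ _ _ _ fun l hl => ?_
    rw [hz l (hlet k hk hl).2]
    rfl

end

end Pool.Agent.OR
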