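import Pool.Agent.Lib.MP_98022b_or.Words

/-!
# Normal forms in the free product of a group and an infinite cyclic group
-/

set_option autoImplicit false

namespace Pool.Agent.OR

open Function

section nf

variable {B : Type} [Group B]

open Classical in
/-- Left multiplication of a reduced word by a letter. -/
private noncomputable def nfPush (e : Bool) : List (B × Bool) → List (B × Bool)
  | [] => [(1, e)]
  | p :: w => if p.1 = 1 ∧ p.2 ≠ e then w else (1, e) :: p :: w

private theorem nfPush_chain (e : Bool) (w : List (B × Bool)) (hw : w.IsChain Adj) :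
    (nfPush e w).IsChain Adj := by
  rcases w with _ | ⟨p, w⟩
  · simp [nfPush]
  · rw [nfPush]
    split_ifs with h
    · exact hw.tail
    · rw [List.isChain_cons_cons]
      refine ⟨fun h1 h2 => h ⟨h2, fun h3 => h1 h3.symm⟩, hw⟩

private theorem nfPush_push (e : Bool) (w : List (B × Bool)) (hw : w.IsChain Adj) :
    nfPush (!e) (nfPush e w) = w := by
  rcases w with _ | ⟨p, w⟩
  · simp [nfPush]
  · rw [nfPush]
    split_ifs with h
    · have hp : p = (1, !e) := by
        rcases p with ⟨c, f⟩
        obtain ⟨h1, h2⟩ := h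
        simp only at h1 h2
        subst h1
        cases e <;> cases f <;> simp_all
      rcases w with _ | ⟨q, w⟩
      · simp [nfPush, hp]
      · rw [nfPush, if_neg, hp]
        rintro ⟨h1, h2⟩
        have := (List.isChain_cons_cons.1 hw).1
        rw [hp] at this
        exact this (fun h3 => h2 h3.symm) h1
    · rw [nfPush, if_pos]
      exact ⟨rfl, by cases e <;> simp⟩

/-- Left multiplication by an element of the base group. -/
private def nfMul (a : B) : List (B × Bool) × B → List (B × Bool) × B
  | ([], b) => ([], a * b)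
  | (p :: w, b) => ((a * p.1, p.2) :: w, b)

private theorem nfMul_chain (a : B) (p : List (B × Bool) × B) (hp : p.1.IsChain Adj) :
    (nfMul a p).1.IsChain Adj := by
  rcases p with ⟨_ | ⟨q, w⟩, b⟩
  · simp [nfMul]
  · rcases w with _ | ⟨r, w⟩
    · simp [nfMul]
    · simp only [nfMul, List.isChain_cons_cons] at hp ⊢
      exact hp

private theorem nfMul_mul (a a' : B) (p : List (B × Bool) × B) :
    nfMul (a * a') p = nfMul a (nfMul a' p) := by
  rcases p with ⟨_ | ⟨q, w⟩, b⟩ <;> simp [nfMul, mul_assoc]

private theorem nfMul_one (p : List (B × Bool) × B) : nfMul 1 p = p := by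
  rcases p with ⟨_ | ⟨q, w⟩, b⟩ <;> simp [nfMul]

/-- The set on which the free product acts. -/
private abbrev NFSet (B : Type) [Group B] := {p : List (B × Bool) × B // p.1.IsChain Adj}

private noncomputable def nfX : Equiv.Perm (NFSet B) where
  toFun p := ⟨(nfPush true p.1.1, p.1.2), nfPush_chain true _ p.2⟩
  invFun p := ⟨(nfPush false p.1.1, p.1.2), nfPush_chain false _ p.2⟩
  left_inv p := Subtype.ext (Prod.ext (nfPush_push true _ p.2) rfl)
  right_inv p := Subtype.ext (Prod.ext (nfPush_push false _ p.2) rfl)

private def nfHom : B →* Equiv.Perm (NFSet B) where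
  toFun a :=
    { toFun := fun p => ⟨nfMul a p.1, nfMul_chain a _ p.2⟩
      invFun := fun p => ⟨nfMul a⁻¹ p.1, nfMul_chain _ _ p.2⟩
      left_inv := fun p => Subtype.ext (by
        change nfMul a⁻¹ (nfMul a p.1) = p.1
        rw [← nfMul_mul, inv_mul_cancel, nfMul_one])
      right_inv := fun p => Subtype.ext (by
        change nfMul a (nfMul a⁻¹ p.1) = p.1
        rw [← nfMul_mul, mul_inv_cancel, nfMul_one]) }
  map_one' := by
    ext1 p
    exact Subtype.ext (nfMul_one p.1)
  map_mul' a a' := by
    ext1 p
    exact Subtype.ext (nfMul_mul a a' p.1)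

private theorem nf_sg (e : Bool) (p : NFSet B) :
    (sg e (nfX : Equiv.Perm (NFSet B)) p).1 = (nfPush e p.1.1, p.1.2) := by
  cases e <;> rfl

private theorem nf_act (w : List (B × Bool)) (b : B) (hw : w.IsChain Adj) :
    ((ev (nfHom : B →* Equiv.Perm (NFSet B)) nfX w * nfHom b)
      (⟨([], 1), by simp⟩ : NFSet B)).1 = (w, b) := by
  induction w with
  | nil =>
    change nfMul b ([], 1) = _
    simp [nfMul]
  | cons p w ih =>
    rw [ev_cons, mul_assoc, mul_assoc, Equiv.Perm.mul_apply, Equiv.Perm.mul_apply]
    change nfMul p.1 (sg p.2 (nfX : Equiv.Perm (NFSet B)) _).1 = _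
    rw [nf_sg, ih hw.tail]
    change nfMul p.1 (nfPush p.2 w, b) = _
    have h1 : nfPush p.2 w = (1, p.2) :: w := by
      rcases w with _ | ⟨q, w⟩
      · rfl
      · rw [nfPush, if_neg]
        rintro ⟨h1, h2⟩
        exact (List.isChain_cons_cons.1 hw).1 (fun h3 => h2 h3.symm) h1
    rw [h1]
    simp [nfMul]

end nf

/-- Uniqueness of the normal form in `B * ⟨x⟩`: there is a group with a homomorphism `φ` from `B`
and an element `x` such that the reduced words with a last syllable have different values. (Let
`B * ⟨x⟩` act on the set of pairs (last syllable, reduced word), or use `HNNExtension` with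
trivial associated subgroups.) -/
theorem exists_normal_form (B : Type) [Group B] :
    ∃ (N : Type) (_ : Group N) (φ : B →* N) (x : N),
      ∀ (w w' : List (B × Bool)) (b b' : B), w.IsChain Adj → w'.IsChain Adj →
        ev φ x w * φ b = ev φ x w' * φ b' → w = w' ∧ b = b' := by
  refine ⟨Equiv.Perm (NFSet B), inferInstance, nfHom, nfX, fun w w' b b' hw hw' h => ?_⟩
  have h1 := nf_act w b hw
  rw [h, nf_act w' b' hw'] at h1
  exact ⟨(Prod.mk.inj h1).1.symm, (Prod.mk.inj h1).2.symm⟩

end Pool.Agent.OR
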