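import Pool.Agent.Lib.MP_98022b_or.Words

/-!
# Existence and change of presentations
-/

set_option autoImplicit false

namespace Pool.Agent.OR

open Function

theorem exists_pres {B Λ : Type} [Group B] (v : Λ → List (B × Bool)) :
    ∃ (G : Type) (_ : Group G) (ι : B →* G) (x : Λ → G), IsPres v ι x := by
  let P := Monoid.Coprod B (FreeGroup Λ)
  let i : B →* P := Monoid.Coprod.inl
  let z : Λ → P := fun l => Monoid.Coprod.inr (FreeGroup.of l)
  let R : Set P := Set.range fun l => ev i (z l) (v l)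
  let N : Subgroup P := Subgroup.normalClosure R
  let q : P →* P ⧸ N := QuotientGroup.mk' N
  refine ⟨P ⧸ N, inferInstance, q.comp i, fun l => q (z l), ?_, ?_, ?_⟩
  · intro l
    have h1 : q (ev i (z l) (v l)) = 1 :=
      (QuotientGroup.eq_one_iff _).2 (Subgroup.subset_normalClosure ⟨l, rfl⟩)
    rw [map_ev] at h1
    exact h1
  · intro H _ f g h1 h2
    have h3 : f.comp q = g.comp q := by
      refine Monoid.Coprod.hom_ext h1 (FreeGroup.ext_hom _ _ fun l => h2 l)
    refine MonoidHom.ext fun x => ?_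
    obtain ⟨p, rfl⟩ := QuotientGroup.mk'_surjective N x
    exact DFunLike.congr_fun h3 p
  · intro H _ φ ζ h
    let F : P →* H := Monoid.Coprod.lift φ (FreeGroup.lift ζ)
    have hF1 : F.comp i = φ := Monoid.Coprod.lift_comp_inl _ _
    have hF2 : ∀ l, F (z l) = ζ l := by
      intro l
      change Monoid.Coprod.lift φ (FreeGroup.lift ζ) (Monoid.Coprod.inr (FreeGroup.of l)) = ζ l
      rw [Monoid.Coprod.lift_apply_inr, FreeGroup.lift_apply_of]
    have hN : N ≤ F.ker := by
      refine Subgroup.normalClosure_le_normal ?_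
      rintro _ ⟨l, rfl⟩
      change F (ev i (z l) (v l)) = 1
      rw [map_ev, hF2, ← h l, ← hF1]
      rfl
    refine ⟨QuotientGroup.lift N F hN, ?_, ?_⟩
    · rw [← hF1]
      rfl
    · intro l
      rw [← hF2 l]
      rfl

/-- Quotient of `L * (*_o M) * F(Ω)`. -/
theorem exists_star {L M Ω : Type} [Group L] [Group M] (w : Ω → List ((L ⊕ M) × Bool)) :
    ∃ (G : Type) (_ : Group G) (ι : L →* G) (μ : Ω → M →* G) (y : Ω → G), IsStar w ι μ y := by
  let P := Monoid.Coprod L (Monoid.Coprod (Monoid.CoprodI fun _ : Ω => M) (FreeGroup Ω))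
  let i : L →* P := Monoid.Coprod.inl
  let j : Ω → M →* P := fun o =>
    Monoid.Coprod.inr.comp (Monoid.Coprod.inl.comp (Monoid.CoprodI.of (M := fun _ : Ω => M) (i := o)))
  let z : Ω → P := fun o => Monoid.Coprod.inr (Monoid.Coprod.inr (FreeGroup.of o))
  let R : Set P := Set.range fun o => ev (Sum.elim i (j o)) (z o) (w o)
  let N : Subgroup P := Subgroup.normalClosure R
  let q : P →* P ⧸ N := QuotientGroup.mk' N
  refine ⟨P ⧸ N, inferInstance, q.comp i, fun o => q.comp (j o), fun l => q (z l), ?_, ?_, ?_⟩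
  · intro o
    have h1 : q (ev (Sum.elim i (j o)) (z o) (w o)) = 1 :=
      (QuotientGroup.eq_one_iff _).2 (Subgroup.subset_normalClosure ⟨o, rfl⟩)
    rw [map_ev, Sum.comp_elim] at h1
    exact h1
  · intro H _ f g h1 h2 h3
    have h4 : f.comp q = g.comp q := by
      refine Monoid.Coprod.hom_ext h1 (Monoid.Coprod.hom_ext ?_ (FreeGroup.ext_hom _ _ fun l => h3 l))
      exact Monoid.CoprodI.ext_hom _ _ fun o => h2 o
    refine MonoidHom.ext fun x => ?_
    obtain ⟨p, rfl⟩ := QuotientGroup.mk'_surjective N x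
    exact DFunLike.congr_fun h4 p
  · intro H _ φ ψ ζ h
    let F : P →* H := Monoid.Coprod.lift φ
      (Monoid.Coprod.lift (Monoid.CoprodI.lift ψ) (FreeGroup.lift ζ))
    have hF1 : F.comp i = φ := Monoid.Coprod.lift_comp_inl _ _
    have hF3 : ∀ o, F.comp (j o) = ψ o := by
      intro o
      ext m
      change Monoid.Coprod.lift φ (Monoid.Coprod.lift (Monoid.CoprodI.lift ψ) (FreeGroup.lift ζ))
        (Monoid.Coprod.inr (Monoid.Coprod.inl (Monoid.CoprodI.of m))) = ψ o m
      rw [Monoid.Coprod.lift_apply_inr, Monoid.Coprod.lift_apply_inl, Monoid.CoprodI.lift_of]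
    have hF2 : ∀ l, F (z l) = ζ l := by
      intro l
      change Monoid.Coprod.lift φ (Monoid.Coprod.lift (Monoid.CoprodI.lift ψ) (FreeGroup.lift ζ))
        (Monoid.Coprod.inr (Monoid.Coprod.inr (FreeGroup.of l))) = ζ l
      rw [Monoid.Coprod.lift_apply_inr, Monoid.Coprod.lift_apply_inr, FreeGroup.lift_apply_of]
    have hN : N ≤ F.ker := by
      refine Subgroup.normalClosure_le_normal ?_
      rintro _ ⟨o, rfl⟩
      have h5 := map_ev F (Sum.elim i (j o)) (z o) (w o)
      rw [hF2, Sum.comp_elim] at h5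
      refine h5.trans ?_
      rw [← h o, ← hF1, ← hF3 o]
      rfl
    refine ⟨QuotientGroup.lift N F hN, ?_, ?_, ?_⟩
    · rw [← hF1]
      rfl
    · intro o
      rw [← hF3 o]
      rfl
    · intro l
      rw [← hF2 l]
      rfl

section

variable {L M Ω G G' : Type} [Group L] [Group M] [Group G] [Group G']

/-- Two star groups for the same words are isomorphic. -/
theorem IsStar.equiv {w : Ω → List ((L ⊕ M) × Bool)} {ι : L →* G} {μ : Ω → M →* G} {y : Ω → G}
    {ι' : L →* G'} {μ' : Ω → M →* G'} {y' : Ω → G'} (h : IsStar w ι μ y)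
    (h' : IsStar w ι' μ' y') :
    ∃ e : G ≃* G', (∀ a, e (ι a) = ι' a) ∧ (∀ o m, e (μ o m) = μ' o m) ∧
      ∀ o, e (y o) = y' o := by
  obtain ⟨f, f1, f2, f3⟩ := h.lift G' ι' μ' y' h'.rel
  obtain ⟨g, g1, g2, g3⟩ := h'.lift G ι μ y h.rel
  have e1 : g.comp f = MonoidHom.id G := by
    refine h.ext G _ _ ?_ ?_ ?_
    · rw [MonoidHom.comp_assoc, f1, g1, MonoidHom.id_comp]
    · intro o
      rw [MonoidHom.comp_assoc, f2, g2, MonoidHom.id_comp]
    · intro o
      rw [MonoidHom.comp_apply, f3, g3, MonoidHom.id_apply]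
  have e2 : f.comp g = MonoidHom.id G' := by
    refine h'.ext G' _ _ ?_ ?_ ?_
    · rw [MonoidHom.comp_assoc, g1, f1, MonoidHom.id_comp]
    · intro o
      rw [MonoidHom.comp_assoc, g2, f2, MonoidHom.id_comp]
    · intro o
      rw [MonoidHom.comp_apply, g3, f3, MonoidHom.id_apply]
  refine ⟨MonoidHom.toMulEquiv f g e1 e2, ?_, ?_, ?_⟩
  · exact fun a => DFunLike.congr_fun f1 a
  · exact fun o m => DFunLike.congr_fun (f2 o) m
  · exact f3

/-- Change of the words to equivalent words. -/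
theorem IsStar.equi {w w' : Ω → List ((L ⊕ M) × Bool)} {ι : L →* G} {μ : Ω → M →* G} {y : Ω → G}
    (h : IsStar w ι μ y) (c : Ω → L) (hc : ∀ o, Equi (w o) (w' o) (c o)) :
    IsStar w' ι μ (fun o => y o * ι (c o)) := by
  refine ⟨?_, ?_, ?_⟩
  · intro o
    exact (hc o G ι (μ o) (y o)).1 (h.rel o)
  · intro H _ f g h1 h2 h3
    refine h.ext H f g h1 h2 fun o => ?_
    have h4 := h3 o
    rw [map_mul, map_mul] at h4
    have h5 : f (ι (c o)) = g (ι (c o)) := DFunLike.congr_fun h1 (c o)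
    rw [h5] at h4
    exact mul_right_cancel h4
  · intro H _ φ ψ z hz
    obtain ⟨f, h1, h2, h3⟩ := h.lift H φ ψ (fun o => z o * (φ (c o))⁻¹) fun o => by
      rw [hc o H φ (ψ o) (z o * (φ (c o))⁻¹), inv_mul_cancel_right]
      exact hz o
    refine ⟨f, h1, h2, fun o => ?_⟩
    have h4 : f (ι (c o)) = φ (c o) := DFunLike.congr_fun h1 (c o)
    rw [map_mul, h3, h4, inv_mul_cancel_right]

/-- Change of the index set. -/
theorem IsStar.reindex {Ω' : Type} (e : Ω' ≃ Ω) {w : Ω → List ((L ⊕ M) × Bool)} {ι : L →* G}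
    {μ : Ω → M →* G} {y : Ω → G} (h : IsStar w ι μ y) :
    IsStar (fun o => w (e o)) ι (fun o => μ (e o)) (fun o => y (e o)) := by
  refine ⟨fun o => h.rel (e o), ?_, ?_⟩
  · intro H _ f g h1 h2 h3
    refine h.ext H f g h1 (fun o => ?_) fun o => ?_
    · have := h2 (e.symm o)
      rwa [e.apply_symm_apply] at this
    · have := h3 (e.symm o)
      rwa [e.apply_symm_apply] at this
  · intro H _ φ ψ z hz
    obtain ⟨f, h1, h2, h3⟩ := h.lift H φ (fun o => ψ (e.symm o)) (fun o => z (e.symm o))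
      fun o => by
        have := hz (e.symm o)
        rwa [e.apply_symm_apply] at this
    refine ⟨f, h1, fun o => ?_, fun o => ?_⟩
    · rw [h2, e.symm_apply_apply]
    · rw [h3, e.symm_apply_apply]

/-- The star group of the empty family is the centre. -/
theorem IsStar.empty [IsEmpty Ω] (w : Ω → List ((L ⊕ M) × Bool)) :
    IsStar w (MonoidHom.id L) (fun o => isEmptyElim o) (fun o => isEmptyElim o) := by
  refine ⟨fun o => isEmptyElim o, ?_, ?_⟩
  · intro H _ f g h1 _ _
    rwa [MonoidHom.comp_id, MonoidHom.comp_id] at h1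
  · intro H _ φ ψ z _
    exact ⟨φ, MonoidHom.comp_id φ, fun o => isEmptyElim o, fun o => isEmptyElim o⟩

/-- The map of a star group given by the universal property, for a subfamily. -/
theorem IsStar.sub_hom (Z : Set Ω) {w : Ω → List ((L ⊕ M) × Bool)} {ι : L →* G}
    {μ : Ω → M →* G} {y : Ω → G} (h : IsStar w ι μ y)
    {ι' : L →* G'} {μ' : Z → M →* G'} {y' : Z → G'} (h' : IsStar (fun o : Z => w o) ι' μ' y') :
    ∃ f : G' →* G, f.comp ι' = ι ∧ (∀ o, f.comp (μ' o) = μ o) ∧ ∀ o, f (y' o) = y o :=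
  h'.lift G ι (fun o => μ o) (fun o => y o) fun o => h.rel o

theorem ev_cmap {L' H : Type} [Group L'] [Group H] (g : L →* L') (φ : L' →* H) (ψ : M →* H) (y : H)
    (w : List ((L ⊕ M) × Bool)) :
    ev (Sum.elim φ ψ) y (cmap g w) = ev (Sum.elim (φ.comp g) ψ) y w := by
  unfold cmap
  rw [ev_map]
  congr 1
  funext s
  cases s <;> rfl

/-- Change of the centre along a homomorphism `g : L → L'`. -/
theorem IsStar.center_hom {L' : Type} [Group L'] (g : L →* L')
    {w : Ω → List ((L ⊕ M) × Bool)} {ι : L →* G}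
    {μ : Ω → M →* G} {y : Ω → G} (h : IsStar w ι μ y)
    {ι' : L' →* G'} {μ' : Ω → M →* G'} {y' : Ω → G'}
    (h' : IsStar (fun o => cmap g (w o)) ι' μ' y') :
    ∃ f : G →* G', f.comp ι = ι'.comp g ∧ (∀ o, f.comp (μ o) = μ' o) ∧ ∀ o, f (y o) = y' o :=
  h.lift G' (ι'.comp g) μ' y' fun o => by
    rw [← ev_cmap]
    exact h'.rel o

/-- The elements of a star group: it is generated by the centre, the leaves and the letters. -/
theorem IsStar.closure {w : Ω → List ((L ⊕ M) × Bool)} {ι : L →* G} {μ : Ω → M →* G} {y : Ω → G}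
    (h : IsStar w ι μ y) :
    Subgroup.closure (Set.range ι ∪ (⋃ o, Set.range (μ o)) ∪ Set.range y) = ⊤ := by
  set S := Subgroup.closure (Set.range ι ∪ (⋃ o, Set.range (μ o)) ∪ Set.range y) with hS
  have h1 : ∀ a, ι a ∈ S := fun a => Subgroup.subset_closure (Or.inl (Or.inl ⟨a, rfl⟩))
  have h2 : ∀ o m, μ o m ∈ S := fun o m =>
    Subgroup.subset_closure (Or.inl (Or.inr (Set.mem_iUnion.2 ⟨o, m, rfl⟩)))
  have h3 : ∀ o, y o ∈ S := fun o => Subgroup.subset_closure (Or.inr ⟨o, rfl⟩)
  obtain ⟨f, f1, f2, f3⟩ := h.lift S (ι.codRestrict S h1) (fun o => (μ o).codRestrict S (h2 o))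
    (fun o => ⟨y o, h3 o⟩) fun o => by
      apply S.subtype_injective
      rw [map_one, map_ev, ← h.rel o]
      congr 1
      funext s
      cases s <;> rfl
  have h4 : S.subtype.comp f = MonoidHom.id G := by
    refine h.ext G _ _ ?_ ?_ ?_
    · rw [MonoidHom.comp_assoc, f1, MonoidHom.id_comp]
      rfl
    · intro o
      rw [MonoidHom.comp_assoc, f2, MonoidHom.id_comp]
      rfl
    · intro o
      rw [MonoidHom.comp_apply, f3, MonoidHom.id_apply]
      rfl
  rw [eq_top_iff]
  intro x _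
  have h5 : S.subtype (f x) = x := DFunLike.congr_fun h4 x
  rw [← h5]
  exact (f x).2

theorem ev_wmap {B H : Type} [Group B] [Group H] (φ : L →* B) (ψ : M →* B) (f : B →* H) (y : H)
    (w : List ((L ⊕ M) × Bool)) :
    ev f y (wmap φ ψ w) = ev (Sum.elim (f.comp φ) (f.comp ψ)) y w := by
  unfold wmap
  rw [ev_map]
  congr 1
  funext s
  cases s <;> rfl

theorem sep_wmap {B H : Type} [Group B] [Group H] (n : ℕ) (φ : L →* B) (ψ : M →* B) (f : B →* H)
    (y : H) (w : List ((L ⊕ M) × Bool)) :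
    Sep n f y (wmap φ ψ w) ↔ Sep n (Sum.elim (f.comp φ) (f.comp ψ)) y w := by
  unfold wmap
  rw [sep_map]
  have e : (f : B → H) ∘ Sum.elim (φ : L → B) (ψ : M → B) =
      Sum.elim (f.comp φ) (f.comp ψ) := by
    funext s
    cases s <;> rfl
  rw [e]

/-- Words whose centre syllables are killed may be evaluated with the leaf only, and so on:
`ev` depends only on the values of the syllables which occur. -/
theorem ev_congr {S H : Type} [Group H] (φ φ' : S → H) (y : H) (w : List (S × Bool))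
    (h : ∀ p ∈ w, φ p.1 = φ' p.1) : ev φ y w = ev φ' y w := by
  unfold ev
  congr 1
  exact List.map_congr_left fun p hp => by rw [h p hp]

theorem lab_congr {S H : Type} [Group H] (φ φ' : S → H) (y : H) (w : List (S × Bool))
    (h : ∀ p ∈ w, φ p.1 = φ' p.1) : lab φ y w = lab φ' y w := by
  induction w with
  | nil => rfl
  | cons p w ih =>
    have h1 : ∀ p ∈ w, φ p.1 = φ' p.1 := fun q hq => h q (List.mem_cons_of_mem _ hq)
    rw [lab, lab, ih h1, ev_congr φ φ' y w h1]

theorem sep_congr {S H : Type} [Group H] (n : ℕ) (φ φ' : S → H) (y : H) (w : List (S × Bool))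
    (h : ∀ p ∈ w, φ p.1 = φ' p.1) : Sep n φ y w ↔ Sep n φ' y w := by
  unfold Sep
  rw [lab_congr φ φ' y w h]

end

end Pool.Agent.OR
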