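import Pool.Agent.Lib.MP_98022b_or.Two

/-!
# Alternating words: the centre `ℤ`
-/

set_option autoImplicit false

namespace Pool.Agent.OR

open Function

/-- The group `ℚ ⋊ F` where `F` is free on the non-zero integers, the letter `k` acting as
multiplication by `k`. -/
@[ext]
structure AQ where
  /-- the rational number -/
  v : ℚ
  /-- the element of the free group -/
  g : FreeGroup {k : ℤ // k ≠ 0}

/-- The multiplier. -/
def AQ.chi : FreeGroup {k : ℤ // k ≠ 0} →* ℚˣ :=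
  FreeGroup.lift fun k => Units.mk0 (k.1 : ℚ) (Int.cast_ne_zero.2 k.2)

instance : Mul AQ := ⟨fun a b => ⟨a.v + AQ.chi a.g * b.v, a.g * b.g⟩⟩
instance : One AQ := ⟨⟨0, 1⟩⟩
instance : Inv AQ := ⟨fun a => ⟨-((AQ.chi a.g)⁻¹ : ℚˣ) * a.v, a.g⁻¹⟩⟩

theorem AQ.mul_def (a b : AQ) : a * b = ⟨a.v + AQ.chi a.g * b.v, a.g * b.g⟩ := rfl
theorem AQ.one_def : (1 : AQ) = ⟨0, 1⟩ := rfl
theorem AQ.inv_def (a : AQ) : a⁻¹ = ⟨-((AQ.chi a.g)⁻¹ : ℚˣ) * a.v, a.g⁻¹⟩ := rfl

instance : Group AQ where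
  mul_assoc a b c := by
    ext
    · simp [AQ.mul_def]; ring
    · simp [AQ.mul_def, mul_assoc]
  one_mul a := by ext <;> simp [AQ.mul_def, AQ.one_def]
  mul_one a := by ext <;> simp [AQ.mul_def, AQ.one_def]
  inv_mul_cancel a := by ext <;> simp [AQ.mul_def, AQ.one_def, AQ.inv_def]

theorem FEC.aq : FEC AQ := by
  let f : AQ →* FreeGroup {k : ℤ // k ≠ 0} :=
    { toFun := AQ.g, map_one' := rfl, map_mul' := fun _ _ => rfl }
  have hker : ∀ a : f.ker, a.1.g = 1 := fun a => a.2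
  let j : f.ker →* Multiplicative ℚ :=
    { toFun := fun a => Multiplicative.ofAdd a.1.v
      map_one' := rfl
      map_mul' := fun a b => by
        show Multiplicative.ofAdd (a.1.v + AQ.chi a.1.g * b.1.v) = _
        rw [hker a, map_one, Units.val_one, one_mul]
        rfl }
  refine FEC.of_ker_hom f (FEC.free _) j (fun a b hab => ?_) FEC.rat
  apply Subtype.ext
  apply AQ.ext
  · exact Multiplicative.ofAdd.injective hab
  · rw [hker a, hker b]

theorem AQ.one_ne : (⟨1, 1⟩ : AQ) ≠ 1 := by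
  intro h
  have := congrArg AQ.v h
  simp [AQ.one_def] at this

/-- Multiplication by a rational number. -/
def AQ.scale (k : ℚ) : AQ →* AQ where
  toFun a := ⟨k * a.v, a.g⟩
  map_one' := by ext <;> simp [AQ.one_def]
  map_mul' a b := by
    ext
    · simp [AQ.mul_def]; ring
    · simp [AQ.mul_def]

/-- In the group `ℚ ⋊ F` the element `1` is conjugate to all its non-zero multiples. -/
theorem AQ.conj (k : ℤ) (hk : k ≠ 0) : ∃ s : AQ, s * ⟨1, 1⟩ * s⁻¹ = ⟨k, 1⟩ := by
  refine ⟨⟨0, FreeGroup.of ⟨k, hk⟩⟩, ?_⟩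
  have h : ((AQ.chi (FreeGroup.of ⟨k, hk⟩) : ℚˣ) : ℚ) = k := by
    rw [AQ.chi, FreeGroup.lift_apply_of]
    rfl
  ext
  · simp [AQ.mul_def, AQ.inv_def, h]
  · simp [AQ.mul_def, AQ.inv_def]

theorem AQ.zpow (k : ℤ) : (⟨1, 1⟩ : AQ) ^ k = ⟨k, 1⟩ := by
  let f : Multiplicative ℚ →* AQ :=
    { toFun := fun v => ⟨v.toAdd, 1⟩
      map_one' := rfl
      map_mul' := fun a b => by
        ext
        · simp [AQ.mul_def]
        · simp [AQ.mul_def] }
  have h : f (Multiplicative.ofAdd (1 : ℚ)) = ⟨1, 1⟩ := rfl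
  rw [← h, ← map_zpow, ← ofAdd_zsmul]
  show (⟨k • (1 : ℚ), 1⟩ : AQ) = ⟨k, 1⟩
  simp

namespace SBase

/-- Powers of non-trivial elements in groups of the class. -/
theorem zpow_ne {Q : Type} [Group Q] (hQ : FEC Q) {c : Q} (hc : c ≠ 1) {k : ℤ} (hk : k ≠ 0) :
    c ^ k ≠ 1 := by
  intro h
  apply hc
  apply hQ.torsionFree c k.natAbs (Int.natAbs_pos.2 hk)
  rcases Int.natAbs_eq k with h1 | h1
  · rw [h1, zpow_natCast] at h
    exact h
  · rw [h1, zpow_neg, zpow_natCast, inv_eq_one] at h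
    exact h

theorem mm_two : ∀ m < 2, MM m := by
  intro m hm
  rcases Nat.lt_succ_iff_lt_or_eq.1 hm with h | rfl
  · have h0 : m = 0 := by omega
    subst h0
    intro L G _ _ _ w hw hg
    exact absurd (List.length_eq_zero_iff.1 hw) hg.1
  · exact MM_one

/-- homomorphisms out of the infinite cyclic group -/
theorem zhom {G : Type} [Group G] (f : Multiplicative ℤ →* G) (a : Multiplicative ℤ) :
    f a = f (Multiplicative.ofAdd 1) ^ (a.toAdd) := by
  rw [← map_zpow, ← ofAdd_zsmul]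
  simp

end SBase

/-- Centre `ℤ`, words `a y b y⁻¹`: it is enough to have homomorphisms `f_k` from the leaf to a
group `Q` of the class with `f_k b = c^k`, for all `k ≠ 0`. -/
theorem SC2_int {M Q : Type} [Group M] [Group Q] (hMM : FEC M) (hQ : FEC Q) (b : M) (hb : b ≠ 1)
    (c : Q) (hc : c ≠ 1) (hf : ∀ k : ℤ, k ≠ 0 → ∃ f : M →* Q, f b = c ^ k) :
    (SC2 M b hb).P (Multiplicative ℤ) := by
  intro Ω G _ w ι μ y hw h
  have hw' : ∀ o, ∃ a : Multiplicative ℤ, a ≠ 1 ∧ w o = sw [(a, b)] := hw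
  choose a ha hwa using hw'
  have hk : ∀ o, -(a o).toAdd ≠ 0 := fun o h0 => ha o (by
    have h1 : (a o).toAdd = 0 := by omega
    exact Multiplicative.toAdd.injective h1)
  choose ψ hψ using fun o => hf (-(a o).toAdd) (hk o)
  let φ : Multiplicative ℤ →* Q := zpowersHom Q c
  have hφ : ∀ x, φ x = c ^ x.toAdd := fun x => by
    show zpowersHom _ _ x = _
    rw [zpowersHom_apply]
  have hrel : ∀ o, ev (Sum.elim φ (ψ o)) (1 : Q) (w o) = 1 := by
    intro o
    rw [hwa o, ev_sw]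
    simp [hφ, hψ]
  obtain ⟨f, hf1, hf2, hf3⟩ := h.lift Q φ ψ (fun _ => 1) hrel
  refine star_ct_empty 2 SBase.mm_two FEC.int hMM hQ h
    (fun B _ φ' ψ' h1 h2 o => (SC2 M b hb).good φ' ψ' h1 h2 (w o) (hw o)) f fun o => ?_
  rw [hf1, hf2, hf3, hwa o]
  refine sep_sw 2 _ _ _ _ (by simp) ?_ ⟨(a o, b), by simp, Or.inl ?_⟩
  · rw [← hwa o]; exact hrel o
  · show φ (a o) ≠ 1
    rw [hφ]
    exact SBase.zpow_ne hQ hc (fun h0 => hk o (by omega))

/-- All centres, words `a y b y⁻¹`: first the leaf `AQ`; then a general leaf `H`, with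
`Q = (H * AQ)/(b = y 1 y⁻¹)`, in which `b` is conjugate to all its non-zero powers. -/
theorem SC2_all {H : Type} [Group H] (hH : FEC H) (b : H) (hb : b ≠ 1) {L : Type} [Group L]
    (hL : FEC L) : (SC2 H b hb).P L := by
  -- first the leaf `AQ`
  have h1 : (SC2 AQ ⟨1, 1⟩ AQ.one_ne).P (Multiplicative ℤ) := by
    refine SC2_int FEC.aq FEC.aq _ AQ.one_ne ⟨1, 1⟩ AQ.one_ne fun k _ => ⟨AQ.scale k, ?_⟩
    rw [AQ.zpow]
    show (⟨(k : ℚ) * 1, 1⟩ : AQ) = ⟨k, 1⟩
    rw [mul_one]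
  have h2 : (SC2 AQ ⟨1, 1⟩ AQ.one_ne).P H := (SC2 AQ _ AQ.one_ne).P_all SBase.mm_two FEC.aq h1 hH
  -- the group in which `b` is conjugate to its powers
  obtain ⟨Q, _, ι, μ, y, hQ⟩ := exists_star
    (fun _ : Unit => sw [((b⁻¹ : H), (⟨1, 1⟩ : AQ))])
  obtain ⟨hι, -, hFQ⟩ := h2 Unit Q _ ι μ y (fun _ => ⟨b⁻¹, inv_ne_one.2 hb, rfl⟩) hQ
  have hrel : ι b = y () * μ () ⟨1, 1⟩ * (y ())⁻¹ := by
    have h3 := hQ.rel ()
    rw [ev_sw] at h3
    simp only [List.map_cons, List.map_nil, List.prod_cons, List.prod_nil, mul_one, map_inv] at h3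
    rw [inv_mul_eq_one] at h3
    exact h3
  have hc : ι b ≠ 1 := fun h0 => hb (hι (by rw [h0, map_one]))
  have h4 : (SC2 H b hb).P (Multiplicative ℤ) := by
    refine SC2_int hH hFQ b hb (ι b) hc fun k hk => ?_
    obtain ⟨s, hs⟩ := AQ.conj k hk
    refine ⟨(MulAut.conj (y () * μ () s * (y ())⁻¹)).toMonoidHom.comp ι, ?_⟩
    show (y () * μ () s * (y ())⁻¹) * ι b * (y () * μ () s * (y ())⁻¹)⁻¹ = _
    rw [hrel, conj_zpow, ← map_zpow, AQ.zpow, ← hs]
    simp only [map_mul, map_inv, mul_inv_rev, inv_inv]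
    group
  exact (SC2 H b hb).P_all SBase.mm_two hH h4 hL

/-- **Amalgams over infinite cyclic groups**: `G` is generated by `A` and `H` with the
relation `a = h`. -/
theorem amalgam {A H G : Type} [Group A] [Group H] [Group G] (hA : FEC A) (hH : FEC H) (a : A)
    (h : H) (ha : a ≠ 1) (hh : h ≠ 1) (α : A →* G) (β : H →* G) (hG : IsTwo [(a, h⁻¹)] α β) :
    Injective α ∧ Injective β ∧ FEC G := by
  obtain ⟨G', _, ι, μ, y, hG'⟩ := exists_star (fun _ : Unit => sw [(a, h⁻¹)])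
  exact hG.of_star hG' (SC2_all hH h⁻¹ (inv_ne_one.2 hh) hA Unit G' _ ι μ y
    (fun _ => ⟨a, ha, rfl⟩) hG')

/-- Centre `ℤ` and leaf `ℤ`: `f : G → ℚ`, `c ↦ 1`, generator of the leaf `↦ -α/β`, `y ↦ 0`. -/
theorem SC_int_int (n : ℕ) (hM : ∀ m < n, MM m) :
    (SC n (Multiplicative ℤ)).P (Multiplicative ℤ) := by
  intro Ω G _ w ι μ y hw h
  have hw' : ∀ o, ∃ s : List (Multiplicative ℤ × Multiplicative ℤ), w o = sw s ∧ GoodS s ∧
    2 * s.length ≤ n ∧ (s.map Prod.fst).prod ≠ 1 ∧ (s.map Prod.snd).prod ≠ 1 := hw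
  choose s hws hgs hlen hfst hsnd using hw'
  let φ : Multiplicative ℤ →* Multiplicative ℚ := zpowersHom _ (Multiplicative.ofAdd 1)
  let r : Ω → ℚ := fun o => -((((s o).map Prod.fst).prod).toAdd : ℚ) /
    ((((s o).map Prod.snd).prod).toAdd : ℚ)
  let ψ : Ω → Multiplicative ℤ →* Multiplicative ℚ := fun o =>
    zpowersHom _ (Multiplicative.ofAdd (r o))
  have hφ : ∀ x, φ x = Multiplicative.ofAdd ((x.toAdd : ℤ) : ℚ) := by
    intro x
    show zpowersHom _ _ x = _
    rw [zpowersHom_apply, ← ofAdd_zsmul]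
    simp
  have hψ : ∀ o x, ψ o x = Multiplicative.ofAdd (((x.toAdd : ℤ) : ℚ) * r o) := by
    intro o x
    show zpowersHom _ _ x = _
    rw [zpowersHom_apply, ← ofAdd_zsmul]
    simp
  have hrel : ∀ o, ev (Sum.elim φ (ψ o)) (1 : Multiplicative ℚ) (w o) = 1 := by
    intro o
    have key : ∀ l : List (Multiplicative ℤ × Multiplicative ℤ),
        (l.map fun p => φ p.1 * (1 * ψ o p.2 * 1⁻¹)).prod =
          φ (l.map Prod.fst).prod * ψ o (l.map Prod.snd).prod := by
      intro l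
      induction l with
      | nil => simp
      | cons p l ih =>
        rw [List.map_cons, List.prod_cons, ih, List.map_cons, List.map_cons, List.prod_cons,
          List.prod_cons, map_mul, map_mul]
        rw [one_mul, inv_one, mul_one]
        exact mul_mul_mul_comm _ _ _ _
    rw [hws o, ev_sw, key, hφ, hψ, ← ofAdd_add]
    have hb : ((((s o).map Prod.snd).prod).toAdd : ℚ) ≠ 0 := by
      intro h0
      apply hsnd o
      have h1 : (((s o).map Prod.snd).prod).toAdd = 0 := by exact_mod_cast h0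
      exact Multiplicative.toAdd.injective h1
    have h2 : ((((s o).map Prod.fst).prod).toAdd : ℚ) +
        ((((s o).map Prod.snd).prod).toAdd : ℚ) * r o = 0 := by
      simp only [r]
      field_simp
      ring
    rw [h2]
    rfl
  obtain ⟨f, hf1, hf2, hf3⟩ := h.lift (Multiplicative ℚ) φ ψ (fun _ => 1) hrel
  refine star_ct_empty n hM FEC.int FEC.int FEC.rat h
    (fun B _ φ' ψ' h1 h2 o => (SC n (Multiplicative ℤ)).good φ' ψ' h1 h2 (w o) (hw o)) f
    fun o => ?_
  rw [hf1, hf2, hf3, hws o]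
  obtain ⟨p, hp⟩ := List.exists_mem_of_ne_nil _ (hgs o).1
  refine sep_sw n _ _ _ _ (hlen o) ?_ ⟨p, hp, Or.inl ?_⟩
  · rw [← hws o]; exact hrel o
  · rw [hφ]
    intro h0
    apply ((hgs o).2.1 p hp).1
    have h1 : ((p.1.toAdd : ℤ) : ℚ) = 0 := Multiplicative.ofAdd.injective h0
    have h2 : p.1.toAdd = 0 := by exact_mod_cast h1
    exact Multiplicative.toAdd.injective h2

/-- Centre `ℤ`, leaf `M`, one word: exchange centre and leaf. -/
theorem SC_int_single (n : ℕ) (hM : ∀ m < n, MM m) {M G : Type} [Group M] [Group G]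
    (hMM : FEC M) (w : List ((Multiplicative ℤ ⊕ M) × Bool)) (hw : (SC n M).adm w)
    (ι : Multiplicative ℤ →* G) (μ : Unit → M →* G) (y : Unit → G)
    (h : IsStar (fun _ => w) ι μ y) : Concl ι μ := by
  have hw' : ∃ s : List (Multiplicative ℤ × M), w = sw s ∧ GoodS s ∧
    2 * s.length ≤ n ∧ (s.map Prod.fst).prod ≠ 1 ∧ (s.map Prod.snd).prod ≠ 1 := hw
  obtain ⟨s, rfl, hgs, hlen, hfst, hsnd⟩ := hw'
  obtain ⟨t, hgt, htl, ht1, ht2, hte⟩ := exists_swap s hgs
  have h' := h.swap t hte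
  have hP : (SC n (Multiplicative ℤ)).P M :=
    (SC n (Multiplicative ℤ)).P_all hM FEC.int (SC_int_int n hM) hMM
  obtain ⟨h1, h2, h3⟩ := hP Unit G _ (μ ()) (fun _ => ι) (fun _ => (y ())⁻¹)
    (fun _ => ⟨t, rfl, hgt, by rw [htl]; exact hlen, by rw [ht1]; exact hsnd,
      fun h0 => hfst (ht2.1 h0)⟩) h'
  exact ⟨h2 (), fun _ => h1, h3⟩

/-- Centre `ℤ`, leaf `M`, finitely many words: amalgamate over the centre. -/
theorem SC_int_fin (n : ℕ) (hM : ∀ m < n, MM m) {M : Type} [Group M]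
    (hMM : FEC M) : (SC n M).Pfin (Multiplicative ℤ) := by
  suffices key : ∀ (Ω : Type) [Finite Ω], ∀ (G : Type) [Group G]
      (w : Ω → List ((Multiplicative ℤ ⊕ M) × Bool)) (ι : Multiplicative ℤ →* G)
      (μ : Ω → M →* G) (y : Ω → G), (∀ o, (SC n M).adm (w o)) → IsStar w ι μ y → Concl ι μ by
    intro Ω G _ _ w ι μ y
    exact key Ω G w ι μ y
  intro Ω _
  refine Finite.induction_empty_option (P := fun Ω => ∀ (G : Type) [Group G]
      (w : Ω → List ((Multiplicative ℤ ⊕ M) × Bool)) (ι : Multiplicative ℤ →* G)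
      (μ : Ω → M →* G) (y : Ω → G), (∀ o, (SC n M).adm (w o)) → IsStar w ι μ y → Concl ι μ)
    ?_ ?_ ?_ Ω
  · intro Ω₁ Ω₂ e ih G _ w ι μ y hw h
    obtain ⟨h1, h2, h3⟩ := ih G (fun o => w (e o)) ι (fun o => μ (e o)) (fun o => y (e o))
      (fun o => hw (e o)) (h.reindex e)
    refine ⟨h1, fun o => ?_, h3⟩
    have h4 : Injective (μ (e (e.symm o))) := h2 (e.symm o)
    rwa [e.apply_symm_apply] at h4
  · intro G _ w ι μ y hw h
    obtain ⟨e, he, -, -⟩ := (IsStar.empty w).equiv h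
    have hi : ∀ a, ι a = e a := fun a => (he a).symm
    refine ⟨fun a b hab => e.injective (by rw [← hi, ← hi, hab]), fun o => o.elim,
      FEC.of_equiv e FEC.int⟩
  · intro Ω₀ _ ih G _ w ι μ y hw h
    obtain ⟨G1, _, ι1, μ1, y1, hs1⟩ := exists_star (fun o : Ω₀ => w (some o))
    obtain ⟨G2, _, ι2, μ2, y2, hs2⟩ := exists_star (fun _ : Unit => w none)
    obtain ⟨i1, m1, f1⟩ := ih G1 _ ι1 μ1 y1 (fun o => hw (some o)) hs1
    obtain ⟨i2, m2, f2⟩ := SC_int_single n hM hMM (w none) (hw none) ι2 μ2 y2 hs2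
    obtain ⟨α, α1, α2, α3⟩ := hs1.lift G ι (fun o => μ (some o)) (fun o => y (some o))
      (fun o => h.rel (some o))
    obtain ⟨β, β1, β2, β3⟩ := hs2.lift G ι (fun _ => μ none) (fun _ => y none)
      (fun _ => h.rel none)
    let c : Multiplicative ℤ := Multiplicative.ofAdd 1
    have hc : c ≠ 1 := by
      intro h0
      have h1 : (1 : ℤ) = 0 := Multiplicative.ofAdd.injective h0
      omega
    have hc1 : ι1 c ≠ 1 := fun h0 => hc (i1 (by rw [h0, map_one]))
    have hc2 : ι2 c ≠ 1 := fun h0 => hc (i2 (by rw [h0, map_one]))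
    have hαι : ∀ a, α (ι1 a) = ι a := fun a => DFunLike.congr_fun α1 a
    have hβι : ∀ a, β (ι2 a) = ι a := fun a => DFunLike.congr_fun β1 a
    have hT : IsTwo [(ι1 c, (ι2 c)⁻¹)] α β := by
      refine ⟨?_, ?_, ?_⟩
      · simp [hαι, hβι]
      · intro H _ f g hf hg
        refine h.ext H f g ?_ ?_ ?_
        · rw [← α1, ← MonoidHom.comp_assoc, ← MonoidHom.comp_assoc, hf]
        · rintro (_ | o)
          · rw [← β2 (), ← MonoidHom.comp_assoc, ← MonoidHom.comp_assoc, hg]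
          · rw [← α2 o, ← MonoidHom.comp_assoc, ← MonoidHom.comp_assoc, hf]
        · rintro (_ | o)
          · rw [← β3 ()]; exact DFunLike.congr_fun hg (y2 ())
          · rw [← α3 o]; exact DFunLike.congr_fun hf (y1 o)
      · intro H _ φ ψ hφψ
        have h1 : φ (ι1 c) = ψ (ι2 c) := by
          simp only [List.map_cons, List.map_nil, List.prod_cons, List.prod_nil, mul_one,
            map_inv] at hφψ
          exact mul_inv_eq_one.1 hφψ
        have h2 : φ.comp ι1 = ψ.comp ι2 := by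
          ext
          exact h1
        obtain ⟨f, f1', f2', f3'⟩ := h.lift H (φ.comp ι1)
          (fun o => Option.casesOn o (ψ.comp (μ2 ())) (fun o => φ.comp (μ1 o)))
          (fun o => Option.casesOn o (ψ (y2 ())) (fun o => φ (y1 o))) (by
            rintro (_ | o)
            · have h3 := congrArg ψ (hs2.rel ())
              rw [map_ev, map_one] at h3
              rw [h2]
              convert h3 using 2
              funext x
              rcases x with x | x <;> rfl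
            · have h3 := congrArg φ (hs1.rel o)
              rw [map_ev, map_one] at h3
              convert h3 using 2
              funext x
              rcases x with x | x <;> rfl)
        refine ⟨f, ?_, ?_⟩
        · refine hs1.ext H _ _ ?_ ?_ ?_
          · rw [MonoidHom.comp_assoc, α1, f1']
          · intro o
            rw [MonoidHom.comp_assoc, α2, f2']
          · intro o
            show f (α (y1 o)) = _
            rw [α3, f3']
        · refine hs2.ext H _ _ ?_ ?_ ?_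
          · rw [MonoidHom.comp_assoc, β1, f1', h2]
          · intro o
            rw [MonoidHom.comp_assoc, β2, f2']
          · intro o
            show f (β (y2 o)) = _
            rw [β3, f3']
    obtain ⟨iα, iβ, hF⟩ := amalgam f1 f2 (ι1 c) (ι2 c) hc1 hc2 α β hT
    refine ⟨?_, ?_, hF⟩
    · rw [← α1]
      exact iα.comp i1
    · rintro (_ | o)
      · rw [← β2 ()]
        exact iβ.comp (m2 ())
      · rw [← α2 o]
        exact iα.comp (m1 o)

/-- All centres and leaves. -/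
theorem SC_all (n : ℕ) (hM : ∀ m < n, MM m) {M L : Type} [Group M] [Group L]
    (hMM : FEC M) (hL : FEC L) : (SC n M).P L :=
  (SC n M).P_all hM hMM ((SC n M).P_of_Pfin (SC_int_fin n hM hMM)) hL

/-- **One-relator products of two groups of the class** (given the induction hypothesis). If
`∏ a_i = 1` or `∏ b_i = 1`, kill the other factor and `y` and use `star_ct_empty`; otherwise
`SC_all`. -/
theorem two_theorem (n : ℕ) (hM : ∀ m < n, MM m) {A M G : Type} [Group A]
    [Group M] [Group G] (hA : FEC A) (hMM : FEC M) (s : List (A × M)) (hs : GoodS s)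
    (hl : 2 * s.length ≤ n) (α : A →* G) (β : M →* G) (h : IsTwo s α β) :
    Injective α ∧ Injective β ∧ FEC G := by
  obtain ⟨G', _, ι, μ, y, hG'⟩ := exists_star (fun _ : Unit => sw s)
  obtain ⟨p, hp⟩ := List.exists_mem_of_ne_nil _ hs.1
  refine h.of_star hG' ?_
  by_cases ha : (s.map Prod.fst).prod = 1
  · -- kill the leaf and the letter
    have hrel : ∀ _ : Unit, ev (Sum.elim (MonoidHom.id A) (1 : M →* A)) (1 : A) (sw s) = 1 := by
      intro _
      rw [ev_sw]
      simpa using ha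
    obtain ⟨f, hf1, hf2, hf3⟩ := hG'.lift A (MonoidHom.id A) (fun _ => 1) (fun _ => 1) hrel
    refine star_ct_empty n hM hA hMM hA hG'
      (fun B _ φ' ψ' h1 h2 _ => hs.good φ' ψ' h1 h2) f fun o => ?_
    rw [hf1, hf2, hf3]
    exact sep_sw n _ _ _ _ hl (hrel ()) ⟨p, hp, Or.inl (hs.2.1 p hp).1⟩
  by_cases hb : (s.map Prod.snd).prod = 1
  · have hrel : ∀ _ : Unit, ev (Sum.elim (1 : A →* M) (MonoidHom.id M)) (1 : M) (sw s) = 1 := by
      intro _
      rw [ev_sw]
      simpa using hb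
    obtain ⟨f, hf1, hf2, hf3⟩ := hG'.lift M 1 (fun _ => MonoidHom.id M) (fun _ => 1) hrel
    refine star_ct_empty n hM hA hMM hMM hG'
      (fun B _ φ' ψ' h1 h2 _ => hs.good φ' ψ' h1 h2) f fun o => ?_
    rw [hf1, hf2, hf3]
    exact sep_sw n _ _ _ _ hl (hrel ()) ⟨p, hp, Or.inr (hs.2.1 p hp).2⟩
  exact SC_all n hM hMM hA Unit G' _ ι μ y (fun _ => ⟨s, rfl, hs, hl, ha, hb⟩) hG'

end Pool.Agent.OR
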