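import Pool.Agent.Lib.MP_98022b_or.Struct
import Pool.Agent.Lib.MP_98022b_or.StarCT

/-!
# Alternating words
-/

set_option autoImplicit false

namespace Pool.Agent.OR

open Function

section

variable {L M : Type}

/-- The word `∏ a_i y b_i y⁻¹` over the centre `L` and the leaf `M` given by the list of pairs
`(a_i, b_i)`. -/
def sw (s : List (L × M)) : List ((L ⊕ M) × Bool) :=
  s.flatMap fun p => [(Sum.inl p.1, true), (Sum.inr p.2, false)]

@[simp] theorem sw_nil : sw ([] : List (L × M)) = [] := rfl

@[simp] theorem sw_cons (p : L × M) (s : List (L × M)) :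
    sw (p :: s) = (Sum.inl p.1, true) :: (Sum.inr p.2, false) :: sw s := rfl

theorem sw_append (s t : List (L × M)) : sw (s ++ t) = sw s ++ sw t := by
  simp [sw]

@[simp] theorem length_sw (s : List (L × M)) : (sw s).length = 2 * s.length := by
  induction s with
  | nil => rfl
  | cons p s ih => simp [ih]; ring

/-- The value of `∏ a_i y b_i y⁻¹`. -/
theorem ev_sw {H : Type} [Group H] (φ : L → H) (ψ : M → H) (y : H) (s : List (L × M)) :
    ev (Sum.elim φ ψ) y (sw s) = (s.map fun p => φ p.1 * (y * ψ p.2 * y⁻¹)).prod := by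
  induction s with
  | nil => rfl
  | cons p s ih => simp [ih, mul_assoc]

theorem cmap_sw {L' : Type} [Group L] [Group L'] (g : L →* L') (s : List (L × M)) :
    cmap g (sw s) = sw (s.map fun p => (g p.1, p.2)) := by
  induction s with
  | nil => rfl
  | cons p s ih =>
    rw [List.map_cons, sw_cons, sw_cons, ← ih]
    rfl

/-- The word `sw s` over a group `B`. -/
theorem wmap_sw {B : Type} (φ : L → B) (ψ : M → B) (s : List (L × M)) :
    wmap φ ψ (sw s) = s.flatMap fun p => [(φ p.1, true), (ψ p.2, false)] := by
  induction s with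
  | nil => rfl
  | cons p s ih =>
    rw [List.flatMap_cons, ← ih]
    rfl

/-- Decomposition of a list into pairs. -/
def SClassAux.dec {α : Type} : List α → List (α × α)
  | x :: y :: l => (x, y) :: SClassAux.dec l
  | _ => []

theorem SClassAux.dec_append {α : Type} : ∀ (n : ℕ) (u v : List α), u.length = 2 * n →
    SClassAux.dec (u ++ v) = SClassAux.dec u ++ SClassAux.dec v
  | 0, u, v, h => by
    have : u = [] := List.eq_nil_of_length_eq_zero (by omega)
    subst this
    rfl
  | n + 1, u, v, h => by
    match u, h with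
    | x :: y :: u, h =>
      rw [List.length_cons, List.length_cons] at h
      have ih := SClassAux.dec_append n u v (by omega)
      rw [List.cons_append, List.cons_append, SClassAux.dec, SClassAux.dec, ih,
        List.cons_append]

theorem SClassAux.dec_replicate {α : Type} (n : ℕ) (u : List α) (h : u.length = 2 * n) (k : ℕ) :
    SClassAux.dec (List.replicate k u).flatten =
      (List.replicate k (SClassAux.dec u)).flatten := by
  induction k with
  | zero => rfl
  | succ k ih =>
    rw [List.replicate_succ, List.replicate_succ, List.flatten_cons, List.flatten_cons,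
      SClassAux.dec_append n _ _ h, ih]

theorem SClassAux.dec_flatMap {α β : Type} (s : List β) (F F' : β → α) :
    SClassAux.dec (s.flatMap fun p => [F p, F' p]) = s.map fun p => (F p, F' p) := by
  induction s with
  | nil => rfl
  | cons p s ih =>
    rw [List.flatMap_cons, List.map_cons, ← ih]
    rfl

/-- signs alternate -/
def SClassAux.Alt {α : Type} : Bool → List (α × Bool) → Prop
  | _, [] => True
  | e, p :: l => p.2 = e ∧ SClassAux.Alt (!e) l

theorem SClassAux.alt_append {α : Type} : ∀ (u v : List (α × Bool)) (e : Bool),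
    SClassAux.Alt e (u ++ v) → SClassAux.Alt e u ∧
      SClassAux.Alt (if Even u.length then e else !e) v
  | [], v, e, h => ⟨trivial, by simpa using h⟩
  | p :: u, v, e, h => by
    obtain ⟨h1, h2⟩ := h
    obtain ⟨h3, h4⟩ := SClassAux.alt_append u v (!e) h2
    refine ⟨⟨h1, h3⟩, ?_⟩
    rw [List.length_cons]
    by_cases hu : Even u.length
    · rw [if_pos hu] at h4
      rw [if_neg (fun hc => (Nat.even_add_one.1 hc) hu)]
      exact h4
    · rw [if_neg hu, Bool.not_not] at h4
      rw [if_pos (Nat.even_add_one.2 hu)]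
      exact h4

theorem SClassAux.alt_flatMap {α β : Type} (s : List β) (F F' : β → α) :
    SClassAux.Alt true (s.flatMap fun p => [(F p, true), (F' p, false)]) := by
  induction s with
  | nil => trivial
  | cons p s ih =>
    rw [List.flatMap_cons]
    exact ⟨rfl, rfl, ih⟩

theorem SClassAux.flatMap_replicate {α β : Type} (F : α → List β) (u : List α) (k : ℕ) :
    (List.replicate k u).flatten.flatMap F = (List.replicate k (u.flatMap F)).flatten := by
  induction k with
  | zero => rfl
  | succ k ih =>
    rw [List.replicate_succ, List.replicate_succ, List.flatten_cons, List.flatten_cons,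
      List.flatMap_append, ih]

variable [Group L] [Group M]

/-- Lists of pairs of non-trivial elements which are not proper powers. -/
def GoodS (s : List (L × M)) : Prop := s ≠ [] ∧ (∀ p ∈ s, p.1 ≠ 1 ∧ p.2 ≠ 1) ∧ NP s

theorem SClassAux.isChain_adj {B : Type} [Group B] (w : List (B × Bool))
    (h : ∀ p ∈ w, p.1 ≠ 1) : w.IsChain Adj := by
  induction w with
  | nil => exact List.isChain_nil
  | cons p w ih =>
    cases w with
    | nil => exact List.isChain_singleton p
    | cons q w =>
      rw [List.isChain_cons_cons]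
      exact ⟨fun _ => h q (by simp), ih fun r hr => h r (List.mem_cons_of_mem p hr)⟩

theorem GoodS.good {s : List (L × M)} (h : GoodS s) {B : Type} [Group B] (φ : L →* B)
    (ψ : M →* B) (hφ : Injective φ) (hψ : Injective ψ) : Good (wmap φ ψ (sw s)) := by
  obtain ⟨h1, h2, h3⟩ := h
  rw [wmap_sw]
  have hmem : ∀ q ∈ (s.flatMap fun p => [(φ p.1, true), (ψ p.2, false)]), q.1 ≠ 1 := by
    intro q hq
    rw [List.mem_flatMap] at hq
    obtain ⟨p, hp, hq⟩ := hq
    rw [List.mem_cons, List.mem_singleton] at hq
    rcases hq with rfl | rfl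
    · exact fun hc => (h2 p hp).1 ((map_eq_one_iff φ hφ).1 hc)
    · exact fun hc => (h2 p hp).2 ((map_eq_one_iff ψ hψ).1 hc)
  refine ⟨?_, ?_, ?_⟩
  · cases s with
    | nil => exact absurd rfl h1
    | cons p s => rw [List.flatMap_cons]; exact List.cons_ne_nil _ _
  · apply SClassAux.isChain_adj
    intro q hq
    rw [List.mem_append] at hq
    rcases hq with hq | hq
    · exact hmem q hq
    · exact hmem q hq
  · intro u k hk hu
    have hne : u ≠ [] := by
      rintro rfl
      cases s with
      | nil => exact absurd rfl h1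
      | cons p s =>
        rw [List.flatMap_cons] at hu
        have : (List.replicate k ([] : List (B × Bool))).flatten = [] := by simp
        rw [this] at hu
        exact absurd hu (List.cons_ne_nil _ _)
    have heven : Even u.length := by
      by_contra hodd
      have halt := SClassAux.alt_flatMap s (fun p => φ p.1) (fun p => ψ p.2)
      rw [hu] at halt
      obtain ⟨k, rfl⟩ : ∃ k', k = k' + 2 := ⟨k - 2, by omega⟩
      rw [List.replicate_succ, List.flatten_cons, List.replicate_succ, List.flatten_cons] at halt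
      obtain ⟨a1, a2⟩ := SClassAux.alt_append _ _ _ halt
      rw [if_neg hodd] at a2
      obtain ⟨a3, -⟩ := SClassAux.alt_append _ _ _ a2
      cases u with
      | nil => exact absurd rfl hne
      | cons q u =>
        have b1 := a1.1
        have b2 := a3.1
        rw [b1] at b2
        exact absurd b2 (by decide)
    obtain ⟨m, hm⟩ := heven.exists_two_nsmul
    have hdec := congrArg SClassAux.dec hu
    rw [SClassAux.dec_replicate m u (by simpa using hm) k] at hdec
    have hdec2 := SClassAux.dec_flatMap s (fun p => (φ p.1, true)) (fun p => (ψ p.2, false))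
    rw [hdec] at hdec2
    have hNP : NP (s.map fun p => ((φ p.1, true), (ψ p.2, false))) := by
      apply NP.map _ _ h3
      intro a _ b _ hab
      simp only [Prod.mk.injEq, and_true] at hab
      exact Prod.ext (hφ hab.1) (hψ hab.2)
    exact hNP _ k hk hdec2.symm

/-- Conversely. -/
theorem GoodS.of_good {s : List (L × M)} {B : Type} [Group B] (φ : L →* B) (ψ : M →* B)
    (h : Good (wmap φ ψ (sw s))) : GoodS s := by
  obtain ⟨h1, h2, h3⟩ := h
  rw [wmap_sw] at h1 h2 h3
  have hne : s ≠ [] := by
    rintro rfl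
    exact h1 rfl
  have key : ∀ (l₁ l₂ : List (B × Bool)) (a b : B × Bool), (l₁ ++ a :: b :: l₂).IsChain Adj →
      Adj a b := by
    intro l₁ l₂ a b hc
    rw [List.isChain_append] at hc
    obtain ⟨-, hc, -⟩ := hc
    rw [List.isChain_cons_cons] at hc
    exact hc.1
  refine ⟨hne, ?_, ?_⟩
  · intro p hp
    obtain ⟨s1, s2, hs⟩ := List.append_of_mem hp
    unfold CR at h2
    constructor
    · intro hc
      -- the last pair of `s ++ s1`
      obtain ⟨s', p', hs'⟩ : ∃ s' p', s ++ s1 = s' ++ [p'] := by
        have : s ++ s1 ≠ [] := by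
          intro hcc
          exact hne (List.append_eq_nil_iff.1 hcc).1
        exact ⟨_, _, (List.dropLast_append_getLast this).symm⟩
      have e1 : (s.flatMap fun p => [(φ p.1, true), (ψ p.2, false)]) ++
          (s.flatMap fun p => [(φ p.1, true), (ψ p.2, false)]) =
          ((s'.flatMap fun p => [(φ p.1, true), (ψ p.2, false)]) ++ [(φ p'.1, true)]) ++
            (ψ p'.2, false) :: (φ p.1, true) :: (((ψ p.2, false)) ::
            (s2.flatMap fun p => [(φ p.1, true), (ψ p.2, false)])) := by
        rw [← List.flatMap_append]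
        have : s ++ s = (s' ++ [p']) ++ p :: s2 := by
          rw [← hs', List.append_assoc, ← hs]
        rw [this, List.flatMap_append, List.flatMap_append, List.flatMap_cons,
          List.flatMap_cons, List.flatMap_nil]
        simp
      rw [e1] at h2
      have := key _ _ _ _ h2 Bool.false_ne_true
      apply this
      rw [hc]
      exact map_one φ
    · intro hc
      have e1 : (s.flatMap fun p => [(φ p.1, true), (ψ p.2, false)]) ++
          (s.flatMap fun p => [(φ p.1, true), (ψ p.2, false)]) =
          (s1.flatMap fun p => [(φ p.1, true), (ψ p.2, false)]) ++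
            (φ p.1, true) :: (ψ p.2, false) ::
            ((s2 ++ s).flatMap fun p => [(φ p.1, true), (ψ p.2, false)]) := by
        rw [← List.flatMap_append]
        have : s ++ s = s1 ++ p :: (s2 ++ s) := by
          conv_lhs => rw [hs]
          rw [List.append_assoc, List.cons_append, ← hs]
        rw [this, List.flatMap_append, List.flatMap_cons]
        simp
      rw [e1] at h2
      have := key _ _ _ _ h2 Bool.false_ne_true.symm
      apply this
      rw [hc]
      exact map_one ψ
  · intro u k hk hu
    apply h3 _ k hk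
    rw [hu, SClassAux.flatMap_replicate]

theorem GoodS.rotate {s t : List (L × M)} (h : GoodS (s ++ t)) : GoodS (t ++ s) := by
  obtain ⟨h1, h2, h3⟩ := h
  refine ⟨?_, ?_, h3.rotate⟩
  · intro hc
    rw [List.append_eq_nil_iff] at hc
    exact h1 (List.append_eq_nil_iff.2 ⟨hc.2, hc.1⟩)
  · intro p hp
    apply h2
    rw [List.mem_append] at hp ⊢
    exact hp.symm

theorem GoodS.of_map {L' : Type} [Group L'] (g : L →* L') {s : List (L × M)}
    (h : GoodS (s.map fun p => (g p.1, p.2))) : GoodS s := by
  obtain ⟨h1, h2, h3⟩ := h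
  refine ⟨?_, ?_, h3.of_map⟩
  · rintro rfl
    exact h1 rfl
  · intro p hp
    have := h2 _ (List.mem_map_of_mem hp)
    refine ⟨?_, this.2⟩
    intro hc
    apply this.1
    show g p.1 = 1
    rw [hc, map_one]

theorem SClassAux.syl {H : Type} [Group H] (φ : L → H) (ψ : M → H) (y : H) :
    ∀ s : List (L × M), (∀ q ∈ lab (Sum.elim φ ψ) y (sw s), q = y⁻¹) →
      ev (Sum.elim φ ψ) y (sw s) = 1 → ∀ p ∈ s, φ p.1 = 1 ∧ ψ p.2 = 1
  | [], _, _ => by simp
  | p :: s, h, h1 => by
    rw [sw_cons] at h h1
    have h2 : ev (Sum.elim φ ψ) y (sw s) = 1 := by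
      have := h (y⁻¹ * ev (Sum.elim φ ψ) y (sw s)) (by simp [lab])
      exact mul_eq_left.1 this
    have h3 : ψ p.2 = 1 := by
      have := h (ev (Sum.elim φ ψ) y ((Sum.inr p.2, false) :: sw s)) (by simp [lab])
      rw [ev_cons, h2, mul_one] at this
      exact mul_eq_right.1 this
    have h4 : φ p.1 = 1 := by
      rw [ev_cons, ev_cons, h2] at h1
      simp only [Sum.elim_inl, Sum.elim_inr, h3, sg_true, sg_false, one_mul, mul_one] at h1
      simpa using h1
    intro q hq
    rw [List.mem_cons] at hq
    rcases hq with rfl | hq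
    · exact ⟨h4, h3⟩
    · refine SClassAux.syl φ ψ y s (fun r hr => h r ?_) h2 q hq
      simp only [lab, List.mem_cons]
      exact Or.inr (Or.inr hr)

theorem SClassAux.inv_mem_lab {H : Type} [Group H] (φ : L → H) (ψ : M → H) (y : H) :
    ∀ s : List (L × M), s ≠ [] → y⁻¹ ∈ lab (Sum.elim φ ψ) y (sw s)
  | [], h => absurd rfl h
  | p :: s, _ => by
    rw [sw_cons]
    simp only [lab, List.mem_cons]
    by_cases hs : s = []
    · subst hs
      right; left
      simp
    · exact Or.inr (Or.inr (SClassAux.inv_mem_lab φ ψ y s hs))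

/-- A solution of `sw s` is separated if some syllable is not killed. -/
theorem sep_sw {H : Type} [Group H] (n : ℕ) (φ : L → H) (ψ : M → H) (y : H) (s : List (L × M))
    (hn : 2 * s.length ≤ n) (h : ev (Sum.elim φ ψ) y (sw s) = 1)
    (hs : ∃ p ∈ s, φ p.1 ≠ 1 ∨ ψ p.2 ≠ 1) : Sep n (Sum.elim φ ψ) y (sw s) := by
  obtain ⟨p, hp, hps⟩ := hs
  rcases hn.lt_or_eq with hn | hn
  · left
    rw [length_sw]
    exact hn
  · right
    refine ⟨by rw [length_sw]; exact hn, ?_⟩
    by_contra hc
    push Not at hc
    have hne : s ≠ [] := by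
      rintro rfl
      simp at hp
    have hy := SClassAux.inv_mem_lab φ ψ y s hne
    have := SClassAux.syl φ ψ y s (fun q hq => hc q hq _ hy) h p hp
    rcases hps with h1 | h1
    · exact h1 this.1
    · exact h1 this.2

theorem SClassAux.exists_rotate {s1 s2 : List (L × M)}
    (h : ∃ t : List (L × M), GoodS t ∧ (t.map Prod.fst).prod ≠ 1 ∧ (t.map Prod.snd).prod ≠ 1 ∧
      t.length ≤ (s2 ++ s1).length ∧ ∀ (H : Type) [Group H] (φ : L →* H) (ψ : M →* H) (y : H),
        ev (Sum.elim φ ψ) y (sw t) = 1 → ev (Sum.elim φ ψ) y (sw (s2 ++ s1)) = 1) :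
    ∃ t : List (L × M), GoodS t ∧ (t.map Prod.fst).prod ≠ 1 ∧ (t.map Prod.snd).prod ≠ 1 ∧
      t.length ≤ (s1 ++ s2).length ∧ ∀ (H : Type) [Group H] (φ : L →* H) (ψ : M →* H) (y : H),
        ev (Sum.elim φ ψ) y (sw t) = 1 → ev (Sum.elim φ ψ) y (sw (s1 ++ s2)) = 1 := by
  obtain ⟨t, h1, h2, h3, h4, h5⟩ := h
  refine ⟨t, h1, h2, h3, ?_, ?_⟩
  · rw [List.length_append] at h4 ⊢
    omega
  · intro H _ φ ψ y ht
    have := h5 H φ ψ y ht
    rw [sw_append] at this ⊢
    exact (ev_rotate_iff _ _ _ _).1 this

/-- Cyclic reduction and root of a list of pairs `s` for which the product of the first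
components and the product of the second components are non-trivial. (Strong induction on the
length.) -/
theorem exists_goodS_root (s : List (L × M)) (ha : (s.map Prod.fst).prod ≠ 1)
    (hb : (s.map Prod.snd).prod ≠ 1) :
    ∃ t : List (L × M), GoodS t ∧ (t.map Prod.fst).prod ≠ 1 ∧ (t.map Prod.snd).prod ≠ 1 ∧
      t.length ≤ s.length ∧ ∀ (H : Type) [Group H] (φ : L →* H) (ψ : M →* H) (y : H),
        ev (Sum.elim φ ψ) y (sw t) = 1 → ev (Sum.elim φ ψ) y (sw s) = 1 := by
  induction hN : s.length using Nat.strong_induction_on generalizing s with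
  | _ N ih =>
  subst hN
  have hne : s ≠ [] := by
    rintro rfl
    exact ha rfl
  -- products of rotations
  have rot : ∀ {K : Type} [Group K] (u v : List K), (u ++ v).prod ≠ 1 → (v ++ u).prod ≠ 1 := by
    intro K _ u v h hc
    apply h
    rw [List.prod_append] at hc ⊢
    rw [mul_eq_one_iff_eq_inv] at hc
    rw [hc]
    simp
  by_cases hall : ∀ p ∈ s, p.1 ≠ 1 ∧ p.2 ≠ 1
  · obtain ⟨u, k, hk, hs, hu, hNP⟩ := exists_root s hne
    have hmap : ∀ {K : Type} [Group K] (f : L × M → K),
        (s.map f).prod = ((u.map f).prod) ^ k := by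
      intro K _ f
      rw [hs]
      clear hs hk
      induction k with
      | zero => simp
      | succ k ih => rw [List.replicate_succ, List.flatten_cons, List.map_append,
          List.prod_append, ih, pow_succ']
    refine ⟨u, ⟨hu, ?_, hNP⟩, ?_, ?_, ?_, ?_⟩
    · intro p hp
      apply hall
      rw [hs]
      obtain ⟨k, rfl⟩ : ∃ k', k = k' + 1 := ⟨k - 1, by omega⟩
      rw [List.replicate_succ, List.flatten_cons]
      exact List.mem_append_left _ hp
    · intro hc
      apply ha
      rw [hmap, hc, one_pow]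
    · intro hc
      apply hb
      rw [hmap, hc, one_pow]
    · obtain ⟨k, rfl⟩ : ∃ k', k = k' + 1 := ⟨k - 1, by omega⟩
      rw [hs, List.replicate_succ, List.flatten_cons, List.length_append]
      omega
    · intro H _ φ ψ y h
      rw [ev_sw] at h ⊢
      rw [hmap, h, one_pow]
  · push Not at hall
    obtain ⟨p, hp, hp1⟩ := hall
    obtain ⟨s1, s2, hs⟩ := List.append_of_mem hp
    by_cases hpa : p.1 = 1
    · -- a trivial syllable of the centre
      subst hs
      apply SClassAux.exists_rotate
      rw [List.map_append] at ha hb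
      have ha2 := rot _ _ ha
      have hb2 := rot _ _ hb
      rw [← List.map_append] at ha2 hb2
      rw [List.cons_append] at ha2 hb2 ⊢
      rcases List.eq_nil_or_concat (s2 ++ s1) with h0 | ⟨s3, q, h0⟩
      · exfalso
        rw [h0] at ha2
        simp [hpa] at ha2
      · rw [List.concat_eq_append] at h0
        rw [h0] at ha2 hb2 ⊢
        have e1 : p :: (s3 ++ [q]) = (p :: s3) ++ [q] := rfl
        rw [e1] at ha2 hb2 ⊢
        apply SClassAux.exists_rotate
        rw [List.map_append] at ha2 hb2
        have ha3 := rot _ _ ha2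
        have hb3 := rot _ _ hb2
        rw [← List.map_append] at ha3 hb3
        have hlen : (s1 ++ p :: s2).length = s3.length + 2 := by
          have := congrArg List.length h0
          simp only [List.length_append, List.length_cons, List.length_nil] at this ⊢
          omega
        obtain ⟨t, h1, h2, h3, h4, h5⟩ := ih ((q.1, q.2 * p.2) :: s3).length
          (by rw [hlen, List.length_cons]; omega) ((q.1, q.2 * p.2) :: s3)
          (by
            intro hc
            apply ha3
            simpa [hpa] using hc)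
          (by
            intro hc
            apply hb3
            simpa [mul_assoc] using hc) rfl
        refine ⟨t, h1, h2, h3, ?_, ?_⟩
        · simp only [List.length_cons, List.length_append, List.length_nil] at h4 ⊢
          omega
        · intro H _ φ ψ y ht
          have h6 := h5 H φ ψ y ht
          rw [ev_sw] at h6 ⊢
          rw [← h6]
          simp [hpa, mul_assoc]
    · have hpb : p.2 = 1 := hp1 hpa
      subst hs
      apply SClassAux.exists_rotate
      rw [List.map_append] at ha hb
      have ha2 := rot _ _ ha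
      have hb2 := rot _ _ hb
      rw [← List.map_append] at ha2 hb2
      rw [List.cons_append] at ha2 hb2 ⊢
      rcases h0 : s2 ++ s1 with _ | ⟨q, s3⟩
      · exfalso
        rw [h0] at hb2
        simp [hpb] at hb2
      · rw [h0] at ha2 hb2
        have hlen : (s1 ++ p :: s2).length = s3.length + 2 := by
          have := congrArg List.length h0
          simp only [List.length_append, List.length_cons] at this ⊢
          omega
        obtain ⟨t, h1, h2, h3, h4, h5⟩ := ih ((p.1 * q.1, q.2) :: s3).length
          (by rw [hlen, List.length_cons]; omega) ((p.1 * q.1, q.2) :: s3)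
          (by
            intro hc
            apply ha2
            simpa [mul_assoc] using hc)
          (by
            intro hc
            apply hb2
            simpa [hpb] using hc) rfl
        refine ⟨t, h1, h2, h3, ?_, ?_⟩
        · simp only [List.length_cons] at h4 ⊢
          omega
        · intro H _ φ ψ y ht
          have h6 := h5 H φ ψ y ht
          rw [ev_sw] at h6 ⊢
          rw [← h6]
          simp [hpb, mul_assoc]

end

theorem SClassAux.of_cmap {L L' M : Type} [Group L] [Group L'] (g : L →* L') :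
    ∀ (s : List (L' × M)) (w : List ((L ⊕ M) × Bool)), cmap g w = sw s →
      ∃ s' : List (L × M), w = sw s' ∧ s = s'.map fun p => (g p.1, p.2)
  | [], w, h => by
    refine ⟨[], ?_, rfl⟩
    rw [sw_nil, cmap, List.map_eq_nil_iff] at h
    exact h
  | p :: s, w, h => by
    match w, h with
    | [], h => exact absurd h (by simp [cmap])
    | [q], h => exact absurd h (by simp [cmap])
    | q :: r :: w, h =>
      rw [sw_cons, cmap, List.map_cons, List.map_cons, List.cons.injEq, List.cons.injEq] at h
      obtain ⟨h1, h2, h3⟩ := h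
      obtain ⟨s', hs', rfl⟩ := SClassAux.of_cmap g s w h3
      obtain ⟨q1, q2⟩ := q
      obtain ⟨r1, r2⟩ := r
      rw [Prod.mk.injEq] at h1 h2
      obtain ⟨h4, rfl⟩ := h1
      obtain ⟨h5, rfl⟩ := h2
      rcases q1 with a | b
      · rcases r1 with c | d
        · simp at h5
        · rw [Sum.map_inl, Sum.inl.injEq] at h4
          rw [Sum.map_inr, Sum.inr.injEq] at h5
          refine ⟨(a, d) :: s', ?_, ?_⟩
          · rw [sw_cons, ← hs']
          · rw [List.map_cons]
            congr 1
            exact Prod.ext h4.symm h5.symm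
      · simp at h4

theorem SClassAux.ev_map {L Q M H : Type} [Group L] [Group Q] [Group M] [Group H] (g : L →* Q)
    (φ : Q →* H) (ψ : M →* H) (y : H) (s : List (L × M)) :
    ev (Sum.elim φ ψ) y (sw (s.map fun p => (g p.1, p.2))) =
      ev (Sum.elim (φ.comp g) ψ) y (sw s) := by
  rw [ev_sw, ev_sw, List.map_map]
  rfl

theorem SClassAux.equi_refl {L M : Type} [Group L] [Group M] (w : List ((L ⊕ M) × Bool)) :
    Equi w w 1 := by
  intro H _ φ ψ y
  rw [map_one, mul_one]

theorem SClassAux.typeI {L Q M : Type} [Group L] [Group Q] [Group M] (n : ℕ) (g : L →* Q)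
    (s : List (L × M)) (hs : GoodS s) (hn : 2 * s.length ≤ n) (t : List (Q × M))
    (ht : ∀ (H : Type) [Group H] (φ : Q →* H) (ψ : M →* H) (y : H),
      ev (Sum.elim φ ψ) y (sw t) = 1 →
        ev (Sum.elim φ ψ) y (sw (s.map fun p => (g p.1, p.2))) = 1) :
    TypeI n g (sw s) (sw t) := by
  intro H _ φ ψ y h
  have h1 := ht H φ ψ y h
  rw [SClassAux.ev_map] at h1
  refine ⟨h1, fun _ hψ => sep_sw n _ _ y s hn h1 ?_⟩
  obtain ⟨p, hp⟩ := List.exists_mem_of_ne_nil s hs.1
  exact ⟨p, hp, Or.inr fun hc => (hs.2.1 p hp).2 ((map_eq_one_iff ψ hψ).1 hc)⟩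

theorem SClassAux.exists_typeI {L Q M : Type} [Group L] [Group Q] [Group M] (n : ℕ) (g : L →* Q)
    (s : List (L × M)) (hs : GoodS s) (hn : 2 * s.length ≤ n)
    (ha : g (s.map Prod.fst).prod ≠ 1) (hb : (s.map Prod.snd).prod ≠ 1) :
    ∃ t : List (Q × M), GoodS t ∧ 2 * t.length ≤ n ∧ (t.map Prod.fst).prod ≠ 1 ∧
      (t.map Prod.snd).prod ≠ 1 ∧ TypeI n g (sw s) (sw t) := by
  obtain ⟨t, h1, h2, h3, h4, h5⟩ := exists_goodS_root (s.map fun p => (g p.1, p.2))
    (by
      rw [map_list_prod, List.map_map] at ha
      rw [List.map_map]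
      exact ha)
    (by
      rw [List.map_map]
      exact hb)
  refine ⟨t, h1, ?_, h2, h3, SClassAux.typeI n g s hs hn t h5⟩
  rw [List.length_map] at h4
  omega

/-- The class of the words `∏ a_i y b_i y⁻¹`, good, at most `n` letters, `∏ a_i ≠ 1`,
`∏ b_i ≠ 1`. -/
def SC (n : ℕ) (M : Type) [Group M] : WClass n M where
  adm {L} _ w := ∃ s : List (L × M), w = sw s ∧ GoodS s ∧ 2 * s.length ≤ n ∧
    (s.map Prod.fst).prod ≠ 1 ∧ (s.map Prod.snd).prod ≠ 1
  len := by
    rintro L _ w ⟨s, rfl, -, h, -⟩
    rw [length_sw]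
    exact h
  good := by
    rintro L B _ _ φ ψ hφ hψ w ⟨s, rfl, h, -⟩
    exact h.good φ ψ hφ hψ
  refl := by
    rintro L L' _ _ g w ⟨s, h, h1, h2, h3, h4⟩
    obtain ⟨s', rfl, rfl⟩ := SClassAux.of_cmap g s w h
    refine ⟨s', rfl, h1.of_map g, ?_, ?_, ?_⟩
    · rw [List.length_map] at h2
      exact h2
    · intro hc
      apply h3
      have := congrArg g hc
      rw [map_list_prod, List.map_map, map_one] at this
      rw [List.map_map]
      exact this
    · rw [List.map_map] at h4
      exact h4
  step := by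
    rintro L Q _ _ g w ⟨s, rfl, h1, h2, h3, h4⟩
    refine ⟨sw s, 1, ⟨s, rfl, h1, h2, h3, h4⟩, SClassAux.equi_refl _, ?_⟩
    by_cases hZ : ∀ p ∈ s, g p.1 = 1
    · left
      intro a e ha
      rw [sw, List.mem_flatMap] at ha
      obtain ⟨p, hp, ha⟩ := ha
      simp only [List.mem_cons, Prod.mk.injEq, Sum.inl.injEq, List.not_mem_nil, or_false,
        reduceCtorEq, false_and] at ha
      rw [ha.1]
      exact hZ p hp
    · right
      push Not at hZ
      obtain ⟨p, hp, hgp⟩ := hZ
      by_cases hprod : g (s.map Prod.fst).prod = 1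
      · left
        have h5 : ev (Sum.elim g (1 : M →* Q)) 1 (sw s) = 1 := by
          rw [ev_sw]
          rw [map_list_prod, List.map_map] at hprod
          rw [← hprod]
          congr 1
          apply List.map_congr_left
          intro q _
          simp
        exact ⟨h5, sep_sw n _ _ 1 s h2 h5 ⟨p, hp, Or.inl hgp⟩⟩
      · right
        obtain ⟨t, t1, t2, t3, t4, t5⟩ := SClassAux.exists_typeI n g s h1 h2 hprod h4
        exact ⟨sw t, ⟨t, rfl, t1, t2, t3, t4⟩, t5⟩
  res := by
    rintro L _ w ⟨s, rfl, h1, h2, h3, h4⟩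
    refine ⟨sw s, 1, {(s.map Prod.fst).prod}, ⟨s, rfl, h1, h2, h3, h4⟩,
      SClassAux.equi_refl _, Set.finite_singleton _, fun h => h3 (Set.mem_singleton_iff.1 h).symm,
      ?_⟩
    intro Q _ g hg
    obtain ⟨t, t1, t2, t3, t4, t5⟩ := SClassAux.exists_typeI n g s h1 h2
      (hg _ (Set.mem_singleton _)) h4
    exact ⟨sw t, ⟨t, rfl, t1, t2, t3, t4⟩, t5⟩

theorem SClassAux.goodS_single {L M : Type} [Group L] [Group M] {a : L} {b : M} (ha : a ≠ 1)
    (hb : b ≠ 1) : GoodS [(a, b)] := by
  refine ⟨List.cons_ne_nil _ _, ?_, NP.singleton _⟩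
  intro p hp
  rw [List.mem_singleton] at hp
  subst hp
  exact ⟨ha, hb⟩

/-- The class of the words `a y b y⁻¹`, `a ≠ 1`, for a fixed `b ≠ 1`. -/
def SC2 (M : Type) [Group M] (b : M) (hb : b ≠ 1) : WClass 2 M where
  adm {L} _ w := ∃ a : L, a ≠ 1 ∧ w = sw [(a, b)]
  len := by
    rintro L _ w ⟨a, -, rfl⟩
    rw [length_sw]
    rfl
  good := by
    rintro L B _ _ φ ψ hφ hψ w ⟨a, ha, rfl⟩
    exact (SClassAux.goodS_single ha hb).good φ ψ hφ hψ
  refl := by
    rintro L L' _ _ g w ⟨a, ha, h⟩
    obtain ⟨s', rfl, hs⟩ := SClassAux.of_cmap g _ w h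
    match s', hs with
    | [], hs => simp at hs
    | [p], hs =>
      rw [List.map_cons, List.map_nil, List.cons.injEq, Prod.mk.injEq] at hs
      obtain ⟨⟨h1, h2⟩, -⟩ := hs
      refine ⟨p.1, ?_, ?_⟩
      · intro hc
        apply ha
        rw [h1, hc, map_one]
      · rw [h2]
    | p :: q :: s', hs => simp at hs
  step := by
    rintro L Q _ _ g w ⟨a, ha, rfl⟩
    refine ⟨sw [(a, b)], 1, ⟨a, ha, rfl⟩, SClassAux.equi_refl _, ?_⟩
    by_cases hg : g a = 1
    · left
      intro c e hc
      simp only [sw_cons, sw_nil, List.mem_cons, Prod.mk.injEq, Sum.inl.injEq, List.not_mem_nil,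
        or_false, reduceCtorEq, false_and] at hc
      rw [hc.1]
      exact hg
    · right; right
      exact ⟨sw [(g a, b)], ⟨g a, hg, rfl⟩, SClassAux.typeI 2 g [(a, b)]
        (SClassAux.goodS_single ha hb) le_rfl [(g a, b)] (fun H _ φ ψ y h => h)⟩
  res := by
    rintro L _ w ⟨a, ha, rfl⟩
    refine ⟨sw [(a, b)], 1, {a}, ⟨a, ha, rfl⟩, SClassAux.equi_refl _, Set.finite_singleton _,
      fun h => ha (Set.mem_singleton_iff.1 h).symm, ?_⟩
    intro Q _ g hg
    exact ⟨sw [(g a, b)], ⟨g a, hg a (Set.mem_singleton _), rfl⟩,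
      SClassAux.typeI 2 g [(a, b)] (SClassAux.goodS_single ha hb) le_rfl [(g a, b)]
        (fun H _ φ ψ y h => h)⟩

end Pool.Agent.OR
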