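import Pool.Agent.Lib.MP_98022b_or.Pres
import Pool.Agent.Lib.MP_98022b_or.Basic

/-!
# Structural induction over the centre: infinite families and directed colimits
-/

set_option autoImplicit false

namespace Pool.Agent.OR

open Function

variable {n : ℕ} {M : Type} [Group M]

/-- From finite families to infinite families (directed colimit over the finite sets of
indices). -/
theorem WClass.P_of_Pfin (C : WClass n M) {L : Type} [Group L] (h : C.Pfin L) : C.P L := by
  classical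
  intro Ω G _ w ι μ y hadm hst
  choose A inst ιA μA yA hA using fun S : Finset Ω =>
    exists_star (L := L) (M := M) (Ω := {o // o ∈ S}) (fun o => w o)
  have hC : ∀ S, Concl (ιA S) (μA S) := fun S => h _ _ _ _ _ _ (fun o => hadm o) (hA S)
  have hf : ∀ (S T : Finset Ω) (hST : S ≤ T), ∃ f : A S →* A T, f.comp (ιA S) = ιA T ∧
      (∀ o, f.comp (μA S o) = μA T ⟨o.1, hST o.2⟩) ∧
      ∀ o, f (yA S o) = yA T ⟨o.1, hST o.2⟩ := by
    intro S T hST
    exact (hA S).lift (A T) (ιA T) (fun o => μA T ⟨o.1, hST o.2⟩)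
      (fun o => yA T ⟨o.1, hST o.2⟩) (fun o => (hA T).rel ⟨o.1, hST o.2⟩)
  choose f hf1 hf2 hf3 using hf
  have hg : ∀ S : Finset Ω, ∃ g : A S →* G, g.comp (ιA S) = ι ∧
      (∀ o, g.comp (μA S o) = μ o.1) ∧ ∀ o, g (yA S o) = y o.1 := by
    intro S
    exact (hA S).lift G ι (fun o => μ o.1) (fun o => y o.1) (fun o => hst.rel o.1)
  choose g hg1 hg2 hg3 using hg
  have h1 : ∀ S x, f S S le_rfl x = x := by
    intro S x
    have : f S S le_rfl = MonoidHom.id _ := (hA S).ext _ _ _ (by rw [hf1]; rfl)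
      (fun o => by rw [hf2]; rfl) (fun o => by rw [hf3]; rfl)
    rw [this]; rfl
  have h2 : ∀ S T U (hST : S ≤ T) (hTU : T ≤ U) x,
      f T U hTU (f S T hST x) = f S U (hST.trans hTU) x := by
    intro S T U hST hTU x
    have : (f T U hTU).comp (f S T hST) = f S U (hST.trans hTU) := by
      refine (hA S).ext _ _ _ ?_ (fun o => ?_) (fun o => ?_)
      · rw [MonoidHom.comp_assoc, hf1, hf1, hf1]
      · rw [MonoidHom.comp_assoc, hf2, hf2, hf2]
      · rw [MonoidHom.comp_apply, hf3, hf3, hf3]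
    rw [← this]; rfl
  have h3 : ∀ S T (hST : S ≤ T) x, g T (f S T hST x) = g S x := by
    intro S T hST x
    have : (g T).comp (f S T hST) = g S := by
      refine (hA S).ext _ _ _ ?_ (fun o => ?_) (fun o => ?_)
      · rw [MonoidHom.comp_assoc, hf1, hg1, hg1]
      · rw [MonoidHom.comp_assoc, hf2, hg2, hg2]
      · rw [MonoidHom.comp_apply, hf3, hg3, hg3]
    rw [← this]; rfl
  have hext : ∀ (H : Type) [Group H] (a b : G →* H), (∀ S, a.comp (g S) = b.comp (g S)) →
      a = b := by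
    intro H _ a b hab
    refine hst.ext _ _ _ ?_ (fun o => ?_) (fun o => ?_)
    · rw [← hg1 ∅, ← MonoidHom.comp_assoc, ← MonoidHom.comp_assoc, hab]
    · have := hg2 {o} ⟨o, Finset.mem_singleton_self o⟩
      simp only at this
      rw [← this, ← MonoidHom.comp_assoc, ← MonoidHom.comp_assoc, hab]
    · have := hg3 {o} ⟨o, Finset.mem_singleton_self o⟩
      simp only at this
      rw [← this, ← MonoidHom.comp_apply, ← MonoidHom.comp_apply, hab]
  have hlift : ∀ (H : Type) [Group H] (k : ∀ S, A S →* H),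
      (∀ S T (hST : S ≤ T) x, k T (f S T hST x) = k S x) →
        ∃ a : G →* H, ∀ S, a.comp (g S) = k S := by
    intro H _ k hk
    have hk' : ∀ S T (hST : S ≤ T), (k T).comp (f S T hST) = k S := fun S T hST =>
      MonoidHom.ext fun x => hk S T hST x
    have hι : ∀ S, (k S).comp (ιA S) = (k ∅).comp (ιA ∅) := by
      intro S
      rw [← hk' ∅ S (Finset.empty_subset S), MonoidHom.comp_assoc, hf1]
    have hμ : ∀ S (o : {o // o ∈ S}), (k S).comp (μA S o) =
        (k {o.1}).comp (μA {o.1} ⟨o.1, Finset.mem_singleton_self _⟩) := by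
      intro S o
      rw [← hk' {o.1} S (Finset.singleton_subset_iff.2 o.2), MonoidHom.comp_assoc, hf2]
    have hy : ∀ S (o : {o // o ∈ S}), k S (yA S o) =
        k {o.1} (yA {o.1} ⟨o.1, Finset.mem_singleton_self _⟩) := by
      intro S o
      rw [← hk' {o.1} S (Finset.singleton_subset_iff.2 o.2), MonoidHom.comp_apply, hf3]
    obtain ⟨a, ha1, ha2, ha3⟩ := hst.lift H ((k ∅).comp (ιA ∅))
      (fun o => (k {o}).comp (μA {o} ⟨o, Finset.mem_singleton_self _⟩))
      (fun o => k {o} (yA {o} ⟨o, Finset.mem_singleton_self _⟩)) (by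
        intro o
        have h6 := congrArg (k {o}) ((hA {o}).rel ⟨o, Finset.mem_singleton_self _⟩)
        rw [map_ev, map_one] at h6
        rw [← hι {o}]
        convert h6 using 2
        funext s
        rcases s with s | s <;> rfl)
    refine ⟨a, fun S => (hA S).ext _ _ _ ?_ (fun o => ?_) (fun o => ?_)⟩
    · rw [MonoidHom.comp_assoc, hg1, ha1]
      exact (hι S).symm
    · rw [MonoidHom.comp_assoc, hg2, ha2]
      exact (hμ S o).symm
    · rw [MonoidHom.comp_apply, hg3, ha3]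
      exact (hy S o).symm
  obtain ⟨-, h5⟩ := colim_elements A f g h1 h2 h3 hext hlift
  refine ⟨?_, fun o => ?_, FEC.of_colim A f g h1 h2 h3 hext hlift fun S => (hC S).2.2⟩
  · refine (injective_iff_map_eq_one ι).2 fun a ha => ?_
    have h6 : g ∅ (ιA ∅ a) = 1 := by rw [← MonoidHom.comp_apply, hg1]; exact ha
    obtain ⟨T, hT, h7⟩ := h5 ∅ _ h6
    rw [← MonoidHom.comp_apply, hf1] at h7
    exact (injective_iff_map_eq_one _).1 (hC T).1 _ h7
  · refine (injective_iff_map_eq_one _).2 fun m hm => ?_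
    have h6 : g {o} (μA {o} ⟨o, Finset.mem_singleton_self o⟩ m) = 1 := by
      rw [← MonoidHom.comp_apply, hg2]; exact hm
    obtain ⟨T, hT, h7⟩ := h5 {o} _ h6
    rw [← MonoidHom.comp_apply, hf2] at h7
    exact (injective_iff_map_eq_one _).1 ((hC T).2.1 _) _ h7

omit [Group M] in
/-- The composition of changes of the centre. -/
theorem cmap_cmap {L L' L'' : Type} [Group L] [Group L'] [Group L''] (g : L →* L')
    (g' : L' →* L'') (w : List ((L ⊕ M) × Bool)) :
    cmap g' (cmap g w) = cmap (g'.comp g) w := by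
  simp only [cmap, List.map_map]
  refine List.map_congr_left fun p _ => ?_
  rcases p with ⟨s | s, e⟩ <;> rfl

omit [Group M] in
theorem cmap_id {L : Type} [Group L] (w : List ((L ⊕ M) × Bool)) :
    cmap (MonoidHom.id L) w = w := by
  simp only [cmap]
  conv_rhs => rw [← List.map_id w]
  refine List.map_congr_left fun p _ => ?_
  rcases p with ⟨s | s, e⟩ <;> rfl

/-- Directed colimits of centres, words defined at all stages. -/
theorem WClass.colim_aux (C : WClass n M) {ι : Type} [Preorder ι] [IsDirectedOrder ι]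
    [Nonempty ι] (A : ι → Type) [∀ i, Group (A i)] (f : ∀ i j, i ≤ j → A i →* A j)
    {L : Type} [Group L] (g : ∀ i, A i →* L)
    (h1 : ∀ i x, f i i le_rfl x = x)
    (h2 : ∀ i j k (hij : i ≤ j) (hjk : j ≤ k) x,
      f j k hjk (f i j hij x) = f i k (hij.trans hjk) x)
    (h3 : ∀ i j (hij : i ≤ j) x, g j (f i j hij x) = g i x)
    (h4 : ∀ y, ∃ i x, g i x = y)
    (h5 : ∀ i x, g i x = 1 → ∃ j, ∃ hij : i ≤ j, f i j hij x = 1)
    (h : ∀ i, C.P (A i)) {Ω G : Type} [Group G] (w : Ω → List ((L ⊕ M) × Bool))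
    (v : ∀ i, Ω → List ((A i ⊕ M) × Bool)) (hv : ∀ i o, cmap (g i) (v i o) = w o)
    (hvv : ∀ i j (hij : i ≤ j) o, cmap (f i j hij) (v i o) = v j o)
    (hadm : ∀ o, C.adm (w o)) {κ : L →* G} {μ : Ω → M →* G} {y : Ω → G}
    (hst : IsStar w κ μ y) : Concl κ μ := by
  classical
  choose S inst κS μS yS hS using fun i => exists_star (v i)
  have hC : ∀ i, Concl (κS i) (μS i) := fun i =>
    h i _ _ _ _ _ _ (fun o => C.refl (g i) _ (by rw [hv]; exact hadm o)) (hS i)
  have hf : ∀ i j (hij : i ≤ j), ∃ F : S i →* S j, F.comp (κS i) = (κS j).comp (f i j hij) ∧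
      (∀ o, F.comp (μS i o) = μS j o) ∧ ∀ o, F (yS i o) = yS j o := by
    intro i j hij
    refine (hS i).center_hom (f i j hij) (ι' := κS j) (μ' := μS j) (y' := yS j) ?_
    have : (fun o => cmap (f i j hij) (v i o)) = v j := funext fun o => hvv i j hij o
    rw [this]
    exact hS j
  choose F hF1 hF2 hF3 using hf
  have hg : ∀ i, ∃ Gi : S i →* G, Gi.comp (κS i) = κ.comp (g i) ∧
      (∀ o, Gi.comp (μS i o) = μ o) ∧ ∀ o, Gi (yS i o) = y o := by
    intro i
    refine (hS i).center_hom (g i) (ι' := κ) (μ' := μ) (y' := y) ?_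
    have : (fun o => cmap (g i) (v i o)) = w := funext fun o => hv i o
    rw [this]
    exact hst
  choose Gm hG1 hG2 hG3 using hg
  have k1 : ∀ i x, F i i le_rfl x = x := by
    intro i x
    have : F i i le_rfl = MonoidHom.id _ := by
      refine (hS i).ext _ _ _ ?_ (fun o => ?_) (fun o => ?_)
      · rw [hF1]
        refine MonoidHom.ext fun x => ?_
        rw [MonoidHom.comp_apply, h1]; rfl
      · rw [hF2]; rfl
      · rw [hF3]; rfl
    rw [this]; rfl
  have k2 : ∀ i j k (hij : i ≤ j) (hjk : j ≤ k) x,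
      F j k hjk (F i j hij x) = F i k (hij.trans hjk) x := by
    intro i j k hij hjk x
    have : (F j k hjk).comp (F i j hij) = F i k (hij.trans hjk) := by
      refine (hS i).ext _ _ _ ?_ (fun o => ?_) (fun o => ?_)
      · rw [MonoidHom.comp_assoc, hF1, ← MonoidHom.comp_assoc, hF1, hF1, MonoidHom.comp_assoc]
        congr 1
        exact MonoidHom.ext fun x => h2 i j k hij hjk x
      · rw [MonoidHom.comp_assoc, hF2, hF2, hF2]
      · rw [MonoidHom.comp_apply, hF3, hF3, hF3]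
    rw [← this]; rfl
  have k3 : ∀ i j (hij : i ≤ j) x, Gm j (F i j hij x) = Gm i x := by
    intro i j hij x
    have : (Gm j).comp (F i j hij) = Gm i := by
      refine (hS i).ext _ _ _ ?_ (fun o => ?_) (fun o => ?_)
      · rw [MonoidHom.comp_assoc, hF1, ← MonoidHom.comp_assoc, hG1, hG1, MonoidHom.comp_assoc]
        congr 1
        exact MonoidHom.ext fun x => h3 i j hij x
      · rw [MonoidHom.comp_assoc, hF2, hG2, hG2]
      · rw [MonoidHom.comp_apply, hF3, hG3, hG3]
    rw [← this]; rfl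
  have hext : ∀ (H : Type) [Group H] (a b : G →* H), (∀ i, a.comp (Gm i) = b.comp (Gm i)) →
      a = b := by
    intro H _ a b hab
    obtain ⟨i₀⟩ := (inferInstance : Nonempty ι)
    refine hst.ext _ _ _ (MonoidHom.ext fun l => ?_) (fun o => ?_) (fun o => ?_)
    · obtain ⟨i, x, rfl⟩ := h4 l
      have h6 : κ (g i x) = Gm i (κS i x) := by
        rw [← MonoidHom.comp_apply, ← hG1]; rfl
      rw [MonoidHom.comp_apply, MonoidHom.comp_apply, h6, ← MonoidHom.comp_apply, hab]; rfl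
    · rw [← hG2 i₀, ← MonoidHom.comp_assoc, ← MonoidHom.comp_assoc, hab]
    · rw [← hG3 i₀, ← MonoidHom.comp_apply, ← MonoidHom.comp_apply, hab]
  have hlift : ∀ (H : Type) [Group H] (k : ∀ i, S i →* H),
      (∀ i j (hij : i ≤ j) x, k j (F i j hij x) = k i x) →
        ∃ a : G →* H, ∀ i, a.comp (Gm i) = k i := by
    intro H _ k hk
    obtain ⟨i₀⟩ := (inferInstance : Nonempty ι)
    have hk' : ∀ i j (hij : i ≤ j), (k j).comp (F i j hij) = k i := fun i j hij =>
      MonoidHom.ext fun x => hk i j hij x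
    obtain ⟨φ, hφ⟩ := colim_desc A f g h3 h4 h5 (fun i => (k i).comp (κS i)) (by
      intro i j hij x
      rw [← hk' i j hij]
      simp only [MonoidHom.comp_apply]
      rw [← MonoidHom.comp_apply (F i j hij), hF1]; rfl)
    have hμ : ∀ i o, (k i).comp (μS i o) = (k i₀).comp (μS i₀ o) := by
      intro i o
      obtain ⟨j, hj1, hj2⟩ := exists_ge_ge i i₀
      rw [← hk' i j hj1, ← hk' i₀ j hj2, MonoidHom.comp_assoc, MonoidHom.comp_assoc, hF2, hF2]
    have hy : ∀ i o, k i (yS i o) = k i₀ (yS i₀ o) := by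
      intro i o
      obtain ⟨j, hj1, hj2⟩ := exists_ge_ge i i₀
      rw [← hk' i j hj1, ← hk' i₀ j hj2, MonoidHom.comp_apply, MonoidHom.comp_apply, hF3, hF3]
    obtain ⟨a, ha1, ha2, ha3⟩ := hst.lift H φ (fun o => (k i₀).comp (μS i₀ o))
      (fun o => k i₀ (yS i₀ o)) (by
        intro o
        have h6 := congrArg (k i₀) ((hS i₀).rel o)
        rw [map_ev, map_one] at h6
        rw [← hv i₀ o, ev_cmap]
        convert h6 using 2
        funext s
        rcases s with s | s
        · exact hφ i₀ s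
        · rfl)
    refine ⟨a, fun i => (hS i).ext _ _ _ ?_ (fun o => ?_) (fun o => ?_)⟩
    · rw [MonoidHom.comp_assoc, hG1, ← MonoidHom.comp_assoc, ha1]
      exact MonoidHom.ext fun x => hφ i x
    · rw [MonoidHom.comp_assoc, hG2, ha2]
      exact (hμ i o).symm
    · rw [MonoidHom.comp_apply, hG3, ha3]
      exact (hy i o).symm
  obtain ⟨-, k5⟩ := colim_elements S F Gm k1 k2 k3 hext hlift
  refine ⟨?_, fun o => ?_, FEC.of_colim S F Gm k1 k2 k3 hext hlift fun i => (hC i).2.2⟩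
  · refine (injective_iff_map_eq_one κ).2 fun l hl => ?_
    obtain ⟨i, x, rfl⟩ := h4 l
    have h6 : Gm i (κS i x) = 1 := by
      rw [← MonoidHom.comp_apply, hG1]; exact hl
    obtain ⟨j, hij, h7⟩ := k5 i _ h6
    rw [← MonoidHom.comp_apply, hF1, MonoidHom.comp_apply] at h7
    have h8 := (injective_iff_map_eq_one _).1 (hC j).1 _ h7
    rw [← h3 i j hij, h8, map_one]
  · refine (injective_iff_map_eq_one _).2 fun m hm => ?_
    obtain ⟨i₀⟩ := (inferInstance : Nonempty ι)
    have h6 : Gm i₀ (μS i₀ o m) = 1 := by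
      rw [← MonoidHom.comp_apply, hG2]; exact hm
    obtain ⟨j, hij, h7⟩ := k5 i₀ _ h6
    rw [← MonoidHom.comp_apply, hF2] at h7
    exact (injective_iff_map_eq_one _).1 ((hC j).2.1 _) _ h7

omit [Group M] in
/-- Lifting a word to a stage of a directed colimit. -/
theorem exists_lift_word {ι : Type} [Preorder ι] [IsDirectedOrder ι]
    [Nonempty ι] (A : ι → Type) [∀ i, Group (A i)] (f : ∀ i j, i ≤ j → A i →* A j)
    {L : Type} [Group L] (g : ∀ i, A i →* L)
    (h3 : ∀ i j (hij : i ≤ j) x, g j (f i j hij x) = g i x)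
    (h4 : ∀ y, ∃ i x, g i x = y) (w : List ((L ⊕ M) × Bool)) :
    ∃ i, ∀ j, i ≤ j → ∃ v : List ((A j ⊕ M) × Bool), cmap (g j) v = w := by
  induction w with
  | nil =>
    obtain ⟨i₀⟩ := (inferInstance : Nonempty ι)
    exact ⟨i₀, fun j _ => ⟨[], rfl⟩⟩
  | cons p w ih =>
    obtain ⟨i, hi⟩ := ih
    rcases p with ⟨s | s, e⟩
    · obtain ⟨k, x, hx⟩ := h4 s
      obtain ⟨m, hm1, hm2⟩ := exists_ge_ge i k
      refine ⟨m, fun j hj => ?_⟩
      obtain ⟨v, hv⟩ := hi j (hm1.trans hj)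
      refine ⟨(Sum.inl (f k j (hm2.trans hj) x), e) :: v, ?_⟩
      have h6 : cmap (g j) ((Sum.inl (f k j (hm2.trans hj) x), e) :: v) =
          (Sum.inl (g j (f k j (hm2.trans hj) x)), e) :: cmap (g j) v := rfl
      rw [h6, hv, h3, hx]
    · refine ⟨i, fun j hj => ?_⟩
      obtain ⟨v, hv⟩ := hi j hj
      refine ⟨(Sum.inr s, e) :: v, ?_⟩
      have h6 : cmap (g j) ((Sum.inr s, e) :: v) = (Sum.inr s, e) :: cmap (g j) v := rfl
      rw [h6, hv]

/-- Directed colimits: lift the finitely many words to some stage `i₀`; `G` is the colimit of the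
star groups over the stages `j ≥ i₀`. -/
theorem WClass.Pfin_colimit (C : WClass n M) {ι : Type} [Preorder ι] [IsDirectedOrder ι]
    [Nonempty ι] (G : ι → Type) [∀ i, Group (G i)] (f : ∀ i j, i ≤ j → G i →* G j)
    {L : Type} [Group L] (g : ∀ i, G i →* L)
    (h1 : ∀ i x, f i i le_rfl x = x)
    (h2 : ∀ i j k (hij : i ≤ j) (hjk : j ≤ k) x,
      f j k hjk (f i j hij x) = f i k (hij.trans hjk) x)
    (h3 : ∀ i j (hij : i ≤ j) x, g j (f i j hij x) = g i x)
    (h4 : ∀ y, ∃ i x, g i x = y)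
    (h5 : ∀ i x, g i x = 1 → ∃ j, ∃ hij : i ≤ j, f i j hij x = 1)
    (h : ∀ i, C.P (G i)) : C.Pfin L := by
  classical
  intro Ω H _ _ w κ μ y hadm hst
  have hl : ∀ o, ∃ i, ∀ j, i ≤ j → ∃ v : List ((G j ⊕ M) × Bool), cmap (g j) v = w o :=
    fun o => exists_lift_word G f g h3 h4 (w o)
  choose io hio using hl
  obtain ⟨i₀, hi₀⟩ : ∃ i₀, ∀ o, io o ≤ i₀ := by
    obtain ⟨i₀, hi₀⟩ := Directed.finite_le (r := (· ≤ ·)) (f := fun i : ι => i)
      (directed_id) io
    exact ⟨i₀, hi₀⟩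
  choose v hv using fun o => hio o i₀ (hi₀ o)
  have : Nonempty {j // i₀ ≤ j} := ⟨⟨i₀, le_rfl⟩⟩
  have : IsDirectedOrder {j // i₀ ≤ j} := ⟨fun a b => by
    obtain ⟨c, hc1, hc2⟩ := exists_ge_ge a.1 b.1
    exact ⟨⟨c, a.2.trans hc1⟩, hc1, hc2⟩⟩
  refine C.colim_aux (ι := {j // i₀ ≤ j}) (fun j => G j.1) (fun i j hij => f i.1 j.1 hij)
    (fun j => g j.1) (fun i x => h1 i.1 x) (fun i j k hij hjk x => h2 _ _ _ _ _ x)
    (fun i j hij x => h3 _ _ _ x) ?_ ?_ (fun i => h i.1) w
    (fun j o => cmap (f i₀ j.1 j.2) (v o)) ?_ ?_ hadm hst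
  · intro l
    obtain ⟨i, x, rfl⟩ := h4 l
    obtain ⟨j, hj1, hj2⟩ := exists_ge_ge i i₀
    exact ⟨⟨j, hj2⟩, f i j hj1 x, h3 _ _ _ _⟩
  · intro i x hx
    obtain ⟨j, hij, hj⟩ := h5 i.1 x hx
    exact ⟨⟨j, i.2.trans hij⟩, hij, hj⟩
  · intro j o
    have h6 : (g j.1).comp (f i₀ j.1 j.2) = g i₀ := MonoidHom.ext fun x => h3 _ _ _ x
    rw [cmap_cmap, h6, hv o]
  · intro i j hij o
    have h6 : (f i.1 j.1 hij).comp (f i₀ i.1 i.2) = f i₀ j.1 j.2 :=
      MonoidHom.ext fun x => h2 _ _ _ _ _ x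
    rw [cmap_cmap, h6]

end Pool.Agent.OR
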