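import Pool.Agent.Lib.MP_98022b_or.Ext
import Pool.Agent.Lib.MP_98022b_or.StarColim
import Pool.Agent.Lib.MP_98022b_h40.Embed

/-!
# The structure theorem: from the centre `ℤ` to all centres of the class `FEC`
-/

set_option autoImplicit false

namespace Pool.Agent.OR

open Function

variable {n : ℕ} {M : Type} [Group M]

/-- The trivial stage for the alphabet `Option X` and the relator `none`. -/
noncomputable def structStage (X : Type) :
    H40C.Stage (Option X) (FreeGroup.of (none : Option X)) where
  Q := Unit
  ρ := 1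
  hr := rfl
  ptfa := H40C.PTFA.triv fun _ => rfl

/-- Free groups are residually poly-(torsion-free abelian) (use
`Pool.Agent.H40C.eq_one_of_forall` for the alphabet `Option X` and the relator `none`). -/
theorem free_residually_ptfa (X : Type) (u : FreeGroup X) (hu : u ≠ 1) :
    ∃ (N : Type) (_ : Group N) (g : FreeGroup X →* N), H40C.PTFA N ∧ g u ≠ 1 := by
  set s := structStage X with hs
  by_contra hcon
  push Not at hcon
  have hmap : ∀ k, H40C.tr s k (FreeGroup.map some u) = 1 := by
    intro k
    exact hcon (H40C.tower s k).Q _ ((H40C.tr s k).comp (FreeGroup.map some))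
      (H40C.tower s k).ptfa
  have hne : ∀ k, (H40C.D (H40C.tr s k) (FreeGroup.of (none : Option X))) none ≠ 0 := by
    intro k
    rw [H40C.D_of, Finsupp.single_eq_same]
    exact one_ne_zero
  have hwo : ∀ v : FreeGroup X, FreeGroup.map some v ∈ H40C.without (none : Option X) := by
    intro v
    induction v using FreeGroup.induction_on with
    | C1 => rw [map_one]; exact Subgroup.one_mem _
    | of x =>
      rw [FreeGroup.map.of]
      exact Subgroup.subset_closure ⟨some x, by simp, rfl⟩
    | inv_of x ih => rw [map_inv]; exact Subgroup.inv_mem _ ih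
    | mul x y hx hy => rw [map_mul]; exact Subgroup.mul_mem _ hx hy
  have h1 := H40C.eq_one_of_forall s none hne _ (hwo u) hmap
  apply hu
  have hinj : Injective (FreeGroup.map (some : X → Option X)) :=
    FreeGroup.map_injective (Option.some_injective X)
  exact hinj (by rw [h1, map_one])

/-- Finite products of poly-(torsion-free abelian) groups. -/
theorem ptfa_prod {G H : Type} [Group G] [Group H] (hG : H40C.PTFA G) (hH : H40C.PTFA H) :
    H40C.PTFA (G × H) := by
  induction hG with
  | triv h =>
    refine H40C.PTFA.ext (MonoidHom.snd _ H) ?_ ?_ hH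
    · intro a b ha hb
      exact Prod.ext (by rw [h (a * b).1, h (b * a).1]) (by
        have ha' : a.2 = 1 := ha
        have hb' : b.2 = 1 := hb
        rw [Prod.snd_mul, Prod.snd_mul, ha', hb'])
    · intro a k ha _ _
      exact Prod.ext (h _) ha
  | ext f hc ht _ ih =>
    refine H40C.PTFA.ext (f.prodMap (MonoidHom.id H)) ?_ ?_ ih
    · intro a b ha hb
      have ha1 : f a.1 = 1 := congrArg Prod.fst ha
      have hb1 : f b.1 = 1 := congrArg Prod.fst hb
      have ha2 : a.2 = 1 := congrArg Prod.snd ha
      have hb2 : b.2 = 1 := congrArg Prod.snd hb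
      exact Prod.ext (hc _ _ ha1 hb1) (by rw [Prod.snd_mul, Prod.snd_mul, ha2, hb2])
    · intro a k ha hk h
      have ha1 : f a.1 = 1 := congrArg Prod.fst ha
      have ha2 : a.2 = 1 := congrArg Prod.snd ha
      have h1 : a.1 ^ k = 1 := by
        have := congrArg Prod.fst h
        rwa [Prod.pow_fst] at this
      exact Prod.ext (ht _ _ ha1 hk h1) ha2

/-- Groups with trivial underlying set as centres. -/
theorem WClass.P_triv (C : WClass n M) (hM : ∀ m < n, MM m)
    (hMM : FEC M) (hZ : C.P (Multiplicative ℤ)) (A : Type) [Group A] (hA : ∀ a : A, a = 1) :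
    C.P A := by
  have : Subsingleton A := ⟨fun a b => by rw [hA a, hA b]⟩
  exact C.P_of_injective hM hMM (1 : A →* Multiplicative ℤ)
    (fun a b _ => Subsingleton.elim a b) (FEC.of_subsingleton A) hZ

theorem fin_int_torsionFree (d : ℕ) (a : Multiplicative (Fin d → ℤ)) (k : ℕ) (hk : 0 < k)
    (h : a ^ k = 1) : a = 1 := by
  have h1 : k • a.toAdd = 0 := congrArg Multiplicative.toAdd h
  have h2 : a.toAdd = 0 := by
    funext i
    have h3 := congrFun h1 i
    rw [Pi.smul_apply, nsmul_eq_mul, Pi.zero_apply] at h3
    rcases mul_eq_zero.mp h3 with h4 | h4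
    · exact absurd h4 (by exact_mod_cast hk.ne')
    · exact h4
  exact congrArg Multiplicative.ofAdd h2

/-- Free abelian centres. -/
theorem WClass.P_fin_int (C : WClass n M) (hM : ∀ m < n, MM m)
    (hMM : FEC M) (hZ : C.P (Multiplicative ℤ)) (d : ℕ) : C.P (Multiplicative (Fin d → ℤ)) := by
  induction d with
  | zero =>
    refine C.P_triv hM hMM hZ _ fun a => ?_
    apply Multiplicative.toAdd.injective
    funext i
    exact i.elim0
  | succ d ih =>
    let g0 : (Fin (d + 1) → ℤ) →+ (Fin d → ℤ) :=
      { toFun := fun v i => v i.succ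
        map_zero' := rfl
        map_add' := fun _ _ => rfl }
    let g : Multiplicative (Fin (d + 1) → ℤ) →* Multiplicative (Fin d → ℤ) :=
      AddMonoidHom.toMultiplicative g0
    have hg : Surjective g := by
      intro v
      refine ⟨Multiplicative.ofAdd (Fin.cons 0 v.toAdd), ?_⟩
      apply Multiplicative.toAdd.injective
      funext i
      show (Fin.cons 0 v.toAdd : Fin (d + 1) → ℤ) i.succ = v.toAdd i
      exact Fin.cons_succ _ _ _
    let k0 : (Fin (d + 1) → ℤ) →+ ℤ :=
      { toFun := fun v => v 0
        map_zero' := rfl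
        map_add' := fun _ _ => rfl }
    let k : g.ker →* Multiplicative ℤ := (AddMonoidHom.toMultiplicative k0).comp g.ker.subtype
    have hk : Injective k := by
      rw [injective_iff_map_eq_one]
      rintro ⟨v, hv⟩ hkv
      apply Subtype.ext
      apply Multiplicative.toAdd.injective
      funext i
      have h0 : v.toAdd 0 = 0 := congrArg Multiplicative.toAdd hkv
      have h1 : g v = 1 := hv
      refine Fin.cases h0 (fun j => ?_) i
      exact congrFun (congrArg Multiplicative.toAdd h1) j
    have hFker : FEC g.ker := FEC.of_injective k hk FEC.int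
    exact C.P_extension hM hMM g hg
      (FEC.of_torsionFree_comm _ (fun a b => mul_comm a b) (fin_int_torsionFree d)) ih
      (C.P_of_injective hM hMM k hk hFker hZ)

/-- Finitely generated torsion-free abelian groups embed into free abelian groups. -/
theorem exists_embed_fin_int (A : Type) [Group A] (hc : ∀ a b : A, a * b = b * a)
    (ht : ∀ (a : A) (n : ℕ), 0 < n → a ^ n = 1 → a = 1) (T : Finset A) :
    ∃ (d : ℕ) (g : Subgroup.closure (T : Set A) →* Multiplicative (Fin d → ℤ)), Injective g := by
  classical
  let H := Subgroup.closure (T : Set A)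
  let _ : CommGroup H := { (inferInstance : Group H) with
    mul_comm := fun a b => Subtype.ext (hc a b) }
  have hfin : Module.Finite ℤ (Additive H) := by
    rw [Module.Finite.iff_addGroup_fg]
    have : Group.FG H := by
      rw [Group.fg_iff_subgroup_fg]
      exact ⟨T, rfl⟩
    exact AddGroup.fg_iff_mul_fg.2 this
  have htf : Module.IsTorsionFree ℤ (Additive H) := by
    refine ⟨fun r hr a b hab => ?_⟩
    have hr0 : r ≠ 0 := hr.ne_zero
    have h1 : r • (a - b) = 0 := by
      rw [smul_sub]
      exact sub_eq_zero.2 hab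
    have h2 : ((a - b).toMul : H) ^ r.natAbs = 1 := by
      rcases Int.natAbs_eq r with h | h
      · have : ((a - b).toMul : H) ^ r = 1 := congrArg Additive.toMul h1
        rw [h] at this
        exact_mod_cast this
      · have : ((a - b).toMul : H) ^ r = 1 := congrArg Additive.toMul h1
        rw [h, zpow_neg, inv_eq_one] at this
        exact_mod_cast this
    have h3 : ((a - b).toMul : H) = 1 := by
      apply Subtype.ext
      exact ht _ r.natAbs (Int.natAbs_pos.2 hr0) (by
        have := congrArg Subtype.val h2
        simpa using this)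
    have h4 : a - b = 0 := congrArg Additive.ofMul h3
    exact sub_eq_zero.1 h4
  obtain ⟨d, b⟩ := Module.basisOfFiniteTypeTorsionFree' (R := ℤ) (M := Additive H)
  let e : Additive H ≃+ (Fin d → ℤ) := b.equivFun.toAddEquiv
  let g : H →* Multiplicative (Fin d → ℤ) := AddMonoidHom.toMultiplicativeRight e.toAddMonoidHom
  exact ⟨d, g, fun x y hxy => e.injective hxy⟩

/-- Torsion-free abelian centres. -/
theorem WClass.P_torsionFree_comm (C : WClass n M) (hM : ∀ m < n, MM m)
    (hMM : FEC M) (hZ : C.P (Multiplicative ℤ)) (A : Type) [Group A]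
    (hc : ∀ a b : A, a * b = b * a)
    (ht : ∀ (a : A) (n : ℕ), 0 < n → a ^ n = 1 → a = 1) : C.P A := by
  classical
  have hle : ∀ i j : Finset A, i ≤ j →
      Subgroup.closure (i : Set A) ≤ Subgroup.closure (j : Set A) := fun i j hij =>
    Subgroup.closure_mono (by exact_mod_cast hij)
  refine C.P_of_Pfin (C.Pfin_colimit (ι := Finset A) (fun S => Subgroup.closure (S : Set A))
    (fun i j hij => Subgroup.inclusion (hle i j hij)) (fun S => (Subgroup.closure _).subtype)
    ?_ ?_ ?_ ?_ ?_ ?_)
  · intro i x
    rfl
  · intro i j k hij hjk x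
    rfl
  · intro i j hij x
    rfl
  · intro y
    exact ⟨{y}, ⟨y, Subgroup.subset_closure (by simp)⟩, rfl⟩
  · intro i x hx
    refine ⟨i, le_rfl, ?_⟩
    apply Subtype.ext
    exact hx
  · intro S
    obtain ⟨d, g, hg⟩ := exists_embed_fin_int A hc ht S
    have hF : FEC (Subgroup.closure (S : Set A)) :=
      FEC.of_torsionFree_comm _ (fun a b => Subtype.ext (hc a b)) (fun a k hk h =>
        Subtype.ext (ht a k hk (congrArg Subtype.val h)))
    exact C.P_of_injective hM hMM g hg hF (C.P_fin_int hM hMM hZ d)

theorem FEC.of_ptfa {N : Type} [Group N] (hN : H40C.PTFA N) : FEC N := by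
  induction hN with
  | triv h =>
    rename_i G _
    have : Subsingleton G := ⟨fun a b => by rw [h a, h b]⟩
    exact FEC.of_subsingleton G
  | ext f hc ht _ ih =>
    refine FEC.of_hom f ih (FEC.of_torsionFree_comm _ ?_ ?_)
    · rintro ⟨a, ha⟩ ⟨b, hb⟩
      exact Subtype.ext (hc a b ha hb)
    · rintro ⟨a, ha⟩ k hk h
      exact Subtype.ext (ht a k ha hk (congrArg Subtype.val h))

/-- Poly-(torsion-free abelian) centres. -/
theorem WClass.P_ptfa (C : WClass n M) (hM : ∀ m < n, MM m)
    (hMM : FEC M) (hZ : C.P (Multiplicative ℤ)) {N : Type} [Group N] (hN : H40C.PTFA N) :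
    C.P N := by
  induction hN with
  | triv h => exact C.P_triv hM hMM hZ _ h
  | ext f hc ht hQ ih =>
    have hFr : FEC f.range := FEC.of_injective f.range.subtype f.range.subtype_injective
      (FEC.of_ptfa hQ)
    refine C.P_extension hM hMM f.rangeRestrict f.rangeRestrict_surjective hFr
      (C.P_of_injective hM hMM f.range.subtype f.range.subtype_injective hFr ih)
      (C.P_torsionFree_comm hM hMM hZ _ ?_ ?_)
    · rintro ⟨a, ha⟩ ⟨b, hb⟩
      rw [MonoidHom.ker_rangeRestrict] at ha hb
      exact Subtype.ext (hc a b ha hb)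
    · rintro ⟨a, ha⟩ k hk h
      rw [MonoidHom.ker_rangeRestrict] at ha
      exact Subtype.ext (ht a k ha hk (congrArg Subtype.val h))

/-- Finite sets of non-trivial elements of a free group are not killed by a homomorphism to a
poly-(torsion-free abelian) group. -/
theorem free_residually_ptfa_finite (X : Type) (E : Set (FreeGroup X)) (hE : E.Finite)
    (h1 : (1 : FreeGroup X) ∉ E) :
    ∃ (N : Type) (_ : Group N) (g : FreeGroup X →* N), H40C.PTFA N ∧ ∀ e ∈ E, g e ≠ 1 := by
  induction E, hE using Set.Finite.induction_on with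
  | empty =>
    exact ⟨Unit, inferInstance, 1, H40C.PTFA.triv fun _ => rfl, fun e he => absurd he (by simp)⟩
  | insert _ _ ih =>
    rename_i a E _ _
    obtain ⟨N, _, g, hN, hg⟩ := ih fun h => h1 (Set.mem_insert_of_mem _ h)
    obtain ⟨N', _, g', hN', hg'⟩ := free_residually_ptfa X a fun h => h1 (by
      rw [h]
      exact Set.mem_insert _ _)
    refine ⟨N' × N, inferInstance, g'.prod g, ptfa_prod hN' hN, ?_⟩
    intro e he h
    rcases Set.mem_insert_iff.mp he with he | he
    · rw [he] at h
      exact hg' (congrArg Prod.fst h)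
    · exact hg e he (congrArg Prod.snd h)

/-- Free centres. -/
theorem WClass.P_free (C : WClass n M) (hM : ∀ m < n, MM m)
    (hMM : FEC M) (hZ : C.P (Multiplicative ℤ)) (X : Type) : C.P (FreeGroup X) := by
  refine C.P_of_Pfin (C.Pfin_of_residual hM hMM (FEC.free X) fun E hE h1 => ?_)
  obtain ⟨N, _, g, hN, hg⟩ := free_residually_ptfa_finite X E hE h1
  exact ⟨N, inferInstance, g, C.P_ptfa hM hMM hZ hN, hg⟩

/-- **Structure theorem.** -/
theorem WClass.P_all (C : WClass n M) (hM : ∀ m < n, MM m)
    (hMM : FEC M) (hZ : C.P (Multiplicative ℤ)) {L : Type} [Group L] (hL : FEC L) : C.P L := by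
  induction hL with
  | free X => exact C.P_free hM hMM hZ X
  | extension g hg hQ hK ihQ ihK => exact C.P_extension hM hMM g hg hQ ihQ ihK
  | colimit G f g h1 h2 h3 h4 h5 h ih =>
    exact C.P_of_Pfin (C.Pfin_colimit G f g h1 h2 h3 h4 h5 ih)

end Pool.Agent.OR
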