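import Pool.Agent.Lib.MP_98022b_or.SBase

/-!
# Alternating relators over one group
-/

set_option autoImplicit false

namespace Pool.Agent.OR

open Function

/-- Finite towers: `T` is generated by copies `λ h` of `L`, `h ≤ N`, with the relators
`∏ λ_h(a_i) λ_{h+1}(b_i)`, `h < N`. -/
structure IsTower {L G : Type} [Group L] [Group G] (s : List (L × L)) (N : ℕ)
    (lam : ℕ → L →* G) : Prop where
  rel : ∀ h < N, (s.map fun p => lam h p.1 * lam (h + 1) p.2).prod = 1
  ext : ∀ (H : Type) [Group H] (f g : G →* H), (∀ h ≤ N, f.comp (lam h) = g.comp (lam h)) → f = g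
  lift : ∀ (H : Type) [Group H] (φ : ℕ → L →* H),
    (∀ h < N, (s.map fun p => φ h p.1 * φ (h + 1) p.2).prod = 1) →
      ∃ f : G →* H, ∀ h ≤ N, f.comp (lam h) = φ h

theorem GoodS.map_left {A L M : Type} [Group A] [Group L] [Group M] (f : L →* A)
    (hf : Injective f) {s : List (L × M)} (hs : GoodS s) :
    GoodS (s.map fun p => (f p.1, p.2)) := by
  obtain ⟨h1, h2, h3⟩ := hs
  refine ⟨by simpa using h1, ?_, ?_⟩
  · intro p hp
    rw [List.mem_map] at hp
    obtain ⟨q, hq, rfl⟩ := hp
    exact ⟨fun h => (h2 q hq).1 (hf (by rw [map_one]; exact h)), (h2 q hq).2⟩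
  · refine NP.map _ ?_ h3
    intro a _ b _ h
    obtain ⟨h4, h5⟩ := Prod.mk.inj h
    exact Prod.ext (hf h4) h5

/-- The finite towers exist, are in the class, and all floors embed. -/
theorem exists_tower (n : ℕ) (hM : ∀ m < n, MM m) {L : Type} [Group L] (hL : FEC L)
    (s : List (L × L)) (hs : GoodS s) (hl : 2 * s.length ≤ n) (N : ℕ) :
    ∃ (G : Type) (_ : Group G) (lam : ℕ → L →* G), IsTower s N lam ∧ FEC G ∧
      ∀ h ≤ N, Injective (lam h) := by
  induction N with
  | zero =>
    refine ⟨L, inferInstance, fun _ => MonoidHom.id L, ⟨?_, ?_, ?_⟩, hL, ?_⟩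
    · intro h hh
      exact absurd hh (Nat.not_lt_zero h)
    · intro H _ f g h
      exact h 0 le_rfl
    · intro H _ φ _
      refine ⟨φ 0, fun h hh => ?_⟩
      obtain rfl : h = 0 := Nat.le_zero.1 hh
      rfl
    · intro h _
      exact injective_id
  | succ N ih =>
    obtain ⟨G, hG, lam, hT, hF, hinj⟩ := ih
    obtain ⟨G', hG', α, β, h2⟩ := exists_two (s.map fun p => (lam N p.1, p.2))
    obtain ⟨hα, hβ, hF'⟩ := two_theorem n hM hF hL (s.map fun p => (lam N p.1, p.2))
      (hs.map_left (lam N) (hinj N le_rfl)) (by simpa using hl) α β h2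
    refine ⟨G', hG', fun h => if h ≤ N then α.comp (lam h) else β, ⟨?_, ?_, ?_⟩, hF', ?_⟩
    · intro h hh
      rcases (Nat.lt_succ_iff.1 hh).lt_or_eq with h1 | rfl
      · have h3 : h ≤ N := h1.le
        have h4 : h + 1 ≤ N := h1
        simp only [h3, h4, if_true, MonoidHom.comp_apply]
        have h5 := congrArg α (hT.rel h h1)
        rw [map_list_prod, List.map_map, map_one] at h5
        rw [← h5]
        congr 1
        apply List.map_congr_left
        intro p _
        simp
      · have h4 : ¬ h + 1 ≤ h := by omega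
        simp only [h4, le_refl, if_true, if_false, MonoidHom.comp_apply]
        have h5 := h2.rel
        rw [List.map_map] at h5
        exact h5
    · intro H _ f g h
      refine h2.ext H f g ?_ ?_
      · refine hT.ext H _ _ fun k hk => ?_
        have h3 := h k (by omega)
        simp only [hk, if_true] at h3
        exact h3
      · have h3 := h (N + 1) le_rfl
        have h4 : ¬ N + 1 ≤ N := by omega
        simp only [h4, if_false] at h3
        exact h3
    · intro H _ φ hφ
      obtain ⟨f₀, hf₀⟩ := hT.lift H φ fun h hh => hφ h (by omega)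
      obtain ⟨f, hf1, hf2⟩ := h2.lift H f₀ (φ (N + 1)) (by
        rw [List.map_map]
        rw [← hφ N (by omega)]
        congr 1
        apply List.map_congr_left
        intro p _
        have := DFunLike.congr_fun (hf₀ N le_rfl) p.1
        simp only [MonoidHom.comp_apply] at this
        simp only [comp_apply, this])
      refine ⟨f, fun h hh => ?_⟩
      by_cases h3 : h ≤ N
      · simp only [h3, if_true]
        rw [← MonoidHom.comp_assoc, hf1]
        exact hf₀ h h3
      · have h4 : h = N + 1 := by omega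
        simp only [h3, if_false]
        rw [h4]
        exact hf2
    · intro h hh
      by_cases h3 : h ≤ N
      · simp only [h3, if_true]
        exact hα.comp (hinj h h3)
      · simp only [h3, if_false]
        exact hβ

namespace TowerAux

variable {L : Type} [Group L]

/-- The relator between the floors `h` and `h + 1`. -/
def rl (s : List (L × L)) (h : ℤ) : Monoid.CoprodI fun _ : ℤ => L :=
  (s.map fun p => Monoid.CoprodI.of (i := h) p.1 * Monoid.CoprodI.of (i := h + 1) p.2).prod

/-- The infinite tower exists. -/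
theorem exists_int (s : List (L × L)) :
    ∃ (U : Type) (_ : Group U) (lam : ℤ → L →* U),
      (∀ h, (s.map fun p => lam h p.1 * lam (h + 1) p.2).prod = 1) ∧
      (∀ (H : Type) [Group H] (f g : U →* H), (∀ h, f.comp (lam h) = g.comp (lam h)) → f = g) ∧
      ∀ (H : Type) [Group H] (φ : ℤ → L →* H),
        (∀ h, (s.map fun p => φ h p.1 * φ (h + 1) p.2).prod = 1) →
          ∃ f : U →* H, ∀ h, f.comp (lam h) = φ h := by
  set N : Subgroup (Monoid.CoprodI fun _ : ℤ => L) := Subgroup.normalClosure (Set.range (rl s))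
    with hN
  refine ⟨(Monoid.CoprodI fun _ : ℤ => L) ⧸ N, inferInstance,
    fun h => (QuotientGroup.mk' N).comp (Monoid.CoprodI.of (M := fun _ : ℤ => L) (i := h)), ?_, ?_, ?_⟩
  · intro h
    have h1 : QuotientGroup.mk' N (rl s h) = 1 := by
      rw [QuotientGroup.mk'_apply, QuotientGroup.eq_one_iff]
      exact Subgroup.subset_normalClosure ⟨h, rfl⟩
    rw [← h1]
    unfold rl
    rw [map_list_prod, List.map_map]
    congr 1
  · intro H _ f g h
    apply QuotientGroup.monoidHom_ext
    apply Monoid.CoprodI.ext_hom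
    intro i
    exact h i
  · intro H _ φ hφ
    have h1 : N ≤ (Monoid.CoprodI.lift φ : (Monoid.CoprodI fun _ : ℤ => L) →* H).ker := by
      rw [hN]
      apply Subgroup.normalClosure_le_normal
      rintro _ ⟨h, rfl⟩
      rw [SetLike.mem_coe, MonoidHom.mem_ker]
      unfold rl
      rw [map_list_prod, List.map_map, ← hφ h]
      congr 1
    refine ⟨QuotientGroup.lift N (Monoid.CoprodI.lift φ) h1, fun h => ?_⟩
    ext a
    simp

end TowerAux

/-- The infinite tower: copies of `L` indexed by the integers. -/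
theorem exists_tower_int (n : ℕ) (hM : ∀ m < n, MM m) {L : Type} [Group L] (hL : FEC L)
    (s : List (L × L)) (hs : GoodS s) (hl : 2 * s.length ≤ n) :
    ∃ (U : Type) (_ : Group U) (lam : ℤ → L →* U), FEC U ∧ Injective (lam 0) ∧
      (∀ h, (s.map fun p => lam h p.1 * lam (h + 1) p.2).prod = 1) ∧
      ∀ (H : Type) [Group H] (φ : ℤ → L →* H),
        (∀ h, (s.map fun p => φ h p.1 * φ (h + 1) p.2).prod = 1) →
          ∃ f : U →* H, ∀ h, f.comp (lam h) = φ h := by
  obtain ⟨U, hU, lam, hrel, hext, hlift⟩ := TowerAux.exists_int s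
  refine ⟨U, hU, lam, ?_⟩
  have hT := fun N : ℕ => exists_tower n hM hL s hs hl (2 * N)
  choose G hG mu hT hF hinj using hT
  -- the transition maps
  have hf : ∀ i j : ℕ, i ≤ j → ∃ f : G i →* G j,
      ∀ k ≤ 2 * i, f.comp (mu i k) = mu j (k + (j - i)) := by
    intro i j hij
    refine (hT i).lift (G j) (fun k => mu j (k + (j - i))) fun h hh => ?_
    have h1 := (hT j).rel (h + (j - i)) (by omega)
    rw [show h + (j - i) + 1 = h + 1 + (j - i) by omega] at h1
    exact h1
  choose f hf using hf
  -- the canonical maps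
  have hg : ∀ i : ℕ, ∃ g : G i →* U, ∀ k ≤ 2 * i, g.comp (mu i k) = lam ((k : ℤ) - i) := by
    intro i
    refine (hT i).lift U (fun k => lam ((k : ℤ) - i)) fun h _ => ?_
    have h1 := hrel ((h : ℤ) - i)
    rw [show (h : ℤ) - i + 1 = ((h + 1 : ℕ) : ℤ) - i by push_cast; ring] at h1
    exact h1
  choose g hg using hg
  have h1 : ∀ i x, f i i le_rfl x = x := by
    intro i x
    have : f i i le_rfl = MonoidHom.id (G i) := by
      refine (hT i).ext _ _ _ fun k hk => ?_
      rw [hf i i le_rfl k hk, Nat.sub_self, Nat.add_zero]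
      rfl
    rw [this]
    rfl
  have h2 : ∀ i j k (hij : i ≤ j) (hjk : j ≤ k) x,
      f j k hjk (f i j hij x) = f i k (hij.trans hjk) x := by
    intro i j k hij hjk x
    have : (f j k hjk).comp (f i j hij) = f i k (hij.trans hjk) := by
      refine (hT i).ext _ _ _ fun m hm => ?_
      rw [MonoidHom.comp_assoc, hf i j hij m hm, hf j k hjk _ (by omega),
        hf i k (hij.trans hjk) m hm, show m + (j - i) + (k - j) = m + (k - i) by omega]
    rw [← this]
    rfl
  have h3 : ∀ i j (hij : i ≤ j) x, g j (f i j hij x) = g i x := by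
    intro i j hij x
    have : (g j).comp (f i j hij) = g i := by
      refine (hT i).ext _ _ _ fun m hm => ?_
      rw [MonoidHom.comp_assoc, hf i j hij m hm, hg j _ (by omega), hg i m hm]
      congr 1
      push_cast [Nat.cast_sub hij]
      ring
    rw [← this]
    rfl
  have hext' : ∀ (H : Type) [Group H] (a b : U →* H), (∀ i, a.comp (g i) = b.comp (g i)) →
      a = b := by
    intro H _ a b hab
    refine hext H a b fun h => ?_
    have h4 := congrArg (fun c => MonoidHom.comp c (mu h.natAbs (h + h.natAbs).toNat))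
      (hab h.natAbs)
    simp only [MonoidHom.comp_assoc] at h4
    rw [hg h.natAbs (h + h.natAbs).toNat (by omega)] at h4
    have h5 : ((h + h.natAbs).toNat : ℤ) - (h.natAbs : ℤ) = h := by omega
    rwa [h5] at h4
  have hlift' : ∀ (H : Type) [Group H] (k : ∀ i, G i →* H),
      (∀ i j (hij : i ≤ j) x, k j (f i j hij x) = k i x) →
        ∃ a : U →* H, ∀ i, a.comp (g i) = k i := by
    intro H _ k hk
    have hk' : ∀ i j (hij : i ≤ j) m, m ≤ 2 * i →
        (k j).comp (mu j (m + (j - i))) = (k i).comp (mu i m) := by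
      intro i j hij m hm
      rw [← hf i j hij m hm, ← MonoidHom.comp_assoc]
      congr 1
      ext x
      exact hk i j hij x
    -- the values
    have hval : ∀ (h : ℤ) (i : ℕ), h.natAbs ≤ i →
        (k i).comp (mu i (h + i).toNat) = (k h.natAbs).comp (mu h.natAbs (h + h.natAbs).toNat) := by
      intro h i hi
      have h4 := hk' h.natAbs i hi (h + h.natAbs).toNat (by omega)
      rw [← h4]
      congr 2
      omega
    obtain ⟨a, ha⟩ := hlift H
      (fun h => (k h.natAbs).comp (mu h.natAbs (h + h.natAbs).toNat)) (by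
        intro h
        have e1 := hval h (h.natAbs + 1) (by omega)
        have e2 := hval (h + 1) (h.natAbs + 1) (by omega)
        simp only [← e1, ← e2]
        have h4 := congrArg (k (h.natAbs + 1))
          ((hT (h.natAbs + 1)).rel (h + (h.natAbs + 1 : ℕ)).toNat (by omega))
        rw [map_list_prod, List.map_map, map_one,
          show (h + (h.natAbs + 1 : ℕ)).toNat + 1 = (h + 1 + (h.natAbs + 1 : ℕ)).toNat by
            omega] at h4
        rw [← h4]
        congr 1
        apply List.map_congr_left
        intro p _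
        simp)
    refine ⟨a, fun i => (hT i).ext _ _ _ fun m hm => ?_⟩
    rw [MonoidHom.comp_assoc, hg i m hm, ha, ← hval ((m : ℤ) - i) i (by omega)]
    congr 2
    omega
  refine ⟨FEC.of_colim G f g h1 h2 h3 hext' hlift' hF, ?_, hrel, hlift⟩
  obtain ⟨-, h5⟩ := colim_elements G f g h1 h2 h3 hext' hlift'
  rw [injective_iff_map_eq_one]
  intro l hl0
  have h6 : g 0 (mu 0 0 l) = 1 := by
    have := DFunLike.congr_fun (hg 0 0 le_rfl) l
    simp only [MonoidHom.comp_apply, Nat.cast_zero, sub_self] at this
    rw [this]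
    exact hl0
  obtain ⟨j, hj, h7⟩ := h5 0 _ h6
  have h8 := DFunLike.congr_fun (hf 0 j hj 0 (by omega)) l
  simp only [MonoidHom.comp_apply] at h8
  rw [h7] at h8
  exact (injective_iff_map_eq_one _).1 (hinj j _ (by omega)) l h8.symm

/-- **Alternating relators** `∏ a_i x b_i x⁻¹` over `L`. (Wreath product trick with `Q = ℤ`,
`U` the infinite tower, `l ↦ (h ↦ lam h l, 0)`, `x ↦ (1, ±1)`, `π (lam h l) = x^{∓h} l x^{±h}`.) -/
theorem alternating (n : ℕ) (hM : ∀ m < n, MM m) {L G : Type} [Group L] [Group G]
    (hL : FEC L) (s : List (L × L)) (hs : GoodS s) (hl : 2 * s.length ≤ n)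
    (ι : L →* G) (x : G)
    (hG : IsPres (fun _ : Unit => wmap (MonoidHom.id L) (MonoidHom.id L) (sw s)) ι
      (fun _ => x)) : Injective ι ∧ FEC G := by
  obtain ⟨U, hU, lam, hFU, hinj, hrel, hlift⟩ := exists_tower_int n hM hL s hs hl
  -- the value of the relator
  have hev : ∀ (H : Type) [Group H] (φ : L →* H) (z : H),
      ev φ z (wmap (MonoidHom.id L) (MonoidHom.id L) (sw s)) =
        (s.map fun p => φ p.1 * (z * φ p.2 * z⁻¹)).prod := by
    intro H _ φ z
    rw [ev_wmap]
    exact ev_sw φ φ z s
  set Q := Multiplicative ℤ with hQ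
  -- the homomorphism to the wreath product
  let φ : L →* Wr U Q :=
    { toFun := fun l => ⟨fun q => lam (-(Multiplicative.toAdd q)) l, 1⟩
      map_one' := by ext q <;> simp
      map_mul' := by intro a b; ext q <;> simp }
  let X : Wr U Q := ⟨fun _ => 1, Multiplicative.ofAdd 1⟩
  have hprod : ∀ (t : List (L × L)) , (t.map fun p => φ p.1 * (X * φ p.2 * X⁻¹)).prod =
      ⟨fun q => (t.map fun p => lam (-(Multiplicative.toAdd q)) p.1 *
        lam (-(Multiplicative.toAdd q) + 1) p.2).prod, 1⟩ := by
    intro t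
    induction t with
    | nil => rfl
    | cons p t ih =>
      rw [List.map_cons, List.prod_cons, ih]
      ext q
      · simp [φ, X]
        congr 3
        rw [toAdd_mul, toAdd_inv, toAdd_ofAdd]
        ring
      · simp [φ, X]
  obtain ⟨F, hF1, hF2⟩ := hG.lift (Wr U Q) φ (fun _ => X) (by
    intro _
    rw [hev, hprod]
    ext q
    · simp only [hrel]
      rfl
    · rfl)
  have hF2' : F x = X := hF2 ()
  have hF1' : ∀ l, F (ι l) = φ l := fun l => DFunLike.congr_fun hF1 l
  -- the homomorphism back
  have hrel' := hG.rel ()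
  rw [hev] at hrel'
  obtain ⟨π, hπ⟩ := hlift G (fun h => (MulAut.conj (x ^ h)).toMonoidHom.comp ι) (by
    intro h
    have h1 := congrArg (MulAut.conj (x ^ h)) hrel'
    rw [map_list_prod, List.map_map, map_one] at h1
    rw [← h1]
    congr 1
    apply List.map_congr_left
    intro p _
    simp only [comp_apply, MonoidHom.comp_apply, MulEquiv.coe_toMonoidHom, MulAut.conj_apply,
      map_mul]
    rw [zpow_add_one]
    group)
  have hπ' : ∀ h l, π (lam h l) = x ^ h * ι l * (x ^ h)⁻¹ := fun h l =>
    DFunLike.congr_fun (hπ h) l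
  have key : (Wr.map π).comp F = Wr.diag (Wr.proj.comp F)
      (fun q : Q => x ^ (Multiplicative.toAdd q)) := by
    refine hG.ext _ _ _ ?_ ?_
    · ext l q
      · simp only [MonoidHom.comp_apply, Wr.map_c, Wr.diag_c, hF1', Wr.proj_apply]
        change π (lam (-(Multiplicative.toAdd q)) l) = _
        rw [hπ']
        have h1 : ((φ l).g : Q) = 1 := rfl
        rw [h1, one_mul, zpow_neg, inv_inv]
      · simp only [MonoidHom.comp_apply, Wr.map_g, Wr.diag_g, hF1', Wr.proj_apply]
    · intro _
      rw [MonoidHom.comp_apply, hF2']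
      ext q
      · simp only [Wr.map_c, Wr.diag_c, MonoidHom.comp_apply, hF2', Wr.proj_apply]
        change π 1 = (x ^ (Multiplicative.toAdd (Multiplicative.ofAdd (1 : ℤ) * q)))⁻¹ * x *
          x ^ (Multiplicative.toAdd q)
        rw [map_one, toAdd_mul, toAdd_ofAdd, zpow_add, zpow_one]
        group
      · simp only [Wr.map_g, Wr.diag_g, MonoidHom.comp_apply, hF2', Wr.proj_apply]
  refine ⟨?_, FEC.of_wr F π (fun q : Q => x ^ (Multiplicative.toAdd q)) ?_ FEC.int hFU⟩
  · intro a b hab
    apply hinj
    have h1 : (F (ι a)).c 1 = (F (ι b)).c 1 := by rw [hab]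
    rw [hF1', hF1'] at h1
    change lam (-(Multiplicative.toAdd (1 : Q))) a = lam (-(Multiplicative.toAdd (1 : Q))) b at h1
    rwa [toAdd_one, neg_zero] at h1
  · intro g q
    have h1 := congrArg (fun k => (k.c q : G)) (DFunLike.congr_fun key g)
    exact h1

end Pool.Agent.OR
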