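import Pool.Agent.Lib.MP_98022b_or.SClass

/-!
# One-relator products of two groups
-/

set_option autoImplicit false

namespace Pool.Agent.OR

open Function

/-- `G = (A * M)/⟨⟨∏ a_i b_i⟩⟩`. -/
structure IsTwo {A M G : Type} [Group A] [Group M] [Group G] (s : List (A × M)) (α : A →* G)
    (β : M →* G) : Prop where
  rel : (s.map fun p => α p.1 * β p.2).prod = 1
  ext : ∀ (H : Type) [Group H] (f g : G →* H), f.comp α = g.comp α → f.comp β = g.comp β → f = g
  lift : ∀ (H : Type) [Group H] (φ : A →* H) (ψ : M →* H),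
    (s.map fun p => φ p.1 * ψ p.2).prod = 1 → ∃ f : G →* H, f.comp α = φ ∧ f.comp β = ψ

theorem exists_two {A M : Type} [Group A] [Group M] (s : List (A × M)) :
    ∃ (G : Type) (_ : Group G) (α : A →* G) (β : M →* G), IsTwo s α β := by
  obtain ⟨r, hr⟩ : ∃ r : Monoid.Coprod A M, r =
    (s.map fun p => (Monoid.Coprod.inl p.1 : Monoid.Coprod A M) * Monoid.Coprod.inr p.2).prod :=
    ⟨_, rfl⟩
  obtain ⟨N, hNn, hrN, hN⟩ : ∃ N : Subgroup (Monoid.Coprod A M), N.Normal ∧ r ∈ N ∧
      ∀ K : Subgroup (Monoid.Coprod A M), K.Normal → r ∈ K → N ≤ K := by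
    refine ⟨Subgroup.normalClosure {r}, inferInstance, Subgroup.subset_normalClosure rfl, ?_⟩
    intro K hK hr
    apply Subgroup.normalClosure_le_normal
    rintro x hx
    rw [Set.mem_singleton_iff] at hx
    rw [hx]
    exact hr
  refine ⟨Monoid.Coprod A M ⧸ N, inferInstance,
    (QuotientGroup.mk' N).comp Monoid.Coprod.inl, (QuotientGroup.mk' N).comp Monoid.Coprod.inr,
    ?_, ?_, ?_⟩
  · have h1 : (QuotientGroup.mk' N) r = 1 := by
      rw [← MonoidHom.mem_ker, QuotientGroup.ker_mk']
      exact hrN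
    rw [hr, map_list_prod, List.map_map] at h1
    rw [← h1]
    congr 1
  · intro H _ f g h1 h2
    apply QuotientGroup.monoidHom_ext
    apply Monoid.Coprod.hom_ext
    · rw [MonoidHom.comp_assoc, MonoidHom.comp_assoc]; exact h1
    · rw [MonoidHom.comp_assoc, MonoidHom.comp_assoc]; exact h2
  · intro H _ φ ψ h
    have hle : N ≤ (Monoid.Coprod.lift φ ψ).ker := by
      apply hN _ inferInstance
      rw [MonoidHom.mem_ker, hr, map_list_prod, List.map_map, ← h]
      congr 1
    refine ⟨QuotientGroup.lift N (Monoid.Coprod.lift φ ψ) hle, ?_, ?_⟩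
    · ext a
      simp
    · ext a
      simp

/-- From the star group with one leaf to the one-relator product: `G` embeds into the star group by
`a ↦ a`, `m ↦ y m y⁻¹` (retraction `y ↦ 1`). -/
theorem IsTwo.of_star {A M G G' : Type} [Group A] [Group M] [Group G] [Group G']
    {s : List (A × M)} {α : A →* G} {β : M →* G} (h : IsTwo s α β)
    {ι : A →* G'} {μ : Unit → M →* G'} {y : Unit → G'} (h' : IsStar (fun _ => sw s) ι μ y)
    (hc : Concl ι μ) : Injective α ∧ Injective β ∧ FEC G := by
  obtain ⟨hι, hμ, hG⟩ := hc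
  obtain ⟨f, hf1, hf2⟩ := h.lift G' ι ((MulAut.conj (y ())).toMonoidHom.comp (μ ())) (by
    have h1 := h'.rel ()
    rw [ev_sw] at h1
    rw [← h1]
    congr 1)
  obtain ⟨r, hr1, hr2, hr3⟩ := h'.lift G α (fun _ => β) (fun _ => 1) (by
    intro o
    rw [ev_sw]
    refine Eq.trans ?_ h.rel
    congr 1
    apply List.map_congr_left
    intro p _
    rw [one_mul, inv_one, mul_one])
  have hrf : r.comp f = MonoidHom.id G := by
    apply h.ext
    · rw [MonoidHom.comp_assoc, hf1, hr1, MonoidHom.id_comp]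
    · rw [MonoidHom.comp_assoc, hf2, MonoidHom.id_comp]
      ext m
      have h2 := DFunLike.congr_fun (hr2 ()) m
      simp only [MonoidHom.comp_apply] at h2
      simp only [MonoidHom.comp_apply, MulEquiv.toMonoidHom_eq_coe, MonoidHom.coe_coe,
        MulAut.conj_apply, map_mul, map_inv, hr3, h2]
      simp
  have hfi : Injective f := by
    intro a b hab
    have h1 := DFunLike.congr_fun hrf a
    have h2 := DFunLike.congr_fun hrf b
    simp only [MonoidHom.comp_apply, MonoidHom.id_apply] at h1 h2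
    rw [← h1, ← h2, hab]
  refine ⟨?_, ?_, FEC.of_injective f hfi hG⟩
  · have h1 : Injective (f.comp α) := by rw [hf1]; exact hι
    exact Injective.of_comp (f := f) (by simpa using h1)
  · have h1 : Injective (f.comp β) := by
      rw [hf2]
      exact (MulAut.conj (y ())).injective.comp (hμ ())
    exact Injective.of_comp (f := f) (by simpa using h1)

/-- Exchange of the two factors (and a rotation). -/
theorem IsTwo.swap {A M G : Type} [Group A] [Group M] [Group G] {a : A} {b : M}
    {s : List (A × M)} {α : A →* G} {β : M →* G} (h : IsTwo s α β) :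
    ∀ (t : List (M × A)), (∀ (H : Type) [Group H] (φ : A →* H) (ψ : M →* H),
      (s.map fun p => φ p.1 * ψ p.2).prod = 1 ↔ (t.map fun p => ψ p.1 * φ p.2).prod = 1) →
      IsTwo t β α := by
  intro t ht
  refine ⟨(ht G α β).1 h.rel, fun H _ f g h1 h2 => h.ext H f g h2 h1, ?_⟩
  intro H _ φ ψ hrel
  obtain ⟨f, h1, h2⟩ := h.lift H ψ φ ((ht H ψ φ).2 hrel)
  exact ⟨f, h2, h1⟩

/-- The list `(b, a₂), (b₂, a₃), …, (b_m, a)` for the list of pairs `(a₂, b₂), …, (a_m, b_m)`. -/
def sh {A M : Type} (a : A) : M → List (A × M) → List (M × A)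
  | b, [] => [(b, a)]
  | b, p :: r => (b, p.1) :: sh a p.2 r

section sh

variable {A M : Type}

theorem length_sh (a : A) (b : M) (r : List (A × M)) : (sh a b r).length = r.length + 1 := by
  induction r generalizing b with
  | nil => rfl
  | cons p r ih => simp [sh, ih]

theorem ev_sh {H : Type} [Group H] (φ : A → H) (ψ : M → H) (y : H) (a : A) (b : M)
    (r : List (A × M)) :
    ev (Sum.elim ψ φ) y⁻¹ (sw (sh a b r)) =
      ψ b * y⁻¹ * ev (Sum.elim φ ψ) y (sw r) * φ a * y := by
  induction r generalizing b with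
  | nil => simp [sh, mul_assoc]
  | cons p r ih => simp [sh, ih, mul_assoc]

theorem prod_fst_sh [Group A] [Group M] (a : A) (b : M) (r : List (A × M)) :
    ((sh a b r).map Prod.fst).prod = b * (r.map Prod.snd).prod := by
  induction r generalizing b with
  | nil => simp [sh]
  | cons p r ih => simp [sh, ih]

theorem prod_snd_sh [Group A] [Group M] (a : A) (b : M) (r : List (A × M)) :
    ((sh a b r).map Prod.snd).prod = (r.map Prod.fst).prod * a := by
  induction r generalizing b with
  | nil => simp [sh]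
  | cons p r ih => simp [sh, ih, mul_assoc]

/-- Change of all signs. -/
def fl {B : Type} (p : B × Bool) : B × Bool := (p.1, !p.2)

theorem fl_injective {B : Type} : Injective (fl (B := B)) := by
  rintro ⟨a, e⟩ ⟨b, f⟩ h
  simp only [fl, Prod.mk.injEq, Bool.not_inj_iff] at h
  ext <;> simp [h.1, h.2]

theorem wmap_sh {B : Type} (φ : A → B) (ψ : M → B) (a : A) (b : M) (r : List (A × M)) :
    wmap ψ φ (sw (sh a b r)) =
      (((ψ b, false) :: wmap φ ψ (sw r)) ++ [(φ a, true)]).map fl := by
  induction r generalizing b with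
  | nil => simp [sh, wmap, fl]
  | cons p r ih =>
    rw [sh, sw_cons]
    have h1 : wmap ψ φ ((Sum.inl b, true) :: (Sum.inr p.1, false) :: sw (sh a p.2 r)) =
      (ψ b, true) :: (φ p.1, false) :: wmap ψ φ (sw (sh a p.2 r)) := rfl
    have h2 : wmap φ ψ (sw (p :: r)) = (φ p.1, true) :: (ψ p.2, false) :: wmap φ ψ (sw r) := rfl
    rw [h1, h2, ih]
    simp [fl]

theorem Good.fl {B : Type} [Group B] {w : List (B × Bool)} (h : Good w) : Good (w.map fl) := by
  obtain ⟨h1, h2, h3⟩ := h
  refine ⟨by simpa using h1, ?_, NP.map _ (fun a _ b _ h => fl_injective h) h3⟩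
  unfold CR at h2 ⊢
  rw [← List.map_append, List.isChain_map]
  refine List.IsChain.imp ?_ h2
  intro p q hpq hne
  apply hpq
  intro h
  apply hne
  simp [Pool.Agent.OR.fl, h]

end sh

/-- The list of pairs for the factors exchanged. -/
theorem exists_swap {A M : Type} [Group A] [Group M] (s : List (A × M)) (hs : GoodS s) :
    ∃ t : List (M × A), GoodS t ∧ t.length = s.length ∧
      (t.map Prod.fst).prod = (s.map Prod.snd).prod ∧
      ((t.map Prod.snd).prod = 1 ↔ (s.map Prod.fst).prod = 1) ∧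
      ∀ (H : Type) [Group H] (φ : A →* H) (ψ : M →* H) (y : H),
        ev (Sum.elim φ ψ) y (sw s) = 1 ↔ ev (Sum.elim ψ φ) y⁻¹ (sw t) = 1 := by
  obtain ⟨p, r, rfl⟩ : ∃ p r, s = p :: r := by
    cases s with
    | nil => exact absurd rfl hs.1
    | cons p r => exact ⟨p, r, rfl⟩
  obtain ⟨a, b⟩ := p
  refine ⟨sh a b r, ?_, ?_, ?_, ?_, ?_⟩
  · have h1 := hs.good (B := A × M) (MonoidHom.inl A M) (MonoidHom.inr A M)
      (fun x y h => by simpa using h) (fun x y h => by simpa using h)
    have h2 : wmap (MonoidHom.inl A M) (MonoidHom.inr A M) (sw ((a, b) :: r)) =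
        [((MonoidHom.inl A M) a, true)] ++
          (((MonoidHom.inr A M) b, false) ::
            wmap (MonoidHom.inl A M) (MonoidHom.inr A M) (sw r)) := rfl
    rw [h2] at h1
    have h3 := (Good.rotate h1).fl
    rw [← wmap_sh] at h3
    exact GoodS.of_good (MonoidHom.inr A M) (MonoidHom.inl A M) h3
  · rw [length_sh, List.length_cons]
  · rw [prod_fst_sh]
    simp
  · rw [prod_snd_sh, List.map_cons, List.prod_cons]
    rw [mul_eq_one_iff_eq_inv, mul_eq_one_iff_inv_eq, eq_comm]
  · intro H _ φ ψ y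
    rw [ev_sh, sw_cons, ev_cons, ev_cons]
    simp only [Sum.elim_inl, Sum.elim_inr, sg_true, sg_false]
    have e : ψ b * y⁻¹ * ev (Sum.elim φ ψ) y (sw r) * φ a * y =
        (φ a * y)⁻¹ * (φ a * y * (ψ b * y⁻¹ * ev (Sum.elim φ ψ) y (sw r))) * (φ a * y) := by
      group
    rw [e]
    constructor
    · intro h
      rw [h]
      group
    · intro h
      have h1 : φ a * y * (ψ b * y⁻¹ * ev (Sum.elim φ ψ) y (sw r)) =
          (φ a * y) * ((φ a * y)⁻¹ * (φ a * y * (ψ b * y⁻¹ * ev (Sum.elim φ ψ) y (sw r))) *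
            (φ a * y)) * (φ a * y)⁻¹ := by group
      rw [h1, h]
      group

/-- A star group with one leaf, centre and leaf exchanged. -/
theorem IsStar.swap {A M G : Type} [Group A] [Group M] [Group G] {s : List (A × M)}
    {ι : A →* G} {μ : Unit → M →* G} {y : Unit → G} (h : IsStar (fun _ => sw s) ι μ y)
    (t : List (M × A)) (ht : ∀ (H : Type) [Group H] (φ : A →* H) (ψ : M →* H) (y : H),
        ev (Sum.elim φ ψ) y (sw s) = 1 ↔ ev (Sum.elim ψ φ) y⁻¹ (sw t) = 1) :
    IsStar (fun _ : Unit => sw t) (μ ()) (fun _ => ι) (fun _ => (y ())⁻¹) := by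
  refine ⟨fun _ => (ht G ι (μ ()) (y ())).1 (h.rel ()), ?_, ?_⟩
  · intro H _ f g h1 h2 h3
    refine h.ext H f g (h2 ()) (fun _ => h1) (fun _ => ?_)
    have := h3 ()
    simpa using this
  · intro H _ φ ψ z hz
    have h1 := (ht H (ψ ()) φ (z ())⁻¹).2 (by rw [inv_inv]; exact hz ())
    obtain ⟨f, hf1, hf2, hf3⟩ := h.lift H (ψ ()) (fun _ => φ) (fun _ => (z ())⁻¹) (fun _ => h1)
    refine ⟨f, hf2 (), fun _ => hf1, fun _ => ?_⟩
    rw [map_inv, hf3 (), inv_inv]

end Pool.Agent.OR
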