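import Pool.Agent.Lib.MP_98022b_or.Defs

/-!
# Words in one letter: evaluation, positions, rotation, roots
-/

set_option autoImplicit false

namespace Pool.Agent.OR

open Function

section ev

variable {S S' G H : Type} [Group G] [Group H]

@[simp] theorem sg_true (y : G) : sg true y = y := rfl
@[simp] theorem sg_false (y : G) : sg false y = y⁻¹ := rfl
@[simp] theorem sg_one (e : Bool) : sg e (1 : G) = 1 := by cases e <;> simp [sg]
theorem map_sg (f : G →* H) (e : Bool) (y : G) : f (sg e y) = sg e (f y) := by
  cases e <;> simp [sg]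

@[simp] theorem ev_nil (φ : S → G) (y : G) : ev φ y [] = 1 := rfl

@[simp] theorem ev_cons (φ : S → G) (y : G) (p : S × Bool) (w : List (S × Bool)) :
    ev φ y (p :: w) = φ p.1 * sg p.2 y * ev φ y w := by
  simp [ev]

theorem ev_append (φ : S → G) (y : G) (v w : List (S × Bool)) :
    ev φ y (v ++ w) = ev φ y v * ev φ y w := by
  simp [ev]

theorem ev_flatten_replicate (φ : S → G) (y : G) (u : List (S × Bool)) (k : ℕ) :
    ev φ y (List.replicate k u).flatten = (ev φ y u) ^ k := by
  induction k with
  | zero => simp
  | succ k ih => rw [List.replicate_succ, List.flatten_cons, ev_append, ih, pow_succ']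

theorem map_ev (f : G →* H) (φ : S → G) (y : G) (w : List (S × Bool)) :
    f (ev φ y w) = ev (f ∘ φ) (f y) w := by
  induction w with
  | nil => simp
  | cons p w ih => simp [ih, map_sg]

theorem ev_map (φ : S' → G) (y : G) (h : S → S') (w : List (S × Bool)) :
    ev φ y (w.map fun p => (h p.1, p.2)) = ev (φ ∘ h) y w := by
  induction w with
  | nil => simp
  | cons p w ih => simp [ih]

theorem ev_rotate_iff (φ : S → G) (y : G) (v w : List (S × Bool)) :
    ev φ y (v ++ w) = 1 ↔ ev φ y (w ++ v) = 1 := by
  rw [ev_append, ev_append, mul_eq_one_iff_inv_eq, mul_eq_one_iff_eq_inv, eq_comm]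

@[simp] theorem length_lab (φ : S → G) (y : G) (w : List (S × Bool)) :
    (lab φ y w).length = w.length := by
  induction w with
  | nil => rfl
  | cons p w ih => simp [lab, ih]

theorem lab_comp (f : G →* H) (φ : S → G) (y : G) (w : List (S × Bool)) :
    lab (f ∘ φ) (f y) w = (lab φ y w).map f := by
  induction w with
  | nil => rfl
  | cons p w ih =>
    rw [lab, lab, List.map_cons, ih, ← map_ev]
    cases p.2 <;> simp

theorem lab_map (φ : S' → G) (y : G) (h : S → S') (w : List (S × Bool)) :
    lab φ y (w.map fun p => (h p.1, p.2)) = lab (φ ∘ h) y w := by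
  induction w with
  | nil => rfl
  | cons p w ih => rw [List.map_cons, lab, lab, ih, ev_map]

/-- Separation passes to images under injective homomorphisms. -/
theorem Sep.comp_injective (n : ℕ) (f : G →* H) (hf : Injective f) (φ : S → G) (y : G)
    (w : List (S × Bool)) (h : Sep n φ y w) : Sep n (f ∘ φ) (f y) w := by
  rcases h with h | ⟨h, p, hp, q, hq, hpq⟩
  · exact Or.inl h
  · refine Or.inr ⟨h, f p, ?_, f q, ?_, fun h' => hpq (hf h')⟩
    · rw [lab_comp]; exact List.mem_map_of_mem hp
    · rw [lab_comp]; exact List.mem_map_of_mem hq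

/-- If the images of the positions are separated, the positions are. -/
theorem Sep.of_comp (n : ℕ) (f : G →* H) (φ : S → G) (y : G)
    (w : List (S × Bool)) (h : Sep n (f ∘ φ) (f y) w) : Sep n φ y w := by
  rcases h with h | ⟨h, p, hp, q, hq, hpq⟩
  · exact Or.inl h
  · rw [lab_comp] at hp hq
    obtain ⟨p', hp', rfl⟩ := List.mem_map.1 hp
    obtain ⟨q', hq', rfl⟩ := List.mem_map.1 hq
    exact Or.inr ⟨h, p', hp', q', hq', fun h' => hpq (by rw [h'])⟩

theorem Sep.of_lt (n : ℕ) (φ : S → G) (y : G) (w : List (S × Bool)) (h : w.length < n) :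
    Sep n φ y w := Or.inl h

/-- Separation of a word from its image word. -/
theorem sep_map (n : ℕ) (φ : S' → G) (y : G) (h : S → S') (w : List (S × Bool)) :
    Sep n φ y (w.map fun p => (h p.1, p.2)) ↔ Sep n (φ ∘ h) y w := by
  rw [Sep, Sep, lab_map, List.length_map]

end ev

section NP

variable {α β : Type}

private theorem replicate_flatten_append_singleton (a : α) (t : List α) (k : ℕ) :
    (List.replicate k (a :: t)).flatten ++ [a] = a :: (List.replicate k (t ++ [a])).flatten := by
  induction k with
  | zero => simp
  | succ k ih =>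
    rw [List.replicate_succ, List.flatten_cons, List.append_assoc, ih, List.replicate_succ,
      List.flatten_cons]
    simp

private theorem replicate_flatten_rotate_one (u : List α) (k : ℕ) :
    (List.replicate k u).flatten.rotate 1 = (List.replicate k (u.rotate 1)).flatten := by
  cases u with
  | nil => simp
  | cons a t =>
    cases k with
    | zero => simp
    | succ k =>
      rw [List.replicate_succ, List.flatten_cons, List.cons_append, List.rotate_cons_succ,
        List.rotate_zero, List.append_assoc, replicate_flatten_append_singleton,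
        List.rotate_cons_succ, List.rotate_zero, List.replicate_succ, List.flatten_cons]
      simp

private theorem replicate_flatten_rotate (u : List α) (k m : ℕ) :
    (List.replicate k u).flatten.rotate m = (List.replicate k (u.rotate m)).flatten := by
  induction m with
  | zero => simp
  | succ m ih =>
    rw [← List.rotate_rotate, ih, replicate_flatten_rotate_one, List.rotate_rotate]

/-- Rotation of proper powers. -/
theorem NP.rotate {v w : List α} (h : NP (v ++ w)) : NP (w ++ v) := by
  intro u k hk hu
  apply h (u.rotate w.length) k hk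
  rw [← replicate_flatten_rotate, ← hu, List.rotate_append_length_eq]

/-- If the `F`-image of an element of `l` determines the list `F'`, and the concatenation of the
`F'`-images is not a proper power, then the list of the `F`-images is not a proper power. -/
theorem NP.of_flatMap {γ : Type} (l : List α) (F : α → β) (F' : α → List γ)
    (hF : ∀ a ∈ l, ∀ b ∈ l, F a = F b → F' a = F' b) (h : NP (l.flatMap F')) : NP (l.map F) := by
  classical
  let G : β → List γ := fun b => if hb : ∃ a ∈ l, F a = b then F' hb.choose else []
  have hG : ∀ a ∈ l, G (F a) = F' a := by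
    intro a ha
    have hb : ∃ a' ∈ l, F a' = F a := ⟨a, ha, rfl⟩
    simp only [G, dif_pos hb]
    exact hF _ hb.choose_spec.1 a ha hb.choose_spec.2
  intro u k hk hu
  apply h (u.flatMap G) k hk
  have h1 : l.flatMap F' = (l.map F).flatMap G := by
    rw [List.flatMap_map]
    exact List.flatMap_congr fun a ha => (hG a ha).symm
  rw [h1, hu]
  clear hu h1
  induction k with
  | zero => omega
  | succ k ih =>
    rw [List.replicate_succ, List.flatten_cons, List.flatMap_append, List.replicate_succ,
      List.flatten_cons]
    rcases k with _ | k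
    · simp
    · rcases k with _ | k
      · simp
      · rw [ih (by omega)]

theorem NP.of_map (f : α → β) {w : List α} (h : NP (w.map f)) : NP w := by
  intro u k hk hu
  apply h (u.map f) k hk
  rw [hu, List.map_flatten, List.map_replicate]

theorem NP.map (f : α → β) {w : List α} (hf : ∀ a ∈ w, ∀ b ∈ w, f a = f b → a = b) (h : NP w) :
    NP (w.map f) := by
  apply NP.of_flatMap w f (fun a => [a])
  · intro a ha b hb hab
    rw [hf a ha b hb hab]
  · rw [List.flatMap_singleton']
    exact h

private theorem replicate_flatten_mul (u : List α) (k j : ℕ) :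
    (List.replicate k (List.replicate j u).flatten).flatten =
      (List.replicate (k * j) u).flatten := by
  induction k with
  | zero => simp
  | succ k ih =>
    rw [List.replicate_succ, List.flatten_cons, ih, Nat.succ_mul, Nat.add_comm,
      List.replicate_add, List.flatten_append]

/-- Every non-empty list has a root. -/
theorem exists_root (w : List α) (hw : w ≠ []) :
    ∃ (u : List α) (k : ℕ), 1 ≤ k ∧ w = (List.replicate k u).flatten ∧ u ≠ [] ∧ NP u := by
  obtain ⟨n, hn⟩ : ∃ n, w.length = n := ⟨_, rfl⟩
  induction n using Nat.strong_induction_on generalizing w with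
  | _ n ih =>
    by_cases h : NP w
    · exact ⟨w, 1, le_rfl, by simp, hw, h⟩
    · simp only [NP, not_forall, not_not] at h
      obtain ⟨u, k, hk, hu⟩ := h
      have hu0 : u ≠ [] := by
        rintro rfl
        apply hw
        rw [hu]
        simp
      have hlen : w.length = k * u.length := by
        rw [hu]
        simp
      have hpos : 0 < u.length := List.length_pos_iff.2 hu0
      have hlt : u.length < n := by
        rw [← hn, hlen]
        nlinarith
      obtain ⟨u', j, hj, hu', hu0', hNP⟩ := ih u.length hlt u hu0 rfl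
      refine ⟨u', k * j, ?_, ?_, hu0', hNP⟩
      · exact Nat.mul_pos (by omega) (by omega)
      · rw [hu, hu', replicate_flatten_mul]

theorem NP.singleton (a : α) : NP [a] := by
  intro u k hk hu
  have h1 := congrArg List.length hu
  simp only [List.length_singleton, List.length_flatten, List.map_replicate,
    List.sum_replicate, smul_eq_mul] at h1
  have h2 : k ∣ 1 := ⟨_, h1⟩
  have := Nat.le_of_dvd one_pos h2
  omega

/-- A list of two different elements is not a proper power. -/
theorem NP.pair {a b : α} (h : a ≠ b) : NP [a, b] := by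
  intro u k hk hu
  rcases u with _ | ⟨c, t⟩
  · simp at hu
  · obtain ⟨k, rfl⟩ : ∃ j, k = j + 2 := ⟨k - 2, by omega⟩
    rw [List.replicate_succ, List.replicate_succ, List.flatten_cons, List.flatten_cons] at hu
    rcases t with _ | ⟨d, t⟩
    · simp at hu
      exact h (hu.1.trans hu.2.1.symm)
    · simp at hu

end NP

section good

variable {B B' : Type} [Group B] [Group B']

/-- A word is cyclically reduced iff consecutive letters and the pair (last letter, first letter)
are without cancellation. -/
theorem cr_iff (w : List (B × Bool)) :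
    CR w ↔ w.IsChain Adj ∧ ∀ p ∈ w.getLast?, ∀ q ∈ w.head?, Adj p q := by
  rw [CR, List.isChain_append]
  exact ⟨fun h => ⟨h.1, h.2.2⟩, fun h => ⟨h.1, h.1, h.2⟩⟩

theorem CR.rotate {v w : List (B × Bool)} (h : CR (v ++ w)) : CR (w ++ v) := by
  rcases v with _ | ⟨a, v⟩
  · simpa using h
  rcases w with _ | ⟨b, w⟩
  · simpa using h
  rw [cr_iff, List.isChain_append] at h ⊢
  obtain ⟨⟨h1, h2, h3⟩, h4⟩ := h
  refine ⟨⟨h2, h1, ?_⟩, ?_⟩
  · intro p hp q hq
    exact h4 p (by rw [List.getLast?_append_cons]; exact hp) q (by simpa using hq)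
  · intro p hp q hq
    rw [List.getLast?_append_cons] at hp
    exact h3 p hp q (by simpa using hq)

theorem Good.rotate {v w : List (B × Bool)} (h : Good (v ++ w)) : Good (w ++ v) := by
  obtain ⟨h1, h2, h3⟩ := h
  refine ⟨?_, h2.rotate, h3.rotate⟩
  intro h0
  apply h1
  rw [List.append_eq_nil_iff] at h0 ⊢
  exact ⟨h0.2, h0.1⟩

/-- Good words are reflected by homomorphisms. -/
theorem Good.of_map (f : B →* B') {w : List (B × Bool)}
    (h : Good (w.map fun p => (f p.1, p.2))) : Good w := by
  obtain ⟨h1, h2, h3⟩ := h
  refine ⟨?_, ?_, h3.of_map _⟩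
  · rintro rfl
    exact h1 rfl
  · rw [CR, ← List.map_append] at h2
    refine List.isChain_of_isChain_map _ ?_ h2
    intro p q hpq hne hq
    apply hpq hne
    change f q.1 = 1
    rw [hq, map_one]

/-- Good words are preserved by homomorphisms which are injective on the syllables and `1`. -/
theorem Good.map (f : B →* B') {w : List (B × Bool)}
    (h1 : ∀ p ∈ w, f p.1 = 1 → p.1 = 1)
    (hf : ∀ p ∈ w, ∀ q ∈ w, f p.1 = f q.1 → p.1 = q.1) (h : Good w) :
    Good (w.map fun p => (f p.1, p.2)) := by
  obtain ⟨h2, h3, h4⟩ := h
  refine ⟨?_, ?_, ?_⟩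
  · simpa using h2
  · rw [CR, ← List.map_append, List.isChain_map]
    refine List.IsChain.imp_of_mem_imp ?_ h3
    intro p q _ hq hpq hne hq1
    have hq' : q ∈ w := by simpa using hq
    exact hpq hne (h1 q hq' hq1)
  · refine NP.map _ ?_ h4
    rintro ⟨p, e⟩ hp ⟨q, e'⟩ hq hpq
    have h5 := hf _ hp _ hq (congrArg Prod.fst hpq)
    have h6 : e = e' := congrArg Prod.snd hpq
    exact Prod.ext h5 h6

/-- The case `n = 1` of the induction: `G` is `L`. -/
theorem MM_one : MM 1 := by
  intro L G _ _ hL w hw hgood ι x hp
  obtain ⟨⟨b, e⟩, rfl⟩ := List.length_eq_one_iff.1 hw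
  have hsg : ∀ {H : Type} [Group H] (z : H), sg e (sg e z) = z := by
    intro H _ z
    cases e <;> simp [sg]
  have hmap : ∀ {H H' : Type} [Group H] [Group H'] (f : H →* H') (z : H),
      f (sg e z) = sg e (f z) := by
    intro H H' _ _ f z
    cases e <;> simp [sg]
  have hrel : ι b * sg e x = 1 := by
    have := hp.rel ()
    simpa [ev] using this
  obtain ⟨f, hf1, hf2⟩ := hp.lift L (MonoidHom.id L) (fun _ => sg e b⁻¹) (by
    intro l
    simp only [ev, List.map_cons, List.map_nil, List.prod_cons, List.prod_nil, mul_one]
    rw [hsg]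
    simp)
  have hx : x = sg e (ι b)⁻¹ := by
    rw [← hsg x, eq_inv_of_mul_eq_one_right hrel]
  have hι : Injective ι := by
    intro a a' h
    have := congrArg f h
    rwa [← MonoidHom.comp_apply, ← MonoidHom.comp_apply, hf1] at this
  have hcomp : ι.comp f = MonoidHom.id G := by
    apply hp.ext
    · rw [MonoidHom.comp_assoc, hf1]
      rfl
    · intro l
      rw [MonoidHom.comp_apply, hf2 l, hmap, map_inv, ← hx]
      rfl
  have hsurj : Surjective ι := fun y => ⟨f y, DFunLike.congr_fun hcomp y⟩
  refine ⟨hι, ?_⟩
  refine FEC.colimit (ι := Unit) (fun _ => L) (fun _ _ _ => MonoidHom.id L) (fun _ => ι)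
    (fun _ _ => rfl) (fun _ _ _ _ _ _ => rfl) (fun _ _ _ _ => rfl) ?_ ?_ (fun _ => hL)
  · intro y
    obtain ⟨z, hz⟩ := hsurj y
    exact ⟨(), z, hz⟩
  · intro i z hz
    refine ⟨(), le_rfl, ?_⟩
    exact hι (by rw [map_one]; exact hz)

end good

end Pool.Agent.OR
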